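import Pool.Agent.DG2.ADefs
import Pool.Agent.GPH.VStmts2
import Pool.Agent.GPJ.Stmts

set_option autoImplicit false

/-!
# DG2, part C: transfer to the periods, definitions
-/

open scoped BigOperators Topology
open Metric Set

namespace Pool.Agent.DG2

open Pool.Agent.GPH (f0 Cop Dop P2 pol CPath num perMat tpt fus Nm)
open Pool.Agent.HGP (Ix Simil Idx fvec mvec Aof opt)
open Pool.Agent.DGP (val Conv)

noncomputable section

/-- The coefficients as complex numbers. -/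
def cC {m : ℕ} (c : Fin m → ℚ) : Fin m → ℂ := fun i => (c i : ℂ)

/-- The value of `Y (s + X)` at the real number `w`, as a complex matrix. -/
def Yv {m : ℕ} (c : Fin m → ℚ) (s : ℚ) (w : ℝ) : Matrix (Fin m) (Fin m) ℂ :=
  Matrix.of fun i j => ((val (Ys c s (i, j)) w : ℝ) : ℂ)

/-- The coefficients of the numerators, rational version. -/
def NmQ (g : ℕ) (c : Fin (2 * g) → ℚ) : Matrix (Ix g) (Fin (2 * g)) ℚ :=
  Matrix.of fun k l => match k with
    | .inl j => if (l : ℕ) = (j : ℕ) then 1 else 0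
    | .inr j => if (j : ℕ) < (l : ℕ) then
        (((l : ℕ) : ℚ) - ((j : ℕ) : ℚ)) / 4 * (f0 c).coeff ((l : ℕ) + (j : ℕ) + 2) else 0

/-- The same over the complex numbers. -/
def NmC (g : ℕ) (c : Fin (2 * g) → ℚ) : Matrix (Ix g) (Fin (2 * g)) ℂ :=
  (NmQ g c).map (fun x : ℚ => (x : ℂ))

/-- The fibre at `z` is not singular. -/
def Sep {g : ℕ} (c : Fin (2 * g) → ℚ) (z : ℂ) : Prop :=
  (f0 (cC c) + Polynomial.C z).Separable

/-- Reference periods near `s`: the rows are the forms `x ^ l dx / y`, the columns a symplectic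
basis of the integral homology. -/
structure Ref (g : ℕ) (c : Fin (2 * g) → ℚ) (s : ℚ) (R : ℝ)
    (W : ℂ → Matrix (Fin (2 * g)) (Ix g) ℂ) : Prop where
  pos : 0 < R
  sep : ∀ z ∈ ball (s : ℂ) R, Sep c z
  ode : ∃ W' : ℂ → Matrix (Fin (2 * g)) (Ix g) ℂ,
    (∀ z ∈ ball (s : ℂ) R, ∀ i j, HasDerivAt (fun z => W z i j) (W' z i j) z) ∧
    ∀ z ∈ ball (s : ℂ) R, (z • (1 : Matrix (Fin (2 * g)) (Fin (2 * g)) ℂ) +
      (Cop (cC c)).transpose) * W' z = (Dop (cC c)).transpose * W z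
  simil : ∀ z ∈ ball (s : ℂ) R, Simil (2 * Real.pi * Complex.I) (NmC g c * W z)
  det : (NmC g c * W s).toBlocks₁₁.det ≠ 0
  loops : ∀ z ∈ ball (s : ℂ) R, ∀ γ : CPath (fus g (cC c) z), ∃ K : Ix g → ℤ, ∀ k,
    γ.per (num g (fus g (cC c) z) k) = ∑ j, (NmC g c * W z) k j * K j

/-- `P` is a polynomial relation of degree at most `D` with rational coefficients at the point
`(2 π i, M_1, ..., M_r)`, which does not hold on the whole torsor. -/
def IsRelC {r : ℕ} {g : Fin r → ℕ} (D : ℕ) (M : ∀ i, Matrix (Ix (g i)) (Ix (g i)) ℂ)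
    (P : MvPolynomial (Option (Σ i : Fin r, Ix (g i) × Ix (g i))) ℚ) : Prop :=
  P.totalDegree ≤ D ∧
  MvPolynomial.aeval (HGP.tpt (2 * Real.pi * Complex.I) M) P = (0 : ℂ) ∧
  ∃ (lam : ℂ) (M' : ∀ i, Matrix (Ix (g i)) (Ix (g i)) ℂ), lam ≠ 0 ∧ (∀ i, Simil lam (M' i)) ∧
    MvPolynomial.aeval (HGP.tpt lam M') P ≠ (0 : ℂ)

/-- Numerators and denominators are bounded by `n ^ δ`. -/
def Ht (n : ℕ) (δ : ℝ) (ρ : ℚ) : Prop :=
  (ρ.num : ℝ) ≤ (n : ℝ) ^ δ ∧ (ρ.den : ℝ) ≤ (n : ℝ) ^ δ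

end

end Pool.Agent.DG2
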