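import Pool.Agent.GPH.Sealed

set_option autoImplicit false

/-!
# Curves with small perturbations of the constant coefficient: definitions of the statement
-/

namespace Pool.Agent.DG2

noncomputable section

/-- The critical values of a polynomial. -/
def critVals (F : Polynomial ℂ) : Set ℂ :=
  {v | ∃ z, F.derivative.eval z = 0 ∧ F.eval z = v}

/-- The polynomial `x ^ (2 g + 1) + ∑ f_k x ^ k + t`. -/
def crv (g : ℕ) (f : Fin (2 * g + 1) → ℚ) (t : ℚ) : Polynomial ℂ :=
  GPH.pol (2 * g + 1) (fun k => (f k : ℂ)) + Polynomial.C (t : ℂ)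

end

end Pool.Agent.DG2
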