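import Pool.Agent.DG2.AStmts
import Pool.Agent.DG2.CDefs
import Pool.Agent.DG2.Sealed

set_option autoImplicit false

/-!
# DG2, part C: exact statements of the modules
-/

open scoped BigOperators Topology
open Metric Set

namespace Pool.Agent.DG2

open Pool.Agent.GPH (f0 Cop Dop P2 pol CPath num perMat tpt fus Nm)
open Pool.Agent.HGP (Ix Simil Idx fvec mvec Aof opt)
open Pool.Agent.DGP (val Conv)

noncomputable section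

/-- NMQ: the matrix of the numerators. -/
def Stmt_NmQ : Prop := ∀ (g : ℕ) (c : Fin (2 * g) → ℚ),
  (∀ z : ℂ, Nm g (fus g (cC c) z) = NmC g c) ∧ (∀ z : ℂ, fus g (cC c) z =
    f0 (cC c) + Polynomial.C z) ∧
  ∃ B : Matrix (Fin (2 * g)) (Ix g) ℚ, NmQ g c * B = 1 ∧ B * NmQ g c = 1

/-- REFX: existence of reference periods. -/
def Stmt_RefX : Prop := ∀ (g : ℕ) (c : Fin (2 * g) → ℚ) (s : ℚ), 0 < g → Sep c s →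
  ∃ (R : ℝ) (W : ℂ → Matrix (Fin (2 * g)) (Ix g) ℂ), Ref g c s R W

/-- SERJ: the Taylor expansions at `s`. -/
def Stmt_SerJ : Prop := ∀ (g : ℕ) (c : Fin (2 * g) → ℚ) (s : ℚ) (R : ℝ)
  (W : ℂ → Matrix (Fin (2 * g)) (Ix g) ℂ), 0 < g → Ref g c s R W →
  (Tp c).eval s ≠ 0 ∧ ∃ ρ : ℝ, 0 < ρ ∧ ρ ≤ R ∧ ∀ w : ℝ, |w| < ρ →
    (∀ p, Conv (Ys c s p) w) ∧ W ((s : ℂ) + (w : ℂ)) = Yv c s w * W s

/-- ZSM: the matrices `Z` with `M(s + w) = Z M(s)`. -/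
def Stmt_ZSm : Prop := ∀ (g : ℕ) (c : Fin (2 * g) → ℚ) (s : ℚ), 0 < g → Sep c s →
  ∃ ρ : ℝ, 0 < ρ ∧ ∀ w : ℝ, |w| < ρ → ∀ Z : Matrix (Ix g) (Ix g) ℂ,
    Z * NmC g c = NmC g c * Yv c s w → Simil 1 Z ∧ Z.toBlocks₁₁.det ≠ 0

/-- TPC: the singular fibres. -/
def Stmt_TpC : Prop := ∀ (g : ℕ) (c : Fin (2 * g) → ℚ), (∀ s : ℚ, (Tp c).eval s ≠ 0 ↔
  Sep c s) ∧ (P2 c ≠ 0 ↔ P2 (cC c) ≠ 0)

/-- HOMQ: substitution of fractions, rational coefficients. -/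
def Stmt_HomQ : Prop := ∀ (V W : Type) [Fintype V] (q : V → MvPolynomial W ℚ)
  (Δ : MvPolynomial W ℚ) (D : ℕ), ∃ D1 : ℕ, ∀ P : MvPolynomial V ℚ, P.totalDegree ≤ D →
  ∃ P1 : MvPolynomial W ℚ, P1.totalDegree ≤ D1 ∧ ∀ w : W → ℂ,
    MvPolynomial.aeval w Δ ≠ (0 : ℂ) → MvPolynomial.aeval w P1 =
      (MvPolynomial.aeval w Δ) ^ D *
        MvPolynomial.aeval (fun v => MvPolynomial.aeval w (q v) / MvPolynomial.aeval w Δ) P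

/-- INDX: the coordinates of the matrices `Z` satisfy no relation of bounded degree. -/
def Stmt_IndX : Prop := ∀ (K : ℕ) (g : Fin K → ℕ) (c : ∀ k, Fin (2 * g k) → ℚ)
  (s : Fin K → ℚ), (∀ k, 0 < g k) → (∀ k, P2 (c k) ≠ 0) → (∀ k, Sep (c k) (s k)) →
  ∀ E : ℕ, ∃ δ : ℝ, 0 < δ ∧ ∃ n₀ : ℕ, ∀ n : ℕ, n₀ ≤ n → ∀ ρ : Fin K → ℚ,
  (∀ k, 0 < ρ k ∧ Ht n δ (ρ k)) →
  (∀ k l, k ≠ l → ∃ z : ℂ, ¬(Sep (c k) (s k + ρ k * z) ↔ Sep (c l) (s l + ρ l * z))) →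
  ∀ Z : ∀ k, Matrix (Ix (g k)) (Ix (g k)) ℂ,
  (∀ k, Z k * NmC (g k) (c k) = NmC (g k) (c k) * Yv (c k) (s k) ((ρ k : ℝ) / n)) →
  ∀ Q : MvPolynomial (Σ k, Idx (g k)) ℚ, Q ≠ 0 → Q.totalDegree ≤ E →
    MvPolynomial.aeval (fun p => fvec (Z p.1) p.2) Q ≠ (0 : ℂ)

/-- EXCC: a relation between the periods gives a relation between the constants and the
coordinates of the matrices `Z`. -/
def Stmt_ExcC : Prop := ∀ (nF : ℕ) (G : Fin nF → ℕ) (r : ℕ) (φ : Fin r → Fin nF) (D : ℕ),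
  ∃ D' : ℕ, ∀ M0 : ∀ a, Matrix (Ix (G a)) (Ix (G a)) ℂ,
  (∀ a, Simil (2 * Real.pi * Complex.I) (M0 a)) → (∀ a, (M0 a).toBlocks₁₁.det ≠ 0) →
  ∀ Z : ∀ i, Matrix (Ix (G (φ i))) (Ix (G (φ i))) ℂ,
  (∀ i, Simil 1 (Z i)) → (∀ i, (Z i).toBlocks₁₁.det ≠ 0) →
  ∀ P : MvPolynomial (Option (Σ i : Fin r, Ix (G (φ i)) × Ix (G (φ i)))) ℚ,
  IsRelC (g := fun i => G (φ i)) D (fun i => Z i * M0 (φ i)) P →
  ∃ S : MvPolynomial (Option (Σ a, Idx (G a)) ⊕ (Σ i, Idx (G (φ i)))) ℚ,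
    S.totalDegree ≤ D' ∧
    MvPolynomial.aeval (Sum.elim (opt (2 * Real.pi * Complex.I)
      (fun p : Σ a, Idx (G a) => fvec (M0 p.1) p.2))
      (fun p : Σ i, Idx (G (φ i)) => fvec (Z p.1) p.2)) S = (0 : ℂ) ∧
    ∃ y : (Σ i, Idx (G (φ i))) → ℂ, MvPolynomial.aeval (Sum.elim
      (opt (2 * Real.pi * Complex.I) (fun p : Σ a, Idx (G a) => fvec (M0 p.1) p.2)) y) S ≠ 0

/-- ELC: elimination over the complex numbers. -/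
def Stmt_ElC : Prop := ∀ (Θ X : Type) [Fintype Θ] [Fintype X] (D : ℕ), ∃ E : ℕ,
  ∀ (θ : Θ → ℂ) (x : Fin (Fintype.card Θ + 1) → X → ℂ)
  (S : Fin (Fintype.card Θ + 1) → MvPolynomial (Θ ⊕ X) ℚ), (∀ i, (S i).totalDegree ≤ D) →
  (∀ i, MvPolynomial.aeval (Sum.elim θ (x i)) (S i) = (0 : ℂ)) →
  (∀ i, ∃ y : X → ℂ, MvPolynomial.aeval (Sum.elim θ y) (S i) ≠ 0) →
  ∃ Q : MvPolynomial (Fin (Fintype.card Θ + 1) × X) ℚ, Q ≠ 0 ∧ Q.totalDegree ≤ E ∧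
    MvPolynomial.aeval (fun p => x p.1 p.2) Q = (0 : ℂ)

/-- MAINC: the main theorem for rational coefficients and the reference periods. -/
def Stmt_MainC : Prop := ∀ (nF : ℕ) (G : Fin nF → ℕ) (c : ∀ a, Fin (2 * G a) → ℚ)
  (s : Fin nF → ℚ), (∀ a, 0 < G a) → (∀ a, P2 (c a) ≠ 0) → (∀ a, Sep (c a) (s a)) →
  (∀ (a b : Fin nF) (ρ : ℚ), 0 < ρ → (a ≠ b ∨ ρ ≠ 1) →
    ∃ z : ℂ, ¬(Sep (c a) (s a + z) ↔ Sep (c b) (s b + ρ * z))) →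
  ∀ (R : Fin nF → ℝ) (W : ∀ a, ℂ → Matrix (Fin (2 * G a)) (Ix (G a)) ℂ),
  (∀ a, Ref (G a) (c a) (s a) (R a) (W a)) → ∀ (r : ℕ) (φ : Fin r → Fin nF) (D : ℕ),
  ∃ δ : ℝ, 0 < δ ∧ ∃ n₀ : ℕ, ∀ n : ℕ, n₀ ≤ n → ∃ S : Finset ℚ,
    S.card ≤ r * (1 + ∑ a, G a * (2 * G a + 1)) ∧
    ∀ ρ : Fin r → ℚ, (∀ i j, i ≠ j → φ i = φ j → ρ i ≠ ρ j) →
    (∀ i, 0 < ρ i ∧ ρ i ∉ S ∧ Ht n δ (ρ i)) →
    (∀ i, ((s (φ i) : ℂ) + (((ρ i / n : ℚ)) : ℂ)) ∈ ball ((s (φ i) : ℚ) : ℂ) (R (φ i))) ∧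
    ∀ P, ¬ IsRelC (g := fun i => G (φ i)) D (fun i => NmC (G (φ i)) (c (φ i)) *
      W (φ i) ((s (φ i) : ℂ) + (((ρ i / n : ℚ)) : ℂ))) P

/-- NFC: from relations with coefficients in a number field to relations with rational
coefficients. -/
def Stmt_NFC : Prop := ∀ (r : ℕ) (g : Fin r → ℕ) (M : ∀ i, Matrix (Ix (g i)) (Ix (g i)) ℂ)
  (L : IntermediateField ℚ ℂ), FiniteDimensional ℚ L →
  ∀ P : MvPolynomial (Option (Σ i : Fin r, Ix (g i) × Ix (g i))) L,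
  MvPolynomial.aeval (HGP.tpt (2 * Real.pi * Complex.I) M) P = (0 : ℂ) →
  (∃ (lam : ℂ) (M' : ∀ i, Matrix (Ix (g i)) (Ix (g i)) ℂ), lam ≠ 0 ∧ (∀ i, Simil lam (M' i)) ∧
    MvPolynomial.aeval (HGP.tpt lam M') P ≠ (0 : ℂ)) →
  ∃ P' : MvPolynomial (Option (Σ i : Fin r, Ix (g i) × Ix (g i))) ℚ,
    IsRelC (Module.finrank ℚ L * P.totalDegree) M P'

/-- CVP: distinct critical values. -/
def Stmt_CvP : Prop := ∀ (g : ℕ) (f : Fin (2 * g + 1) → ℚ),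
  ((critVals (crv g f 0)).ncard = 2 * g → P2 (fun k : Fin (2 * g) => f k.succ) ≠ 0) ∧
  ∀ z : ℂ, Sep (fun k : Fin (2 * g) => f k.succ) (f 0 + z) ↔ -z ∉ critVals (crv g f 0)

/-- FINC: the final statement. -/
def Stmt_FinC : Prop := ∀ (nF : ℕ) (G : Fin nF → ℕ) (f : ∀ a, Fin (2 * G a + 1) → ℚ),
  (∀ a, 0 < G a) → (∀ a, (0 : ℂ) ∉ critVals (crv (G a) (f a) 0)) →
  (∀ a, (critVals (crv (G a) (f a) 0)).ncard = 2 * G a) →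
  (∀ a b, a ≠ b → ∀ ρ : ℚ, 0 < ρ →
    (fun v => (ρ : ℂ) * v) '' critVals (crv (G a) (f a) 0) ≠ critVals (crv (G b) (f b) 0)) →
  ∀ (r : ℕ) (φ : Fin r → Fin nF) (D : ℕ), ∃ δ : ℝ, 0 < δ ∧ ∃ n₀ : ℕ, ∀ n : ℕ, n₀ ≤ n →
  ∃ S : Finset ℚ, S.card ≤ r * (1 + ∑ a, G a * (2 * G a + 1)) ∧
    ∀ ρ : Fin r → ℚ, (∀ i j, i ≠ j → φ i = φ j → ρ i ≠ ρ j) →
    (∀ i, 0 < ρ i ∧ ρ i ∉ S ∧ ((ρ i).num : ℝ) ≤ (n : ℝ) ^ δ ∧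
      ((ρ i).den : ℝ) ≤ (n : ℝ) ^ δ) →
    ∀ (m : ℕ) (γ : ∀ i, Fin m → CPath (crv (G (φ i)) (f (φ i)) (ρ i / n)))
      (L : IntermediateField ℚ ℂ), FiniteDimensional ℚ L → Module.finrank ℚ L ≤ D →
    ∀ P : MvPolynomial (Option (Σ i : Fin r, Ix (G (φ i)) × Fin m)) L,
      P.totalDegree ≤ D →
      MvPolynomial.aeval (tpt (g := fun i => G (φ i)) (2 * Real.pi * Complex.I)
        (fun i => perMat (G (φ i)) (γ i))) P = (0 : ℂ) →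
      ∀ (mu : ℂ) (h : ∀ i, Matrix (Ix (G (φ i))) (Ix (G (φ i))) ℂ), mu ≠ 0 →
        (∀ i, Simil mu (h i)) →
        MvPolynomial.aeval (tpt (g := fun i => G (φ i)) (mu * (2 * Real.pi * Complex.I))
          (fun i => h i * perMat (G (φ i)) (γ i))) P = (0 : ℂ)

end

end Pool.Agent.DG2
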