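import Pool.Agent.DG2.ADefs

set_option autoImplicit false

/-!
# DG2, part A: arithmetic of the system `(s + A) Y' = E Y`, exact statements of the modules
-/

open Finset

namespace Pool.Agent.DG2

open Pool.Agent.GPH (f0 g0 Cop Dop)
open Pool.Agent.DGP (GSys IsZ hd val Conv tens)

noncomputable section

/-- CDK: the division identities over any field. -/
def Stmt_CDK : Prop := ∀ (K : Type) [Field K] [Algebra ℚ K] (m : ℕ) (c : Fin m → K)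
  (k : Fin m), ∃ u : Polynomial K, u.natDegree ≤ (k : ℕ) + 1 ∧
  Polynomial.X ^ (k : ℕ) * f0 c = u * Polynomial.derivative (f0 c) +
    ∑ l : Fin m, Polynomial.C (Cop c l k) * Polynomial.X ^ (l : ℕ) ∧
  ∑ l : Fin m, Polynomial.C (Dop c l k) * Polynomial.X ^ (l : ℕ) =
    Polynomial.derivative u - Polynomial.C (algebraMap ℚ K (1 / 2)) * Polynomial.X ^ (k : ℕ)

/-- SQR: square roots of power series. -/
def Stmt_Sqr : Prop := ∀ (A : Type) [CommRing A], IsUnit (2 : A) → ∀ γ : PowerSeries A,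
  PowerSeries.constantCoeff γ = 1 → ∃ ρ : PowerSeries A, PowerSeries.constantCoeff ρ = 1 ∧
    ρ ^ 2 * γ = 1

/-- HERM: Hermite interpolation at the universal root of `F`. -/
def Stmt_Herm : Prop := ∀ (R : Type) [CommRing R] (F : Polynomial R), F.Monic →
  IsCoprime F (Polynomial.derivative F) →
  ∃ (A : Type) (_ : CommRing A) (θ : Polynomial R →+* PowerSeries A) (φ : A)
    (γ : PowerSeries A), IsUnit φ ∧ PowerSeries.constantCoeff γ = 1 ∧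
    θ F = PowerSeries.X * PowerSeries.C φ * γ ∧
    (∀ p, θ (Polynomial.derivative p) = PowerSeries.derivativeFun (θ p)) ∧
    (∀ (k : ℕ) (ψ : PowerSeries A), ∃ h : Polynomial R,
      PowerSeries.X ^ k ∣ θ h - ψ) ∧
    (∀ (k : ℕ) (q : Polynomial R), PowerSeries.X ^ k ∣ θ q → F ^ k ∣ q)

/-- LOCS: reduction of the pole order with denominators which divide the least common multiple
of the odd numbers. -/
def Stmt_LocS : Prop := ∀ (R : Type) [CommRing R] (F : Polynomial R), F.Monic →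
  IsCoprime F (Polynomial.derivative F) → IsUnit (2 : R) → ∀ (k : ℕ) (d : ℤ),
  (∀ i : ℕ, i < k → ((2 * i + 1 : ℕ) : ℤ) ∣ d) → ∀ p : Polynomial R,
  ∃ h β : Polynomial R, Polynomial.C (d : R) * p = F ^ k * β + Lam F k h

/-- RED: the matrices `B_k` reduce the pole order. -/
def Stmt_Red : Prop := ∀ (K : Type) [Field K] [Algebra ℚ K] (m : ℕ) (c : Fin m → K) (s : K),
  (s • (1 : Matrix (Fin m) (Fin m) K) + (Cop c).transpose).det ≠ 0 → ∀ (k : ℕ) (i : Fin m),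
  ∃ h : Polynomial K, Polynomial.C ((-1) ^ k * (Nat.centralBinom k : K) / 4 ^ k) *
    Polynomial.X ^ (i : ℕ) = (f0 c + Polynomial.C s) ^ k *
      ∑ l : Fin m, Polynomial.C (Bk c s k i l) * Polynomial.X ^ (l : ℕ) +
      Lam (f0 c + Polynomial.C s) k h

/-- UNQ: uniqueness of the reduction. -/
def Stmt_Unq : Prop := ∀ (K : Type) [Field K] [CharZero K] (F : Polynomial K), F.Monic →
  Odd F.natDegree → IsCoprime F (Polynomial.derivative F) → ∀ (k : ℕ) (β h : Polynomial K),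
  (β.natDegree + 1 < F.natDegree ∨ β = 0) → F ^ k * β + Lam F k h = 0 → β = 0

/-- GSS: a form of the lemma of Gauss. -/
def Stmt_Gss : Prop := ∀ (M : ℕ) (T : Polynomial ℚ), T.Monic →
  (∃ a : ℕ, ∀ l, IsZ ((M : ℚ) ^ a * T.coeff l)) → ∀ (B : Polynomial ℚ) (a b : ℕ),
  (∀ l, IsZ (((M : ℚ) ^ a) * (T ^ b * B).coeff l)) → ∀ p : ℕ, p.Prime → ¬ p ∣ M →
  ∀ l, ¬ p ∣ (B.coeff l).den

/-- TRV: the trivial denominators. -/
def Stmt_Trv : Prop := ∀ (m : ℕ) (c : Fin m → ℚ), ∃ C : ℕ, 1 ≤ C ∧ ∀ (k : ℕ) (i j : Fin m)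
  (l : ℕ), IsZ ((k.factorial : ℚ) * (C : ℚ) ^ k * (Bt c k i j).coeff l)

/-- GOOD: the denominators at the good primes. -/
def Stmt_Good : Prop := ∀ (g : ℕ) (c : Fin (2 * g) → ℚ), ∃ M : ℕ, 1 ≤ M ∧
  ∀ (k : ℕ) (i j : Fin (2 * g)) (l : ℕ) (p : ℕ), p.Prime → ¬ p ∣ M →
    ¬ p ∣ ((((Finset.Icc 1 (2 * k)).lcm id : ℕ) : ℚ) * (Bt c k i j).coeff l).den

/-- BDEN: the denominators of the matrices `Bt`. -/
def Stmt_BDen : Prop := ∀ (g : ℕ) (c : Fin (2 * g) → ℚ), ∃ C : ℕ, 1 ≤ C ∧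
  ∀ (k : ℕ) (i j : Fin (2 * g)) (l : ℕ),
    IsZ ((((Finset.Icc 1 (2 * k)).lcm id : ℕ) : ℚ) * (C : ℚ) ^ k * (Bt c k i j).coeff l)

/-- BSZ: degrees and sizes of the matrices `Bt`. -/
def Stmt_BSz : Prop := ∀ (m : ℕ) (c : Fin m → ℚ), ∃ C : ℕ, ∀ (k : ℕ) (i j : Fin m),
  (Bt c k i j).natDegree ≤ m * k ∧ ∀ l, |(Bt c k i j).coeff l| ≤ (C : ℚ) ^ k

/-- HDY: the derivatives of the fundamental matrix. -/
def Stmt_HdY : Prop := ∀ (m : ℕ) (c : Fin m → ℚ) (s : ℚ), (Tp c).eval s ≠ 0 →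
  ∀ (k : ℕ) (i j : Fin m),
  (((Tp c).comp (Polynomial.X + Polynomial.C s) : Polynomial ℚ) : PowerSeries ℚ) ^ k *
      hd k (Ys c s (i, j)) =
    ∑ l, (((Bt c k i l).comp (Polynomial.X + Polynomial.C s) : Polynomial ℚ) : PowerSeries ℚ) *
      Ys c s (l, j)

/-- TFC: facts on the polynomial `T`. -/
def Stmt_TFc : Prop := ∀ (m : ℕ) (c : Fin m → ℚ), (Tp c).Monic ∧ (Tp c).natDegree = m ∧
  (∀ s : ℚ, (Tp c).eval s = (s • (1 : Matrix (Fin m) (Fin m) ℚ) + Am c).det) ∧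
  ∀ s : ℚ, 1 ≤ kap c s ∧ ∀ l, IsZ ((kap c s : ℚ) *
    ((Tp c).comp (Polynomial.X + Polynomial.C s)).coeff l)

/-- BASJ: the base system. -/
def Stmt_BasJ : Prop := ∀ (g : ℕ) (c : Fin (2 * g) → ℚ) (s : ℚ), (Tp c).eval s ≠ 0 →
  ∃ C : ℕ, ∀ d : ℕ, 1 ≤ d → ∃ (e₀ : ℕ) (c₀ : ℝ),
  GSys (fun p : Fin (2 * g) × Fin (2 * g) => PowerSeries.rescale (d : ℚ) (Ys c s p))
    (Td c s d) (2 * g) e₀ c₀ (C * d ^ (2 * g + 1))

/-- DSMJ: direct sums, together with the constant function. -/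
def Stmt_DSmJ : Prop := ∀ (K : ℕ) (ι : Fin K → Type) [∀ k, Fintype (ι k)]
  (G : ∀ k, ι k → PowerSeries ℚ) (T : Fin K → Polynomial ℚ)
  (τ e₀ : ℕ) (c₀ H : ℝ), 1 ≤ c₀ → 2 ≤ H → (∀ k, GSys (G k) (T k) τ e₀ c₀ H) →
  ∃ (e₀' : ℕ) (c₀' : ℝ),
  GSys (fun o : Option (Σ k, ι k) => o.elim 1 (fun p => G p.1 p.2)) (∏ k, T k)
    (τ * K) e₀' c₀' (H ^ (K + 1))

/-- FULLJ: the full system. -/
def Stmt_FullJ : Prop := ∀ (K : ℕ) (g : Fin K → ℕ) (c : ∀ k, Fin (2 * g k) → ℚ)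
  (s : Fin K → ℚ), (∀ k, (Tp (c k)).eval (s k) ≠ 0) → ∀ E : ℕ, ∃ C e τ : ℕ,
  ∀ (d : Fin K → ℕ) (b : ℕ), 1 ≤ b → (∀ k, 1 ≤ d k ∧ d k ≤ b) → ∃ (e₀ : ℕ) (c₀ : ℝ),
  GSys (tens (fullJ c s d) E) (∏ k, Td (c k) (s k) (d k)) τ e₀ c₀ (C * b ^ e)

end

end Pool.Agent.DG2
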