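import Pool.Agent.DG2.NFC
import Pool.Agent.HGP.TRANS
import Pool.Agent.Lib70.PiTranscendental

set_option autoImplicit false

/-!
# DG2, module EXCC: a relation between the periods gives a relation between the constants and the
coordinates of the matrices `Z`
-/

open scoped BigOperators Topology
open MvPolynomial

namespace Pool.Agent.DG2

open Pool.Agent.HGP (Ix Simil Idx fvec mvec Aof opt)

noncomputable section

namespace EXCC_

open NFC_ (toQ aeval_toQ VV WW)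

/-- Any two similitudes with the same multiplier differ by a symplectic matrix on the left. -/
lemma inv_simil {g : ℕ} {lam : ℂ} (hlam : lam ≠ 0) (A M : Matrix (Ix g) (Ix g) ℂ)
    (hA : Simil lam A) (hM : Simil lam M) : ∃ Z, Simil 1 Z ∧ M = Z * A := by
  have hJ : (Matrix.J (Fin g) ℂ).det ≠ 0 := (Matrix.isUnit_det_J (Fin g) ℂ).ne_zero
  have hdet : IsUnit A.det := by
    rw [isUnit_iff_ne_zero]
    intro h0
    have h1 := congrArg Matrix.det hA
    rw [Matrix.det_mul, Matrix.det_mul, Matrix.det_smul, h0, mul_zero] at h1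
    have h2 : lam ^ Fintype.card (Ix g) ≠ 0 := pow_ne_zero _ hlam
    exact (mul_ne_zero h2 hJ) h1.symm
  have hAi : A * A⁻¹ = 1 := Matrix.mul_nonsing_inv A hdet
  have hAi2 : A⁻¹ * A = 1 := Matrix.nonsing_inv_mul A hdet
  have hAi' : (A⁻¹).transpose * A.transpose = 1 := by
    rw [← Matrix.transpose_mul, hAi, Matrix.transpose_one]
  refine ⟨M * A⁻¹, ?_, ?_⟩
  · unfold Simil
    rw [Matrix.transpose_mul]
    calc (A⁻¹).transpose * M.transpose * Matrix.J (Fin g) ℂ * (M * A⁻¹)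
        = (A⁻¹).transpose * (M.transpose * Matrix.J (Fin g) ℂ * M) * A⁻¹ := by
          simp only [Matrix.mul_assoc]
      _ = (A⁻¹).transpose * (A.transpose * Matrix.J (Fin g) ℂ * A) * A⁻¹ := by rw [hM, hA]
      _ = ((A⁻¹).transpose * A.transpose) * Matrix.J (Fin g) ℂ * (A * A⁻¹) := by
            simp only [Matrix.mul_assoc]
      _ = (1 : ℂ) • Matrix.J (Fin g) ℂ := by
            rw [hAi, hAi', Matrix.one_mul, Matrix.mul_one, one_smul]
  · rw [Matrix.mul_assoc, hAi2, Matrix.mul_one]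

lemma simil_mul {g : ℕ} {lam : ℂ} (Z A : Matrix (Ix g) (Ix g) ℂ) (hZ : Simil 1 Z)
    (hA : Simil lam A) : Simil lam (Z * A) := by
  unfold Simil at *
  rw [Matrix.transpose_mul]
  calc A.transpose * Z.transpose * Matrix.J (Fin g) ℂ * (Z * A)
      = A.transpose * (Z.transpose * Matrix.J (Fin g) ℂ * Z) * A := by
        simp only [Matrix.mul_assoc]
    _ = lam • Matrix.J (Fin g) ℂ := by rw [hZ, one_smul, hA]

/-- `2 π i` is transcendental. -/
lemma tr : Transcendental ℚ (2 * Real.pi * Complex.I : ℂ) := by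
  intro halg
  have hpi := Pool.Agent.Lib70.PiTr.transcendental_pi
  apply hpi
  have hI : IsAlgebraic ℚ Complex.I :=
    ⟨Polynomial.X ^ 2 + 1, by
      intro h
      have := congrArg (Polynomial.eval 0) h
      simp at this, by simp⟩
  have h2 : IsAlgebraic ℚ ((2 * Real.pi * Complex.I) * Complex.I : ℂ) := halg.mul hI
  have h3 : ((2 * Real.pi * Complex.I) * Complex.I : ℂ) = -2 * (Real.pi : ℂ) := by
    have := Complex.I_mul_I
    linear_combination (2 * (Real.pi : ℂ)) * this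
  rw [h3] at h2
  have h4 : IsAlgebraic ℚ ((-2 : ℂ)⁻¹ * (-2 * (Real.pi : ℂ))) := by
    refine IsAlgebraic.mul ?_ h2
    have : ((-2 : ℂ)⁻¹) = algebraMap ℚ ℂ ((-2)⁻¹) := by simp
    rw [this]
    exact isAlgebraic_algebraMap _
  rw [inv_mul_cancel_left₀ (by norm_num)] at h4
  have h5 : ((Real.pi : ℝ) : ℂ) = algebraMap ℝ ℂ Real.pi := rfl
  rw [h5] at h4
  exact (isAlgebraic_algebraMap_iff (algebraMap ℝ ℂ).injective).mp h4

lemma hpi0 : (2 * Real.pi * Complex.I : ℂ) ≠ 0 := by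
  simp [Real.pi_ne_zero]

/-- A nonzero polynomial with rational coefficients does not vanish identically on the hyperplane
where one variable is a given transcendental number. -/
lemma spec {S : Type} (τ : ℂ) (hτ : Transcendental ℚ τ) (Q : MvPolynomial (Option S) ℚ)
    (hQ : Q ≠ 0) : ∃ w : S → ℂ, (aeval (opt τ w) Q : ℂ) ≠ 0 := by
  have h1 : optionEquivRight ℚ S Q ≠ 0 := by
    intro h
    apply hQ
    exact (optionEquivRight ℚ S).injective (by rw [h, map_zero])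
  have hinj : Function.Injective (Polynomial.aeval τ : Polynomial ℚ →ₐ[ℚ] ℂ) :=
    transcendental_iff_injective.mp hτ
  have h2 : MvPolynomial.map ((Polynomial.aeval τ : Polynomial ℚ →ₐ[ℚ] ℂ) : Polynomial ℚ →+* ℂ)
      (optionEquivRight ℚ S Q) ≠ 0 := by
    intro h
    apply h1
    have hinj' : Function.Injective
        ((Polynomial.aeval τ : Polynomial ℚ →ₐ[ℚ] ℂ) : Polynomial ℚ →+* ℂ) := hinj
    exact MvPolynomial.map_injective _ hinj' (by rw [h, map_zero])
  have h3 : ∃ w : S → ℂ, eval w (MvPolynomial.map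
      ((Polynomial.aeval τ : Polynomial ℚ →ₐ[ℚ] ℂ) : Polynomial ℚ →+* ℂ)
      (optionEquivRight ℚ S Q)) ≠ 0 := by
    by_contra h
    push Not at h
    apply h2
    apply MvPolynomial.funext
    intro w
    rw [h w, map_zero]
  obtain ⟨w, hw⟩ := h3
  refine ⟨w, ?_⟩
  have h4 : ∀ P : MvPolynomial (Option S) ℚ, (aeval (opt τ w) P : ℂ) = eval w (MvPolynomial.map
      ((Polynomial.aeval τ : Polynomial ℚ →ₐ[ℚ] ℂ) : Polynomial ℚ →+* ℂ)
      (optionEquivRight ℚ S P)) := by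
    intro P
    induction P using MvPolynomial.induction_on with
    | C a => simp
    | add p q hp hq => simp only [map_add, hp, hq]
    | mul_X p v hp =>
      rw [map_mul, map_mul, map_mul, map_mul, hp]
      congr 1
      cases v with
      | none => simp [opt]
      | some x => simp [opt]
  rw [h4]
  exact hw

lemma ev_lin {σ ι : Type} [Fintype ι] (w : σ → ℂ) (s : ι → σ) (a : ι → ℂ) :
    (aeval w (∑ m, X (s m) * C (a m) : MvPolynomial σ ℂ) : ℂ) = ∑ m, w (s m) * a m := by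
  rw [map_sum]
  refine Finset.sum_congr rfl fun m _ => ?_
  rw [map_mul, aeval_X, aeval_C]
  rfl

/-- Right multiplication of the variables by given matrices. -/
lemma translate {r : ℕ} {g : Fin r → ℕ} (P : MvPolynomial (VV g) ℚ) (τ : ℂ)
    (A : ∀ i, Matrix (Ix (g i)) (Ix (g i)) ℂ) : ∃ P2 : MvPolynomial (VV g) ℂ,
    ∀ Y : ∀ i, Matrix (Ix (g i)) (Ix (g i)) ℂ, (aeval (HGP.tpt 1 Y) P2 : ℂ) =
      aeval (HGP.tpt τ (fun i => Y i * A i)) P := by
  let f : VV g → MvPolynomial (VV g) ℂ := fun v => v.elim (C τ)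
    (fun p => ∑ m, X (some ⟨p.1, (p.2.1, m)⟩) * C (A p.1 m p.2.2))
  refine ⟨bind₁ f (MvPolynomial.map (algebraMap ℚ ℂ) P), fun Y => ?_⟩
  rw [aeval_bind₁]
  have h1 : (fun v => (aeval (HGP.tpt 1 Y) (f v) : ℂ)) =
      HGP.tpt τ (fun i => Y i * A i) := by
    funext v
    match v with
    | none => exact aeval_C _ _
    | some ⟨i, k, l⟩ =>
      refine (ev_lin (HGP.tpt 1 Y) (fun m => (some ⟨i, (k, m)⟩ : VV g)) (fun m => A i m l)).trans ?_
      exact (Matrix.mul_apply (M := Y i) (N := A i) (i := k) (k := l)).symm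
  rw [h1, aeval_def, eval₂_map, aeval_def]
  rfl

section setup

variable {nF : ℕ} {G : Fin nF → ℕ} {r : ℕ} (φ : Fin r → Fin nF)

/-- The variables. -/
abbrev UU (G : Fin nF → ℕ) (φ : Fin r → Fin nF) :=
  Option (Σ a, Idx (G a)) ⊕ (Σ i, Idx (G (φ i)))

/-- The coordinates of the constants. -/
def subU (a : Fin nF) : Option (Idx (G a)) → MvPolynomial (UU G φ) ℚ :=
  fun o => X (Sum.inl (o.map (fun x => ⟨a, x⟩)))

/-- The coordinates of the matrices `Z`. -/
def subX (i : Fin r) : Option (Idx (G (φ i))) → MvPolynomial (UU G φ) ℚ :=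
  fun o => o.elim 1 (fun x => X (Sum.inr ⟨i, x⟩))

lemma ev_subU (a : Fin nF) (c : Option (Σ a, Idx (G a)) → ℂ) (y : (Σ i, Idx (G (φ i))) → ℂ)
    (f : MvPolynomial (Option (Idx (G a))) ℤ) :
    (aeval (Sum.elim c y) (bind₁ (subU φ a) (toQ f)) : ℂ) =
      aeval (opt (c none) (fun x => c (some ⟨a, x⟩))) f := by
  rw [aeval_bind₁, ← aeval_toQ]
  congr 2
  funext o
  cases o with
  | none => simp [subU, opt]
  | some x => simp [subU, opt]

lemma ev_subX (i : Fin r) (c : Option (Σ a, Idx (G a)) → ℂ) (y : (Σ i, Idx (G (φ i))) → ℂ)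
    (f : MvPolynomial (Option (Idx (G (φ i)))) ℤ) :
    (aeval (Sum.elim c y) (bind₁ (subX φ i) (toQ f)) : ℂ) =
      aeval (opt 1 (fun x => y ⟨i, x⟩)) f := by
  rw [aeval_bind₁, ← aeval_toQ]
  congr 2
  funext o
  cases o with
  | none => simp [subX, opt]
  | some x => simp [subX, opt]

variable (Δ : ∀ g, MvPolynomial (Option (Idx g)) ℤ)
    (q : ∀ g, Ix g × Ix g → MvPolynomial (Option (Idx g)) ℤ)

/-- The common denominator. -/
def Dl : MvPolynomial (UU G φ) ℚ := (∏ i, bind₁ (subX φ i) (toQ (Δ (G (φ i))))) *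
  ∏ a, bind₁ (subU φ a) (toQ (Δ (G a)))

/-- The numerators. -/
def nm : VV (fun i => G (φ i)) → MvPolynomial (UU G φ) ℚ := fun v =>
  v.elim (X (Sum.inl none) * Dl φ Δ) (fun p =>
    (∏ j ∈ Finset.univ.erase p.1, bind₁ (subX φ j) (toQ (Δ (G (φ j))))) *
    (∏ a ∈ Finset.univ.erase (φ p.1), bind₁ (subU φ a) (toQ (Δ (G a)))) *
    ∑ m, bind₁ (subX φ p.1) (toQ (q (G (φ p.1)) (p.2.1, m))) *
      bind₁ (subU φ (φ p.1)) (toQ (q (G (φ p.1)) (m, p.2.2))))

lemma key (h : ∀ g, ∀ (w : Idx g → ℂ) (lam : ℂ),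
      MvPolynomial.aeval (opt lam w) (Δ g) = (Aof w).det ∧
      ((Aof w).det ≠ 0 → ∀ p, MvPolynomial.aeval (opt lam w) (q g p) =
        (Aof w).det * mvec w lam p.1 p.2))
    (c : Option (Σ a, Idx (G a)) → ℂ) (y : (Σ i, Idx (G (φ i))) → ℂ)
    (hc : ∀ a, (Aof (fun x => c (some ⟨a, x⟩))).det ≠ 0)
    (hy : ∀ i, (Aof (fun x => y ⟨i, x⟩)).det ≠ 0) :
    (aeval (Sum.elim c y) (Dl φ Δ) : ℂ) ≠ 0 ∧
    (fun v => (aeval (Sum.elim c y) (nm φ Δ q v) : ℂ) / aeval (Sum.elim c y) (Dl φ Δ)) =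
      HGP.tpt (c none) (fun i => mvec (fun x => y ⟨i, x⟩) 1 *
        mvec (fun x => c (some ⟨φ i, x⟩)) (c none)) := by
  have h1 : (aeval (Sum.elim c y) (Dl φ Δ) : ℂ) = (∏ i, (Aof (fun x => y ⟨i, x⟩)).det) *
      ∏ a, (Aof (fun x => c (some ⟨a, x⟩))).det := by
    unfold Dl
    rw [map_mul, map_prod, map_prod]
    congr 1
    · refine Finset.prod_congr rfl fun i _ => ?_
      rw [ev_subX, (h _ _ _).1]
    · refine Finset.prod_congr rfl fun a _ => ?_
      rw [ev_subU, (h _ _ _).1]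
  have h2 : (aeval (Sum.elim c y) (Dl φ Δ) : ℂ) ≠ 0 := by
    rw [h1]
    exact mul_ne_zero (Finset.prod_ne_zero_iff.2 fun i _ => hy i)
      (Finset.prod_ne_zero_iff.2 fun a _ => hc a)
  refine ⟨h2, ?_⟩
  funext v
  rw [div_eq_iff h2]
  match v with
  | none =>
    show aeval (Sum.elim c y) (X (Sum.inl none) * Dl φ Δ) = c none * _
    rw [map_mul, aeval_X]
    rfl
  | some ⟨i, p⟩ =>
    show aeval (Sum.elim c y) ((∏ j ∈ Finset.univ.erase i, bind₁ (subX φ j) (toQ (Δ (G (φ j))))) *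
      (∏ a ∈ Finset.univ.erase (φ i), bind₁ (subU φ a) (toQ (Δ (G a)))) *
      ∑ m, bind₁ (subX φ i) (toQ (q (G (φ i)) (p.1, m))) *
        bind₁ (subU φ (φ i)) (toQ (q (G (φ i)) (m, p.2)))) =
      (mvec (fun x => y ⟨i, x⟩) 1 * mvec (fun x => c (some ⟨φ i, x⟩)) (c none)) p.1 p.2 *
        aeval (Sum.elim c y) (Dl φ Δ)
    rw [map_mul, map_mul, map_prod, map_prod, map_sum, h1,
      ← Finset.mul_prod_erase Finset.univ (fun i => (Aof (fun x => y ⟨i, x⟩)).det)
        (Finset.mem_univ i),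
      ← Finset.mul_prod_erase Finset.univ (fun a => (Aof (fun x => c (some ⟨a, x⟩))).det)
        (Finset.mem_univ (φ i))]
    have e1 : ∏ j ∈ Finset.univ.erase i, (aeval (Sum.elim c y)
        (bind₁ (subX φ j) (toQ (Δ (G (φ j))))) : ℂ) =
        ∏ j ∈ Finset.univ.erase i, (Aof (fun x => y ⟨j, x⟩)).det := by
      refine Finset.prod_congr rfl fun k _ => ?_
      rw [ev_subX, (h _ _ _).1]
    have e2 : ∏ a ∈ Finset.univ.erase (φ i), (aeval (Sum.elim c y)
        (bind₁ (subU φ a) (toQ (Δ (G a)))) : ℂ) =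
        ∏ a ∈ Finset.univ.erase (φ i), (Aof (fun x => c (some ⟨a, x⟩))).det := by
      refine Finset.prod_congr rfl fun k _ => ?_
      rw [ev_subU, (h _ _ _).1]
    have e3 : ∑ m, (aeval (Sum.elim c y) (bind₁ (subX φ i) (toQ (q (G (φ i)) (p.1, m))) *
        bind₁ (subU φ (φ i)) (toQ (q (G (φ i)) (m, p.2)))) : ℂ) =
        (Aof (fun x => y ⟨i, x⟩)).det * (Aof (fun x => c (some ⟨φ i, x⟩))).det *
        (mvec (fun x => y ⟨i, x⟩) 1 * mvec (fun x => c (some ⟨φ i, x⟩)) (c none)) p.1 p.2 := by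
      rw [Matrix.mul_apply, Finset.mul_sum]
      refine Finset.sum_congr rfl fun m _ => ?_
      rw [map_mul, ev_subX, ev_subU, (h _ _ _).2 (hy i), (h _ _ _).2 (hc (φ i))]
      ring
    rw [e1, e2, e3]
    ring

end setup

end EXCC_

open EXCC_ NFC_ in
theorem excc_proof (hH : Stmt_HomQ) : Stmt_ExcC := by
  intro nF G r φ D
  choose Δ q h using fun g => HGP.cellp_proof g
  obtain ⟨D', hD'⟩ := hH (VV (fun i => G (φ i))) (UU G φ) (nm φ Δ q) (Dl φ Δ) D
  refine ⟨D', ?_⟩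
  intro M0 hM0 hM0d Z hZ hZd P hP
  obtain ⟨hPD, hP0, lam', M', hlam', hM', hne'⟩ := hP
  obtain ⟨S, hSD, hS⟩ := hD' P hPD
  refine ⟨S, hSD, ?_, ?_⟩
  · -- vanishing
    have e1 : ∀ a, Aof (fvec (M0 a)) = (M0 a).toBlocks₁₁ ∧
        mvec (fvec (M0 a)) (2 * Real.pi * Complex.I) = M0 a := fun a =>
      HGP.cella_proof _ _ _ hpi0 (hM0 a) (hM0d a)
    have e2 : ∀ i, Aof (fvec (Z i)) = (Z i).toBlocks₁₁ ∧ mvec (fvec (Z i)) 1 = Z i := fun i =>
      HGP.cella_proof _ _ _ one_ne_zero (hZ i) (hZd i)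
    obtain ⟨k1, k2⟩ := key φ Δ q h (opt (2 * Real.pi * Complex.I)
      (fun p : Σ a, Idx (G a) => fvec (M0 p.1) p.2))
      (fun p : Σ i, Idx (G (φ i)) => fvec (Z p.1) p.2)
      (fun a => by
        show (Aof (fvec (M0 a))).det ≠ 0
        rw [(e1 a).1]
        exact hM0d a)
      (fun i => by
        show (Aof (fvec (Z i))).det ≠ 0
        rw [(e2 i).1]
        exact hZd i)
    rw [hS _ k1, k2]
    have e3 : (fun i => mvec (fun x => fvec (Z i) x) 1 *
        mvec (fun x => opt (2 * Real.pi * Complex.I)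
          (fun p : Σ a, Idx (G a) => fvec (M0 p.1) p.2) (some ⟨φ i, x⟩))
        (opt (2 * Real.pi * Complex.I)
          (fun p : Σ a, Idx (G a) => fvec (M0 p.1) p.2) none)) = fun i => Z i * M0 (φ i) := by
      funext i
      show mvec (fvec (Z i)) 1 * mvec (fvec (M0 (φ i))) (2 * Real.pi * Complex.I) = _
      rw [(e2 i).2, (e1 (φ i)).2]
    show _ * (aeval (HGP.tpt (2 * Real.pi * Complex.I) _) P : ℂ) = 0
    rw [e3, hP0, mul_zero]
  · -- a point of the fibre over `2 π i` where `P` does not vanish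
    obtain ⟨M1, hM1, hdet1, hne1⟩ := big_cell P lam' M' hlam' hM' hne'
    obtain ⟨D1, hD1⟩ := hH (VV (fun i => G (φ i))) (WW (fun i => G (φ i)))
      (fun v => toQ (HGP.TRANS_.qt (fun i => Δ (G (φ i))) (fun i => q (G (φ i))) v))
      (toQ (HGP.TRANS_.Dt (fun i => Δ (G (φ i))))) D
    obtain ⟨P1, -, hP1⟩ := hD1 P hPD
    have hT : ∀ w : WW (fun i => G (φ i)) → ℂ,
        (∀ i, (Aof (fun x => w (some ⟨i, x⟩))).det ≠ 0) →
        (aeval w (toQ (HGP.TRANS_.Dt (fun i => Δ (G (φ i))))) : ℂ) ≠ 0 ∧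
        (aeval w P1 : ℂ) = (aeval w (toQ (HGP.TRANS_.Dt (fun i => Δ (G (φ i)))))) ^ D *
          aeval (HGP.tpt (w none) (fun i => mvec (fun x => w (some ⟨i, x⟩)) (w none))) P := by
      intro w hw
      obtain ⟨t1, t2⟩ := HGP.TRANS_.key (fun i => Δ (G (φ i))) (fun i => q (G (φ i)))
        (fun i => h (G (φ i))) w hw
      have t3 : (aeval w (toQ (HGP.TRANS_.Dt (fun i => Δ (G (φ i))))) : ℂ) ≠ 0 := by
        rw [aeval_toQ]
        exact t1
      refine ⟨t3, ?_⟩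
      rw [hP1 w t3]
      simp only [aeval_toQ]
      rw [t2]
    have hQ : P1 * toQ (HGP.TRANS_.Dt (fun i => Δ (G (φ i)))) ≠ 0 := by
      have e2 : ∀ i, Aof (fvec (M1 i)) = (M1 i).toBlocks₁₁ ∧ mvec (fvec (M1 i)) lam' = M1 i :=
        fun i => HGP.cella_proof _ _ _ hlam' (hM1 i) (hdet1 i)
      obtain ⟨t1, t2⟩ := hT (opt lam' (fun p : Σ i, Idx (G (φ i)) => fvec (M1 p.1) p.2))
        (fun i => by
          show (Aof (fvec (M1 i))).det ≠ 0
          rw [(e2 i).1]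
          exact hdet1 i)
      intro h0
      have t3 := congrArg (aeval (opt lam' (fun p : Σ i, Idx (G (φ i)) => fvec (M1 p.1) p.2)) :
        MvPolynomial _ ℚ →ₐ[ℚ] ℂ) h0
      rw [map_mul, map_zero, t2] at t3
      have t4 : (aeval (HGP.tpt lam' (fun i => mvec (fvec (M1 i)) lam')) P : ℂ) ≠ 0 := by
        have e3 : (fun i => mvec (fvec (M1 i)) lam') = M1 := funext fun i => (e2 i).2
        rw [e3]
        exact hne1
      exact mul_ne_zero (mul_ne_zero (pow_ne_zero _ t1) t4) t1 t3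
    obtain ⟨w, hw⟩ := spec (2 * Real.pi * Complex.I) tr _ hQ
    rw [map_mul] at hw
    have hw1 := left_ne_zero_of_mul hw
    have hw2 := right_ne_zero_of_mul hw
    have hw3 : ∀ i, (Aof (fun x => w ⟨i, x⟩)).det ≠ 0 := by
      have t1 : (aeval (opt (2 * Real.pi * Complex.I) w)
          (toQ (HGP.TRANS_.Dt (fun i => Δ (G (φ i))))) : ℂ) =
          ∏ i, (Aof (fun x => w ⟨i, x⟩)).det := by
        rw [aeval_toQ]
        unfold HGP.TRANS_.Dt
        rw [map_prod]
        refine Finset.prod_congr rfl fun i _ => ?_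
        rw [HGP.TRANS_.aeval_emb, (h _ _ _).1]
        rfl
      rw [t1] at hw2
      exact fun i => Finset.prod_ne_zero_iff.1 hw2 i (Finset.mem_univ i)
    have hw4 := (hT (opt (2 * Real.pi * Complex.I) w) hw3).2
    rw [hw4] at hw1
    have hw5 : (aeval (HGP.tpt (g := fun i => G (φ i)) (2 * Real.pi * Complex.I)
      (fun i => mvec (fun x => w ⟨i, x⟩) (2 * Real.pi * Complex.I))) P : ℂ) ≠ 0 :=
      right_ne_zero_of_mul hw1
    choose Z' hZ' hZM using fun i => inv_simil hpi0 (M0 (φ i))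
      (mvec (fun x => w ⟨i, x⟩) (2 * Real.pi * Complex.I)) (hM0 (φ i))
      (HGP.cellb_proof (G (φ i)) _ _ (hw3 i)).1
    -- the translated polynomial
    obtain ⟨P2, hP2⟩ := translate P (2 * Real.pi * Complex.I) (fun i => M0 (φ i))
    have hne2 : (aeval (HGP.tpt (g := fun i => G (φ i)) 1 Z') P2 : ℂ) ≠ 0 := by
      rw [hP2]
      have e3 : (fun i => Z' i * M0 (φ i)) =
        (fun i => mvec (fun x => w ⟨i, x⟩) (2 * Real.pi * Complex.I)) :=
        funext fun i => (hZM i).symm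
      rw [e3]
      exact hw5
    obtain ⟨Z2, hZ2, hZ2d, hne3⟩ := big_cell P2 1 Z' one_ne_zero hZ' hne2
    rw [hP2] at hne3
    have e1 : ∀ a, Aof (fvec (M0 a)) = (M0 a).toBlocks₁₁ ∧
        mvec (fvec (M0 a)) (2 * Real.pi * Complex.I) = M0 a := fun a =>
      HGP.cella_proof _ _ _ hpi0 (hM0 a) (hM0d a)
    have e2 : ∀ i, Aof (fvec (Z2 i)) = (Z2 i).toBlocks₁₁ ∧ mvec (fvec (Z2 i)) 1 = Z2 i :=
      fun i => HGP.cella_proof _ _ _ one_ne_zero (hZ2 i) (hZ2d i)
    obtain ⟨k1, k2⟩ := key φ Δ q h (opt (2 * Real.pi * Complex.I)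
      (fun p : Σ a, Idx (G a) => fvec (M0 p.1) p.2))
      (fun p : Σ i, Idx (G (φ i)) => fvec (Z2 p.1) p.2)
      (fun a => by
        show (Aof (fvec (M0 a))).det ≠ 0
        rw [(e1 a).1]
        exact hM0d a)
      (fun i => by
        show (Aof (fvec (Z2 i))).det ≠ 0
        rw [(e2 i).1]
        exact hZ2d i)
    refine ⟨fun p : Σ i, Idx (G (φ i)) => fvec (Z2 p.1) p.2, ?_⟩
    rw [hS _ k1, k2]
    have e3 : (fun i => mvec (fun x => fvec (Z2 i) x) 1 *
        mvec (fun x => opt (2 * Real.pi * Complex.I)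
          (fun p : Σ a, Idx (G a) => fvec (M0 p.1) p.2) (some ⟨φ i, x⟩))
        (opt (2 * Real.pi * Complex.I)
          (fun p : Σ a, Idx (G a) => fvec (M0 p.1) p.2) none)) = fun i => Z2 i * M0 (φ i) := by
      funext i
      show mvec (fvec (Z2 i)) 1 * mvec (fvec (M0 (φ i))) (2 * Real.pi * Complex.I) = _
      rw [(e2 i).2, (e1 (φ i)).2]
    refine mul_ne_zero (pow_ne_zero _ k1) ?_
    show (aeval (HGP.tpt (2 * Real.pi * Complex.I) _) P : ℂ) ≠ 0
    rw [e3]
    exact hne3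

end

end Pool.Agent.DG2
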