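import Pool.Agent.DG2.INDXA

set_option autoImplicit false

/-!
# DG2, module INDX, polynomials and coordinates
-/

open scoped BigOperators Topology
open Metric Set

namespace Pool.Agent.DG2

open Pool.Agent.GPH (f0 Cop Dop P2 pol CPath num perMat tpt fus Nm)
open Pool.Agent.HGP (Ix Simil Idx fvec mvec Aof opt)
open Pool.Agent.DGP (GSys IsZ hd val Conv tens)

namespace INDX_

variable {K : ℕ} {g : Fin K → ℕ}

/-- The variables: entries of the matrices `Y_k`. -/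
abbrev VY (g : Fin K → ℕ) := Σ k, Fin (2 * g k) × Fin (2 * g k)

/-- The matrix `Y_k` of the point `y`. -/
noncomputable def Ym (y : VY g → ℂ) (k : Fin K) : Matrix (Fin (2 * g k)) (Fin (2 * g k)) ℂ :=
  Matrix.of fun i j => y ⟨k, (i, j)⟩

/-- The generic matrix `Z_k = Nm Y_k B`. -/
noncomputable def Zg (c : ∀ k, Fin (2 * g k) → ℚ) (B : ∀ k, Matrix (Fin (2 * g k)) (Ix (g k)) ℚ)
    (k : Fin K) : Matrix (Ix (g k)) (Ix (g k)) (MvPolynomial (VY g) ℚ) :=
  ((NmQ (g k) (c k)).map MvPolynomial.C :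
      Matrix (Ix (g k)) (Fin (2 * g k)) (MvPolynomial (VY g) ℚ)) *
    (Matrix.of (fun i j => (MvPolynomial.X (⟨k, (i, j)⟩ : VY g) : MvPolynomial (VY g) ℚ)) :
      Matrix (Fin (2 * g k)) (Fin (2 * g k)) (MvPolynomial (VY g) ℚ)) *
    ((B k).map MvPolynomial.C : Matrix (Fin (2 * g k)) (Ix (g k)) (MvPolynomial (VY g) ℚ))

/-- The matrix `Z_k` of the point `y`. -/
noncomputable def Zy (c : ∀ k, Fin (2 * g k) → ℚ) (B : ∀ k, Matrix (Fin (2 * g k)) (Ix (g k)) ℚ)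
    (y : VY g → ℂ) (k : Fin K) : Matrix (Ix (g k)) (Ix (g k)) ℂ :=
  NmC (g k) (c k) * Ym y k * (B k).map (fun x : ℚ => (x : ℂ))

theorem Zg_eval (c : ∀ k, Fin (2 * g k) → ℚ) (B : ∀ k, Matrix (Fin (2 * g k)) (Ix (g k)) ℚ)
    (y : VY g → ℂ) (k : Fin K) :
    (Zg c B k).map (MvPolynomial.aeval y : MvPolynomial (VY g) ℚ →ₐ[ℚ] ℂ) = Zy c B y k := by
  ext i j
  simp only [Zg, Zy, Ym, NmC, Matrix.map_apply, Matrix.mul_apply, Matrix.of_apply, map_sum,
    map_mul, MvPolynomial.aeval_C, MvPolynomial.aeval_X, eq_ratCast]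

/-- The denominator of block `k`. -/
noncomputable def Dl (c : ∀ k, Fin (2 * g k) → ℚ) (B : ∀ k, Matrix (Fin (2 * g k)) (Ix (g k)) ℚ)
    (k : Fin K) : MvPolynomial (VY g) ℚ := (Zg c B k).toBlocks₁₁.det

/-- The numerators of block `k`. -/
noncomputable def nu (c : ∀ k, Fin (2 * g k) → ℚ) (B : ∀ k, Matrix (Fin (2 * g k)) (Ix (g k)) ℚ)
    (k : Fin K) : Idx (g k) → MvPolynomial (VY g) ℚ
  | .inl p => (Zg c B k).toBlocks₁₁ p.1 p.2 * Dl c B k
  | .inr (.inl q) => ((Zg c B k).toBlocks₂₁ * (Zg c B k).toBlocks₁₁.adjugate) q.1.1 q.1.2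
  | .inr (.inr q) => ((Zg c B k).toBlocks₁₁.adjugate * (Zg c B k).toBlocks₁₂) q.1.1 q.1.2

theorem Dl_eval (c : ∀ k, Fin (2 * g k) → ℚ) (B : ∀ k, Matrix (Fin (2 * g k)) (Ix (g k)) ℚ)
    (y : VY g → ℂ) (k : Fin K) :
    MvPolynomial.aeval y (Dl c B k) = (Zy c B y k).toBlocks₁₁.det := by
  unfold Dl
  have h1 : MvPolynomial.aeval y (Zg c B k).toBlocks₁₁.det
      = ((MvPolynomial.aeval y : MvPolynomial (VY g) ℚ →ₐ[ℚ] ℂ).mapMatrix
          (Zg c B k).toBlocks₁₁).det := AlgHom.map_det _ _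
  rw [h1, ← Zg_eval c B y k]
  rfl

theorem adj_eval (c : ∀ k, Fin (2 * g k) → ℚ) (B : ∀ k, Matrix (Fin (2 * g k)) (Ix (g k)) ℚ)
    (y : VY g → ℂ) (k : Fin K) :
    (Zg c B k).toBlocks₁₁.adjugate.map (MvPolynomial.aeval y : MvPolynomial (VY g) ℚ →ₐ[ℚ] ℂ)
      = (Zy c B y k).toBlocks₁₁.adjugate := by
  have h1 := RingHom.map_adjugate
    ((MvPolynomial.aeval y : MvPolynomial (VY g) ℚ →ₐ[ℚ] ℂ) : MvPolynomial (VY g) ℚ →+* ℂ)
    (Zg c B k).toBlocks₁₁
  have h2 : ((MvPolynomial.aeval y : MvPolynomial (VY g) ℚ →ₐ[ℚ] ℂ) :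
      MvPolynomial (VY g) ℚ →+* ℂ).mapMatrix (Zg c B k).toBlocks₁₁
        = (Zy c B y k).toBlocks₁₁ := by
    rw [← Zg_eval c B y k]
    rfl
  rw [h2] at h1
  rw [← h1]
  rfl

theorem nu_eval (c : ∀ k, Fin (2 * g k) → ℚ) (B : ∀ k, Matrix (Fin (2 * g k)) (Ix (g k)) ℚ)
    (y : VY g → ℂ) (k : Fin K) (hdet : (Zy c B y k).toBlocks₁₁.det ≠ 0) (x : Idx (g k)) :
    MvPolynomial.aeval y (nu c B k x) = (Zy c B y k).toBlocks₁₁.det * fvec (Zy c B y k) x := by
  have hent : ∀ i j, MvPolynomial.aeval y (Zg c B k i j) = Zy c B y k i j := by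
    intro i j
    rw [← Zg_eval c B y k]
    rfl
  have hinv : (Zy c B y k).toBlocks₁₁⁻¹
      = ((Zy c B y k).toBlocks₁₁.det)⁻¹ • (Zy c B y k).toBlocks₁₁.adjugate := by
    rw [Matrix.inv_def, Ring.inverse_eq_inv']
  have hadj : ∀ i j, MvPolynomial.aeval y ((Zg c B k).toBlocks₁₁.adjugate i j)
      = (Zy c B y k).toBlocks₁₁.adjugate i j := by
    intro i j
    rw [← adj_eval c B y k]
    rfl
  match x with
  | .inl p =>
    show MvPolynomial.aeval y ((Zg c B k).toBlocks₁₁ p.1 p.2 * Dl c B k) = _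
    rw [map_mul, Dl_eval, mul_comm]
    congr 1
    exact hent _ _
  | .inr (.inl q) =>
    show MvPolynomial.aeval y
      (((Zg c B k).toBlocks₂₁ * (Zg c B k).toBlocks₁₁.adjugate) q.1.1 q.1.2) =
      _ * ((Zy c B y k).toBlocks₂₁ * (Zy c B y k).toBlocks₁₁⁻¹) q.1.1 q.1.2
    rw [hinv, Matrix.mul_smul, Matrix.smul_apply, smul_eq_mul, ← mul_assoc,
      mul_inv_cancel₀ hdet, one_mul, Matrix.mul_apply, Matrix.mul_apply, map_sum]
    apply Finset.sum_congr rfl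
    intro j _
    rw [map_mul, hadj]
    congr 1
    exact hent _ _
  | .inr (.inr q) =>
    show MvPolynomial.aeval y
      (((Zg c B k).toBlocks₁₁.adjugate * (Zg c B k).toBlocks₁₂) q.1.1 q.1.2) =
      _ * ((Zy c B y k).toBlocks₁₁⁻¹ * (Zy c B y k).toBlocks₁₂) q.1.1 q.1.2
    rw [hinv, Matrix.smul_mul, Matrix.smul_apply, smul_eq_mul, ← mul_assoc,
      mul_inv_cancel₀ hdet, one_mul, Matrix.mul_apply, Matrix.mul_apply, map_sum]
    apply Finset.sum_congr rfl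
    intro j _
    rw [map_mul, hadj]
    congr 1
    exact hent _ _

/-- Relations between the coordinates are relations between the entries of the `Y_k`. -/
theorem transfer (hHomQ : Stmt_HomQ) (c : ∀ k, Fin (2 * g k) → ℚ)
    (B : ∀ k, Matrix (Fin (2 * g k)) (Ix (g k)) ℚ) (E : ℕ) : ∃ E1 : ℕ,
    ∀ Q : MvPolynomial (Σ k, Idx (g k)) ℚ, Q.totalDegree ≤ E →
    ∃ Q1 : MvPolynomial (VY g) ℚ, Q1.totalDegree ≤ E1 ∧ ∀ y : VY g → ℂ,
      (∀ k, (Zy c B y k).toBlocks₁₁.det ≠ 0) →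
      MvPolynomial.aeval y Q1 = (∏ k, (Zy c B y k).toBlocks₁₁.det) ^ E *
        MvPolynomial.aeval (fun p : Σ k, Idx (g k) => fvec (Zy c B y p.1) p.2) Q := by
  classical
  obtain ⟨E1, hE1⟩ := hHomQ (Σ k, Idx (g k)) (VY g)
    (fun v => nu c B v.1 v.2 * ∏ l ∈ Finset.univ.erase v.1, Dl c B l) (∏ l, Dl c B l) E
  refine ⟨E1, fun Q hQ => ?_⟩
  obtain ⟨Q1, hQ1, hQ2⟩ := hE1 Q hQ
  refine ⟨Q1, hQ1, fun y hy => ?_⟩
  have h1 : MvPolynomial.aeval y (∏ l, Dl c B l) = ∏ k, (Zy c B y k).toBlocks₁₁.det := by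
    rw [map_prod]
    exact Finset.prod_congr rfl (fun k _ => Dl_eval c B y k)
  have h2 : MvPolynomial.aeval y (∏ l, Dl c B l) ≠ (0 : ℂ) := by
    rw [h1]
    exact Finset.prod_ne_zero_iff.mpr (fun k _ => hy k)
  have h3 := hQ2 y h2
  rw [h3, h1]
  congr 2
  apply congrArg
  funext v
  rw [map_mul, map_prod, nu_eval c B y v.1 (hy v.1)]
  have h4 : ∏ l ∈ Finset.univ.erase v.1, MvPolynomial.aeval y (Dl c B l)
      = ∏ l ∈ Finset.univ.erase v.1, (Zy c B y l).toBlocks₁₁.det :=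
    Finset.prod_congr rfl (fun k _ => Dl_eval c B y k)
  rw [h4]
  have h5 := Finset.mul_prod_erase Finset.univ (fun l => (Zy c B y l).toBlocks₁₁.det)
    (Finset.mem_univ v.1)
  have h6 : ∏ k, (Zy c B y k).toBlocks₁₁.det ≠ 0 := Finset.prod_ne_zero_iff.mpr (fun k _ => hy k)
  rw [div_eq_iff h6, ← h5]
  ring

/-- A nonzero polynomial in the coordinates does not vanish at some point of the big cell. -/
theorem exists_cell (Q : MvPolynomial (Σ k, Idx (g k)) ℚ) (hQ : Q ≠ 0) :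
    ∃ w : (Σ k, Idx (g k)) → ℂ, (∀ k, (Aof (fun x => w ⟨k, x⟩)).det ≠ 0) ∧
      MvPolynomial.aeval w Q ≠ (0 : ℂ) := by
  classical
  let D : Fin K → MvPolynomial (Σ k, Idx (g k)) ℂ := fun k =>
    (Matrix.of fun i j => (MvPolynomial.X (⟨k, .inl (i, j)⟩ : Σ k, Idx (g k)) :
      MvPolynomial (Σ k, Idx (g k)) ℂ)).det
  have hD : ∀ (w : (Σ k, Idx (g k)) → ℂ) k, MvPolynomial.eval w (D k)
      = (Aof (fun x => w ⟨k, x⟩)).det := by
    intro w k
    simp only [D]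
    rw [RingHom.map_det]
    congr 1
    ext i j
    simp [Aof]
  have hD0 : ∀ k, D k ≠ 0 := by
    intro k h0
    have h1 := hD (fun v => match v with
      | ⟨_, .inl (i, j)⟩ => if i = j then 1 else 0
      | ⟨_, .inr _⟩ => 0) k
    rw [h0, map_zero] at h1
    have h2 : Aof (fun x : Idx (g k) => (match (⟨k, x⟩ : Σ k, Idx (g k)) with
      | ⟨_, .inl (i, j)⟩ => if i = j then (1 : ℂ) else 0
      | ⟨_, .inr _⟩ => 0)) = 1 := by
      ext i j
      simp [Aof, Matrix.one_apply]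
    rw [h2, Matrix.det_one] at h1
    exact zero_ne_one h1
  have hQC : MvPolynomial.map (algebraMap ℚ ℂ) Q ≠ 0 := by
    intro h0
    apply hQ
    apply MvPolynomial.map_injective (algebraMap ℚ ℂ) (algebraMap ℚ ℂ).injective
    rw [h0, map_zero]
  have h1 : MvPolynomial.map (algebraMap ℚ ℂ) Q * ∏ k, D k ≠ 0 :=
    mul_ne_zero hQC (Finset.prod_ne_zero_iff.mpr (fun k _ => hD0 k))
  by_contra hcon
  push Not at hcon
  apply h1
  apply MvPolynomial.funext
  intro w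
  rw [map_mul, map_prod, map_zero]
  by_cases hw : ∀ k, (Aof (fun x => w ⟨k, x⟩)).det ≠ 0
  · have h2 := hcon w hw
    rw [MvPolynomial.eval_map, ← MvPolynomial.aeval_def, h2, zero_mul]
  · push Not at hw
    obtain ⟨k, hk⟩ := hw
    rw [Finset.prod_eq_zero (Finset.mem_univ k) (by rw [hD]; exact hk), mul_zero]

/-- Polynomials in holomorphic functions are holomorphic. -/
theorem diff_eval {σ : Type} {U : Set ℂ} (v : ℂ → σ → ℂ)
    (hv : ∀ o, DifferentiableOn ℂ (fun z => v z o) U) (P : MvPolynomial σ ℂ) :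
    DifferentiableOn ℂ (fun z => MvPolynomial.eval (v z) P) U := by
  induction P using MvPolynomial.induction_on with
  | C a => simp
  | add p q hp hq =>
    simp only [map_add]
    exact hp.add hq
  | mul_X p n hp =>
    simp only [map_mul, MvPolynomial.eval_X]
    exact hp.mul (hv n)

/-- Identity theorem: a holomorphic function on a ball around `0` which vanishes at the real
points vanishes. -/
theorem ident (f : ℂ → ℂ) (ρ : ℝ) (hρ : 0 < ρ) (hf : DifferentiableOn ℂ f (ball 0 ρ))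
    (h0 : ∀ x : ℝ, 0 ≤ x → x < ρ → f x = 0) : ∀ z ∈ ball (0 : ℂ) ρ, f z = 0 := by
  have hA : AnalyticOnNhd ℂ f (ball 0 ρ) := hf.analyticOnNhd isOpen_ball
  have h1 : ∃ᶠ z in 𝓝[≠] (0 : ℂ), f z = 0 := by
    rw [frequently_nhdsWithin_iff, Filter.frequently_iff]
    intro U hU
    obtain ⟨ε, hε, hεU⟩ := Metric.mem_nhds_iff.mp hU
    set t : ℝ := min ε ρ / 2 with ht
    have ht0 : 0 < t := by
      have : 0 < min ε ρ := lt_min hε hρ
      linarith
    have ht1 : t < ε := by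
      have : min ε ρ ≤ ε := min_le_left _ _
      linarith
    have ht2 : t < ρ := by
      have : min ε ρ ≤ ρ := min_le_right _ _
      linarith
    refine ⟨(t : ℂ), hεU ?_, h0 t ht0.le ht2, ?_⟩
    · rw [mem_ball_zero_iff, Complex.norm_real, Real.norm_eq_abs, abs_of_pos ht0]
      exact ht1
    · simp only [mem_compl_iff, mem_singleton_iff, Complex.ofReal_eq_zero]
      exact ht0.ne'
  exact hA.eqOn_zero_of_preconnected_of_frequently_eq_zero
    (convex_ball 0 ρ).isPreconnected (mem_ball_self hρ) h1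

end INDX_

end Pool.Agent.DG2
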