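import Pool.Agent.DG2.INDXB

set_option autoImplicit false

/-!
# DG2, module INDX, functional relations
-/

open scoped BigOperators Topology
open Metric Set

namespace Pool.Agent.DG2

open Pool.Agent.GPH (f0 Cop Dop P2 pol CPath num perMat tpt fus Nm)
open Pool.Agent.HGP (Ix Simil Idx fvec mvec Aof opt)
open Pool.Agent.DGP (GSys IsZ hd val Conv tens)
open Pool.Agent.DGP.IndR (val_rescale conv_rescale conv_one conv_prod conv_sum conv_zero)

namespace INDX_

variable {K : ℕ} {g : Fin K → ℕ}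

/-- The values of the full system. -/
noncomputable def fvv (c : ∀ k, Fin (2 * g k) → ℚ) (s : Fin K → ℚ) (d : Fin K → ℕ) (x : ℝ)
    (o : Option (VY g)) : ℝ := o.elim 1 (fun v => val (Ys (c v.1) (s v.1) v.2) (d v.1 * x))

theorem fullJ_val (hVal : DGP.Stmt_Val) (c : ∀ k, Fin (2 * g k) → ℚ) (s : Fin K → ℚ)
    (d : Fin K → ℕ) (x : ℝ) (h : ∀ k p, Conv (Ys (c k) (s k) p) (d k * x))
    (o : Option (VY g)) :
    Conv (fullJ c s d o) x ∧ val (fullJ c s d o) x = fvv c s d x o := by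
  cases o with
  | none => exact conv_one hVal x
  | some v =>
    have h1 : ((d v.1 : ℚ) : ℝ) * x = d v.1 * x := by push_cast; ring
    constructor
    · show Conv (PowerSeries.rescale (d v.1 : ℚ) (Ys (c v.1) (s v.1) v.2)) x
      apply conv_rescale
      rw [h1]
      exact h v.1 v.2
    · show val (PowerSeries.rescale (d v.1 : ℚ) (Ys (c v.1) (s v.1) v.2)) x = _
      rw [val_rescale, h1]
      rfl

theorem tensJ_val (hVal : DGP.Stmt_Val) (c : ∀ k, Fin (2 * g k) → ℚ) (s : Fin K → ℚ)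
    (d : Fin K → ℕ) (x : ℝ) (h : ∀ k p, Conv (Ys (c k) (s k) p) (d k * x)) {E : ℕ}
    (w : Fin E → Option (VY g)) :
    Conv (tens (fullJ c s d) E w) x ∧
      val (tens (fullJ c s d) E w) x = ∏ e, fvv c s d x (w e) := by
  unfold tens
  obtain ⟨h1, h2⟩ := conv_prod hVal x Finset.univ (fun e => fullJ c s d (w e))
    (fun e _ => (fullJ_val hVal c s d x h (w e)).1)
  refine ⟨h1, ?_⟩
  rw [h2]
  exact Finset.prod_congr rfl (fun e _ => (fullJ_val hVal c s d x h (w e)).2)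

theorem relJ_val (hVal : DGP.Stmt_Val) (c : ∀ k, Fin (2 * g k) → ℚ) (s : Fin K → ℚ)
    (d : Fin K → ℕ) (x : ℝ) (h : ∀ k p, Conv (Ys (c k) (s k) p) (d k * x)) {E : ℕ}
    (ρ : (Fin E → Option (VY g)) → Polynomial ℚ)
    (hρ : ∑ w, (ρ w : PowerSeries ℚ) * tens (fullJ c s d) E w = 0) :
    ∑ w, Polynomial.aeval x (ρ w) * ∏ e, fvv c s d x (w e) = 0 := by
  have h1 : ∀ w, Conv ((ρ w : PowerSeries ℚ) * tens (fullJ c s d) E w) x ∧
      val ((ρ w : PowerSeries ℚ) * tens (fullJ c s d) E w) x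
        = Polynomial.aeval x (ρ w) * ∏ e, fvv c s d x (w e) := by
    intro w
    obtain ⟨h2, h3⟩ := (hVal x).2.1 (ρ w)
    obtain ⟨h4, h5⟩ := tensJ_val hVal c s d x h w
    obtain ⟨h6, h7, -, -⟩ := (hVal x).1 _ _ h2 h4
    exact ⟨h6, by rw [h7, h3, h5]⟩
  obtain ⟨h2, h3⟩ := conv_sum hVal x Finset.univ
    (fun w => (ρ w : PowerSeries ℚ) * tens (fullJ c s d) E w) (fun w _ => (h1 w).1)
  rw [hρ, (conv_zero hVal x).2] at h3
  rw [h3]
  exact Finset.sum_congr rfl (fun w _ => (h1 w).2.symm)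

/-- The form `N_k`. -/
noncomputable def Nk (g : ℕ) (c : Fin (2 * g) → ℚ) : Matrix (Fin (2 * g)) (Fin (2 * g)) ℂ :=
  (NmC g c).transpose * Matrix.J (Fin g) ℂ * NmC g c

theorem leg {g : ℕ} {c : Fin (2 * g) → ℚ} {M : Matrix (Fin (2 * g)) (Ix g) ℂ} {lam : ℂ}
    (h : Simil lam (NmC g c * M)) : M.transpose * Nk g c * M = lam • Matrix.J (Fin g) ℂ := by
  unfold Simil at h
  rw [← h, Matrix.transpose_mul]
  simp only [Nk, Matrix.mul_assoc]

theorem card_eq (g : ℕ) : Fintype.card (Ix g) = Fintype.card (Fin (2 * g)) := by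
  simp [Ix, two_mul]

/-- Inverses of period matrices. -/
theorem exists_inv {g : ℕ} {N : Matrix (Fin (2 * g)) (Fin (2 * g)) ℂ}
    {M : Matrix (Fin (2 * g)) (Ix g) ℂ} {lam : ℂ} (hlam : lam ≠ 0)
    (h : M.transpose * N * M = lam • Matrix.J (Fin g) ℂ) :
    ∃ V : Matrix (Ix g) (Fin (2 * g)) ℂ, V * M = 1 ∧ M * V = 1 := by
  have hJJ : Matrix.J (Fin g) ℂ * Matrix.J (Fin g) ℂ = -1 := Matrix.J_squared _ _
  have h1 : (lam⁻¹ • (-(Matrix.J (Fin g) ℂ)) * (M.transpose * N)) * M = 1 := by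
    rw [Matrix.mul_assoc, h, Matrix.smul_mul, Matrix.mul_smul, Matrix.neg_mul, hJJ, neg_neg,
      smul_smul, inv_mul_cancel₀ hlam, one_smul]
  exact ⟨_, h1, (Matrix.mul_eq_one_comm_of_equiv (Fintype.equivOfCardEq (card_eq g))).mp h1⟩

/-- The polynomial of a functional relation. -/
noncomputable def Pfun (V : ∀ k, Matrix (Ix (g k)) (Fin (2 * g k)) ℂ) {E : ℕ}
    (ρ : (Fin E → Option (VY g)) → Polynomial ℚ) :
    MvPolynomial (Option (Σ k, Fin (2 * g k) × Ix (g k))) ℂ :=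
  ∑ w, Polynomial.aeval (MvPolynomial.X none) (ρ w) * ∏ e, (w e).elim 1 (fun v =>
    ∑ j, MvPolynomial.X (some (⟨v.1, (v.2.1, j)⟩ : Σ k, Fin (2 * g k) × Ix (g k))) *
      MvPolynomial.C (V v.1 j v.2.2))

theorem Pfun_eval (V : ∀ k, Matrix (Ix (g k)) (Fin (2 * g k)) ℂ) {E : ℕ}
    (ρ : (Fin E → Option (VY g)) → Polynomial ℚ) (z : ℂ)
    (M : ∀ k, Matrix (Fin (2 * g k)) (Ix (g k)) ℂ) :
    MvPolynomial.eval (opt z (fun q : Σ k, Fin (2 * g k) × Ix (g k) => M q.1 q.2.1 q.2.2))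
      (Pfun V ρ) = ∑ w, Polynomial.aeval z (ρ w) * ∏ e, (w e).elim 1 (fun v : VY g =>
        (M v.1 * V v.1) v.2.1 v.2.2) := by
  unfold Pfun
  rw [map_sum]
  apply Finset.sum_congr rfl
  intro w _
  rw [map_mul, map_prod]
  congr 1
  · have h1 : (MvPolynomial.eval (opt z (fun q : Σ k, Fin (2 * g k) × Ix (g k) =>
        M q.1 q.2.1 q.2.2))) (Polynomial.aeval (MvPolynomial.X none) (ρ w))
        = Polynomial.aeval (MvPolynomial.eval (opt z (fun q : Σ k, Fin (2 * g k) × Ix (g k) =>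
        M q.1 q.2.1 q.2.2)) (MvPolynomial.X none)) (ρ w) := by
      have h2 := Polynomial.hom_eval₂ (ρ w) (algebraMap ℚ (MvPolynomial
        (Option (Σ k, Fin (2 * g k) × Ix (g k))) ℂ)) (MvPolynomial.eval (opt z
        (fun q : Σ k, Fin (2 * g k) × Ix (g k) => M q.1 q.2.1 q.2.2))) (MvPolynomial.X none)
      rw [Polynomial.aeval_def, h2, Polynomial.aeval_def]
      congr 1
      exact Subsingleton.elim _ _
    rw [h1, MvPolynomial.eval_X]
    rfl
  · apply Finset.prod_congr rfl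
    intro e _
    cases hwe : w e with
    | none => simp
    | some v =>
      simp only [Option.elim_some, map_sum, map_mul, MvPolynomial.eval_X, MvPolynomial.eval_C,
        Matrix.mul_apply]
      rfl

theorem funct (hVal : DGP.Stmt_Val) (hFib : GPJ.Stmt_FibJ) (hTpC : Stmt_TpC)
    (c : ∀ k, Fin (2 * g k) → ℚ) (s : Fin K → ℚ) (hg : ∀ k, 0 < g k) (hP2 : ∀ k, P2 (c k) ≠ 0)
    (R : Fin K → ℝ) (W : ∀ k, ℂ → Matrix (Fin (2 * g k)) (Ix (g k)) ℂ)
    (hRef : ∀ k, Ref (g k) (c k) (s k) (R k) (W k)) (ρ₀ : ℝ) (hρ₀ : 0 < ρ₀)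
    (hR : ∀ k, ρ₀ ≤ R k)
    (hser : ∀ k, ∀ w : ℝ, |w| < ρ₀ → (∀ p, Conv (Ys (c k) (s k) p) w) ∧
      W k ((s k : ℂ) + (w : ℂ)) = Yv (c k) (s k) w * W k (s k))
    (d : Fin K → ℕ) (hd : ∀ k, 1 ≤ d k)
    (hdist : ∀ k l, k ≠ l → ∃ z : ℂ, ¬(Sep (c k) (s k + d k * z) ↔ Sep (c l) (s l + d l * z)))
    {E : ℕ} (ρ : (Fin E → Option (VY g)) → Polynomial ℚ)
    (hρ : ∑ w, (ρ w : PowerSeries ℚ) * tens (fullJ c s d) E w = 0) (z : ℂ)
    (Y : ∀ k, Matrix (Fin (2 * g k)) (Fin (2 * g k)) ℂ)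
    (hY : ∀ k, (Y k).transpose * Nk (g k) (c k) * Y k = Nk (g k) (c k)) :
    ∑ w, Polynomial.aeval z (ρ w) * ∏ e, (w e).elim 1
      (fun v : VY g => Y v.1 v.2.1 v.2.2) = 0 := by
  have hlam : (2 * Real.pi * Complex.I : ℂ) ≠ 0 := by
    simp [Real.pi_ne_zero, Complex.I_ne_zero]
  have hcen : ∀ k, ((s k : ℚ) : ℂ) ∈ ball ((s k : ℚ) : ℂ) (R k) := fun k =>
    mem_ball_self (hRef k).pos
  have hWN : ∀ k, ∀ z ∈ ball ((s k : ℚ) : ℂ) (R k), (W k z).transpose * Nk (g k) (c k) * W k z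
      = (2 * Real.pi * Complex.I : ℂ) • Matrix.J (Fin (g k)) ℂ := fun k z hz =>
    leg ((hRef k).simil z hz)
  choose V hVW hWV using fun k => exists_inv hlam (hWN k _ (hcen k))
  -- the radius
  have hS : (0 : ℝ) ≤ ∑ k, (d k : ℝ) := Finset.sum_nonneg (fun k _ => by positivity)
  set ρ' : ℝ := ρ₀ / (1 + ∑ k, (d k : ℝ)) with hρ'
  have hρ'0 : 0 < ρ' := by positivity
  have hdz : ∀ k, ∀ x : ℝ, 0 ≤ x → x < ρ' → (d k : ℝ) * x < ρ₀ := by
    intro k x hx0 hx
    have h1 : (d k : ℝ) ≤ ∑ k, (d k : ℝ) :=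
      Finset.single_le_sum (f := fun k => (d k : ℝ)) (fun l _ => by positivity)
        (Finset.mem_univ k)
    rw [hρ', lt_div_iff₀ (by positivity)] at hx
    nlinarith
  have hball : ∀ k, ∀ z ∈ ball (0 : ℂ) ρ', ((s k : ℚ) : ℂ) + (d k : ℂ) * z ∈
      ball ((s k : ℚ) : ℂ) (R k) := by
    intro k z hz
    rw [mem_ball_zero_iff] at hz
    rw [mem_ball, dist_eq_norm, add_sub_cancel_left, norm_mul, Complex.norm_natCast]
    exact lt_of_lt_of_le (hdz k ‖z‖ (norm_nonneg _) hz) (hR k)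
  choose W' hW'1 hW'2 using fun k => (hRef k).ode
  have key := hFib (Fin K) g (fun k => cC (c k)) (fun k => ((s k : ℚ) : ℂ))
    (fun k => ((d k : ℕ) : ℂ)) hg (fun k => (hTpC (g k) (c k)).2.mp (hP2 k))
    (fun k => by
      have := hd k
      exact_mod_cast (by omega : d k ≠ 0)) hdist
    (fun k => Nk (g k) (c k)) _ hlam 0 ρ' hρ'0
    (fun k z hz => (hRef k).sep _ (hball k z hz))
    (fun k z => W k (((s k : ℚ) : ℂ) + (d k : ℂ) * z))
    (fun k z => (d k : ℂ) • W' k (((s k : ℚ) : ℂ) + (d k : ℂ) * z))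
    (by
      intro k z hz i j
      have h1 := hW'1 k _ (hball k z hz) i j
      have h2 : HasDerivAt (fun z : ℂ => ((s k : ℚ) : ℂ) + (d k : ℂ) * z) (d k : ℂ) z := by
        simpa using ((hasDerivAt_id z).const_mul (d k : ℂ)).const_add ((s k : ℚ) : ℂ)
      have h3 := HasDerivAt.comp z h1 h2
      have h4 : ((d k : ℂ) • W' k (((s k : ℚ) : ℂ) + (d k : ℂ) * z)) i j
          = W' k (((s k : ℚ) : ℂ) + (d k : ℂ) * z) i j * (d k : ℂ) := by
        rw [Matrix.smul_apply, smul_eq_mul, mul_comm]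
      rw [h4]
      exact h3)
    (by
      intro k z hz
      rw [Matrix.mul_smul, hW'2 k _ (hball k z hz)])
    (fun k z hz => hWN k _ (hball k z hz))
    (Pfun V ρ) (by
      apply ident _ ρ' hρ'0
      · apply diff_eval
        intro o
        cases o with
        | none => exact differentiableOn_id
        | some q =>
          intro z hz
          have h1 := hW'1 q.1 _ (hball q.1 z hz) q.2.1 q.2.2
          have h2 : HasDerivAt (fun z : ℂ => ((s q.1 : ℚ) : ℂ) + (d q.1 : ℂ) * z)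
              (d q.1 : ℂ) z := by
            simpa using ((hasDerivAt_id z).const_mul (d q.1 : ℂ)).const_add ((s q.1 : ℚ) : ℂ)
          exact (HasDerivAt.comp z h1 h2).differentiableAt.differentiableWithinAt
      · intro x hx0 hx
        refine (Pfun_eval V ρ (x : ℂ)
          (fun k => W k (((s k : ℚ) : ℂ) + (d k : ℂ) * (x : ℂ)))).trans ?_
        have hconv : ∀ k p, Conv (Ys (c k) (s k) p) (d k * x) := by
          intro k p
          apply (hser k (d k * x) ?_).1 p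
          rw [abs_of_nonneg (by positivity)]
          exact hdz k x hx0 hx
        have h1 := relJ_val hVal c s d x hconv ρ hρ
        have h2 : ((∑ w, Polynomial.aeval x (ρ w) * ∏ e, fvv c s d x (w e) : ℝ) : ℂ) = 0 := by
          rw [h1]
          simp
        rw [← h2]
        push_cast
        apply Finset.sum_congr rfl
        intro w _
        congr 1
        · have h3 := Polynomial.aeval_algebraMap_apply (A := ℝ) ℂ x (ρ w)
          simpa using h3
        · apply Finset.prod_congr rfl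
          intro e _
          cases hwe : w e with
          | none => simp [fvv]
          | some v =>
            have h3 := (hser v.1 (d v.1 * x) (by
              rw [abs_of_nonneg (by positivity)]
              exact hdz v.1 x hx0 hx)).2
            have h4 : ((s v.1 : ℚ) : ℂ) + (d v.1 : ℂ) * (x : ℂ)
                = ((s v.1 : ℚ) : ℂ) + (((d v.1 : ℝ) * x : ℝ) : ℂ) := by
              push_cast
              ring
            simp only [Option.elim_some]
            rw [h4, h3, Matrix.mul_assoc, hWV, Matrix.mul_one]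
            rfl)
    z (fun k => Y k * W k ((s k : ℚ) : ℂ)) (by
      intro k
      rw [Matrix.transpose_mul, Matrix.mul_assoc, Matrix.mul_assoc,
        ← Matrix.mul_assoc (Nk (g k) (c k)), ← Matrix.mul_assoc (Y k).transpose,
        ← Matrix.mul_assoc (Y k).transpose, hY k, ← Matrix.mul_assoc]
      exact hWN k _ (hcen k))
  have key2 := (Pfun_eval V ρ z (fun k => Y k * W k ((s k : ℚ) : ℂ))).symm.trans key
  rw [← key2]
  apply Finset.sum_congr rfl
  intro w _
  congr 1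
  apply Finset.prod_congr rfl
  intro e _
  cases w e with
  | none => rfl
  | some v =>
    simp only [Option.elim_some]
    rw [Matrix.mul_assoc, hWV, Matrix.mul_one]

end INDX_

end Pool.Agent.DG2
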