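import Pool.Agent.DG2.INDXA
import Pool.Agent.DGP.Main

set_option autoImplicit false

/-!
# DG2, module MAINC: the main theorem for rational coefficients and the reference periods
-/

open scoped BigOperators Topology
open Metric Set

namespace Pool.Agent.DG2

open Pool.Agent.GPH (f0 Cop Dop P2 pol CPath num perMat tpt fus Nm)
open Pool.Agent.HGP (Ix Simil Idx fvec mvec Aof opt Up)
open Pool.Agent.DGP (val Conv)

namespace MAINC_

theorem card_up (g : ℕ) : Fintype.card (Up g) + Fintype.card (Up g) = g * g + g := by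
  classical
  have h1 : Fintype.card (Up g)
      = (Finset.univ.filter (fun p : Fin g × Fin g => p.1 ≤ p.2)).card :=
    Fintype.card_subtype _
  have h2 : (Finset.univ.filter (fun p : Fin g × Fin g => p.1 ≤ p.2)).card
      = (Finset.univ.filter (fun p : Fin g × Fin g => p.2 ≤ p.1)).card := by
    apply Finset.card_bij (fun p _ => (p.2, p.1))
    · intro p hp
      simpa using hp
    · rintro ⟨a, b⟩ _ ⟨a', b'⟩ _ h
      simp only [Prod.mk.injEq] at h
      rw [h.1, h.2]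
    · rintro ⟨a, b⟩ hp
      exact ⟨(b, a), by simpa using hp, rfl⟩
  have h3 := Finset.card_union_add_card_inter
    (Finset.univ.filter (fun p : Fin g × Fin g => p.1 ≤ p.2))
    (Finset.univ.filter (fun p : Fin g × Fin g => p.2 ≤ p.1))
  have h4 : (Finset.univ.filter (fun p : Fin g × Fin g => p.1 ≤ p.2)) ∪
      (Finset.univ.filter (fun p : Fin g × Fin g => p.2 ≤ p.1)) = Finset.univ := by
    ext p
    simp [le_total]
  have h5 : ((Finset.univ.filter (fun p : Fin g × Fin g => p.1 ≤ p.2)) ∩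
      (Finset.univ.filter (fun p : Fin g × Fin g => p.2 ≤ p.1))).card = g := by
    have h6 : (Finset.univ.filter (fun p : Fin g × Fin g => p.1 ≤ p.2)) ∩
        (Finset.univ.filter (fun p : Fin g × Fin g => p.2 ≤ p.1))
        = Finset.univ.image (fun i : Fin g => (i, i)) := by
      ext ⟨a, b⟩
      simp only [Finset.mem_inter, Finset.mem_filter, Finset.mem_univ, true_and,
        Finset.mem_image, Prod.mk.injEq]
      constructor
      · rintro ⟨h, h'⟩
        exact ⟨a, rfl, le_antisymm h h'⟩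
      · rintro ⟨i, rfl, rfl⟩
        exact ⟨le_rfl, le_rfl⟩
    rw [h6, Finset.card_image_of_injective]
    · simp
    · intro i j hij
      exact (Prod.mk.inj hij).1
  rw [h4, h5, Finset.card_univ, Fintype.card_prod, Fintype.card_fin] at h3
  rw [h1]
  omega

theorem card_idx (g : ℕ) : Fintype.card (Idx g) = g * (2 * g + 1) := by
  have h1 := card_up g
  simp only [Idx, Fintype.card_sum, Fintype.card_prod, Fintype.card_fin]
  nlinarith

theorem card_theta {nF : ℕ} (G : Fin nF → ℕ) :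
    Fintype.card (Option (Σ a, Idx (G a))) = 1 + ∑ a, G a * (2 * G a + 1) := by
  rw [Fintype.card_option, Fintype.card_sigma, add_comm]
  congr 1
  exact Finset.sum_congr rfl (fun a _ => card_idx (G a))

end MAINC_

open MAINC_ INDX_ in
theorem mainc_proof (hInd : Stmt_IndX) (hExc : Stmt_ExcC) (hEl : Stmt_ElC) (hSer : Stmt_SerJ)
    (hZSm : Stmt_ZSm) (hNmQ : Stmt_NmQ) : Stmt_MainC := by
  classical
  intro nF G c s hg hP2 hsep hprop R W hRef r φ D
  obtain ⟨D', hD'⟩ := hExc nF G r φ D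
  obtain ⟨E, hE⟩ := hEl (Option (Σ a, Idx (G a))) (Σ i : Fin r, Idx (G (φ i))) D'
  have hq := card_theta G
  set q := Fintype.card (Option (Σ a, Idx (G a))) with hqdef
  choose hTp ρs hρs0 hρsR hser using
    fun a => hSer (G a) (c a) (s a) (R a) (W a) (hg a) (hRef a)
  choose ρz hρz0 hZ using fun a => hZSm (G a) (c a) (s a) (hg a) (hsep a)
  obtain ⟨ρ₁, hρ₁, hρ₁le⟩ := exists_le ρs ρz hρs0 hρz0
  choose B hB1 hB2 using fun a => (hNmQ (G a) (c a)).2.2
  let e' : Fin (q + 1) × Fin r ≃ Fin ((q + 1) * r) := finProdFinEquiv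
  obtain ⟨δ, hδ, n₁, hn₁⟩ := hInd ((q + 1) * r) (fun k => G (φ (e'.symm k).2))
    (fun k => c (φ (e'.symm k).2)) (fun k => s (φ (e'.symm k).2)) (fun k => hg _)
    (fun k => hP2 _) (fun k => hsep _) E
  refine ⟨min δ (1 / 2), lt_min hδ (by norm_num), max n₁ (⌈1 / ρ₁ ^ 2⌉₊ + 2), ?_⟩
  intro n hn
  have hnn₁ : n₁ ≤ n := le_trans (le_max_left _ _) hn
  have hn2 : ⌈1 / ρ₁ ^ 2⌉₊ + 2 ≤ n := le_trans (le_max_right _ _) hn
  have hn1N : 1 ≤ n := by omega
  have hn1 : (1 : ℝ) ≤ n := by exact_mod_cast hn1N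
  have hnpos : (0 : ℝ) < n := by linarith
  have hsm : ∀ x : ℚ, 0 < x → Ht n (min δ (1 / 2)) x →
      (0 : ℝ) < (x : ℝ) / n ∧ (x : ℝ) / n < ρ₁ := fun x hx hH =>
    small n ρ₁ _ hρ₁ (min_le_right _ _) hn2 x hx hH
  have hcast : ∀ x : ℚ, (((x / n : ℚ)) : ℂ) = (((x : ℝ) / n : ℝ) : ℂ) := by
    intro x
    push_cast
    ring
  have hball : ∀ (a : Fin nF) (x : ℚ), 0 < x → Ht n (min δ (1 / 2)) x →
      ((s a : ℂ) + (((x / n : ℚ)) : ℂ)) ∈ ball ((s a : ℚ) : ℂ) (R a) := by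
    intro a x hx hH
    obtain ⟨h3, h4⟩ := hsm x hx hH
    rw [hcast, mem_ball, dist_eq_norm, add_sub_cancel_left, Complex.norm_real,
      Real.norm_eq_abs, abs_of_pos h3]
    exact lt_of_lt_of_le h4 (le_trans (hρ₁le a).1 (hρsR a))
  by_contra hcon
  push Not at hcon
  -- the tuples
  obtain ⟨T, hT1, hT2⟩ := DGP.Main.greedy r q (fun ρ =>
      (∀ i j, i ≠ j → φ i = φ j → ρ i ≠ ρ j) ∧
      (∀ i, 0 < ρ i ∧ Ht n (min δ (1 / 2)) (ρ i)) ∧
      ∃ P, IsRelC (g := fun i => G (φ i)) D (fun i => NmC (G (φ i)) (c (φ i)) *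
      W (φ i) ((s (φ i) : ℂ) + (((ρ i / n : ℚ)) : ℂ))) P) (by
    intro S hS
    obtain ⟨ρ, hρ1, hρ2, hρ3⟩ := hcon S (by rw [← hq, mul_comm]; exact hS)
    obtain ⟨P, hP⟩ := hρ3 (fun i => hball (φ i) (ρ i) (hρ2 i).1 (hρ2 i).2.2)
    exact ⟨ρ, ⟨hρ1, fun i => ⟨(hρ2 i).1, (hρ2 i).2.2⟩, P, hP⟩, fun i => (hρ2 i).2.1⟩)
    (q + 1) le_rfl
  -- the matrices
  let M0 : ∀ a, Matrix (Ix (G a)) (Ix (G a)) ℂ := fun a => NmC (G a) (c a) * W a (s a)
  let Zt : ∀ (_ : Fin (q + 1)) (j : Fin r), Matrix (Ix (G (φ j))) (Ix (G (φ j))) ℂ :=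
    fun i j => NmC (G (φ j)) (c (φ j)) * Yv (c (φ j)) (s (φ j)) ((T i j : ℝ) / n) *
      (B (φ j)).map (fun x : ℚ => (x : ℂ))
  have hBC : ∀ a, (B a).map (fun x : ℚ => (x : ℂ)) * NmC (G a) (c a) = 1 := by
    intro a
    have h1 : (B a * NmQ (G a) (c a)).map (fun x : ℚ => (x : ℂ))
        = (B a).map (fun x : ℚ => (x : ℂ)) * NmC (G a) (c a) := by
      ext i j
      simp [NmC, Matrix.mul_apply]
    rw [← h1, hB2 a]
    ext i j
    by_cases hij : i = j
    · subst hij; simp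
    · simp [Matrix.one_apply_ne hij]
  have hZt : ∀ i j, Zt i j * NmC (G (φ j)) (c (φ j))
      = NmC (G (φ j)) (c (φ j)) * Yv (c (φ j)) (s (φ j)) ((T i j : ℝ) / n) := by
    intro i j
    simp only [Zt]
    rw [Matrix.mul_assoc, hBC, Matrix.mul_one]
  have hsmT : ∀ i j, (0 : ℝ) < (T i j : ℝ) / n ∧ (T i j : ℝ) / n < ρ₁ := fun i j =>
    hsm (T i j) ((hT1 i).2.1 j).1 ((hT1 i).2.1 j).2
  have hZs : ∀ i j, Simil 1 (Zt i j) ∧ (Zt i j).toBlocks₁₁.det ≠ 0 := by
    intro i j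
    apply hZ (φ j) ((T i j : ℝ) / n) ?_ (Zt i j) (hZt i j)
    rw [abs_of_pos (hsmT i j).1]
    exact lt_of_lt_of_le (hsmT i j).2 (hρ₁le (φ j)).2
  have hper : ∀ i j, NmC (G (φ j)) (c (φ j)) *
      W (φ j) ((s (φ j) : ℂ) + (((T i j / n : ℚ)) : ℂ)) = Zt i j * M0 (φ j) := by
    intro i j
    have h3 := (hser (φ j) ((T i j : ℝ) / n) (by
      rw [abs_of_pos (hsmT i j).1]
      exact lt_of_lt_of_le (hsmT i j).2 (hρ₁le (φ j)).1)).2
    rw [hcast, h3]
    simp only [M0]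
    rw [← Matrix.mul_assoc, ← Matrix.mul_assoc, hZt]
  -- the relations
  have hS : ∀ i, ∃ S : MvPolynomial (Option (Σ a, Idx (G a)) ⊕ (Σ j : Fin r, Idx (G (φ j)))) ℚ,
    S.totalDegree ≤ D' ∧
    MvPolynomial.aeval (Sum.elim (opt (2 * Real.pi * Complex.I)
      (fun p : Σ a, Idx (G a) => fvec (M0 p.1) p.2))
      (fun p : Σ j : Fin r, Idx (G (φ j)) => fvec (Zt i p.1) p.2)) S = (0 : ℂ) ∧
    ∃ y : (Σ j : Fin r, Idx (G (φ j))) → ℂ, MvPolynomial.aeval (Sum.elim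
      (opt (2 * Real.pi * Complex.I) (fun p : Σ a, Idx (G a) => fvec (M0 p.1) p.2)) y) S
        ≠ 0 := by
    intro i
    obtain ⟨P, hP⟩ := (hT1 i).2.2
    apply hD' M0 (fun a => (hRef a).simil _ (mem_ball_self (hRef a).pos))
      (fun a => (hRef a).det) (Zt i) (fun j => (hZs i j).1) (fun j => (hZs i j).2) P
    have h3 : (fun j => NmC (G (φ j)) (c (φ j)) *
        W (φ j) ((s (φ j) : ℂ) + (((T i j / n : ℚ)) : ℂ))) = fun j => Zt i j * M0 (φ j) := by
      funext j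
      exact hper i j
    rw [← h3]
    exact hP
  choose S hS1 hS2 hS3 using hS
  obtain ⟨Q, hQ1, hQ2, hQ3⟩ := hE _ (fun i (p : Σ j : Fin r, Idx (G (φ j))) =>
    fvec (Zt i p.1) p.2) S hS1 hS2 hS3
  -- the transfer
  let f : (Σ k : Fin ((q + 1) * r), Idx (G (φ (e'.symm k).2))) →
      Fin (q + 1) × (Σ j : Fin r, Idx (G (φ j))) :=
    fun p => ((e'.symm p.1).1, ⟨(e'.symm p.1).2, p.2⟩)
  have hfinj : Function.Injective f := by
    rintro ⟨k, x⟩ ⟨k', x'⟩ h
    simp only [f, Prod.mk.injEq, Sigma.mk.injEq] at h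
    obtain ⟨h3, h4, h5⟩ := h
    have h6 : k = k' := e'.symm.injective (Prod.ext h3 h4)
    subst h6
    rw [eq_of_heq h5]
  have hfsurj : Function.Surjective f := by
    have h3 : ∀ (p : Fin (q + 1) × Fin r) (x : Idx (G (φ p.2))), ∃ y, f y = (p.1, ⟨p.2, x⟩) := by
      intro p x
      obtain ⟨k, rfl⟩ := e'.symm.surjective p
      exact ⟨⟨k, x⟩, rfl⟩
    rintro ⟨i, ⟨j, x⟩⟩
    exact h3 (i, j) x
  let F := Equiv.ofBijective f ⟨hfinj, hfsurj⟩
  have hQ'ne : MvPolynomial.rename F.symm Q ≠ 0 := by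
    intro h3
    apply hQ1
    apply MvPolynomial.rename_injective F.symm F.symm.injective
    rw [h3, map_zero]
  have hρpos : ∀ i j, 0 < T i j := fun i j => ((hT1 i).2.1 j).1
  have hfin := hn₁ n hnn₁ (fun k => T (e'.symm k).1 (e'.symm k).2) (by
    intro k
    obtain ⟨h3, h4, h5⟩ := (hT1 (e'.symm k).1).2.1 (e'.symm k).2
    have h6 : (n : ℝ) ^ (min δ (1 / 2)) ≤ (n : ℝ) ^ δ :=
      Real.rpow_le_rpow_of_exponent_le hn1 (min_le_left _ _)
    exact ⟨h3, le_trans h4 h6, le_trans h5 h6⟩) (by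
    intro k l hkl
    have h3 : e'.symm k ≠ e'.symm l := fun h => hkl (e'.symm.injective h)
    generalize e'.symm k = p at h3 ⊢
    generalize e'.symm l = p' at h3 ⊢
    obtain ⟨i, j⟩ := p
    obtain ⟨i', j'⟩ := p'
    simp only at h3 ⊢
    have hp1 := hρpos i j
    have hp2 := hρpos i' j'
    have h4 : φ j ≠ φ j' ∨ T i' j' / T i j ≠ 1 := by
      by_cases h5 : φ j = φ j'
      · right
        intro h6
        rw [div_eq_one_iff_eq hp1.ne'] at h6
        by_cases h7 : i = i'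
        · subst h7
          have h8 : j ≠ j' := by
            intro h9
            subst h9
            exact h3 rfl
          exact (hT1 i).1 j j' h8 h5 h6.symm
        · exact hT2 i i' h7 j j' h6.symm
      · exact Or.inl h5
    obtain ⟨z, hz⟩ := hprop (φ j) (φ j') (T i' j' / T i j) (div_pos hp2 hp1) h4
    refine ⟨z / (T i j : ℂ), ?_⟩
    have hne : ((T i j : ℚ) : ℂ) ≠ 0 := by exact_mod_cast hp1.ne'
    have h5 : ((T i j : ℚ) : ℂ) * (z / (T i j : ℂ)) = z := by field_simp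
    have h6 : ((T i' j' : ℚ) : ℂ) * (z / (T i j : ℂ)) = ((T i' j' / T i j : ℚ) : ℂ) * z := by
      push_cast
      field_simp
    rw [h5, h6]
    exact hz) (fun k => Zt (e'.symm k).1 (e'.symm k).2)
    (fun k => hZt (e'.symm k).1 (e'.symm k).2) (MvPolynomial.rename F.symm Q) hQ'ne
    (le_trans (MvPolynomial.totalDegree_rename_le _ _) hQ2)
  apply hfin
  rw [MvPolynomial.aeval_rename, ← hQ3]
  have hkey : ∀ p : (Σ k : Fin ((q + 1) * r), Idx (G (φ (e'.symm k).2))),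
      fvec (Zt (e'.symm p.1).1 (e'.symm p.1).2) p.2
        = (fun v : Fin (q + 1) × (Σ j : Fin r, Idx (G (φ j))) =>
            fvec (Zt v.1 v.2.1) v.2.2) (F p) := fun p => rfl
  have hfun : ((fun p : (Σ k : Fin ((q + 1) * r), Idx (G (φ (e'.symm k).2))) =>
      fvec (Zt (e'.symm p.1).1 (e'.symm p.1).2) p.2) ∘ F.symm)
        = (fun v : Fin (q + 1) × (Σ j : Fin r, Idx (G (φ j))) =>
            fvec (Zt v.1 v.2.1) v.2.2) := by
    funext v
    exact (hkey (F.symm v)).trans (congrArg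
      (fun v : Fin (q + 1) × (Σ j : Fin r, Idx (G (φ j))) => fvec (Zt v.1 v.2.1) v.2.2)
      (F.apply_symm_apply v))
  exact congrArg (fun g => MvPolynomial.aeval g Q) hfun

end Pool.Agent.DG2
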