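import Pool.Agent.DG2.AStmts
import Pool.Agent.DGP.DSum

set_option autoImplicit false

/-!
DG2, module DSMJ: direct sums of systems of G-functions, sigma types.
-/

open Finset

namespace Pool.Agent.DG2

open Pool.Agent.DGP (GSys IsZ hd val Conv tens)

open DGP.DSum in
theorem dsmj_proof : Stmt_DSmJ := by
  classical
  intro K ι _ G T τ e₀ c₀ H hc hH hG
  have hH0 : (0 : ℝ) ≤ H := by linarith
  have hH1 : (1 : ℝ) ≤ H := by linarith
  have hc0 : (0 : ℝ) ≤ c₀ := by linarith
  choose B q hB1 hB2 hB3 hq hB4 using fun k => (hG k).sys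
  choose d hd1 hd2 using fun k => (hG k).den
  have hTl1 : ∀ k, l1 (T k) ≤ H := by
    intro k
    rw [l1_eq (T k) τ (hG k).T_deg]
    exact (hG k).T_size
  have hcK : (1 : ℝ) ≤ c₀ ^ K := one_le_pow₀ hc
  have hcK1 : (1 : ℝ) ≤ c₀ ^ (K + 1) := one_le_pow₀ hc
  have hcc : c₀ ≤ c₀ ^ (K + 1) := by
    rw [pow_succ]
    nlinarith
  have hccK : c₀ ^ K ≤ c₀ ^ (K + 1) := pow_le_pow_right₀ hc (Nat.le_succ K)
  have hHle : ∀ a j, a ≤ (K + 1) * j → H ^ a ≤ (H ^ (K + 1)) ^ j := by
    intro a j h
    rw [← pow_mul]
    exact pow_le_pow_right₀ hH1 h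
  have hqprod : ∀ f : Fin K → ℕ → ℕ, (∀ k j, (f k j : ℝ) ≤ c₀ * H ^ j) → ∀ j,
      ((∏ k, f k j : ℕ) : ℝ) ≤ c₀ ^ (K + 1) * (H ^ (K + 1)) ^ j := by
    intro f hf j
    push_cast
    calc ∏ k, (f k j : ℝ) ≤ ∏ _k : Fin K, (c₀ * H ^ j) :=
          Finset.prod_le_prod (fun k _ => Nat.cast_nonneg _) (fun k _ => hf k j)
      _ = c₀ ^ K * (H ^ j) ^ K := by
          rw [Finset.prod_const, Finset.card_univ, Fintype.card_fin, mul_pow]
      _ ≤ c₀ ^ (K + 1) * (H ^ (K + 1)) ^ j := by
          apply mul_le_mul hccK _ (by positivity) (by positivity)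
          rw [← pow_mul]
          exact hHle _ _ (by nlinarith)
  refine ⟨e₀, c₀ ^ (K + 1), ?_⟩
  refine ⟨hcK1, ?_, ?_, ?_, ?_, ?_, ?_, ?_, ?_⟩
  · calc (2 : ℝ) ≤ H := hH
      _ = H ^ 1 := (pow_one H).symm
      _ ≤ H ^ (K + 1) := pow_le_pow_right₀ hH1 (by omega)
  · exact isZP_prod _ _ (fun k _ => (hG k).T_int)
  · rw [Polynomial.coeff_zero_prod, Finset.prod_ne_zero_iff]
    intro k _
    exact (hG k).T_zero
  · refine (Polynomial.natDegree_prod_le _ _).trans ?_
    calc ∑ k, (T k).natDegree ≤ ∑ _k : Fin K, τ := Finset.sum_le_sum (fun k _ => (hG k).T_deg)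
      _ = τ * K := by simp [mul_comm]
  · rw [← l1_eq (∏ k, T k) (τ * K)]
    · refine (l1_prod Finset.univ T H hH0 (fun k _ => hTl1 k)).trans ?_
      rw [Finset.card_univ, Fintype.card_fin]
      exact pow_le_pow_right₀ hH1 (Nat.le_succ K)
    · refine (Polynomial.natDegree_prod_le _ _).trans ?_
      calc ∑ k, (T k).natDegree ≤ ∑ _k : Fin K, τ :=
            Finset.sum_le_sum (fun k _ => (hG k).T_deg)
        _ = τ * K := by simp [mul_comm]
  · -- the system
    set P : Fin K → Polynomial ℚ := fun k => ∏ l ∈ Finset.univ.erase k, T l with hP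
    have hPT : ∀ k, P k * T k = ∏ l, T l := fun k =>
      Finset.prod_erase_mul _ _ (Finset.mem_univ k)
    set B' : ℕ → Option (Σ k, ι k) → Option (Σ k, ι k) → Polynomial ℚ :=
      fun j o o' => match o, o' with
        | none, none => if j = 0 then 1 else 0
        | some a, some b => if h : b.1 = a.1 then P a.1 ^ j * B a.1 j a.2 (h ▸ b.2) else 0
        | _, _ => 0 with hB'
    have hPl1 : ∀ k j, l1 (P k ^ j) ≤ H ^ ((K - 1) * j) := by
      intro k j
      refine (l1_pow _ _).trans ?_
      rw [pow_mul]
      refine pow_le_pow_left₀ (l1_nonneg _) ?_ _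
      refine (l1_prod _ T H hH0 (fun l _ => hTl1 l)).trans ?_
      rw [Finset.card_erase_of_mem (Finset.mem_univ k), Finset.card_univ, Fintype.card_fin]
    have hPdeg : ∀ k, (P k).natDegree ≤ τ * (K - 1) := by
      intro k
      refine (Polynomial.natDegree_prod_le _ _).trans ?_
      calc ∑ l ∈ Finset.univ.erase k, (T l).natDegree ≤ ∑ _l ∈ Finset.univ.erase k, τ :=
            Finset.sum_le_sum (fun l _ => (hG l).T_deg)
        _ = τ * (K - 1) := by
            rw [Finset.sum_const, Finset.card_erase_of_mem (Finset.mem_univ k),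
              Finset.card_univ, Fintype.card_fin, smul_eq_mul, mul_comm]
    have hPint : ∀ k, IsZP (P k) := fun k => isZP_prod _ _ (fun l _ => (hG l).T_int)
    refine ⟨B', fun j => ∏ k, q k j, ?_, ?_, ?_, ?_, ?_⟩
    · intro j o
      rw [Fintype.sum_option]
      cases o with
      | none =>
        have h1 : ∀ p : (Σ k, ι k), B' j none (some p) = 0 := fun p => rfl
        have h2 : B' j none none = if j = 0 then 1 else 0 := rfl
        have h3 : hd j (1 : PowerSeries ℚ) = if j = 0 then 1 else 0 := by
          ext i
          unfold hd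
          rw [PowerSeries.coeff_mk, PowerSeries.coeff_one]
          by_cases hj : j = 0
          · subst hj
            simp [PowerSeries.coeff_one]
          · rw [if_neg (by omega), if_neg hj]
            simp
        simp only [Option.elim_none, h1, h2]
        rw [h3]
        by_cases hj : j = 0
        · subst hj
          simp
        · simp [hj]
      | some a =>
        obtain ⟨k, i⟩ := a
        have h1 : B' j (some ⟨k, i⟩) none = 0 := rfl
        have h2 : ∀ p : (Σ k, ι k), B' j (some ⟨k, i⟩) (some p) =
            if h : p.1 = k then P k ^ j * B k j i (h ▸ p.2) else 0 := fun p => rfl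
        simp only [Option.elim_some, h1, h2]
        rw [Fintype.sum_sigma]
        rw [Finset.sum_eq_single k]
        · simp only [dif_pos]
          have h3 := hB1 k j i
          have h4 : ((∏ l, T l : Polynomial ℚ) : PowerSeries ℚ) ^ j =
              ((P k ^ j : Polynomial ℚ) : PowerSeries ℚ) * (T k : PowerSeries ℚ) ^ j := by
            rw [← hPT k, Polynomial.coe_mul, mul_pow, Polynomial.coe_pow]
          rw [h4, mul_assoc, h3, Finset.mul_sum]
          simp only [Polynomial.coe_zero, zero_mul, zero_add]
          refine Finset.sum_congr rfl ?_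
          intro l _
          rw [Polynomial.coe_mul, mul_assoc]
        · intro l _ hl
          apply Finset.sum_eq_zero
          intro i' _
          rw [dif_neg hl]
          simp
        · intro h
          exact absurd (Finset.mem_univ k) h
    · intro j o o'
      rcases o with _ | ⟨k, i⟩ <;> rcases o' with _ | ⟨k', i'⟩
      · have h2 : B' j none none = if j = 0 then 1 else 0 := rfl
        rw [h2]
        split_ifs <;> simp
      · have h1 : B' j none (some ⟨k', i'⟩) = 0 := rfl
        rw [h1]
        simp
      · have h1 : B' j (some ⟨k, i⟩) none = 0 := rfl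
        rw [h1]
        simp
      · have h2 : B' j (some ⟨k, i⟩) (some ⟨k', i'⟩) =
            if h : k' = k then P k ^ j * B k j i (h ▸ i') else 0 := rfl
        rw [h2]
        split_ifs with h
        · subst h
          change (P k' ^ j * B k' j i i').natDegree ≤ _
          refine (Polynomial.natDegree_mul_le).trans ?_
          have e1 := Polynomial.natDegree_pow_le (p := P k') (n := j)
          have e2 := hPdeg k'
          have e3 := hB2 k' j i i'
          have hK : 1 ≤ K := by
            have := k'.2
            omega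
          obtain ⟨K', hK'⟩ : ∃ K', K = K' + 1 := ⟨K - 1, by omega⟩
          have e4 : j * (P k').natDegree ≤ j * (τ * (K - 1)) := Nat.mul_le_mul_left _ e2
          have e5 : τ * K * j = j * (τ * (K - 1)) + τ * j := by
            rw [hK']
            simp only [Nat.add_sub_cancel]
            ring
          omega
        · simp
    · intro j o o' l
      have hpos : (0 : ℝ) ≤ c₀ ^ (K + 1) * (H ^ (K + 1)) ^ j := by positivity
      rcases o with _ | ⟨k, i⟩ <;> rcases o' with _ | ⟨k', i'⟩
      · have h2 : B' j none none = if j = 0 then 1 else 0 := rfl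
        rw [h2]
        have h5 : (1 : ℝ) ≤ c₀ ^ (K + 1) * (H ^ (K + 1)) ^ j :=
          one_le_mul_of_one_le_of_one_le hcK1 (one_le_pow₀ (one_le_pow₀ hH1))
        by_cases hj : j = 0
        · rw [if_pos hj, Polynomial.coeff_one]
          split_ifs
          · simpa using h5
          · simpa using hpos
        · rw [if_neg hj]
          simpa using hpos
      · have h1 : B' j none (some ⟨k', i'⟩) = 0 := rfl
        rw [h1]
        simpa using hpos
      · have h1 : B' j (some ⟨k, i⟩) none = 0 := rfl
        rw [h1]
        simpa using hpos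
      · have h2 : B' j (some ⟨k, i⟩) (some ⟨k', i'⟩) =
            if h : k' = k then P k ^ j * B k j i (h ▸ i') else 0 := rfl
        rw [h2]
        split_ifs with h
        · subst h
          refine (coeff_mul_le _ _ _ (hB3 k' j i i') l).trans ?_
          calc l1 (P k' ^ j) * (c₀ * H ^ j) ≤ H ^ ((K - 1) * j) * (c₀ * H ^ j) :=
                mul_le_mul_of_nonneg_right (hPl1 k' j) (by positivity)
            _ = c₀ * H ^ ((K - 1) * j + j) := by rw [pow_add]; ring
            _ ≤ c₀ ^ (K + 1) * (H ^ (K + 1)) ^ j := by
                apply mul_le_mul hcc _ (by positivity) (by positivity)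
                apply hHle
                have : (K - 1) * j ≤ K * j := Nat.mul_le_mul_right _ (Nat.sub_le _ _)
                nlinarith
        · simpa using hpos
    · intro j
      refine ⟨Nat.one_le_iff_ne_zero.2 (Finset.prod_ne_zero_iff.2 (fun k _ =>
        Nat.one_le_iff_ne_zero.1 (hq k j).1)), Finset.prod_dvd_prod_of_dvd _ _
        (fun k _ => (hq k j).2.1), hqprod q (fun k j => (hq k j).2.2) j⟩
    · intro j o o' l
      rcases o with _ | ⟨k, i⟩ <;> rcases o' with _ | ⟨k', i'⟩
      · have h2 : B' j none none = if j = 0 then 1 else 0 := rfl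
        rw [h2]
        apply IsZ.mul
        · exact isZ_nat _
        · split_ifs
          · exact isZP_one l
          · rw [Polynomial.coeff_zero]
            exact isZ_zero
      · have h1 : B' j none (some ⟨k', i'⟩) = 0 := rfl
        rw [h1, Polynomial.coeff_zero, mul_zero]
        exact isZ_zero
      · have h1 : B' j (some ⟨k, i⟩) none = 0 := rfl
        rw [h1, Polynomial.coeff_zero, mul_zero]
        exact isZ_zero
      · have h2 : B' j (some ⟨k, i⟩) (some ⟨k', i'⟩) =
            if h : k' = k then P k ^ j * B k j i (h ▸ i') else 0 := rfl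
        rw [h2]
        split_ifs with h
        · subst h
          have h3 : (∏ k, q k j : ℕ) = (∏ l ∈ Finset.univ.erase k', q l j) * q k' j :=
            (Finset.prod_erase_mul _ _ (Finset.mem_univ k')).symm
          have h4 : ((∏ k, q k j : ℕ) : ℚ) * (P k' ^ j * B k' j i i').coeff l =
              ((∏ l ∈ Finset.univ.erase k', q l j : ℕ) : ℚ) *
                (P k' ^ j * (Polynomial.C (q k' j : ℚ) * B k' j i i')).coeff l := by
            rw [h3]
            push_cast
            rw [mul_left_comm (P k' ^ j), Polynomial.coeff_C_mul]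
            ring
          rw [h4]
          apply IsZ.mul (isZ_nat _)
          apply IsZP.mul ((hPint k').pow j)
          intro l
          rw [Polynomial.coeff_C_mul]
          exact hB4 k' j i i' l
        · rw [Polynomial.coeff_zero, mul_zero]
          exact isZ_zero
  · intro o j
    have hle : c₀ * H ^ j ≤ c₀ ^ (K + 1) * (H ^ (K + 1)) ^ j := by
      apply mul_le_mul hcc _ (by positivity) (by positivity)
      exact hHle _ _ (by nlinarith)
    cases o with
    | none =>
      rw [Option.elim_none, PowerSeries.coeff_one]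
      have h5 : (1 : ℝ) ≤ c₀ ^ (K + 1) * (H ^ (K + 1)) ^ j :=
        one_le_mul_of_one_le_of_one_le hcK1 (one_le_pow₀ (one_le_pow₀ hH1))
      split_ifs
      · simpa using h5
      · simp only [Rat.cast_zero, abs_zero]
        linarith
    | some p =>
      rw [Option.elim_some]
      exact ((hG p.1).size p.2 j).trans hle
  · refine ⟨fun j => ∏ k, d k j, ?_, ?_⟩
    · intro j
      refine ⟨Nat.one_le_iff_ne_zero.2 (Finset.prod_ne_zero_iff.2 (fun k _ =>
        Nat.one_le_iff_ne_zero.1 (hd1 k j).1)), Finset.prod_dvd_prod_of_dvd _ _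
        (fun k _ => (hd1 k j).2.1), hqprod d (fun k j => (hd1 k j).2.2) j⟩
    · intro o j
      cases o with
      | none =>
        rw [Option.elim_none, PowerSeries.coeff_one]
        apply IsZ.mul (isZ_nat _)
        split_ifs
        · exact isZ_one
        · exact isZ_zero
      | some p =>
        rw [Option.elim_some]
        have h3 : (∏ k, d k j : ℕ) = (∏ l ∈ Finset.univ.erase p.1, d l j) * d p.1 j :=
          (Finset.prod_erase_mul _ _ (Finset.mem_univ p.1)).symm
        beta_reduce
        rw [h3]
        push_cast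
        rw [mul_assoc]
        apply IsZ.mul
        · have := isZ_nat (∏ l ∈ Finset.univ.erase p.1, d l j)
          push_cast at this
          exact this
        · exact hd2 p.1 p.2 j

end Pool.Agent.DG2
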