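import Pool.Agent.DG2.AStmts

set_option autoImplicit false

/-!
# DG2, module BDEN: the denominators of the matrices `Bt`
-/

namespace Pool.Agent.DG2

open Pool.Agent.DGP (IsZ)

namespace BDEN_

theorem isZ_of_den {x : ℚ} (h : ∀ p : ℕ, p.Prime → ¬ p ∣ x.den) : IsZ x := by
  have h1 : x.den = 1 := by
    by_contra hne
    obtain ⟨p, hp, hd⟩ := Nat.exists_prime_and_dvd hne
    exact h p hp hd
  exact ⟨x.num, ((Rat.den_eq_one_iff x).mp h1).symm⟩

theorem not_dvd_mul_int {x : ℚ} {p : ℕ} (hx : ¬ p ∣ x.den) (n : ℤ) :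
    ¬ p ∣ (x * n).den := by
  intro h
  have h1 : (x * n).den ∣ x.den * (n : ℚ).den := Rat.mul_den_dvd x n
  rw [Rat.den_intCast, mul_one] at h1
  exact hx (h.trans h1)

theorem fact_good {p : ℕ} (hp : p.Prime) {M : ℕ} (hM : p ∣ M) (k : ℕ) :
    ¬ p ∣ (((M : ℚ) ^ k) / (k.factorial : ℚ)).den := by
  obtain ⟨v, u, hu, hk⟩ := Nat.exists_eq_pow_mul_and_not_dvd (Nat.factorial_ne_zero k) p
    hp.ne_one
  have hv : v ≤ k := by
    have h1 : (p - 1) * (k.factorial).factorization p = k - (p.digits k).sum :=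
      Nat.sub_one_mul_factorization_factorial hp
    have h2 : (k.factorial).factorization p = v := by
      rw [hk, Nat.factorization_mul (pow_ne_zero _ hp.ne_zero) (by rintro rfl; exact hu (dvd_zero p))]
      simp [hp.factorization_self, Nat.factorization_eq_zero_of_not_dvd hu]
    rw [h2] at h1
    have h3 : 1 ≤ p - 1 := by have := hp.two_le; omega
    calc v = 1 * v := (one_mul v).symm
      _ ≤ (p - 1) * v := Nat.mul_le_mul_right v h3
      _ = k - (p.digits k).sum := h1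
      _ ≤ k := Nat.sub_le _ _
  obtain ⟨M', rfl⟩ := hM
  have hp0 : (p : ℚ) ≠ 0 := by exact_mod_cast hp.ne_zero
  have hu0 : (u : ℚ) ≠ 0 := by
    have : u ≠ 0 := by rintro rfl; exact hu (dvd_zero p)
    exact_mod_cast this
  have key : (((p * M' : ℕ) : ℚ) ^ k) / (k.factorial : ℚ)
      = ((1 : ℚ) / (u : ℚ)) * ((p ^ (k - v) * M' ^ k : ℤ) : ℚ) := by
    rw [hk]
    push_cast
    have : (p : ℚ) ^ k = (p : ℚ) ^ v * (p : ℚ) ^ (k - v) := by
      rw [← pow_add]; congr 1; omega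
    rw [mul_pow, this]
    field_simp
  rw [key]
  apply not_dvd_mul_int
  intro h
  have h4 : ((1 : ℚ) / (u : ℚ)).den ∣ u := by
    have := Rat.den_dvd 1 (u : ℤ)
    have h5 : (Rat.divInt 1 (u : ℤ)) = (1 : ℚ) / (u : ℚ) := by
      rw [Rat.divInt_eq_div]; simp
    rw [h5] at this
    exact_mod_cast this
  exact hu (h.trans h4)

end BDEN_

open BDEN_ in
theorem bden_proof (hGood : Stmt_Good) (hTrv : Stmt_Trv) : Stmt_BDen := by
  intro g c
  obtain ⟨M, hM, hg⟩ := hGood g c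
  obtain ⟨C, hC, ht⟩ := hTrv (2 * g) c
  refine ⟨C * M, Nat.mul_pos hC hM, fun k i j l => ?_⟩
  set L : ℕ := (Finset.Icc 1 (2 * k)).lcm id with hL
  set b : ℚ := (Bt c k i j).coeff l with hb
  apply isZ_of_den
  intro p hp
  by_cases hpM : p ∣ M
  · obtain ⟨z, hz⟩ := ht k i j l
    rw [← hb] at hz
    have hk0 : (k.factorial : ℚ) ≠ 0 := by exact_mod_cast Nat.factorial_ne_zero k
    have h1 : (L : ℚ) * ((C * M : ℕ) : ℚ) ^ k * b
        = (((M : ℚ) ^ k) / (k.factorial : ℚ)) * ((L * z : ℤ) : ℚ) := by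
      push_cast
      rw [← hz]
      field_simp
      ring
    rw [h1]
    exact not_dvd_mul_int (fact_good hp hpM k) _
  · have h1 : (L : ℚ) * ((C * M : ℕ) : ℚ) ^ k * b
        = ((L : ℚ) * b) * (((C * M) ^ k : ℤ) : ℚ) := by
      push_cast
      ring
    rw [h1]
    exact not_dvd_mul_int (hg k i j l p hp hpM) _

end Pool.Agent.DG2
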