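import Pool.Agent.DG2.CStmts
import Pool.Agent.GPH.CCom

set_option autoImplicit false

/-!
# DG2, module CVP: distinct critical values
-/

open scoped BigOperators

namespace Pool.Agent.DG2

open Pool.Agent.GPH (f0 g0 Cop P2)

namespace CVP_

open Polynomial Matrix

/-- The polynomial `crv g f 0`. -/
theorem crv_eq (g : ℕ) (f : Fin (2 * g + 1) → ℚ) :
    crv g f 0 = f0 (cC (fun k : Fin (2 * g) => f k.succ)) + C ((f 0 : ℚ) : ℂ) := by
  unfold crv Pool.Agent.GPH.pol f0 cC
  rw [Fin.sum_univ_succ]
  simp only [Fin.val_zero, pow_zero, mul_one, Fin.val_succ, Rat.cast_zero, C_0, add_zero]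
  ring

/-- No common root. -/
theorem sep_iff (F : Polynomial ℂ) : F.Separable ↔
    ∀ a, ¬ (F.eval a = 0 ∧ (derivative F).eval a = 0) := by
  rw [separable_def, Polynomial.isCoprime_iff_aeval_ne_zero_of_isAlgClosed ℂ ℂ]
  constructor
  · intro h a ha
    rcases h a with h1 | h1
    · apply h1
      rw [← ha.1]
      simp
    · apply h1
      rw [← ha.2]
      simp
  · intro h a
    by_contra hcon
    push Not at hcon
    apply h a
    constructor
    · have := hcon.1
      simpa using this
    · have := hcon.2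
      simpa using this

/-- The traces of the powers of `Cop`. -/
theorem trace_pow {m : ℕ} (c : Fin m → ℂ) (z : Fin m → ℂ) (hz : Function.Injective z)
    (h0 : ∀ i, (g0 c).eval (z i) = 0) (n : ℕ) :
    (Cop c ^ n).trace = ∑ i, ((f0 c).eval (z i)) ^ n := by
  set V : Matrix (Fin m) (Fin m) ℂ := vandermonde z with hV
  have hdet : V.det ≠ 0 := det_vandermonde_ne_zero_iff.mpr hz
  have hu : IsUnit V.det := isUnit_iff_ne_zero.mpr hdet
  have h1 : V * Cop c = diagonal (fun i => (f0 c).eval (z i)) * V := by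
    ext i k
    rw [Matrix.mul_apply, Matrix.diagonal_mul]
    exact Pool.Agent.GPH.CComL.row_eval c (z i) (h0 i) k
  have h2 : ∀ n, V * Cop c ^ n = diagonal (fun i => (f0 c).eval (z i)) ^ n * V := by
    intro n
    induction n with
    | zero => simp
    | succ n ih =>
      rw [pow_succ, ← mul_assoc, ih, mul_assoc, h1, ← mul_assoc, ← pow_succ]
  have h3 : Cop c ^ n = V⁻¹ * (diagonal (fun i => (f0 c).eval (z i)) ^ n * V) := by
    rw [← h2 n, ← mul_assoc, nonsing_inv_mul V hu, one_mul]
  rw [h3, Matrix.trace_mul_comm, mul_assoc, mul_nonsing_inv V hu, mul_one, diagonal_pow,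
    trace_diagonal]
  rfl

/-- Distinct critical values. -/
theorem P2_ne {m : ℕ} (c : Fin m → ℂ) (z : Fin m → ℂ)
    (h0 : ∀ i, (g0 c).eval (z i) = 0)
    (hinj : Function.Injective (fun i => (f0 c).eval (z i))) : P2 c ≠ 0 := by
  have hz : Function.Injective z := by
    intro i j hij
    apply hinj
    show (f0 c).eval (z i) = (f0 c).eval (z j)
    rw [hij]
  have h1 : (Matrix.of fun i j : Fin m => (Cop c ^ ((i : ℕ) + (j : ℕ))).trace) =
      (vandermonde (fun i => (f0 c).eval (z i)))ᵀ * vandermonde (fun i => (f0 c).eval (z i)) := by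
    ext i j
    rw [Matrix.of_apply, trace_pow c z hz h0, Matrix.mul_apply]
    refine Finset.sum_congr rfl (fun k _ => ?_)
    rw [Matrix.transpose_apply, vandermonde_apply, vandermonde_apply, pow_add]
  unfold P2
  rw [h1, det_mul, det_transpose]
  have h2 : (vandermonde (fun i => (f0 c).eval (z i))).det ≠ 0 :=
    det_vandermonde_ne_zero_iff.mpr hinj
  exact mul_ne_zero h2 h2

theorem deriv_zero {m : ℕ} (c : Fin m → ℂ) (a s : ℂ) :
    (derivative (f0 c + C s)).eval a = 0 ↔ (g0 c).eval a = 0 := by
  rw [derivative_add, derivative_C, add_zero, Pool.Agent.GPH.CDetL.deriv_eq, eval_mul, eval_C,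
    mul_eq_zero]
  constructor
  · intro h
    rcases h with h | h
    · exact absurd h (Pool.Agent.GPH.CDetL.m1_ne m)
    · exact h
  · intro h
    exact Or.inr h

end CVP_

open CVP_ Polynomial in
/-- Module CVP. -/
theorem cvp_proof (hTpC : Stmt_TpC) : Stmt_CvP := by
  intro g f
  constructor
  · intro hcard
    rw [(hTpC g (fun k : Fin (2 * g) => f k.succ)).2]
    rw [crv_eq] at hcard
    set c : Fin (2 * g) → ℂ := cC (fun k : Fin (2 * g) => f k.succ) with hc
    set S : Set ℂ := critVals (f0 c + C ((f 0 : ℚ) : ℂ)) with hS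
    have hfin : S.Finite := by
      have h1 : S ⊆ (fun a => (f0 c + C ((f 0 : ℚ) : ℂ)).eval a) ''
          {a | (g0 c).eval a = 0} := by
        rintro v ⟨a, ha, hv⟩
        exact ⟨a, (deriv_zero c a _).mp ha, hv⟩
      refine Set.Finite.subset (Set.Finite.image _ ?_) h1
      have h2 : {a | (g0 c).eval a = 0} = ((g0 c).roots.toFinset : Set ℂ) := by
        ext a
        rw [Finset.mem_coe, Multiset.mem_toFinset, mem_roots
          (Pool.Agent.GPH.CDetL.g0_monic c).ne_zero]
        rfl
      rw [h2]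
      exact Finset.finite_toSet _
    have hcard' : Nat.card S = 2 * g := by
      rw [Nat.card_coe_set_eq]
      exact hcard
    haveI : Finite S := hfin
    let e : Fin (2 * g) ≃ S := (Finite.equivFinOfCardEq hcard').symm
    have hex : ∀ i : Fin (2 * g), ∃ a : ℂ, (derivative (f0 c + C ((f 0 : ℚ) : ℂ))).eval a = 0 ∧
        (f0 c + C ((f 0 : ℚ) : ℂ)).eval a = (e i : ℂ) := fun i => (e i).2
    choose z hz1 hz2 using hex
    refine P2_ne c z (fun i => (deriv_zero c _ _).mp (hz1 i)) ?_
    intro i j hij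
    apply e.injective
    apply Subtype.ext
    rw [← hz2 i, ← hz2 j, eval_add, eval_add, eval_C, eval_C]
    have hij' : (f0 c).eval (z i) = (f0 c).eval (z j) := hij
    rw [hij']
  · intro z
    rw [crv_eq]
    unfold Sep
    set c : Fin (2 * g) → ℂ := cC (fun k : Fin (2 * g) => f k.succ) with hc
    rw [sep_iff]
    constructor
    · rintro h ⟨a, ha1, ha2⟩
      apply h a
      refine ⟨?_, (deriv_zero c a _).mpr ((deriv_zero c a _).mp ha1)⟩
      rw [eval_add, eval_C] at ha2
      rw [eval_add, eval_C, ← add_assoc, ha2]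
      ring
    · rintro h a ⟨ha1, ha2⟩
      apply h
      refine ⟨a, (deriv_zero c a _).mpr ((deriv_zero c a _).mp ha2), ?_⟩
      rw [eval_add, eval_C] at ha1
      rw [eval_add, eval_C]
      linear_combination ha1

end Pool.Agent.DG2
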