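import Pool.Agent.DG2.CStmts

set_option autoImplicit false

/-!
# DG2, module FINC: the final statement
-/

open scoped BigOperators Topology
open Metric Set

namespace Pool.Agent.DG2

open Pool.Agent.GPH (f0 Cop Dop P2 pol CPath num perMat tpt fus Nm)
open Pool.Agent.HGP (Ix Simil Idx fvec mvec Aof opt)
open Pool.Agent.DGP (val Conv)

noncomputable section

namespace FINC_

/-- The degree after a substitution by polynomials of degree at most one. -/
theorem totalDegree_bind_le {σ τ : Type} {R : Type} [CommRing R] (f : σ → MvPolynomial τ R)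
    (hf : ∀ s, (f s).totalDegree ≤ 1) (P : MvPolynomial σ R) :
    (MvPolynomial.bind₁ f P).totalDegree ≤ P.totalDegree := by
  classical
  have h1 : MvPolynomial.bind₁ f P
      = ∑ s ∈ P.support, MvPolynomial.C (P.coeff s) * ∏ i ∈ s.support, f i ^ s i := by
    rw [← MvPolynomial.aeval_eq_bind₁, MvPolynomial.aeval_def, MvPolynomial.eval₂_eq]
    rfl
  rw [h1]
  apply MvPolynomial.totalDegree_finsetSum_le
  intro s hs
  refine le_trans (MvPolynomial.totalDegree_mul _ _) ?_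
  rw [MvPolynomial.totalDegree_C, zero_add]
  refine le_trans (MvPolynomial.totalDegree_finsetProd _ _) ?_
  have h2 : ∑ i ∈ s.support, s i ≤ P.totalDegree := MvPolynomial.le_totalDegree hs
  refine le_trans (Finset.sum_le_sum (fun i _ => ?_)) h2
  refine le_trans (MvPolynomial.totalDegree_pow _ _) ?_
  calc s i * (f i).totalDegree ≤ s i * 1 := Nat.mul_le_mul_left _ (hf i)
    _ = s i := mul_one _

/-- The substitution of the linear combinations of the columns. -/
def sub {r m : ℕ} {g : Fin r → ℕ} (L : IntermediateField ℚ ℂ)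
    (K : ∀ i, Matrix (Ix (g i)) (Fin m) ℤ) :
    Option (Σ i : Fin r, Ix (g i) × Fin m) →
      MvPolynomial (Option (Σ i : Fin r, Ix (g i) × Ix (g i))) L
  | none => MvPolynomial.X none
  | some p => ∑ l, MvPolynomial.X (some ⟨p.1, (p.2.1, l)⟩) *
      MvPolynomial.C ((K p.1 l p.2.2 : ℤ) : L)

theorem sub_deg {r m : ℕ} {g : Fin r → ℕ} (L : IntermediateField ℚ ℂ)
    (K : ∀ i, Matrix (Ix (g i)) (Fin m) ℤ) (o : Option (Σ i : Fin r, Ix (g i) × Fin m)) :
    (sub L K o).totalDegree ≤ 1 := by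
  cases o with
  | none => exact le_of_eq (MvPolynomial.totalDegree_X _)
  | some p =>
    apply MvPolynomial.totalDegree_finsetSum_le
    intro l _
    refine le_trans (MvPolynomial.totalDegree_mul _ _) ?_
    rw [MvPolynomial.totalDegree_C, add_zero, MvPolynomial.totalDegree_X]

theorem sub_none {r m : ℕ} {g : Fin r → ℕ} (L : IntermediateField ℚ ℂ)
    (K : ∀ i, Matrix (Ix (g i)) (Fin m) ℤ) : sub L K none = MvPolynomial.X none := rfl

theorem sub_some {r m : ℕ} {g : Fin r → ℕ} (L : IntermediateField ℚ ℂ)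
    (K : ∀ i, Matrix (Ix (g i)) (Fin m) ℤ) (p : Σ i : Fin r, Ix (g i) × Fin m) :
    sub L K (some p) = ∑ l, MvPolynomial.X (some ⟨p.1, (p.2.1, l)⟩) *
      MvPolynomial.C ((K p.1 l p.2.2 : ℤ) : L) := rfl

theorem aeval_term (L : IntermediateField ℚ ℂ) {τ : Type} (w : τ → ℂ) (t : τ) (k : ℤ) :
    MvPolynomial.aeval w (MvPolynomial.X t * MvPolynomial.C ((k : ℤ) : L)) = w t * (k : ℂ) := by
  have h5 : algebraMap L ℂ ((k : ℤ) : L) = (k : ℂ) := map_intCast (algebraMap L ℂ) _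
  rw [map_mul, MvPolynomial.aeval_X, MvPolynomial.aeval_C, h5]

theorem aeval_sub {r m : ℕ} {g : Fin r → ℕ} (L : IntermediateField ℚ ℂ)
    (K : ∀ i, Matrix (Ix (g i)) (Fin m) ℤ) (lam : ℂ)
    (M : ∀ i, Matrix (Ix (g i)) (Ix (g i)) ℂ)
    (P : MvPolynomial (Option (Σ i : Fin r, Ix (g i) × Fin m)) L) :
    MvPolynomial.aeval (HGP.tpt lam M) (MvPolynomial.bind₁ (sub L K) P) =
      MvPolynomial.aeval (tpt (g := g) lam
        (fun i => M i * (K i).map (fun x : ℤ => (x : ℂ)))) P := by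
  rw [MvPolynomial.aeval_bind₁]
  have h : ∀ o, MvPolynomial.aeval (HGP.tpt lam M) (sub L K o) =
      tpt (g := g) lam (fun i => M i * (K i).map (fun x : ℤ => (x : ℂ))) o := by
    intro o
    cases o with
    | none =>
      rw [sub_none, MvPolynomial.aeval_X]
      rfl
    | some p =>
      rw [sub_some, map_sum]
      have h6 : tpt (g := g) lam (fun i => M i * (K i).map (fun x : ℤ => (x : ℂ))) (some p) =
        ∑ l, M p.1 p.2.1 l * ((K p.1 l p.2.2 : ℤ) : ℂ) := rfl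
      rw [h6]
      refine Finset.sum_congr rfl fun l _ => ?_
      exact aeval_term L _ _ _
  rw [funext h]

theorem crv_fus (g : ℕ) (f : Fin (2 * g + 1) → ℚ) (t : ℚ) (z : ℂ)
    (hz : z = ((f 0 : ℚ) : ℂ) + ((t : ℚ) : ℂ)) :
    crv g f t = fus g (cC (fun k : Fin (2 * g) => f k.succ)) z := by
  unfold crv fus Pool.Agent.GPH.pol cC
  rw [Fin.sum_univ_succ, Fin.sum_univ_succ, hz]
  simp only [Fin.val_zero, pow_zero, mul_one, Fin.val_succ, Fin.cons_zero, Fin.cons_succ,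
    Polynomial.C_add]
  ring

theorem per_eq {F F' : Polynomial ℂ} (h : F = F') (γ : CPath F) :
    ∃ γ' : CPath F', ∀ p, γ'.per p = γ.per p := by
  subst h
  exact ⟨γ, fun p => rfl⟩

theorem simil_mul {g : ℕ} {mu lam : ℂ} {h M : Matrix (Ix g) (Ix g) ℂ} (h1 : Simil mu h)
    (h2 : Simil lam M) : Simil (mu * lam) (h * M) := by
  unfold Simil at h1 h2 ⊢
  rw [Matrix.transpose_mul]
  calc M.transpose * h.transpose * Matrix.J (Fin g) ℂ * (h * M)
      = M.transpose * (h.transpose * Matrix.J (Fin g) ℂ * h) * M := by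
        simp only [Matrix.mul_assoc]
    _ = _ := by
        rw [h1, Matrix.mul_smul, Matrix.smul_mul, h2, smul_smul]

/-- The critical values of different families are not proportional. -/
theorem prop {A B : Set ℂ} (ρ : ℚ) (hρ : 0 < ρ) (hA : A.Finite) (hne : A.Nonempty)
    (h0 : (0 : ℂ) ∉ A) (hAB : A ≠ B ∨ ρ ≠ 1) (hAB' : A ≠ B → (fun v => (ρ : ℂ) * v) '' A ≠ B) :
    ∃ z : ℂ, ¬ ((-z ∉ A) ↔ (-(ρ * z) ∉ B)) := by
  by_contra hcon
  push Not at hcon
  have hρC : (ρ : ℂ) ≠ 0 := by exact_mod_cast hρ.ne'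
  have h1 : ∀ z : ℂ, z ∈ A ↔ (ρ : ℂ) * z ∈ B := by
    intro z
    have h2 := hcon (-z)
    rw [neg_neg, mul_neg, neg_neg] at h2
    tauto
  have h3 : (fun v => (ρ : ℂ) * v) '' A = B := by
    ext w
    constructor
    · rintro ⟨v, hv, rfl⟩
      exact (h1 v).1 hv
    · intro hw
      refine ⟨w / ρ, ?_, ?_⟩
      · rw [h1, mul_div_cancel₀ _ hρC]
        exact hw
      · exact mul_div_cancel₀ _ hρC
  by_cases h4 : A = B
  · have h5 : ρ ≠ 1 := by
      rcases hAB with h | h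
      · exact absurd h4 h
      · exact h
    subst h4
    obtain ⟨v, hv, hmax⟩ := hA.exists_maximalFor (fun v : ℂ => ‖v‖) A hne
    have hv0 : v ≠ 0 := fun h => h0 (h ▸ hv)
    have hvp : 0 < ‖v‖ := norm_pos_iff.mpr hv0
    have hρR : (0 : ℝ) < (ρ : ℝ) := by exact_mod_cast hρ
    have hnorm : ‖(ρ : ℂ)‖ = (ρ : ℝ) := by
      have : (ρ : ℂ) = ((ρ : ℝ) : ℂ) := by push_cast; rfl
      rw [this, Complex.norm_real, Real.norm_of_nonneg hρR.le]
    rcases lt_or_gt_of_ne h5 with h6 | h6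
    · -- ρ < 1
      have h7 : v / ρ ∈ A := by
        rw [h1, mul_div_cancel₀ _ hρC]
        exact hv
      have h8 : ‖v‖ < ‖v / (ρ : ℂ)‖ := by
        rw [norm_div, hnorm, lt_div_iff₀ hρR]
        have : (ρ : ℝ) < 1 := by exact_mod_cast h6
        nlinarith
      exact absurd (hmax h7 h8.le) (not_le.mpr h8)
    · have h7 : (ρ : ℂ) * v ∈ A := (h1 v).1 hv
      have h8 : ‖v‖ < ‖(ρ : ℂ) * v‖ := by
        rw [norm_mul, hnorm]
        have : (1 : ℝ) < (ρ : ℝ) := by exact_mod_cast h6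
        nlinarith
      exact absurd (hmax h7 h8.le) (not_le.mpr h8)
  · exact hAB' h4 h3

end FINC_

open FINC_ in
/-- Module FINC. -/
theorem finc_proof (hMain : Stmt_MainC) (hNFC : Stmt_NFC) (hRefX : Stmt_RefX) (hCvP : Stmt_CvP) :
    Stmt_FinC := by
  intro nF G f hG h0 hcard hnp r φ D
  let c : ∀ a, Fin (2 * G a) → ℚ := fun a k => f a k.succ
  let s : Fin nF → ℚ := fun a => f a 0
  have hP2 : ∀ a, P2 (c a) ≠ 0 := fun a => (hCvP (G a) (f a)).1 (hcard a)
  have hsep : ∀ a (z : ℂ), Sep (c a) (((s a : ℚ) : ℂ) + z) ↔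
      -z ∉ critVals (crv (G a) (f a) 0) := fun a z => (hCvP (G a) (f a)).2 z
  have hSep : ∀ a, Sep (c a) (s a) := by
    intro a
    have h1 := (hsep a 0).2 (by rw [neg_zero]; exact h0 a)
    rwa [add_zero] at h1
  choose R W hRef using fun a => hRefX (G a) (c a) (s a) (hG a) (hSep a)
  have hfin : ∀ a, (critVals (crv (G a) (f a) 0)).Finite := by
    intro a
    apply Set.finite_of_ncard_pos
    rw [hcard a]
    have := hG a
    omega
  have hnonempty : ∀ a, (critVals (crv (G a) (f a) 0)).Nonempty := by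
    intro a
    apply Set.nonempty_of_ncard_ne_zero
    rw [hcard a]
    have := hG a
    omega
  have hprop : ∀ (a b : Fin nF) (ρ : ℚ), 0 < ρ → (a ≠ b ∨ ρ ≠ 1) →
      ∃ z : ℂ, ¬(Sep (c a) (s a + z) ↔ Sep (c b) (s b + ρ * z)) := by
    intro a b ρ hρ hab
    have h1 : critVals (crv (G a) (f a) 0) ≠ critVals (crv (G b) (f b) 0) ∨ ρ ≠ 1 := by
      rcases hab with h | h
      · left
        intro h2
        apply hnp a b h 1 one_pos
        rw [← h2]
        ext w
        simp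
      · exact Or.inr h
    obtain ⟨z, hz⟩ := prop ρ hρ (hfin a) (hnonempty a) (h0 a) h1 (by
      intro h2
      have h3 : a ≠ b := by
        rintro rfl
        exact h2 rfl
      exact hnp a b h3 ρ hρ)
    refine ⟨z, ?_⟩
    rw [hsep a z, hsep b (ρ * z)]
    exact hz
  obtain ⟨δ, hδ, n₀, hn₀⟩ := hMain nF G c s hG hP2 hSep hprop R W hRef r φ (D * D)
  refine ⟨δ, hδ, n₀, fun n hn => ?_⟩
  obtain ⟨S, hS1, hS2⟩ := hn₀ n hn
  refine ⟨S, hS1, ?_⟩
  intro ρ hρ1 hρ2 m γ L hL hLD P hPD hP0 mu h hmu hh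
  obtain ⟨hball, hrel⟩ := hS2 ρ hρ1 (fun i => ⟨(hρ2 i).1, (hρ2 i).2.1, (hρ2 i).2.2⟩)
  by_contra hne
  -- the integral matrices
  have hK : ∀ i (j : Fin m), ∃ K : Ix (G (φ i)) → ℤ, ∀ k,
      (γ i j).per (num (G (φ i)) (crv (G (φ i)) (f (φ i)) (ρ i / n)) k) =
        ∑ l, (NmC (G (φ i)) (c (φ i)) *
          W (φ i) ((s (φ i) : ℂ) + (((ρ i / n : ℚ)) : ℂ))) k l * K l := by
    intro i j
    have h1 := crv_fus (G (φ i)) (f (φ i)) (ρ i / n)
      ((s (φ i) : ℂ) + (((ρ i / n : ℚ)) : ℂ)) rfl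
    obtain ⟨γ', hγ'⟩ := per_eq h1 (γ i j)
    obtain ⟨K, hK⟩ := (hRef (φ i)).loops _ (hball i) γ'
    refine ⟨K, fun k => ?_⟩
    have h2 : num (G (φ i)) (crv (G (φ i)) (f (φ i)) (ρ i / n)) k =
        num (G (φ i)) (fus (G (φ i)) (cC (fun k : Fin (2 * G (φ i)) => f (φ i) k.succ))
          ((s (φ i) : ℂ) + (((ρ i / n : ℚ)) : ℂ))) k := by
      rw [h1]
    exact ((hγ' _).symm.trans (congrArg (fun p => γ'.per p) h2)).trans (hK k)
  choose K hK using hK
  let KM : ∀ i, Matrix (Ix (G (φ i))) (Fin m) ℤ := fun i => Matrix.of fun l j => K i j l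
  have hM : ∀ i, perMat (G (φ i)) (γ i) = (NmC (G (φ i)) (c (φ i)) *
      W (φ i) ((s (φ i) : ℂ) + (((ρ i / n : ℚ)) : ℂ))) *
        (KM i).map (fun x : ℤ => (x : ℂ)) := by
    intro i
    ext k j
    unfold perMat
    rw [Matrix.of_apply, hK i j k, Matrix.mul_apply]
    rfl
  have hsim : ∀ i, Simil (2 * Real.pi * Complex.I) (NmC (G (φ i)) (c (φ i)) *
      W (φ i) ((s (φ i) : ℂ) + (((ρ i / n : ℚ)) : ℂ))) :=
    fun i => (hRef (φ i)).simil _ (hball i)
  -- the polynomial for the square matrices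
  obtain ⟨P', hP'⟩ := hNFC r (fun i => G (φ i)) (fun i => NmC (G (φ i)) (c (φ i)) *
      W (φ i) ((s (φ i) : ℂ) + (((ρ i / n : ℚ)) : ℂ))) L hL
    (MvPolynomial.bind₁ (sub L KM) P) (by
      rw [aeval_sub]
      exact (congrArg (fun M => MvPolynomial.aeval (tpt (g := fun i => G (φ i))
        (2 * Real.pi * Complex.I) M) P) (funext hM)).symm.trans hP0)
    ⟨mu * (2 * Real.pi * Complex.I), fun i => h i * (NmC (G (φ i)) (c (φ i)) *
      W (φ i) ((s (φ i) : ℂ) + (((ρ i / n : ℚ)) : ℂ))),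
      mul_ne_zero hmu Complex.two_pi_I_ne_zero, fun i => simil_mul (hh i) (hsim i), by
        rw [aeval_sub]
        intro h1
        apply hne
        refine Eq.trans (congrArg (fun M => MvPolynomial.aeval (tpt (g := fun i => G (φ i))
          (mu * (2 * Real.pi * Complex.I)) M) P) (funext fun i => ?_)) h1
        rw [hM i, ← Matrix.mul_assoc]⟩
  refine hrel P' ?_
  obtain ⟨h1, h2, h3⟩ := hP'
  refine ⟨le_trans h1 (Nat.mul_le_mul hLD ?_), h2, h3⟩
  exact le_trans (totalDegree_bind_le _ (sub_deg L KM) P) hPD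

end

end Pool.Agent.DG2
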