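import Pool.Agent.DG2.AStmts
import Pool.Agent.DGP.Mono
import Pool.Agent.DGP.Tens

set_option autoImplicit false

/-!
DG2, module FULLJ: the full system.
-/

open Finset

namespace Pool.Agent.DG2

open Pool.Agent.DGP (GSys IsZ hd val Conv tens)

theorem fullj_proof (hBase : Stmt_BasJ) (hDSum : Stmt_DSmJ) : Stmt_FullJ := by
  intro K g c s hs E
  choose C hC using fun k => hBase (g k) (c k) (s k) (hs k)
  refine ⟨(∑ l, C l + 2) ^ ((K + 1) * (E + 2)), (∑ l, (2 * g l + 1)) * ((K + 1) * (E + 2)),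
    (∑ l, 2 * g l) * K, ?_⟩
  intro d b hb hd
  have hb' : (1 : ℝ) ≤ b := by exact_mod_cast hb
  choose e₀ c₀ hG using fun k : Fin K => hC k (d k) (hd k).1
  have hsum : ∀ k, c₀ k ≤ 1 + ∑ l, |c₀ l| := by
    intro k
    have h3 : |c₀ k| ≤ ∑ l, |c₀ l| :=
      Finset.single_le_sum (f := fun l => |c₀ l|) (fun l _ => abs_nonneg _) (Finset.mem_univ k)
    have h4 := le_abs_self (c₀ k)
    linarith
  have hH : ∀ k, ((C k : ℝ) * (d k : ℝ) ^ (2 * g k + 1)) ≤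
      (((∑ l, C l : ℕ) : ℝ) + 2) * (b : ℝ) ^ (∑ l, (2 * g l + 1)) := by
    intro k
    have h3 : (d k : ℝ) ≤ b := by exact_mod_cast (hd k).2
    have h4 : (d k : ℝ) ^ (2 * g k + 1) ≤ (b : ℝ) ^ (∑ l, (2 * g l + 1)) :=
      (pow_le_pow_left₀ (by positivity) h3 _).trans (pow_le_pow_right₀ hb'
        (Finset.single_le_sum (f := fun l => 2 * g l + 1) (fun l _ => Nat.zero_le _)
          (Finset.mem_univ k)))
    have h5 : C k ≤ ∑ l, C l :=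
      Finset.single_le_sum (f := fun l => C l) (fun l _ => Nat.zero_le _) (Finset.mem_univ k)
    have h6 : (C k : ℝ) ≤ ((∑ l, C l : ℕ) : ℝ) + 2 := by
      have h7 : (C k : ℝ) ≤ ((∑ l, C l : ℕ) : ℝ) := by exact_mod_cast h5
      linarith
    exact mul_le_mul h6 h4 (by positivity) (by positivity)
  have hG' : ∀ k, GSys (fun p : Fin (2 * g k) × Fin (2 * g k) =>
      PowerSeries.rescale (d k : ℚ) (Ys (c k) (s k) p)) (Td (c k) (s k) (d k)) (∑ l, 2 * g l)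
      (∑ l, e₀ l) (1 + ∑ l, |c₀ l|)
      ((((∑ l, C l : ℕ) : ℝ) + 2) * (b : ℝ) ^ (∑ l, (2 * g l + 1))) := by
    intro k
    exact DGP.Mono_proof _ _ _ _ _ _ _ _ _ _ _ (hG k)
      (Finset.single_le_sum (f := fun l => 2 * g l) (fun l _ => Nat.zero_le _)
        (Finset.mem_univ k))
      (Finset.single_le_sum (f := fun l => e₀ l) (fun l _ => Nat.zero_le _) (Finset.mem_univ k))
      (hsum k) (hH k)
  have h3 : (1 : ℝ) ≤ 1 + ∑ l, |c₀ l| := by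
    have : (0 : ℝ) ≤ ∑ l, |c₀ l| := Finset.sum_nonneg (fun l _ => abs_nonneg _)
    linarith
  have h4 : (2 : ℝ) ≤ (((∑ l, C l : ℕ) : ℝ) + 2) * (b : ℝ) ^ (∑ l, (2 * g l + 1)) := by
    have h5 : (0 : ℝ) ≤ ((∑ l, C l : ℕ) : ℝ) := Nat.cast_nonneg _
    have h6 : (1 : ℝ) ≤ (b : ℝ) ^ (∑ l, (2 * g l + 1)) := one_le_pow₀ hb'
    nlinarith
  obtain ⟨e₁, c₁, hD⟩ := hDSum K (fun k => Fin (2 * g k) × Fin (2 * g k))
    (fun k p => PowerSeries.rescale (d k : ℚ) (Ys (c k) (s k) p))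
    (fun k => Td (c k) (s k) (d k)) (∑ l, 2 * g l) _ _ _ h3 h4 hG'
  have hfun : (fun o : Option (Σ k, Fin (2 * g k) × Fin (2 * g k)) => o.elim 1
      (fun p => PowerSeries.rescale (d p.1 : ℚ) (Ys (c p.1) (s p.1) p.2))) = fullJ c s d := by
    funext o
    cases o <;> rfl
  rw [hfun] at hD
  obtain ⟨e₂, c₂, hT⟩ := DGP.Tens_proof _ _ _ _ _ _ _ hD E
  refine ⟨e₂, c₂, ?_⟩
  have hpow : (((((∑ l, C l : ℕ) : ℝ) + 2) * (b : ℝ) ^ (∑ l, (2 * g l + 1))) ^ (K + 1)) ^ (E + 2)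
      = (((∑ l, C l + 2) ^ ((K + 1) * (E + 2)) : ℕ) : ℝ) *
        (b : ℝ) ^ ((∑ l, (2 * g l + 1)) * ((K + 1) * (E + 2))) := by
    rw [← pow_mul, mul_pow, ← pow_mul]
    push_cast
    rfl
  rw [hpow] at hT
  exact hT

end Pool.Agent.DG2
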