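import Pool.Agent.DG2.AStmts
import Pool.Agent.GPH.Cdmap

set_option autoImplicit false

/-!
# DG2, module GOOD: the denominators at the good primes
-/

open Finset

namespace Pool.Agent.DG2

open Pool.Agent.GPH (f0 g0 Cop Dop)
open Pool.Agent.DGP (GSys IsZ hd val Conv tens)

namespace GOOD_

noncomputable section

/-! ### integral rationals -/

lemma isZ_zero : IsZ 0 := ⟨0, by simp⟩

lemma isZ_one : IsZ 1 := ⟨1, by simp⟩

lemma isZ_add {x y : ℚ} (hx : IsZ x) (hy : IsZ y) : IsZ (x + y) := by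
  obtain ⟨a, rfl⟩ := hx
  obtain ⟨b, rfl⟩ := hy
  exact ⟨a + b, by push_cast; ring⟩

lemma isZ_mul {x y : ℚ} (hx : IsZ x) (hy : IsZ y) : IsZ (x * y) := by
  obtain ⟨a, rfl⟩ := hx
  obtain ⟨b, rfl⟩ := hy
  exact ⟨a * b, by push_cast; ring⟩

lemma isZ_neg {x : ℚ} (hx : IsZ x) : IsZ (-x) := by
  obtain ⟨a, rfl⟩ := hx
  exact ⟨-a, by push_cast; ring⟩

lemma isZ_nat (n : ℕ) : IsZ (n : ℚ) := ⟨n, by simp⟩

lemma isZ_int (n : ℤ) : IsZ (n : ℚ) := ⟨n, rfl⟩

lemma isZ_pow {x : ℚ} (hx : IsZ x) (n : ℕ) : IsZ (x ^ n) := by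
  obtain ⟨a, rfl⟩ := hx
  exact ⟨a ^ n, by push_cast; ring⟩

lemma isZ_sum {ι : Type} (s : Finset ι) (f : ι → ℚ) (h : ∀ i ∈ s, IsZ (f i)) :
    IsZ (∑ i ∈ s, f i) := by
  classical
  induction s using Finset.induction_on with
  | empty => simpa using isZ_zero
  | insert a s ha ih =>
    rw [Finset.sum_insert ha]
    exact isZ_add (h a (Finset.mem_insert_self a s))
      (ih fun i hi => h i (Finset.mem_insert_of_mem hi))

lemma isZ_of_den {x : ℚ} {M : ℕ} (h : x.den ∣ M) : IsZ ((M : ℚ) * x) := by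
  obtain ⟨q, rfl⟩ := h
  refine ⟨q * x.num, ?_⟩
  have h1 : (x.den : ℚ) * x = x.num := by
    rw [mul_comm]
    exact Rat.mul_den_eq_num x
  push_cast
  linear_combination (q : ℚ) * h1

/-! ### polynomials with coefficients in `ℤ[1/M]` -/

/-- The rationals with denominator dividing a power of `M`. -/
def ZM (M : ℕ) : Subring ℚ where
  carrier := {x | ∃ e : ℕ, IsZ ((M : ℚ) ^ e * x)}
  mul_mem' := by
    rintro x y ⟨e, he⟩ ⟨e', he'⟩
    refine ⟨e + e', ?_⟩
    have := isZ_mul he he'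
    rwa [show (M : ℚ) ^ e * x * ((M : ℚ) ^ e' * y) = (M : ℚ) ^ (e + e') * (x * y) by ring]
      at this
  one_mem' := ⟨0, by simpa using isZ_one⟩
  add_mem' := by
    rintro x y ⟨e, he⟩ ⟨e', he'⟩
    refine ⟨e + e', ?_⟩
    have h1 := isZ_mul (isZ_pow (isZ_nat M) e') he
    have h2 := isZ_mul (isZ_pow (isZ_nat M) e) he'
    have := isZ_add h1 h2
    rwa [show (M : ℚ) ^ e' * ((M : ℚ) ^ e * x) + (M : ℚ) ^ e * ((M : ℚ) ^ e' * y) =
      (M : ℚ) ^ (e + e') * (x + y) by ring] at this
  zero_mem' := ⟨0, by simpa using isZ_zero⟩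
  neg_mem' := by
    rintro x ⟨e, he⟩
    refine ⟨e, ?_⟩
    have := isZ_neg he
    rwa [show -((M : ℚ) ^ e * x) = (M : ℚ) ^ e * (-x) by ring] at this

lemma mem_ZM {M : ℕ} {x : ℚ} : x ∈ ZM M ↔ ∃ e : ℕ, IsZ ((M : ℚ) ^ e * x) := Iff.rfl

lemma mem_ZM_of_den {M : ℕ} {x : ℚ} (h : x.den ∣ M) : x ∈ ZM M := by
  refine ⟨1, ?_⟩
  rw [pow_one]
  exact isZ_of_den h

/-- The polynomials with coefficients in `ZM M`. -/
def SS (M : ℕ) : Subring (Polynomial ℚ) where
  carrier := {P | ∀ l, P.coeff l ∈ ZM M}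
  mul_mem' := by
    intro P Q hP hQ l
    rw [Polynomial.coeff_mul]
    exact Subring.sum_mem _ fun x _ => (ZM M).mul_mem (hP _) (hQ _)
  one_mem' := by
    intro l
    rw [Polynomial.coeff_one]
    split_ifs
    · exact (ZM M).one_mem
    · exact (ZM M).zero_mem
  add_mem' := by
    intro P Q hP hQ l
    rw [Polynomial.coeff_add]
    exact (ZM M).add_mem (hP _) (hQ _)
  zero_mem' := by
    intro l
    rw [Polynomial.coeff_zero]
    exact (ZM M).zero_mem
  neg_mem' := by
    intro P hP l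
    rw [Polynomial.coeff_neg]
    exact (ZM M).neg_mem (hP _)

lemma mem_SS {M : ℕ} {P : Polynomial ℚ} : P ∈ SS M ↔ ∀ l, P.coeff l ∈ ZM M := Iff.rfl

lemma C_mem_SS {M : ℕ} {x : ℚ} (hx : x ∈ ZM M) : Polynomial.C x ∈ SS M := by
  intro l
  rw [Polynomial.coeff_C]
  split_ifs
  · exact hx
  · exact (ZM M).zero_mem

lemma X_mem_SS {M : ℕ} : (Polynomial.X : Polynomial ℚ) ∈ SS M := by
  intro l
  rw [Polynomial.coeff_X]
  split_ifs
  · exact (ZM M).one_mem
  · exact (ZM M).zero_mem

/-- A uniform exponent. -/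
lemma uniform {M : ℕ} {P : Polynomial ℚ} (h : P ∈ SS M) :
    ∃ e : ℕ, ∀ l, IsZ ((M : ℚ) ^ e * P.coeff l) := by
  classical
  choose e he using fun l => mem_ZM.1 (h l)
  refine ⟨∑ l ∈ P.support, e l, fun l => ?_⟩
  by_cases hl : l ∈ P.support
  · have h1 : ∑ l ∈ P.support, e l = e l + ∑ j ∈ P.support.erase l, e j := by
      rw [Finset.add_sum_erase _ _ hl]
    rw [h1, pow_add]
    have := isZ_mul (isZ_pow (isZ_nat M) (∑ j ∈ P.support.erase l, e j)) (he l)
    rwa [show (M : ℚ) ^ (∑ j ∈ P.support.erase l, e j) * ((M : ℚ) ^ e l * P.coeff l) =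
      (M : ℚ) ^ e l * (M : ℚ) ^ (∑ j ∈ P.support.erase l, e j) * P.coeff l by ring] at this
  · rw [Polynomial.notMem_support_iff.1 hl, mul_zero]
    exact isZ_zero

/-! ### the ring -/

/-- The field. -/
abbrev KK : Type := FractionRing (Polynomial ℚ)

/-- The embedding. -/
abbrev ph : Polynomial ℚ →+* KK := algebraMap (Polynomial ℚ) KK

lemma ph_inj : Function.Injective ph := IsFractionRing.injective (Polynomial ℚ) KK

lemma ph_C (x : ℚ) : ph (Polynomial.C x) = algebraMap ℚ KK x := by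
  have h : ph.comp (Polynomial.C : ℚ →+* Polynomial ℚ) = algebraMap ℚ KK :=
    Subsingleton.elim _ _
  exact RingHom.congr_fun h x

/-- The ring `ℤ[1/M, X, 1/T]`. -/
def RR (M : ℕ) (T : Polynomial ℚ) (hT : T ∈ SS M) : Subring KK where
  carrier := {x | ∃ b : ℕ, ∃ P ∈ SS M, ph T ^ b * x = ph P}
  mul_mem' := by
    rintro x y ⟨b, P, hP, h⟩ ⟨b', P', hP', h'⟩
    refine ⟨b + b', P * P', (SS M).mul_mem hP hP', ?_⟩
    rw [map_mul, ← h, ← h']
    ring
  one_mem' := ⟨0, 1, (SS M).one_mem, by simp⟩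
  add_mem' := by
    rintro x y ⟨b, P, hP, h⟩ ⟨b', P', hP', h'⟩
    refine ⟨b + b', T ^ b' * P + T ^ b * P', (SS M).add_mem
      ((SS M).mul_mem ((SS M).pow_mem hT _) hP) ((SS M).mul_mem ((SS M).pow_mem hT _) hP'), ?_⟩
    rw [map_add, map_mul, map_mul, map_pow, map_pow, ← h, ← h']
    ring
  zero_mem' := ⟨0, 0, (SS M).zero_mem, by simp⟩
  neg_mem' := by
    rintro x ⟨b, P, hP, h⟩
    refine ⟨b, -P, (SS M).neg_mem hP, ?_⟩
    rw [map_neg, ← h]
    ring

lemma mem_RR {M : ℕ} {T : Polynomial ℚ} {hT : T ∈ SS M} {x : KK} :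
    x ∈ RR M T hT ↔ ∃ b : ℕ, ∃ P ∈ SS M, ph T ^ b * x = ph P := Iff.rfl

lemma ph_mem_RR {M : ℕ} {T : Polynomial ℚ} (hT : T ∈ SS M) {P : Polynomial ℚ}
    (hP : P ∈ SS M) : ph P ∈ RR M T hT := ⟨0, P, hP, by simp⟩

lemma inv_mem_RR {M : ℕ} {T : Polynomial ℚ} (hT : T ∈ SS M) (h0 : T ≠ 0) :
    (ph T)⁻¹ ∈ RR M T hT := by
  refine ⟨1, 1, (SS M).one_mem, ?_⟩
  have : ph T ≠ 0 := by
    intro h
    exact h0 (ph_inj (by rw [h, map_zero]))
  rw [pow_one, map_one, mul_inv_cancel₀ this]

/-! ### polynomials over a subring -/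

lemma exists_lift {R : Subring KK} (p : Polynomial KK) (hp : ∀ l, p.coeff l ∈ R) :
    ∃ q : Polynomial R, q.map R.subtype = p := by
  have : p ∈ Polynomial.lifts R.subtype := by
    rw [Polynomial.lifts_iff_coeff_lifts]
    intro n
    exact ⟨⟨p.coeff n, hp n⟩, rfl⟩
  rw [Polynomial.mem_lifts] at this
  exact this

lemma map_inj (R : Subring KK) : Function.Injective (Polynomial.map R.subtype) :=
  Polynomial.map_injective _ Subtype.val_injective

/-! ### the operator `Lam` -/

lemma Lam_map {R R' : Type} [CommRing R] [CommRing R'] (φ : R →+* R') (F : Polynomial R)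
    (k : ℕ) (h : Polynomial R) : (Lam F k h).map φ = Lam (F.map φ) k (h.map φ) := by
  unfold Lam
  simp only [Polynomial.map_sub, Polynomial.map_mul, Polynomial.derivative_map,
    Polynomial.map_ofNat, map_intCast, Polynomial.map_intCast]

lemma Lam_add {R : Type} [CommRing R] (F : Polynomial R) (k : ℕ) (h h' : Polynomial R) :
    Lam F k (h + h') = Lam F k h + Lam F k h' := by
  unfold Lam
  rw [Polynomial.derivative_add]
  ring

lemma Lam_C_mul {R : Type} [CommRing R] (F : Polynomial R) (k : ℕ) (a : R)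
    (h : Polynomial R) : Lam F k (Polynomial.C a * h) = Polynomial.C a * Lam F k h := by
  unfold Lam
  rw [Polynomial.derivative_C_mul]
  ring

lemma Lam_pow {R : Type} [CommRing R] (F : Polynomial R) (k : ℕ) (q : Polynomial R) :
    Lam F k (F ^ k * q) = F ^ k * Lam F 0 q := by
  unfold Lam
  rw [Polynomial.derivative_mul, Polynomial.derivative_pow]
  cases k with
  | zero => simp
  | succ n =>
    simp only [Nat.add_sub_cancel, map_natCast, Int.cast_sub, Int.cast_mul, Int.cast_ofNat,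
      Int.cast_natCast, Int.cast_one, Nat.cast_zero, map_sub, map_mul, map_ofNat, map_one]
    push_cast
    simp only [map_zero]
    ring

lemma Lam_natDegree {K : Type} [Field K] (F : Polynomial K) (N k : ℕ)
    (hF : F.natDegree ≤ N + 1) (h : Polynomial K) :
    (Lam F k h).natDegree ≤ h.natDegree + N := by
  unfold Lam
  have hF' : (Polynomial.derivative F).natDegree ≤ N := by
    have := Polynomial.natDegree_derivative_le F
    omega
  refine (Polynomial.natDegree_sub_le _ _).trans (max_le ?_ ?_)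
  · by_cases h0 : h.natDegree = 0
    · rw [Polynomial.derivative_of_natDegree_zero h0]
      simp
    · have h1 := Polynomial.natDegree_mul_le (p := 2 * Polynomial.derivative h) (q := F)
      have h2 := Polynomial.natDegree_mul_le (p := (2 : Polynomial K))
        (q := Polynomial.derivative h)
      have h3 := Polynomial.natDegree_derivative_le h
      have h4 : (2 : Polynomial K).natDegree = 0 := Polynomial.natDegree_ofNat 2
      omega
  · have h1 := Polynomial.natDegree_mul_le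
      (p := Polynomial.C ((2 * (k : ℤ) - 1 : ℤ) : K) * h) (q := Polynomial.derivative F)
    have h2 := Polynomial.natDegree_C_mul_le ((2 * (k : ℤ) - 1 : ℤ) : K) h
    omega

/-! ### the matrices -/

variable {m : ℕ} (c : Fin m → ℚ)

/-- The coefficients in the field. -/
abbrev cK : Fin m → KK := fun i => algebraMap ℚ KK (c i)

/-- The parameter. -/
abbrev sK : KK := ph Polynomial.X

lemma Sm_map : (sK • (1 : Matrix (Fin m) (Fin m) KK) + (Cop (cK c)).transpose) =
    (Sm c).map ph := by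
  have h1 := (Pool.Agent.GPH.cdmap_proof ℚ KK (algebraMap ℚ KK) m c).1
  rw [h1]
  ext i j
  simp only [Sm, Am, Matrix.add_apply, Matrix.smul_apply, Matrix.transpose_apply,
    Matrix.map_apply, smul_eq_mul, map_add, map_mul, ph_C]
  congr 2
  by_cases hij : i = j
  · subst hij
    simp
  · simp [Matrix.one_apply_ne hij]

lemma Em_map (k : ℕ) : ((Dop (cK c)).transpose - (k : KK) • (1 : Matrix (Fin m) (Fin m) KK)) =
    (((Em c - (k : ℚ) • (1 : Matrix (Fin m) (Fin m) ℚ)).map Polynomial.C).map ph) := by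
  have h1 := (Pool.Agent.GPH.cdmap_proof ℚ KK (algebraMap ℚ KK) m c).2.1
  rw [h1]
  ext i j
  simp only [Em, Matrix.sub_apply, Matrix.smul_apply, Matrix.transpose_apply,
    Matrix.map_apply, smul_eq_mul, map_sub, map_mul, ph_C]
  congr 2
  · rw [← ph_C]
    simp
  · by_cases hij : i = j
    · subst hij
      simp
    · simp [Matrix.one_apply_ne hij]

lemma Tp_monic : (Tp c).Monic := by
  have h : Sm c = Matrix.charmatrix (-(Am c)) := by
    ext i j : 2
    simp only [Sm, Matrix.charmatrix, Matrix.add_apply, Matrix.smul_apply, Matrix.sub_apply,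
      Matrix.map_apply, Matrix.neg_apply, smul_eq_mul, RingHom.mapMatrix_apply,
      Matrix.scalar_apply, map_neg]
    rw [sub_neg_eq_add]
    congr 1
    by_cases hij : i = j
    · subst hij
      simp
    · simp [Matrix.one_apply_ne hij, Matrix.diagonal_apply_ne _ hij]
  unfold Tp
  rw [h]
  exact Matrix.charpoly_monic _

lemma phT_ne : ph (Tp c) ≠ 0 := by
  intro h
  exact (Tp_monic c).ne_zero (ph_inj (by rw [h, map_zero]))

lemma det_map : ((Sm c).map ph).det = ph (Tp c) := by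
  unfold Tp
  rw [RingHom.map_det]
  rfl

lemma inv_map : ((Sm c).map ph)⁻¹ = (ph (Tp c))⁻¹ • (Sm c).adjugate.map ph := by
  rw [Matrix.inv_def, det_map, Ring.inverse_eq_inv']
  congr 1
  exact (RingHom.map_adjugate ph (Sm c)).symm

lemma Bk_eq (k : ℕ) : ph (Tp c) ^ k • Bk (cK c) sK k = (Bt c k).map ph := by
  induction k with
  | zero =>
    ext i j
    simp only [Bk, Bt, pow_zero, one_smul, Matrix.map_apply]
    by_cases hij : i = j
    · subst hij
      simp
    · simp [Matrix.one_apply_ne hij]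
  | succ n ih =>
    show ph (Tp c) ^ (n + 1) • ((1 / ((n : KK) + 1)) • ((sK • (1 : Matrix (Fin m) (Fin m) KK) +
      (Cop (cK c)).transpose)⁻¹ * ((Dop (cK c)).transpose -
        (n : KK) • (1 : Matrix (Fin m) (Fin m) KK)) * Bk (cK c) sK n)) =
      ((Polynomial.C (1 / ((n : ℚ) + 1))) • ((Sm c).adjugate *
      ((Em c - (n : ℚ) • (1 : Matrix (Fin m) (Fin m) ℚ)).map Polynomial.C) * Bt c n)).map ph
    rw [Sm_map, Em_map, inv_map]
    have e1 : ((Polynomial.C (1 / ((n : ℚ) + 1))) • ((Sm c).adjugate *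
      ((Em c - (n : ℚ) • (1 : Matrix (Fin m) (Fin m) ℚ)).map Polynomial.C) * Bt c n)).map ph =
      ph (Polynomial.C (1 / ((n : ℚ) + 1))) • ((Sm c).adjugate.map ph *
        (((Em c - (n : ℚ) • (1 : Matrix (Fin m) (Fin m) ℚ)).map Polynomial.C).map ph) *
          (Bt c n).map ph) := by
      rw [← Matrix.map_mul, ← Matrix.map_mul]
      ext i j
      simp only [Matrix.map_apply, Matrix.smul_apply, smul_eq_mul, map_mul]
    rw [e1, ← ih]
    have e2 : ph (Polynomial.C (1 / ((n : ℚ) + 1))) = 1 / ((n : KK) + 1) := by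
      rw [ph_C]
      simp
    rw [e2]
    simp only [Matrix.smul_mul, Matrix.mul_smul, smul_smul]
    congr 1
    have := phT_ne c
    field_simp
    ring

/-! ### determinants -/

lemma det_mem {S : Type} [CommRing S] (R : Subring S) {n : ℕ} (A : Matrix (Fin n) (Fin n) S)
    (h : ∀ i j, A i j ∈ R) : A.det ∈ R := by
  have h1 : A = (Matrix.of fun i j => (⟨A i j, h i j⟩ : R)).map R.subtype := rfl
  rw [h1, ← RingHom.mapMatrix_apply, ← RingHom.map_det]
  exact Subtype.property _

lemma adj_mem {S : Type} [CommRing S] (R : Subring S) {n : ℕ} (A : Matrix (Fin n) (Fin n) S)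
    (h : ∀ i j, A i j ∈ R) (i j : Fin n) : A.adjugate i j ∈ R := by
  have h1 : A = (Matrix.of fun i j => (⟨A i j, h i j⟩ : R)).map R.subtype := rfl
  have h2 : A.adjugate = (Matrix.of fun i j => (⟨A i j, h i j⟩ : R)).adjugate.map R.subtype := by
    conv_lhs => rw [h1]
    exact (RingHom.map_adjugate R.subtype _).symm
  rw [h2]
  exact Subtype.property _

lemma Sm_mem {M : ℕ} (hC : ∀ i j, Cop c i j ∈ ZM M) (i j : Fin m) : Sm c i j ∈ SS M := by
  simp only [Sm, Am, Matrix.add_apply, Matrix.smul_apply, Matrix.transpose_apply,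
    Matrix.map_apply, smul_eq_mul]
  refine (SS M).add_mem ((SS M).mul_mem X_mem_SS ?_) (C_mem_SS (hC j i))
  by_cases hij : i = j
  · subst hij
    rw [Matrix.one_apply_eq]
    exact (SS M).one_mem
  · rw [Matrix.one_apply_ne hij]
    exact (SS M).zero_mem

lemma Tp_mem {M : ℕ} (hC : ∀ i j, Cop c i j ∈ ZM M) : Tp c ∈ SS M :=
  det_mem _ _ (Sm_mem c hC)

/-! ### the polynomial `F` -/

lemma F_monic {R : Type} [CommRing R] (c : Fin m → R) (s : R) :
    (f0 c + Polynomial.C s).Monic := by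
  refine Polynomial.monic_of_natDegree_le_of_coeff_eq_one (m + 1) ?_ ?_
  · rw [Polynomial.natDegree_le_iff_coeff_eq_zero]
    intro n hn
    rw [Polynomial.coeff_add, Pool.Agent.GPH.Cdmap_.f0_coeff_gt c n hn, zero_add,
      Polynomial.coeff_C_of_ne_zero (by omega)]
  · rw [Polynomial.coeff_add, Pool.Agent.GPH.Cdmap_.f0_coeff_top, Polynomial.coeff_C_succ,
      add_zero]

lemma F_natDegree {R : Type} [CommRing R] [Nontrivial R] (c : Fin m → R) (s : R) :
    (f0 c + Polynomial.C s).natDegree = m + 1 := by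
  refine Polynomial.natDegree_eq_of_le_of_coeff_ne_zero ?_ ?_
  · rw [Polynomial.natDegree_le_iff_coeff_eq_zero]
    intro n hn
    rw [Polynomial.coeff_add, Pool.Agent.GPH.Cdmap_.f0_coeff_gt c n hn, zero_add,
      Polynomial.coeff_C_of_ne_zero (by omega)]
  · rw [Polynomial.coeff_add, Pool.Agent.GPH.Cdmap_.f0_coeff_top, Polynomial.coeff_C_succ,
      add_zero]
    exact one_ne_zero

lemma F_map {R R' : Type} [CommRing R] [CommRing R'] (φ : R →+* R') (c : Fin m → R) (s : R) :
    (f0 c + Polynomial.C s).map φ = f0 (fun i => φ (c i)) + Polynomial.C (φ s) := by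
  rw [Pool.Agent.GPH.Cdmap_.f0_map, Polynomial.map_add, Polynomial.map_C]

/-- Over the field. -/
abbrev FK : Polynomial KK := f0 (cK c) + Polynomial.C sK

lemma comb {K : Type} [CommRing K] {m : ℕ} (a : Fin m → K) (v : Fin m → Polynomial K)
    (F F' : Polynomial K) :
    (∑ k : Fin m, Polynomial.C (a k) * Polynomial.X ^ (k : ℕ)) * F +
      (-∑ k : Fin m, Polynomial.C (a k) * v k) * F' =
    ∑ k : Fin m, Polynomial.C (a k) * (Polynomial.X ^ (k : ℕ) * F - v k * F') := by
  rw [neg_mul, Finset.sum_mul, Finset.sum_mul, ← sub_eq_add_neg, ← Finset.sum_sub_distrib]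
  refine Finset.sum_congr rfl fun k _ => ?_
  ring

lemma bez (hm : 0 < m) (u : Fin m → Polynomial ℚ)
    (hu : ∀ k : Fin m, Polynomial.X ^ (k : ℕ) * f0 c = u k * Polynomial.derivative (f0 c) +
      ∑ l : Fin m, Polynomial.C (Cop c l k) * Polynomial.X ^ (l : ℕ)) :
    (∑ k : Fin m, Polynomial.C ((ph (Tp c))⁻¹ * ph ((Sm c).adjugate ⟨0, hm⟩ k)) *
      Polynomial.X ^ (k : ℕ)) * FK c + (-∑ k : Fin m, Polynomial.C ((ph (Tp c))⁻¹ *
        ph ((Sm c).adjugate ⟨0, hm⟩ k)) * (u k).map (algebraMap ℚ KK)) *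
          Polynomial.derivative (FK c) = 1 := by
  have hder : Polynomial.derivative (FK c) = (Polynomial.derivative (f0 c)).map
      (algebraMap ℚ KK) := by
    rw [FK, Polynomial.derivative_add, Polynomial.derivative_C, add_zero,
      ← Polynomial.derivative_map, Pool.Agent.GPH.Cdmap_.f0_map]
  have hk : ∀ k : Fin m, Polynomial.X ^ (k : ℕ) * FK c -
      (u k).map (algebraMap ℚ KK) * Polynomial.derivative (FK c) =
        ∑ l : Fin m, Polynomial.C (ph (Sm c k l)) * Polynomial.X ^ (l : ℕ) := by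
    intro k
    have h1 := congrArg (Polynomial.map (algebraMap ℚ KK)) (hu k)
    rw [Polynomial.map_mul, Polynomial.map_pow, Polynomial.map_X, Polynomial.map_add,
      Polynomial.map_mul, Polynomial.map_sum, ← Pool.Agent.GPH.Cdmap_.f0_map] at h1
    have h2 : ∑ l : Fin m, Polynomial.C (ph (Sm c k l)) * Polynomial.X ^ (l : ℕ) =
        Polynomial.C sK * Polynomial.X ^ (k : ℕ) + ∑ l : Fin m,
          Polynomial.map (algebraMap ℚ KK) (Polynomial.C (Cop c l k) *
            Polynomial.X ^ (l : ℕ)) := by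
      have h3 : Polynomial.C sK * Polynomial.X ^ (k : ℕ) = ∑ l : Fin m,
          (if l = k then Polynomial.C sK * Polynomial.X ^ (l : ℕ) else 0 : Polynomial KK) := by
        rw [Finset.sum_ite_eq' Finset.univ k]
        simp
      rw [h3, ← Finset.sum_add_distrib]
      refine Finset.sum_congr rfl fun l _ => ?_
      simp only [Sm, Am, Matrix.add_apply, Matrix.smul_apply, Matrix.transpose_apply,
        Matrix.map_apply, smul_eq_mul, map_add, ph_C, Polynomial.map_mul, Polynomial.map_C,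
        Polynomial.map_pow, Polynomial.map_X]
      by_cases hkl : l = k
      · subst hkl
        rw [if_pos rfl, Matrix.one_apply_eq, mul_one]
        ring
      · rw [if_neg hkl, Matrix.one_apply_ne (Ne.symm hkl), mul_zero, map_zero, map_zero]
        ring
    rw [h2, hder]
    unfold FK cK
    linear_combination h1
  have hadj : ∀ l : Fin m, ∑ k : Fin m, ph ((Sm c).adjugate ⟨0, hm⟩ k) * ph (Sm c k l) =
      if l = ⟨0, hm⟩ then ph (Tp c) else 0 := by
    intro l
    have h1 := congrFun (congrFun (Matrix.adjugate_mul (Sm c)) ⟨0, hm⟩) l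
    rw [Matrix.mul_apply] at h1
    have h2 := congrArg ph h1
    rw [map_sum] at h2
    simp only [map_mul] at h2
    rw [h2]
    by_cases hl : l = ⟨0, hm⟩
    · rw [if_pos hl, hl]
      simp [Tp]
    · rw [if_neg hl]
      simp [Matrix.one_apply_ne (Ne.symm hl)]
  have e1 : (∑ k : Fin m, Polynomial.C ((ph (Tp c))⁻¹ * ph ((Sm c).adjugate ⟨0, hm⟩ k)) *
      Polynomial.X ^ (k : ℕ)) * FK c + (-∑ k : Fin m, Polynomial.C ((ph (Tp c))⁻¹ *
        ph ((Sm c).adjugate ⟨0, hm⟩ k)) * (u k).map (algebraMap ℚ KK)) *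
          Polynomial.derivative (FK c) =
      ∑ k : Fin m, Polynomial.C ((ph (Tp c))⁻¹ * ph ((Sm c).adjugate ⟨0, hm⟩ k)) *
        (Polynomial.X ^ (k : ℕ) * FK c -
          (u k).map (algebraMap ℚ KK) * Polynomial.derivative (FK c)) :=
    comb (fun k => (ph (Tp c))⁻¹ * ph ((Sm c).adjugate ⟨0, hm⟩ k))
      (fun k => (u k).map (algebraMap ℚ KK)) _ _
  rw [e1]
  simp only [hk]
  have e2 : ∑ k : Fin m, Polynomial.C ((ph (Tp c))⁻¹ * ph ((Sm c).adjugate ⟨0, hm⟩ k)) *
      ∑ l : Fin m, Polynomial.C (ph (Sm c k l)) * Polynomial.X ^ (l : ℕ) =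
      ∑ l : Fin m, Polynomial.C ((ph (Tp c))⁻¹ * (∑ k : Fin m,
        ph ((Sm c).adjugate ⟨0, hm⟩ k) * ph (Sm c k l))) * Polynomial.X ^ (l : ℕ) := by
    simp only [Finset.mul_sum]
    rw [Finset.sum_comm]
    refine Finset.sum_congr rfl fun l _ => ?_
    rw [map_sum, Finset.sum_mul]
    refine Finset.sum_congr rfl fun k _ => ?_
    rw [map_mul, map_mul, map_mul]
    ring
  rw [e2]
  simp only [hadj]
  rw [Finset.sum_eq_single (⟨0, hm⟩ : Fin m)]
  · rw [if_pos rfl, inv_mul_cancel₀ (phT_ne c)]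
    simp
  · intro l _ hl
    rw [if_neg hl]
    simp
  · intro h
    exact absurd (Finset.mem_univ _) h

/-! ### degrees -/

lemma beta_deg {K : Type} [Field K] (F : Polynomial K) (N : ℕ) (hF : F.Monic)
    (hN : F.natDegree = N + 1) (k i : ℕ) (hi : i < N) (d : K) (β r : Polynomial K)
    (hr : r = 0 ∨ r.natDegree < k * (N + 1))
    (h : Polynomial.C d * Polynomial.X ^ i = F ^ k * β + Lam F k r) : β.natDegree < N := by
  by_contra hcon
  push Not at hcon
  have hβ : β ≠ 0 := by
    intro h0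
    rw [h0, Polynomial.natDegree_zero] at hcon
    omega
  have h1 : (F ^ k * β).natDegree = k * (N + 1) + β.natDegree := by
    rw [Polynomial.natDegree_mul (pow_ne_zero _ hF.ne_zero) hβ, Polynomial.natDegree_pow, hN]
  have h2 : F ^ k * β = Polynomial.C d * Polynomial.X ^ i - Lam F k r := by
    rw [h]
    ring
  have h3 : (F ^ k * β).natDegree ≤ max i (Lam F k r).natDegree := by
    rw [h2]
    exact (Polynomial.natDegree_sub_le _ _).trans
      (max_le_max (Polynomial.natDegree_C_mul_X_pow_le _ _) le_rfl)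
  rcases hr with rfl | hr
  · have h4 : (Lam F k 0).natDegree = 0 := by simp [Lam]
    rw [h1, h4] at h3
    omega
  · have h4 := Lam_natDegree F N k hN.le r
    rw [h1] at h3
    have h5 : max i (Lam F k r).natDegree < k * (N + 1) + N := by
      apply max_lt
      · omega
      · omega
    omega

/-! ### the main step -/

lemma centr_mem {M : ℕ} (hM2 : 2 ∣ M) (k : ℕ) :
    ((-1) ^ k * (Nat.centralBinom k : ℚ) / 4 ^ k) ∈ ZM M := by
  obtain ⟨q, rfl⟩ := hM2
  refine ⟨2 * k, ⟨(-1) ^ k * Nat.centralBinom k * q ^ (2 * k), ?_⟩⟩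
  have h4 : ((2 * q : ℕ) : ℚ) ^ (2 * k) = 4 ^ k * (q : ℚ) ^ (2 * k) := by
    push_cast
    rw [mul_pow, pow_mul (2 : ℚ) 2 k]
    norm_num
  rw [h4]
  push_cast
  have : (4 : ℚ) ^ k ≠ 0 := by positivity
  field_simp

theorem main (h1 : Stmt_Red) (h2 : Stmt_LocS) (h3 : Stmt_Unq) (h4 : Stmt_Gss)
    {g : ℕ} (hg : 0 < 2 * g) (c : Fin (2 * g) → ℚ) (u : Fin (2 * g) → Polynomial ℚ)
    (hu : ∀ k : Fin (2 * g), Polynomial.X ^ (k : ℕ) * f0 c =
      u k * Polynomial.derivative (f0 c) +
        ∑ l : Fin (2 * g), Polynomial.C (Cop c l k) * Polynomial.X ^ (l : ℕ))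
    (M : ℕ) (hM2 : 2 ∣ M) (hc : ∀ i, c i ∈ ZM M) (hC : ∀ i j, Cop c i j ∈ ZM M)
    (hus : ∀ k, u k ∈ SS M) (k : ℕ) (i j : Fin (2 * g)) (l : ℕ) (p : ℕ) (hp : p.Prime)
    (hpM : ¬ p ∣ M) :
    ¬ p ∣ ((((Finset.Icc 1 (2 * k)).lcm id : ℕ) : ℚ) * (Bt c k i j).coeff l).den := by
  have hT : Tp c ∈ SS M := Tp_mem c hC
  let R : Subring KK := RR M (Tp c) hT
  have hinj := map_inj R
  have hQ : ∀ x ∈ ZM M, algebraMap ℚ KK x ∈ R := by
    intro x hx
    rw [← ph_C]
    exact ph_mem_RR hT (C_mem_SS hx)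
  let cR : Fin (2 * g) → R := fun i => ⟨algebraMap ℚ KK (c i), hQ _ (hc i)⟩
  let sR : R := ⟨sK, ph_mem_RR hT X_mem_SS⟩
  set F : Polynomial R := f0 cR + Polynomial.C sR with hF
  have hFmap : F.map R.subtype = FK c := F_map R.subtype cR sR
  have hFm : F.Monic := F_monic cR sR
  have hFd : F.natDegree = 2 * g + 1 := F_natDegree cR sR
  have hKm : (FK c).Monic := F_monic (cK c) sK
  have hKd : (FK c).natDegree = 2 * g + 1 := F_natDegree (cK c) sK
  have hadjm : ∀ a b, ph ((Sm c).adjugate a b) ∈ R := fun a b =>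
    ph_mem_RR hT (adj_mem _ _ (Sm_mem c hC) a b)
  -- coprime
  have hcop : IsCoprime F (Polynomial.derivative F) := by
    let aR : Fin (2 * g) → R := fun k => ⟨(ph (Tp c))⁻¹ * ph ((Sm c).adjugate ⟨0, hg⟩ k),
      R.mul_mem (inv_mem_RR hT (Tp_monic c).ne_zero) (hadjm _ _)⟩
    have hv : ∀ k, ∃ v : Polynomial R, v.map R.subtype = (u k).map (algebraMap ℚ KK) := by
      intro k
      refine exists_lift _ fun l => ?_
      rw [Polynomial.coeff_map]
      exact hQ _ (hus k l)
    choose v hv using hv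
    refine ⟨∑ k : Fin (2 * g), Polynomial.C (aR k) * Polynomial.X ^ (k : ℕ),
      -∑ k : Fin (2 * g), Polynomial.C (aR k) * v k, ?_⟩
    apply hinj
    rw [Polynomial.map_add, Polynomial.map_mul, Polynomial.map_mul, Polynomial.map_neg,
      Polynomial.map_sum, Polynomial.map_sum, ← Polynomial.derivative_map, hFmap,
      Polynomial.map_one]
    simp only [Polynomial.map_mul, Polynomial.map_C, Polynomial.map_pow, Polynomial.map_X, hv]
    exact bez c hg u hu
  have hcopK : IsCoprime (FK c) (Polynomial.derivative (FK c)) := by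
    have := hcop.map (Polynomial.mapRingHom R.subtype)
    rw [Polynomial.coe_mapRingHom, ← Polynomial.derivative_map, hFmap] at this
    exact this
  have htwo : IsUnit (2 : R) := by
    have h5 : algebraMap ℚ KK (1 / 2) ∈ R := by
      apply hQ
      obtain ⟨q, hq⟩ := hM2
      refine ⟨1, ⟨q, ?_⟩⟩
      rw [hq]
      push_cast
      ring
    refine IsUnit.of_mul_eq_one ⟨_, h5⟩ ?_
    apply Subtype.ext
    show (2 : KK) * algebraMap ℚ KK (1 / 2) = 1
    rw [show (2 : KK) = algebraMap ℚ KK 2 by simp, ← map_mul]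
    norm_num
  -- reduction over `R`
  set d : ℕ := (Finset.Icc 1 (2 * k)).lcm id with hd
  have hdd : ∀ i : ℕ, i < k → ((2 * i + 1 : ℕ) : ℤ) ∣ (d : ℤ) := by
    intro i hi
    rw [Int.natCast_dvd_natCast]
    exact Finset.dvd_lcm (f := id) (Finset.mem_Icc.2 ⟨by omega, by omega⟩)
  obtain ⟨h, β, hβ⟩ := h2 R F hFm hcop htwo k d hdd (Polynomial.X ^ (i : ℕ))
  set q := h /ₘ F ^ k with hq
  set r := h %ₘ F ^ k with hr
  have hdiv : r + F ^ k * q = h := Polynomial.modByMonic_add_div h (F ^ k)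
  set β' := β + Lam F 0 q with hβ'
  have hβ2 : Polynomial.C ((d : ℤ) : R) * Polynomial.X ^ (i : ℕ) =
      F ^ k * β' + Lam F k r := by
    rw [hβ, ← hdiv, Lam_add, Lam_pow]
    ring
  -- over the field
  have hβ3 : Polynomial.C (d : KK) * Polynomial.X ^ (i : ℕ) =
      FK c ^ k * β'.map R.subtype + Lam (FK c) k (r.map R.subtype) := by
    have := congrArg (Polynomial.map R.subtype) hβ2
    rw [Polynomial.map_add, Polynomial.map_mul, Polynomial.map_mul, Polynomial.map_pow,
      Polynomial.map_pow, Polynomial.map_X, Polynomial.map_C, Lam_map, hFmap] at this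
    rw [← this]
    congr 2
  have hrd : r.map R.subtype = 0 ∨ (r.map R.subtype).natDegree < k * (2 * g + 1) := by
    by_cases h0 : r = 0
    · left
      rw [h0, Polynomial.map_zero]
    · right
      have h5 : (F ^ k).natDegree = k * (2 * g + 1) := by
        rw [hFm.natDegree_pow, hFd]
      have h6 : r.degree < (F ^ k).degree := Polynomial.degree_modByMonic_lt _ (hFm.pow k)
      have h7 : r.natDegree < (F ^ k).natDegree :=
        Polynomial.natDegree_lt_natDegree h0 h6
      rw [h5] at h7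
      exact lt_of_le_of_lt Polynomial.natDegree_map_le h7
  have hβd : (β'.map R.subtype).natDegree < 2 * g :=
    beta_deg (FK c) (2 * g) hKm hKd k i i.2 d _ _ hrd hβ3
  -- the matrices
  have hdet : (sK • (1 : Matrix (Fin (2 * g)) (Fin (2 * g)) KK) +
      (Cop (cK c)).transpose).det ≠ 0 := by
    rw [Sm_map, det_map]
    exact phT_ne c
  obtain ⟨h', hh'⟩ := h1 KK (2 * g) (cK c) sK hdet k i
  set a : KK := (-1) ^ k * (Nat.centralBinom k : KK) / 4 ^ k with ha
  have haQ : a = algebraMap ℚ KK ((-1) ^ k * (Nat.centralBinom k : ℚ) / 4 ^ k) := by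
    rw [ha]
    simp
  have haR : a ∈ R := by
    rw [haQ]
    exact hQ _ (centr_mem hM2 k)
  set S : Polynomial KK := ∑ l : Fin (2 * g), Polynomial.C (Bk (cK c) sK k i l) *
    Polynomial.X ^ (l : ℕ) with hS
  have hcharz : CharZero KK := algebraRat.charZero KK
  have hSd : S.natDegree ≤ 2 * g - 1 := by
    apply Polynomial.natDegree_sum_le_of_forall_le
    intro l _
    refine (Polynomial.natDegree_C_mul_X_pow_le _ _).trans ?_
    have := l.2
    omega
  have hzero : Polynomial.C a * β'.map R.subtype - Polynomial.C (d : KK) * S = 0 := by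
    refine h3 KK (FK c) hKm ?_ hcopK k _ (Polynomial.C a * r.map R.subtype +
      Polynomial.C (-(d : KK)) * h') (Or.inl ?_) ?_
    · rw [hKd]
      exact ⟨g, rfl⟩
    · rw [hKd]
      have h5 : (Polynomial.C a * β'.map R.subtype - Polynomial.C (d : KK) * S).natDegree ≤
          2 * g - 1 := by
        refine (Polynomial.natDegree_sub_le _ _).trans (max_le ?_ ?_)
        · refine (Polynomial.natDegree_C_mul_le _ _).trans ?_
          omega
        · exact (Polynomial.natDegree_C_mul_le _ _).trans hSd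
      omega
    · rw [Lam_add, Lam_C_mul, Lam_C_mul, map_neg]
      linear_combination Polynomial.C (d : KK) * hh' - Polynomial.C a * hβ3
  have hSj : S.coeff j = Bk (cK c) sK k i j := by
    rw [hS, Polynomial.finsetSum_coeff, Finset.sum_eq_single j]
    · rw [Polynomial.coeff_C_mul, Polynomial.coeff_X_pow, if_pos rfl, mul_one]
    · intro b _ hb
      rw [Polynomial.coeff_C_mul, Polynomial.coeff_X_pow, if_neg, mul_zero]
      intro h5
      exact hb (Fin.ext h5.symm)
    · intro h5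
      exact absurd (Finset.mem_univ _) h5
  have hmem : (d : KK) * Bk (cK c) sK k i j ∈ R := by
    have h5 := congrArg (fun P => Polynomial.coeff P (j : ℕ)) hzero
    simp only [Polynomial.coeff_sub, Polynomial.coeff_C_mul, Polynomial.coeff_zero, hSj,
      Polynomial.coeff_map] at h5
    rw [← sub_eq_zero.1 h5]
    exact R.mul_mem haR (Subtype.property _)
  obtain ⟨b, P, hP, hbP⟩ := hmem
  have hBk := congrFun (congrFun (Bk_eq c k) i) j
  rw [Matrix.smul_apply, Matrix.map_apply, smul_eq_mul] at hBk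
  have hfin : Tp c ^ b * (Polynomial.C (d : ℚ) * Bt c k i j) = Tp c ^ k * P := by
    apply ph_inj
    rw [map_mul, map_mul, map_mul, map_pow, map_pow, ← hbP, ← hBk, ph_C]
    have : algebraMap ℚ KK (d : ℚ) = (d : KK) := by simp
    rw [this]
    ring
  have hmem2 : Tp c ^ b * (Polynomial.C (d : ℚ) * Bt c k i j) ∈ SS M := by
    rw [hfin]
    exact (SS M).mul_mem ((SS M).pow_mem hT _) hP
  obtain ⟨e, he⟩ := uniform hmem2
  have := h4 M (Tp c) (Tp_monic c) (uniform hT) _ e b he p hp hpM l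
  rwa [Polynomial.coeff_C_mul] at this

end

end GOOD_

open GOOD_ in
theorem good_proof (h1 : Stmt_Red) (h2 : Stmt_LocS) (h3 : Stmt_Unq) (h4 : Stmt_Gss)
    (h5 : Stmt_CDK) : Stmt_Good := by
  classical
  intro g c
  rcases Nat.eq_zero_or_pos (2 * g) with h0 | hg
  · refine ⟨1, le_rfl, fun k i => ?_⟩
    exact absurd i.2 (by omega)
  · choose u hu1 hu2 _ using fun k => h5 ℚ (2 * g) c k
    let s : Finset ℚ := Finset.univ.image c ∪
      (Finset.univ.image fun p : Fin (2 * g) × Fin (2 * g) => Cop c p.1 p.2) ∪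
      (Finset.univ.biUnion fun k : Fin (2 * g) => (u k).support.image (u k).coeff)
    let M : ℕ := 2 * ∏ x ∈ s, x.den
    have hM : ∀ x ∈ s, x ∈ ZM M := by
      intro x hx
      apply mem_ZM_of_den
      exact Dvd.dvd.mul_left (Finset.dvd_prod_of_mem _ hx) 2
    refine ⟨M, ?_, ?_⟩
    · have : 0 < ∏ x ∈ s, x.den := Finset.prod_pos fun x _ => x.pos
      show 1 ≤ 2 * ∏ x ∈ s, x.den
      omega
    · intro k i j l p hp hpM
      refine main h1 h2 h3 h4 hg c u hu2 M ⟨_, rfl⟩ ?_ ?_ ?_ k i j l p hp hpM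
      · intro i
        apply hM
        simp [s]
      · intro i j
        apply hM
        simp only [s, Finset.mem_union, Finset.mem_image]
        exact Or.inl (Or.inr ⟨(i, j), Finset.mem_univ _, rfl⟩)
      · intro k l
        by_cases hl : l ∈ (u k).support
        · apply hM
          simp only [s, Finset.mem_union, Finset.mem_biUnion, Finset.mem_image]
          exact Or.inr ⟨k, Finset.mem_univ _, l, hl, rfl⟩
        · rw [Polynomial.notMem_support_iff.1 hl]
          exact (ZM M).zero_mem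

end Pool.Agent.DG2
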