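import Pool.Agent.DG2.AStmts

set_option autoImplicit false

/-!
# DG2, module GSS: a form of the lemma of Gauss
-/

open Finset

namespace Pool.Agent.DG2

open Pool.Agent.DGP (IsZ)

namespace GSS_

/-- the ring of rational numbers which are integral at `p` -/
noncomputable def S (p : ℕ) [Fact p.Prime] : Subring ℚ :=
  (PadicInt.subring p).comap (Rat.castHom ℚ_[p])

theorem mem_S (p : ℕ) [Fact p.Prime] (x : ℚ) : x ∈ S p ↔ ‖(x : ℚ_[p])‖ ≤ 1 := Iff.rfl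

theorem den_of_mem (p : ℕ) [hp : Fact p.Prime] (x : ℚ) (hx : x ∈ S p) : ¬ p ∣ x.den := by
  rw [mem_S] at hx
  intro h
  have h1 : ¬ p ∣ x.num.natAbs := fun h2 =>
    hp.out.one_lt.ne' (Nat.dvd_one.1 (by have := Nat.dvd_gcd h2 h; rwa [x.reduced] at this))
  have h3 : ‖((x.den : ℤ) : ℚ_[p])‖ < 1 := by
    rw [Padic.norm_intCast_lt_one_iff]
    exact_mod_cast h
  have h4 : ¬ ‖((x.num : ℤ) : ℚ_[p])‖ < 1 := by
    rw [Padic.norm_intCast_lt_one_iff]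
    intro h5
    exact h1 (Int.natCast_dvd.1 h5)
  have h6 : ((x.num : ℤ) : ℚ_[p]) = (x : ℚ_[p]) * ((x.den : ℤ) : ℚ_[p]) := by
    have h7 : (x.num : ℚ) = x * x.den := (Rat.mul_den_eq_num x).symm
    have h8 := congrArg (fun y : ℚ => (y : ℚ_[p])) h7
    push_cast at h8
    exact_mod_cast h8
  apply h4
  rw [h6, norm_mul]
  calc ‖(x : ℚ_[p])‖ * ‖((x.den : ℤ) : ℚ_[p])‖ ≤ 1 * ‖((x.den : ℤ) : ℚ_[p])‖ :=
        mul_le_mul_of_nonneg_right hx (norm_nonneg _)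
    _ < 1 := by rw [one_mul]; exact h3

theorem mem_of_pow (p : ℕ) [hp : Fact p.Prime] (M : ℕ) (hM : ¬ p ∣ M) (a : ℕ) (x : ℚ)
    (hx : IsZ ((M : ℚ) ^ a * x)) : x ∈ S p := by
  rw [mem_S]
  obtain ⟨z, hz⟩ := hx
  have h1 : ‖((M : ℤ) : ℚ_[p])‖ = 1 := by
    apply le_antisymm (Padic.norm_int_le_one _)
    by_contra h
    push Not at h
    rw [Padic.norm_intCast_lt_one_iff] at h
    exact hM (by exact_mod_cast h)
  have h2 : ((M : ℤ) : ℚ_[p]) ^ a * (x : ℚ_[p]) = ((z : ℤ) : ℚ_[p]) := by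
    have h8 := congrArg (fun y : ℚ => (y : ℚ_[p])) hz
    push_cast at h8 ⊢
    exact h8
  have h3 := congrArg norm h2
  rw [norm_mul, norm_pow, h1, one_pow, one_mul] at h3
  rw [h3]
  exact Padic.norm_int_le_one z

theorem lifts_of (p : ℕ) [Fact p.Prime] (T : Polynomial ℚ) (h : ∀ l, T.coeff l ∈ S p) :
    T ∈ Polynomial.lifts (S p).subtype := by
  rw [Polynomial.lifts_iff_coeff_lifts]
  intro n
  exact ⟨⟨T.coeff n, h n⟩, rfl⟩

end GSS_

theorem gss_proof : Stmt_Gss := by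
  intro M T hT hTa B a b hB p hp hpM l
  have : Fact p.Prime := ⟨hp⟩
  apply GSS_.den_of_mem p
  obtain ⟨a', ha'⟩ := hTa
  have h1 : T ∈ Polynomial.lifts (GSS_.S p).subtype :=
    GSS_.lifts_of p T (fun l => GSS_.mem_of_pow p M hpM a' _ (ha' l))
  have h2 : T ^ b * B ∈ Polynomial.lifts (GSS_.S p).subtype :=
    GSS_.lifts_of p _ (fun l => GSS_.mem_of_pow p M hpM a _ (hB l))
  obtain ⟨T', hT', -, hT'm⟩ := Polynomial.lifts_and_degree_eq_and_monic h1 hT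
  obtain ⟨U, hU⟩ := (Polynomial.mem_lifts _).1 h2
  have h3 : (U /ₘ (T' ^ b)).map (GSS_.S p).subtype = B := by
    rw [Polynomial.map_divByMonic _ (hT'm.pow b), hU, Polynomial.map_pow, hT',
      Polynomial.mul_divByMonic_cancel_left _ (hT.pow b)]
  rw [← h3, Polynomial.coeff_map]
  exact ((U /ₘ (T' ^ b)).coeff l).2

end Pool.Agent.DG2
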