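import Pool.Agent.DG2.AStmts

set_option autoImplicit false

/-!
# DG2, module HDY: the derivatives of the fundamental matrix
-/

open Finset

namespace Pool.Agent.DG2

open Pool.Agent.GPH (f0 g0 Cop Dop)
open Pool.Agent.DGP (GSys IsZ hd val Conv tens)

namespace HDY_

noncomputable section

/-- The substitution `X ↦ X + s` followed by the inclusion in the power series. -/
def phi (s : ℚ) : Polynomial ℚ →+* PowerSeries ℚ :=
  (Polynomial.coeToPowerSeries.ringHom).comp
    (Polynomial.compRingHom (Polynomial.X + Polynomial.C s))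

theorem phi_apply (s : ℚ) (p : Polynomial ℚ) : phi s p =
    ((p.comp (Polynomial.X + Polynomial.C s) : Polynomial ℚ) : PowerSeries ℚ) := rfl

theorem phi_C (s a : ℚ) : phi s (Polynomial.C a) = PowerSeries.C a := by
  rw [phi_apply, Polynomial.C_comp, Polynomial.coe_C]

theorem phi_X (s : ℚ) : phi s Polynomial.X = PowerSeries.X + PowerSeries.C s := by
  rw [phi_apply, Polynomial.X_comp, Polynomial.coe_add, Polynomial.coe_X, Polynomial.coe_C]

theorem phi_Sm {m : ℕ} (c : Fin m → ℚ) (s : ℚ) : (Sm c).map (phi s) =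
    (PowerSeries.X + PowerSeries.C s) • (1 : Matrix (Fin m) (Fin m) (PowerSeries ℚ)) +
      (Am c).map PowerSeries.C := by
  ext1 i j
  simp only [Sm, Matrix.map_apply, Matrix.add_apply, Matrix.smul_apply, smul_eq_mul, map_add,
    map_mul, phi_X, phi_C, Matrix.one_apply]
  split_ifs <;> simp

/-- `(s + A) (n + 1) Y_{n+1} = (E - n) Y_n`. -/
theorem rec_Y {m : ℕ} (c : Fin m → ℚ) (s : ℚ)
    (hdet : (s • (1 : Matrix (Fin m) (Fin m) ℚ) + Am c).det ≠ 0) (n : ℕ) :
    ((n : ℚ) + 1) • ((s • (1 : Matrix (Fin m) (Fin m) ℚ) + Am c) * Yc c s (n + 1)) =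
      (Em c - (n : ℚ) • (1 : Matrix (Fin m) (Fin m) ℚ)) * Yc c s n := by
  have h1 : ((n : ℚ) + 1) ≠ 0 := by positivity
  have hu : IsUnit (s • (1 : Matrix (Fin m) (Fin m) ℚ) + Am c).det := isUnit_iff_ne_zero.2 hdet
  simp only [Yc]
  rw [Matrix.mul_smul, smul_smul, mul_one_div_cancel h1, one_smul, ← Matrix.mul_assoc,
    ← Matrix.mul_assoc, Matrix.mul_nonsing_inv _ hu, Matrix.one_mul]

/-- The matrix of the divided derivatives. -/
def Yh {m : ℕ} (c : Fin m → ℚ) (s : ℚ) (k : ℕ) : Matrix (Fin m) (Fin m) (PowerSeries ℚ) :=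
  Matrix.of (fun i j => hd k (Ys c s (i, j)))

theorem coeff_Yh {m : ℕ} (c : Fin m → ℚ) (s : ℚ) (k n : ℕ) (i j : Fin m) :
    PowerSeries.coeff n (Yh c s k i j) = ((n + k).choose k : ℚ) * Yc c s (n + k) i j := by
  simp [Yh, hd, Ys]

theorem choose1 (n k : ℕ) : ((k : ℚ) + 1) * ((n + (k + 1)).choose (k + 1) : ℚ) =
    ((n : ℚ) + k + 1) * ((n + k).choose k : ℚ) := by
  have h := Nat.add_one_mul_choose_eq (n + k) k
  have h2 : (((n + k + 1) * (n + k).choose k : ℕ) : ℚ) =
      (((n + k + 1).choose (k + 1) * (k + 1) : ℕ) : ℚ) := by exact_mod_cast h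
  push_cast at h2
  have h3 : n + (k + 1) = n + k + 1 := by omega
  rw [h3]
  linarith [h2]

theorem choose2 (n k : ℕ) : ((k : ℚ) + 1) * ((n + 1 + k).choose (k + 1) : ℚ) =
    ((n : ℚ) + 1) * ((n + 1 + k).choose k : ℚ) := by
  have h := Nat.choose_succ_right_eq (n + 1 + k) k
  have h2 : (((n + 1 + k).choose (k + 1) * (k + 1) : ℕ) : ℚ) =
      (((n + 1 + k).choose k * (n + 1 + k - k) : ℕ) : ℚ) := by exact_mod_cast h
  have h3 : n + 1 + k - k = n + 1 := by omega
  rw [h3] at h2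
  push_cast at h2
  linarith [h2]

/-- `(k + 1) (s + X + A) Y_{[k+1]} = (E - k) Y_{[k]}`. -/
theorem key {m : ℕ} (c : Fin m → ℚ) (s : ℚ)
    (hdet : (s • (1 : Matrix (Fin m) (Fin m) ℚ) + Am c).det ≠ 0) (k : ℕ) :
    PowerSeries.C ((k : ℚ) + 1) • (((Sm c).map (phi s)) * Yh c s (k + 1)) =
      ((Em c - (k : ℚ) • (1 : Matrix (Fin m) (Fin m) ℚ)).map PowerSeries.C) * Yh c s k := by
  rw [phi_Sm]
  ext1 i j
  ext n
  have hL : PowerSeries.coeff n ((PowerSeries.C ((k : ℚ) + 1) • (((PowerSeries.X +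
      PowerSeries.C s) • (1 : Matrix (Fin m) (Fin m) (PowerSeries ℚ)) +
      (Am c).map PowerSeries.C) * Yh c s (k + 1))) i j) =
      ((k : ℚ) + 1) * (PowerSeries.coeff n (PowerSeries.X * Yh c s (k + 1) i j) +
        (((n + (k + 1)).choose (k + 1) : ℚ)) *
          ((s • (1 : Matrix (Fin m) (Fin m) ℚ) + Am c) * Yc c s (n + (k + 1))) i j) := by
    rw [Matrix.smul_apply, smul_eq_mul, PowerSeries.coeff_C_mul, Matrix.add_mul,
      Matrix.smul_mul, Matrix.one_mul, Matrix.add_apply, Matrix.smul_apply, smul_eq_mul,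
      Matrix.mul_apply, Matrix.add_mul, Matrix.smul_mul, Matrix.one_mul, Matrix.add_apply,
      Matrix.smul_apply, smul_eq_mul, Matrix.mul_apply, map_add,
      add_mul PowerSeries.X (PowerSeries.C s), map_add, map_sum]
    simp only [Matrix.map_apply, PowerSeries.coeff_C_mul, coeff_Yh]
    rw [mul_add ((((n + (k + 1)).choose (k + 1) : ℕ) : ℚ)), Finset.mul_sum, add_assoc]
    congr 3
    · ring
    · refine Finset.sum_congr rfl fun l _ => ?_
      ring
  have hR : PowerSeries.coeff n ((((Em c - (k : ℚ) • (1 : Matrix (Fin m) (Fin m) ℚ)).map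
      PowerSeries.C) * Yh c s k) i j) = (((n + k).choose k : ℚ)) *
        ((Em c - (k : ℚ) • (1 : Matrix (Fin m) (Fin m) ℚ)) * Yc c s (n + k)) i j := by
    rw [Matrix.mul_apply, Matrix.mul_apply, map_sum, Finset.mul_sum]
    refine Finset.sum_congr rfl fun l _ => ?_
    rw [Matrix.map_apply, PowerSeries.coeff_C_mul, coeff_Yh]
    ring
  rw [hL, hR]
  have hrec := congrFun (congrFun (rec_Y c s hdet (n + k)) i) j
  rw [Matrix.smul_apply, smul_eq_mul] at hrec
  have e1 : n + (k + 1) = n + k + 1 := by omega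
  have hE : ∀ x : ℚ, ((Em c - x • (1 : Matrix (Fin m) (Fin m) ℚ)) * Yc c s (n + k)) i j =
      (Em c * Yc c s (n + k)) i j - x * Yc c s (n + k) i j := by
    intro x
    rw [Matrix.sub_mul, Matrix.smul_mul, Matrix.one_mul, Matrix.sub_apply, Matrix.smul_apply,
      smul_eq_mul]
  rw [hE] at hrec
  rw [hE]
  push_cast at hrec
  have hX : ((k : ℚ) + 1) * PowerSeries.coeff n (PowerSeries.X * Yh c s (k + 1) i j) =
      (n : ℚ) * ((n + k).choose k : ℚ) * Yc c s (n + k) i j := by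
    cases n with
    | zero => simp
    | succ n =>
      rw [PowerSeries.coeff_succ_X_mul, coeff_Yh]
      have e2 : n + (k + 1) = n + 1 + k := by omega
      rw [e2, ← mul_assoc, choose2]
      push_cast
      ring
  rw [mul_add, hX, ← mul_assoc, choose1, e1]
  have : ((n : ℚ) + k + 1) * ((n + k).choose k : ℚ) *
      ((s • (1 : Matrix (Fin m) (Fin m) ℚ) + Am c) * Yc c s (n + k + 1)) i j =
      ((n + k).choose k : ℚ) * (((n : ℚ) + k + 1) *
      ((s • (1 : Matrix (Fin m) (Fin m) ℚ) + Am c) * Yc c s (n + k + 1)) i j) := by ring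
  rw [this, hrec]
  ring

theorem eval_Tp {m : ℕ} (c : Fin m → ℚ) (s : ℚ) : (Tp c).eval s =
    (s • (1 : Matrix (Fin m) (Fin m) ℚ) + Am c).det := by
  have h := RingHom.map_det (Polynomial.evalRingHom s) (Sm c)
  rw [Polynomial.coe_evalRingHom] at h
  rw [Tp, h]
  congr 1
  ext1 i j
  simp only [RingHom.mapMatrix_apply, Sm, Matrix.map_apply, Matrix.add_apply,
    Matrix.smul_apply, smul_eq_mul, Matrix.one_apply, Polynomial.coe_evalRingHom]
  split_ifs <;> simp

/-- One step. -/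
theorem step {m : ℕ} (c : Fin m → ℚ) (s : ℚ)
    (hdet : (s • (1 : Matrix (Fin m) (Fin m) ℚ) + Am c).det ≠ 0) (k : ℕ) :
    phi s (Tp c) • Yh c s (k + 1) = PowerSeries.C (1 / ((k : ℚ) + 1)) •
      (((Sm c).adjugate.map (phi s)) *
        ((Em c - (k : ℚ) • (1 : Matrix (Fin m) (Fin m) ℚ)).map PowerSeries.C) *
          Yh c s k) := by
  have h1 : ((k : ℚ) + 1) ≠ 0 := by positivity
  have hadj : ((Sm c).adjugate.map (phi s)) * ((Sm c).map (phi s)) =
      phi s (Tp c) • (1 : Matrix (Fin m) (Fin m) (PowerSeries ℚ)) := by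
    rw [← Matrix.map_mul, Matrix.adjugate_mul]
    ext1 i j
    simp only [Matrix.map_apply, Matrix.smul_apply, smul_eq_mul, Matrix.one_apply, Tp]
    split_ifs <;> simp
  rw [Matrix.mul_assoc, ← key c s hdet k, Matrix.mul_smul, smul_smul, ← map_mul,
    one_div_mul_cancel h1, map_one, one_smul, ← Matrix.mul_assoc, hadj, Matrix.smul_mul,
    Matrix.one_mul]

theorem main {m : ℕ} (c : Fin m → ℚ) (s : ℚ)
    (hdet : (s • (1 : Matrix (Fin m) (Fin m) ℚ) + Am c).det ≠ 0) (k : ℕ) :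
    phi s (Tp c) ^ k • Yh c s k = ((Bt c k).map (phi s)) * Yh c s 0 := by
  induction k with
  | zero =>
    rw [pow_zero, one_smul]
    have h1 : (Bt c 0).map (phi s) = 1 := by
      ext1 i j
      simp only [Bt, Matrix.map_apply, Matrix.one_apply]
      split_ifs <;> simp
    rw [h1, Matrix.one_mul]
  | succ k ih =>
    have hB : (Bt c (k + 1)).map (phi s) = PowerSeries.C (1 / ((k : ℚ) + 1)) •
        (((Sm c).adjugate.map (phi s)) *
          ((Em c - (k : ℚ) • (1 : Matrix (Fin m) (Fin m) ℚ)).map PowerSeries.C) *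
            ((Bt c k).map (phi s))) := by
      have h2 : ((Em c - (k : ℚ) • (1 : Matrix (Fin m) (Fin m) ℚ)).map PowerSeries.C) =
          ((Em c - (k : ℚ) • (1 : Matrix (Fin m) (Fin m) ℚ)).map Polynomial.C).map (phi s) := by
        ext1 i j
        simp only [Matrix.map_apply, phi_C]
      rw [h2, ← Matrix.map_mul, ← Matrix.map_mul]
      ext1 i j
      simp only [Bt, Matrix.map_apply, Matrix.smul_apply, smul_eq_mul, map_mul, phi_C]
    rw [hB, pow_succ, mul_smul, step c s hdet k, smul_comm, ← Matrix.mul_smul, ih,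
      Matrix.smul_mul]
    rw [Matrix.mul_assoc, Matrix.mul_assoc, Matrix.mul_assoc]

end

end HDY_

theorem hdy_proof : Stmt_HdY := by
  intro m c s hs k i j
  have hdet : (s • (1 : Matrix (Fin m) (Fin m) ℚ) + Am c).det ≠ 0 := by
    rw [← HDY_.eval_Tp]; exact hs
  have h := congrFun (congrFun (HDY_.main c s hdet k) i) j
  rw [Matrix.smul_apply, smul_eq_mul, Matrix.mul_apply] at h
  have h0 : ∀ l, HDY_.Yh c s 0 l j = Ys c s (l, j) := by
    intro l
    ext n
    rw [HDY_.coeff_Yh]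
    simp [Ys]
  simp only [h0] at h
  exact h

end Pool.Agent.DG2
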