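import Pool.Agent.DG2.AStmts
import Mathlib.RingTheory.AdjoinRoot
import Mathlib.RingTheory.PowerSeries.Derivative
import Mathlib.RingTheory.PowerSeries.Inverse
import Mathlib.Algebra.Polynomial.Taylor

set_option autoImplicit false

/-!
# DG2, module HERM: Hermite interpolation at the universal root
-/

namespace Pool.Agent.DG2.HERM_

open Polynomial

noncomputable section

variable {R : Type} [CommRing R] (F : Polynomial R)

/-- The Taylor expansion at the universal root. -/
def th : Polynomial R →+* PowerSeries (AdjoinRoot F) :=
  eval₂RingHom ((PowerSeries.C (R := AdjoinRoot F)).comp (AdjoinRoot.of F))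
    (PowerSeries.C (AdjoinRoot.root F) + PowerSeries.X)

lemma th_C (a : R) : th F (C a) = PowerSeries.C (AdjoinRoot.of F a) := by
  simp [th]

lemma th_X : th F X = PowerSeries.C (AdjoinRoot.root F) + PowerSeries.X := by
  simp [th]

lemma cc_th (p : Polynomial R) : PowerSeries.constantCoeff (th F p) = AdjoinRoot.mk F p := by
  have h : (PowerSeries.constantCoeff (R := AdjoinRoot F)).comp (th F) = AdjoinRoot.mk F := by
    apply Polynomial.ringHom_ext
    · intro a
      rw [RingHom.comp_apply, th_C, PowerSeries.constantCoeff_C, AdjoinRoot.mk_C]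
    · rw [RingHom.comp_apply, th_X, map_add, PowerSeries.constantCoeff_C,
        PowerSeries.constantCoeff_X, add_zero, AdjoinRoot.mk_X]
  rw [← h, RingHom.comp_apply]

lemma th_der' (p : Polynomial R) :
    th F (derivative p) = PowerSeries.derivative (AdjoinRoot F) (th F p) := by
  induction p using Polynomial.induction_on with
  | C a =>
    rw [derivative_C, map_zero, th_C, PowerSeries.derivative_C]
  | add p q hp hq =>
    rw [derivative_add, map_add, map_add, map_add, hp, hq]
  | monomial n a h =>
    have e1 : (C a * X ^ (n + 1) : Polynomial R) = (C a * X ^ n) * X := by ring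
    have hX : PowerSeries.derivative (AdjoinRoot F) (th F X) = 1 := by
      rw [th_X, map_add, PowerSeries.derivative_C, zero_add]
      exact PowerSeries.derivative_X
    have e2 : derivative (C a * X ^ n * X : Polynomial R) =
        derivative (C a * X ^ n) * X + C a * X ^ n := by
      rw [derivative_mul, derivative_X, mul_one]
    rw [e1, e2, map_add, map_mul (th F) (derivative (C a * X ^ n)) X, h,
      map_mul (th F) (C a * X ^ n) X, Derivation.leibniz, hX]
    simp only [smul_eq_mul]
    ring

set_option linter.deprecated false in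
lemma th_der (p : Polynomial R) :
    th F (derivative p) = PowerSeries.derivativeFun (th F p) :=
  th_der' F p

lemma cc_der (f : PowerSeries (AdjoinRoot F)) :
    PowerSeries.constantCoeff (PowerSeries.derivative (AdjoinRoot F) f) =
      PowerSeries.coeff 1 f := by
  rw [← PowerSeries.coeff_zero_eq_constantCoeff_apply, PowerSeries.coeff_derivative]
  simp

end

end Pool.Agent.DG2.HERM_

namespace Pool.Agent.DG2

open Polynomial HERM_

theorem herm_proof : Stmt_Herm := by
  intro R _ F _hF hco
  set φ : AdjoinRoot F := AdjoinRoot.mk F (derivative F) with hφ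
  have hunit : IsUnit φ := by
    have h := hco.map (AdjoinRoot.mk F)
    rw [AdjoinRoot.mk_self] at h
    exact isCoprime_zero_left.mp h
  obtain ⟨w, hw⟩ := hunit.exists_left_inv
  set γ : PowerSeries (AdjoinRoot F) :=
    PowerSeries.mk (fun n => w * PowerSeries.coeff (n + 1) (th F F)) with hγ
  have hc1 : PowerSeries.coeff 1 (th F F) = φ := by
    rw [← cc_der, ← th_der', cc_th]
  have hγ0 : PowerSeries.constantCoeff γ = 1 := by
    rw [← PowerSeries.coeff_zero_eq_constantCoeff_apply, hγ, PowerSeries.coeff_mk, zero_add, hc1,
      hw]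
  have hthF : th F F = PowerSeries.X * PowerSeries.C φ * γ := by
    ext n
    rcases n with _ | n
    · rw [PowerSeries.coeff_zero_eq_constantCoeff_apply, cc_th, AdjoinRoot.mk_self,
        PowerSeries.coeff_zero_eq_constantCoeff_apply]
      simp
    · rw [mul_assoc, PowerSeries.coeff_succ_X_mul, PowerSeries.coeff_C_mul, hγ,
        PowerSeries.coeff_mk, ← mul_assoc, mul_comm φ w, hw, one_mul]
  refine ⟨AdjoinRoot F, inferInstance, th F, φ, γ, hunit, hγ0, hthF, th_der F, ?_, ?_⟩
  · intro k
    induction k with
    | zero => intro ψ; exact ⟨0, by simp⟩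
    | succ k ih =>
      intro ψ
      obtain ⟨h, η, hη⟩ := ih ψ
      obtain ⟨r, hr⟩ := AdjoinRoot.mk_surjective (g := F)
        (-(PowerSeries.constantCoeff η) * w ^ k)
      refine ⟨h + r * F ^ k, ?_⟩
      have e1 : th F (h + r * F ^ k) - ψ = PowerSeries.X ^ k *
          (η + th F r * (PowerSeries.C φ * γ) ^ k) := by
        rw [map_add, map_mul, map_pow, hthF]
        linear_combination hη
      rw [e1, pow_succ]
      refine mul_dvd_mul_left _ ?_
      rw [PowerSeries.X_dvd_iff, map_add, map_mul, map_pow, map_mul, hγ0,
        PowerSeries.constantCoeff_C, cc_th, hr, mul_one]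
      have h2 : w ^ k * φ ^ k = 1 := by rw [← mul_pow, hw, one_pow]
      linear_combination (-(PowerSeries.constantCoeff η)) * h2
  · intro k
    induction k with
    | zero => intro q _; simp
    | succ k ih =>
      intro q hq
      have h1 : PowerSeries.X ∣ th F q := dvd_trans (dvd_pow_self _ (Nat.succ_ne_zero k)) hq
      rw [PowerSeries.X_dvd_iff, cc_th, AdjoinRoot.mk_eq_zero] at h1
      obtain ⟨q1, rfl⟩ := h1
      rw [pow_succ']
      refine mul_dvd_mul_left _ (ih q1 ?_)
      obtain ⟨t, ht⟩ := hq
      rw [map_mul, hthF] at ht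
      have h3 : PowerSeries.X * (PowerSeries.C φ * γ * th F q1) =
          PowerSeries.X * (PowerSeries.X ^ k * t) := by
        rw [← mul_assoc, ← mul_assoc, ht, pow_succ']
        ring
      have h4 : PowerSeries.C φ * γ * th F q1 = PowerSeries.X ^ k * t := by
        ext n
        have := congrArg (PowerSeries.coeff (n + 1)) h3
        rwa [PowerSeries.coeff_succ_X_mul, PowerSeries.coeff_succ_X_mul] at this
      have h5 : IsUnit (PowerSeries.C φ * γ) := by
        rw [PowerSeries.isUnit_iff_constantCoeff, map_mul, hγ0, PowerSeries.constantCoeff_C,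
          mul_one]
        exact hunit
      obtain ⟨v, hv⟩ := h5.exists_left_inv
      exact ⟨v * t, by linear_combination v * h4 - th F q1 * hv⟩

end Pool.Agent.DG2
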