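import Pool.Agent.DG2.INDXC

set_option autoImplicit false

/-!
# DG2, module INDX: the coordinates of the matrices `Z` satisfy no relation of bounded degree
-/

open scoped BigOperators Topology
open Metric Set

namespace Pool.Agent.DG2

open Pool.Agent.GPH (f0 Cop Dop P2 pol CPath num perMat tpt fus Nm)
open Pool.Agent.HGP (Ix Simil Idx fvec mvec Aof opt)
open Pool.Agent.DGP (GSys IsZ hd val Conv tens)

namespace INDX_

theorem map_mul_one {g : ℕ} {c : Fin (2 * g) → ℚ} {B : Matrix (Fin (2 * g)) (Ix g) ℚ}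
    (h : NmQ g c * B = 1) : NmC g c * B.map (fun x : ℚ => (x : ℂ)) = 1 := by
  have h1 : (NmQ g c * B).map (fun x : ℚ => (x : ℂ))
      = NmC g c * B.map (fun x : ℚ => (x : ℂ)) := by
    ext i j
    simp [NmC, Matrix.mul_apply]
  rw [← h1, h]
  ext i j
  by_cases hij : i = j
  · subst hij; simp
  · simp [Matrix.one_apply_ne hij]

/-- The matrices `B Z Nm` preserve the form. -/
theorem form {g : ℕ} {c : Fin (2 * g) → ℚ} {B : Matrix (Fin (2 * g)) (Ix g) ℂ}
    (h : NmC g c * B = 1) {Z : Matrix (Ix g) (Ix g) ℂ} (hZ : Simil 1 Z) :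
    (B * Z * NmC g c).transpose * Nk g c * (B * Z * NmC g c) = Nk g c := by
  unfold Simil at hZ
  rw [one_smul] at hZ
  have h1 : NmC g c * (B * Z * NmC g c) = Z * NmC g c := by
    rw [← Matrix.mul_assoc, ← Matrix.mul_assoc, h, Matrix.one_mul]
  calc (B * Z * NmC g c).transpose * Nk g c * (B * Z * NmC g c)
      = (NmC g c * (B * Z * NmC g c)).transpose * Matrix.J (Fin g) ℂ *
          (NmC g c * (B * Z * NmC g c)) := by
        rw [Matrix.transpose_mul (NmC g c)]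
        simp only [Nk, Matrix.mul_assoc]
    _ = (NmC g c).transpose * (Z.transpose * Matrix.J (Fin g) ℂ * Z) * NmC g c := by
        rw [h1, Matrix.transpose_mul]
        simp only [Matrix.mul_assoc]
    _ = Nk g c := by
        rw [hZ]
        rfl

end INDX_

open INDX_ in
theorem indx_proof (hAA : DGP.Stmt_AA) (hVal : DGP.Stmt_Val) (hWord : DGP.Stmt_Word)
    (hTFc : Stmt_TFc) (hFull : Stmt_FullJ) (hRefX : Stmt_RefX) (hSer : Stmt_SerJ)
    (hZSm : Stmt_ZSm) (hNmQ : Stmt_NmQ) (hTpC : Stmt_TpC) (hHomQ : Stmt_HomQ)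
    (hFib : GPJ.Stmt_FibJ) (hCellB : HGP.Stmt_CellB) : Stmt_IndX := by
  intro K g c s hg hP2 hsep E
  choose R W hRef using fun k => hRefX (g k) (c k) (s k) (hg k) (hsep k)
  choose hTp ρs hρs0 hρsR hser using
    fun k => hSer (g k) (c k) (s k) (R k) (W k) (hg k) (hRef k)
  choose ρz hρz0 hZ using fun k => hZSm (g k) (c k) (s k) (hg k) (hsep k)
  obtain ⟨ρ₁, hρ₁, hρ₁le⟩ := exists_le ρs ρz hρs0 hρz0
  choose B hB1 hB2 using fun k => (hNmQ (g k) (c k)).2.2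
  obtain ⟨E1, hE1⟩ := transfer hHomQ c B E
  obtain ⟨C, e, τ, hC⟩ := hFull K g c s hTp E1
  obtain ⟨κ, hκ⟩ := hAA (Fin E1 → Option (VY g)) τ
  set δ : ℝ := 1 / (2 * ((K : ℝ) * e * κ + 1)) with hδ
  have hδpos : 0 < δ := by positivity
  have hδhalf : δ ≤ 1 / 2 := by
    rw [hδ]
    apply one_div_le_one_div_of_le (by norm_num)
    have : (0 : ℝ) ≤ (K : ℝ) * e * κ := by positivity
    linarith
  have hδκ : (K : ℝ) * δ * e * κ ≤ 1 / 2 := by
    have h1 : (K : ℝ) * δ * e * κ = ((K : ℝ) * e * κ) / (2 * ((K : ℝ) * e * κ + 1)) := by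
      rw [hδ]; ring
    rw [h1, div_le_div_iff₀ (by positivity) (by norm_num)]
    have : (0 : ℝ) ≤ (K : ℝ) * e * κ := by positivity
    linarith
  refine ⟨δ, hδpos, max ((C + 1) ^ (2 * κ)) (⌈1 / ρ₁ ^ 2⌉₊ + 2), ?_⟩
  intro n hn ρ hρ hdist Z hZeq Q hQ0 hQdeg hQval
  have hnC : (C + 1) ^ (2 * κ) ≤ n := le_trans (le_max_left _ _) hn
  have hn2 : ⌈1 / ρ₁ ^ 2⌉₊ + 2 ≤ n := le_trans (le_max_right _ _) hn
  have hn1N : 1 ≤ n := by omega
  have hn1 : (1 : ℝ) ≤ n := by exact_mod_cast hn1N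
  have hnpos : (0 : ℝ) < n := by linarith
  obtain ⟨ed, d, hed, hdr, hd1, hdle⟩ := numbers K n δ ρ hρ hn1N
  have hedne : (ed : ℝ) ≠ 0 := by
    have : 0 < ed := hed
    exact_mod_cast this.ne'
  set n' : ℕ := n * ed with hn'
  have hn'pos : (0 : ℝ) < n' := by
    rw [hn']
    push_cast
    have : (0 : ℝ) < ed := by exact_mod_cast hed
    positivity
  have hdz : ∀ k, (d k : ℝ) * (1 / (n' : ℝ)) = (ρ k : ℝ) / n := by
    intro k
    have h3 : (d k : ℝ) = (ρ k : ℝ) * ed := by exact_mod_cast hdr k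
    rw [h3, hn']
    push_cast
    field_simp
  have hdzQ : ∀ k, (d k : ℚ) * (1 / (n' : ℚ)) = ρ k / n := by
    intro k
    have h4b : (ed : ℚ) ≠ 0 := by exact_mod_cast hedne
    rw [hdr, hn']
    push_cast
    field_simp
  have hsm : ∀ k, (0 : ℝ) < (ρ k : ℝ) / n ∧ (ρ k : ℝ) / n < ρ₁ := fun k =>
    small n ρ₁ δ hρ₁ hδhalf hn2 (ρ k) (hρ k).1 (hρ k).2
  -- the bound `b`
  set b : ℕ := ⌊(n : ℝ) ^ ((K : ℝ) * δ)⌋₊ with hb
  have hb1 : 1 ≤ b := by
    rw [hb]
    apply Nat.le_floor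
    simpa using Real.one_le_rpow hn1 (by positivity : (0 : ℝ) ≤ (K : ℝ) * δ)
  have hbn : (b : ℝ) ≤ (n : ℝ) ^ ((K : ℝ) * δ) := Nat.floor_le (by positivity)
  obtain ⟨e₀, c₀, hG⟩ := hC d b hb1 (fun k => ⟨hd1 k, Nat.le_floor (hdle k)⟩)
  have hH := heights K C e κ n n' b δ hn1N hnC hbn hδκ (by
    rw [hn']
    exact Nat.le_mul_of_pos_right n hed)
  -- the denominators do not vanish
  have hmem : ∀ k, ((s k : ℚ) : ℂ) + (((ρ k : ℝ) / n : ℝ) : ℂ) ∈
      ball ((s k : ℚ) : ℂ) (R k) := by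
    intro k
    rw [mem_ball, dist_eq_norm, add_sub_cancel_left, Complex.norm_real, Real.norm_eq_abs,
      abs_of_pos (hsm k).1]
    exact lt_of_lt_of_le (hsm k).2 (le_trans (hρ₁le k).1 (hρsR k))
  have hTne : (∏ k, Td (c k) (s k) (d k)).eval (1 / (n' : ℚ)) ≠ 0 := by
    rw [Polynomial.eval_prod]
    apply Finset.prod_ne_zero_iff.mpr
    intro k _
    have h3 : (Td (c k) (s k) (d k)).eval (1 / (n' : ℚ))
        = (kap (c k) (s k) : ℚ) * (Tp (c k)).eval (s k + ρ k / n) := by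
      unfold Td
      rw [Polynomial.eval_mul, Polynomial.eval_C, Polynomial.eval_comp]
      congr 2
      simp only [Polynomial.eval_add, Polynomial.eval_mul, Polynomial.eval_C, Polynomial.eval_X]
      rw [hdzQ, add_comm]
    rw [h3]
    have h4 := ((hTFc _ (c k)).2.2.2 (s k)).1
    have h5 : (kap (c k) (s k) : ℚ) ≠ 0 := by
      have : kap (c k) (s k) ≠ 0 := by omega
      exact_mod_cast this
    apply mul_ne_zero h5
    rw [(hTpC (g k) (c k)).1 (s k + ρ k / n)]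
    have h6 := (hRef k).sep _ (hmem k)
    have h7 : ((s k : ℚ) : ℂ) + (((ρ k : ℝ) / n : ℝ) : ℂ) = ((s k + ρ k / n : ℚ) : ℂ) := by
      push_cast
      ring
    rw [h7] at h6
    exact h6
  -- convergence
  have hconv : ∀ k p, Conv (Ys (c k) (s k) p) (d k * (1 / (n' : ℝ))) := by
    intro k p
    apply (hser k _ ?_).1 p
    rw [hdz, abs_of_pos (hsm k).1]
    exact lt_of_lt_of_le (hsm k).2 (hρ₁le k).1
  -- words
  obtain ⟨Q1, hQ1deg, hQ1⟩ := hE1 Q hQdeg
  obtain ⟨a, ha⟩ := hWord (VY g) E1 Q1 hQ1deg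
  have hword : ∀ y : VY g → ℂ, MvPolynomial.aeval y Q1
      = ∑ w, (a w : ℂ) * ∏ e, ((w e).elim 1 y : ℂ) := by
    intro y
    rw [ha, map_sum]
    apply Finset.sum_congr rfl
    intro w _
    rw [map_mul, map_prod, MvPolynomial.aeval_C]
    congr 1
    apply Finset.prod_congr rfl
    intro e' _
    cases w e' <;> simp
  -- the value
  let y₀ : VY g → ℂ := fun v => Yv (c v.1) (s v.1) ((ρ v.1 : ℝ) / n) v.2.1 v.2.2
  have hZy : ∀ k, Zy c B y₀ k = Z k := by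
    intro k
    have h3 : Ym y₀ k = Yv (c k) (s k) ((ρ k : ℝ) / n) := rfl
    unfold Zy
    rw [h3, ← hZeq k, Matrix.mul_assoc, map_mul_one (hB1 k), Matrix.mul_one]
  have hdetZ : ∀ k, (Z k).toBlocks₁₁.det ≠ 0 := by
    intro k
    apply (hZ k ((ρ k : ℝ) / n) ?_ (Z k) (hZeq k)).2
    rw [abs_of_pos (hsm k).1]
    exact lt_of_lt_of_le (hsm k).2 (hρ₁le k).2
  have hval0 : MvPolynomial.aeval y₀ Q1 = (0 : ℂ) := by
    rw [hQ1 y₀ (fun k => by rw [hZy]; exact hdetZ k)]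
    have h3 : (fun p : Σ k, Idx (g k) => fvec (Zy c B y₀ p.1) p.2)
        = fun p => fvec (Z p.1) p.2 := by
      funext p
      rw [hZy]
    rw [h3, hQval, mul_zero]
  have hrel : ∑ w, (a w : ℝ) * val (tens (fullJ c s d) E1 w) (1 / (n' : ℝ)) = 0 := by
    have h3 := hword y₀
    rw [hval0] at h3
    have h4 : ((∑ w, (a w : ℝ) * val (tens (fullJ c s d) E1 w) (1 / (n' : ℝ)) : ℝ) : ℂ)
        = 0 := by
      rw [h3]
      push_cast
      apply Finset.sum_congr rfl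
      intro w _
      congr 1
      rw [show (1 : ℝ) / (n' : ℝ) = 1 / (n' : ℝ) from rfl,
        (tensJ_val hVal c s d _ hconv w).2]
      push_cast
      apply Finset.prod_congr rfl
      intro e' _
      cases w e' with
      | none => simp [fvv]
      | some v =>
        simp only [fvv, Option.elim_some, hdz]
        rfl
    exact_mod_cast h4
  obtain ⟨ρf, hρ1, hρ2⟩ := hκ (tens (fullJ c s d) E1) (∏ k, Td (c k) (s k) (d k)) e₀ c₀ _ hG
    ⟨fun _ => none, by simp [tens, fullJ]⟩ n' hH hTne a hrel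
  -- a point of the big cell
  obtain ⟨w, hw1, hw2⟩ := exists_cell Q hQ0
  let Zc : ∀ k, Matrix (Ix (g k)) (Ix (g k)) ℂ := fun k => mvec (fun x => w ⟨k, x⟩) 1
  have hZc : ∀ k, Simil 1 (Zc k) ∧ (Zc k).toBlocks₁₁ = Aof (fun x => w ⟨k, x⟩) ∧
      fvec (Zc k) = fun x => w ⟨k, x⟩ := fun k => hCellB (g k) _ 1 (hw1 k)
  let Yk : ∀ k, Matrix (Fin (2 * g k)) (Fin (2 * g k)) ℂ := fun k =>
    (B k).map (fun x : ℚ => (x : ℂ)) * Zc k * NmC (g k) (c k)
  let y₁ : VY g → ℂ := fun v => Yk v.1 v.2.1 v.2.2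
  have hZy1 : ∀ k, Zy c B y₁ k = Zc k := by
    intro k
    have h3 : Ym y₁ k = Yk k := rfl
    unfold Zy
    rw [h3]
    simp only [Yk]
    rw [← Matrix.mul_assoc, ← Matrix.mul_assoc, map_mul_one (hB1 k), Matrix.one_mul,
      Matrix.mul_assoc, map_mul_one (hB1 k), Matrix.mul_one]
  have hne : MvPolynomial.aeval y₁ Q1 ≠ (0 : ℂ) := by
    rw [hQ1 y₁ (fun k => by rw [hZy1, (hZc k).2.1]; exact hw1 k)]
    apply mul_ne_zero
    · apply pow_ne_zero
      apply Finset.prod_ne_zero_iff.mpr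
      intro k _
      rw [hZy1, (hZc k).2.1]
      exact hw1 k
    · have h3 : (fun p : Σ k, Idx (g k) => fvec (Zy c B y₁ p.1) p.2) = w := by
        funext p
        rw [hZy1, (hZc p.1).2.2]
      rw [h3]
      exact hw2
  apply hne
  rw [hword y₁]
  have hfun := funct hVal hFib hTpC c s hg hP2 R W hRef ρ₁ hρ₁
    (fun k => le_trans (hρ₁le k).1 (hρsR k))
    (fun k x hx => hser k x (lt_of_lt_of_le hx (hρ₁le k).1)) d hd1 (by
      intro k l hkl
      obtain ⟨z, hz⟩ := hdist k l hkl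
      refine ⟨z / ed, ?_⟩
      have hedC : (ed : ℂ) ≠ 0 := by
        have : ed ≠ 0 := by omega
        exact_mod_cast this
      have h3 : ∀ k, ((s k : ℚ) : ℂ) + (d k : ℂ) * (z / ed) = ((s k : ℚ) : ℂ) + (ρ k : ℂ) * z := by
        intro k
        have h4 : ((d k : ℕ) : ℂ) = ((ρ k : ℚ) : ℂ) * (ed : ℂ) := by
          exact_mod_cast congrArg (fun x : ℚ => (x : ℂ)) (hdr k)
        rw [h4]
        field_simp
      rw [h3, h3]
      exact hz) ρf hρ1 (1 / (n' : ℂ)) Yk (fun k => form (map_mul_one (hB1 k)) (hZc k).1)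
  rw [← hfun]
  apply Finset.sum_congr rfl
  intro w' _
  congr 1
  have h3 : Polynomial.aeval (1 / (n' : ℂ)) (ρf w')
      = (((ρf w').eval (1 / (n' : ℚ)) : ℚ) : ℂ) := by
    have h7 : (1 / (n' : ℂ)) = algebraMap ℚ ℂ (1 / (n' : ℚ)) := by simp
    rw [h7, Polynomial.aeval_algebraMap_apply, Polynomial.coe_aeval_eq_eval]
    simp
  rw [h3, hρ2 w']

end Pool.Agent.DG2
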