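import Pool.Agent.DG2.AStmts

set_option autoImplicit false
set_option linter.deprecated false

/-!
# DG2, module LOCS: local solution of the reduction of the pole order
-/

open Finset

namespace Pool.Agent.DG2

namespace LOCS_

open PowerSeries

lemma df {A : Type} [CommRing A] (f : PowerSeries A) :
    derivativeFun f = PowerSeries.derivative A f := rfl

/-- The local solution: `2 u η' - (2k+1) η = d b` modulo `u^(k+1)`. -/
lemma eta_exists {A : Type} [CommRing A] (k : ℕ) (d : ℤ)
    (hd : ∀ i : ℕ, i < k + 1 → ((2 * i + 1 : ℕ) : ℤ) ∣ d) (b : PowerSeries A) :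
    ∃ η : PowerSeries A, (X : PowerSeries A) ^ (k + 1) ∣
      2 * X * derivativeFun η - ((2 * k + 1 : ℤ) : PowerSeries A) * η - (d : PowerSeries A) * b := by
  have h1 : ∀ m : ℕ, ∃ e : ℤ, m < k + 1 → (2 * (m : ℤ) - 2 * k - 1) * e = d := by
    intro m
    by_cases hm : m < k + 1
    · obtain ⟨e, he⟩ := hd (k - m) (by omega)
      refine ⟨-e, fun _ => ?_⟩
      rw [he]
      have : ((k - m : ℕ) : ℤ) = (k : ℤ) - m := by
        rw [Nat.cast_sub (by omega)]
      push_cast
      rw [this]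
      ring
    · exact ⟨0, fun h => absurd h hm⟩
  choose e he using h1
  refine ⟨PowerSeries.mk fun m => (e m : A) * coeff m b, ?_⟩
  rw [PowerSeries.X_pow_dvd_iff]
  intro m hm
  have hint : ∀ (z : ℤ) (f : PowerSeries A), coeff m ((z : PowerSeries A) * f) =
      (z : A) * coeff m f := by
    intro z f
    have : (z : PowerSeries A) = PowerSeries.C (z : A) := by
      rw [map_intCast]
    rw [this, PowerSeries.coeff_C_mul]
  have h2 : coeff m (2 * X * derivativeFun (PowerSeries.mk fun m => (e m : A) * coeff m b)) =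
      2 * (m : A) * ((e m : A) * coeff m b) := by
    have h3 : (2 * X * derivativeFun (PowerSeries.mk fun m => (e m : A) * coeff m b) :
        PowerSeries A) = ((2 : ℤ) : PowerSeries A) *
        (X * derivativeFun (PowerSeries.mk fun m => (e m : A) * coeff m b)) := by
      push_cast
      ring
    rw [h3, hint]
    cases m with
    | zero => simp
    | succ n =>
      rw [mul_comm X, PowerSeries.coeff_succ_mul_X, df, PowerSeries.coeff_derivative,
        PowerSeries.coeff_mk]
      push_cast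
      ring
  rw [map_sub, map_sub, h2, hint, hint, PowerSeries.coeff_mk]
  have h4 := he m hm
  have h5 : ((2 * (m : ℤ) - 2 * k - 1 : ℤ) : A) * (e m : A) = (d : A) := by
    rw [← h4]
    push_cast
    ring
  have h6 : 2 * (m : A) * ((e m : A) * coeff m b) - ((2 * k + 1 : ℤ) : A) *
      ((e m : A) * coeff m b) - (d : A) * coeff m b =
      (((2 * (m : ℤ) - 2 * k - 1 : ℤ) : A) * (e m : A) - (d : A)) * coeff m b := by
    push_cast
    ring
  rw [h6, h5, sub_self, zero_mul]

end LOCS_

open PowerSeries in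
theorem LocS_proof (hHerm : Stmt_Herm) (hSqr : Stmt_Sqr) : Stmt_LocS := by
  intro R _ F hF hcop h2 k d hd p
  rcases k with _ | k
  · refine ⟨0, Polynomial.C (d : R) * p, ?_⟩
    simp [Lam]
  obtain ⟨A, _, θ, φ, γ, hφ, hγ, hθF, hθd, hint, hker⟩ := hHerm R F hF hcop
  have h2A : IsUnit (2 : A) := by
    have h3 : IsUnit (θ (2 : Polynomial R)) := by
      apply IsUnit.map
      have : (2 : Polynomial R) = Polynomial.C (2 : R) := by
        rw [map_ofNat]
      rw [this]
      exact h2.map Polynomial.C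
    have h4 := h3.map (PowerSeries.constantCoeff (R := A))
    rw [map_ofNat, map_ofNat] at h4
    exact h4
  obtain ⟨ρ, hρ0, hρ⟩ := hSqr A h2A γ hγ
  obtain ⟨v, hv⟩ : ∃ v : A, φ * v = 1 := by
    obtain ⟨w, hw⟩ := hφ
    exact ⟨(w⁻¹ : Aˣ), by rw [← hw]; simp⟩
  set D : PowerSeries A → PowerSeries A := fun f => derivativeFun f with hD
  have hDadd : ∀ f g, D (f + g) = D f + D g := fun f g => derivativeFun_add f g
  have hDmul : ∀ f g, D (f * g) = f * D g + g * D f := by
    intro f g
    show derivativeFun (f * g) = _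
    rw [derivativeFun_mul]
    rfl
  have hDC : ∀ a : A, D (PowerSeries.C a) = 0 := fun a => PowerSeries.derivative_C (R := A)
  have hDX : D X = 1 := by
    exact PowerSeries.derivative_X (R := A)
  have hDpow : ∀ (f : PowerSeries A) (n : ℕ), D (f ^ (n + 1)) = (n + 1 : ℕ) * f ^ n * D f := by
    intro f n
    induction n with
    | zero => simp
    | succ n ih =>
      rw [pow_succ, hDmul, ih]
      push_cast
      ring
  have hDsub : ∀ f g, D (f - g) = D f - D g := by
    intro f g
    have h5 := hDadd (f - g) g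
    rw [sub_add_cancel] at h5
    rw [h5]
    ring
  set σ : PowerSeries A := ρ * γ with hσ
  have hσρ : σ * ρ = 1 := by
    rw [hσ, ← hρ]
    ring
  have hσ2 : σ ^ 2 = γ := by
    rw [hσ]
    calc (ρ * γ) ^ 2 = (ρ ^ 2 * γ) * γ := by ring
      _ = γ := by rw [hρ, one_mul]
  obtain ⟨η, hη⟩ := LOCS_.eta_exists k d hd (θ p * ρ ^ (2 * k + 3) * PowerSeries.C v)
  set hl : PowerSeries A := η * σ ^ (2 * k + 1) with hhl
  obtain ⟨h, hh⟩ := hint (k + 1) hl
  have hFt : θ F = X * PowerSeries.C φ * σ ^ 2 := by rw [hθF, hσ2]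
  set Φ : PowerSeries A := PowerSeries.C φ with hΦ
  have hΦv : Φ * PowerSeries.C v = 1 := by
    rw [hΦ, ← map_mul, hv, map_one]
  have hDF : D (θ F) = Φ * σ ^ 2 + 2 * X * Φ * σ * D σ := by
    rw [hFt, hDmul, hDmul, hDX, hDC]
    have := hDpow σ 1
    rw [show (1 + 1 : ℕ) = 2 from rfl] at this
    rw [this]
    push_cast
    ring
  -- the local identity
  have hloc : 2 * D hl * θ F - ((2 * k + 1 : ℤ) : PowerSeries A) * hl * D (θ F) =
      Φ * σ ^ (2 * k + 3) * (2 * X * D η - ((2 * k + 1 : ℤ) : PowerSeries A) * η) := by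
    rw [hDF, hFt, hhl, hDmul, hDpow σ (2 * k)]
    push_cast
    ring
  have hσρ' : σ ^ (2 * k + 3) * ρ ^ (2 * k + 3) = 1 := by
    rw [← mul_pow, hσρ, one_pow]
  have hmain : (X : PowerSeries A) ^ (k + 1) ∣
      2 * D hl * θ F - ((2 * k + 1 : ℤ) : PowerSeries A) * hl * D (θ F) -
        (d : PowerSeries A) * θ p := by
    rw [hloc]
    have h6 : Φ * σ ^ (2 * k + 3) * (2 * X * D η - ((2 * k + 1 : ℤ) : PowerSeries A) * η) -
        (d : PowerSeries A) * θ p = Φ * σ ^ (2 * k + 3) *
        (2 * X * D η - ((2 * k + 1 : ℤ) : PowerSeries A) * η -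
          (d : PowerSeries A) * (θ p * ρ ^ (2 * k + 3) * PowerSeries.C v)) := by
      have : (d : PowerSeries A) * θ p = (d : PowerSeries A) * θ p *
          (σ ^ (2 * k + 3) * ρ ^ (2 * k + 3)) * (Φ * PowerSeries.C v) := by
        rw [hσρ', hΦv, mul_one, mul_one]
      rw [this]
      ring
    rw [h6]
    exact Dvd.dvd.mul_left hη _
  -- transfer to `h`
  have hC : ∀ z : ℤ, θ (Polynomial.C (z : R)) = (z : PowerSeries A) := by
    intro z
    rw [map_intCast, map_intCast]
  have hθL : θ (Lam F (k + 1) h) = 2 * D (θ h) * θ F -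
      ((2 * k + 1 : ℤ) : PowerSeries A) * θ h * D (θ F) := by
    unfold Lam
    rw [map_sub, map_mul, map_mul, map_mul, map_mul, hC, hθd, hθd, map_ofNat]
    push_cast
    ring
  obtain ⟨w, hw⟩ := hh
  have hdiff : (X : PowerSeries A) ^ (k + 1) ∣ 2 * D (θ h - hl) * θ F -
      ((2 * k + 1 : ℤ) : PowerSeries A) * (θ h - hl) * D (θ F) := by
    rw [hw, hDmul, hDpow X k, hDX, hFt]
    refine ⟨2 * X * D w * Φ * σ ^ 2 + 2 * w * ((k + 1 : ℕ) : PowerSeries A) * Φ * σ ^ 2 -
      ((2 * k + 1 : ℤ) : PowerSeries A) * w * D (X * Φ * σ ^ 2), ?_⟩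
    rw [pow_succ]
    push_cast
    ring
  have hfin : (X : PowerSeries A) ^ (k + 1) ∣
      θ (Polynomial.C (d : R) * p - Lam F (k + 1) h) := by
    rw [map_sub, map_mul, hC, hθL]
    have h7 := dvd_add hdiff hmain
    have h8 : (d : PowerSeries A) * θ p - (2 * D (θ h) * θ F -
        ((2 * k + 1 : ℤ) : PowerSeries A) * θ h * D (θ F)) =
        -((2 * D (θ h - hl) * θ F - ((2 * k + 1 : ℤ) : PowerSeries A) * (θ h - hl) * D (θ F)) +
        (2 * D hl * θ F - ((2 * k + 1 : ℤ) : PowerSeries A) * hl * D (θ F) -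
        (d : PowerSeries A) * θ p)) := by
      rw [hDsub]
      ring
    rw [h8]
    exact (dvd_neg).mpr h7
  obtain ⟨β, hβ⟩ := hker (k + 1) _ hfin
  refine ⟨h, β, ?_⟩
  rw [← hβ]
  ring

end Pool.Agent.DG2
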