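import Pool.Agent.DG2.CStmts

set_option autoImplicit false

/-!
# DG2, module NMQ: the matrix of the numerators
-/

open scoped BigOperators Topology
open Metric Set

namespace Pool.Agent.DG2

open Pool.Agent.GPH (f0 Cop Dop P2 pol CPath num perMat tpt fus Nm)
open Pool.Agent.HGP (Ix Simil Idx fvec mvec Aof opt)

noncomputable section

namespace NMQ_

theorem fus_eq (g : ℕ) (u : Fin (2 * g) → ℂ) (z : ℂ) :
    fus g u z = f0 u + Polynomial.C z := by
  unfold fus pol f0
  rw [Fin.sum_univ_succ]
  simp only [Fin.cons_zero, Fin.cons_succ, Fin.val_zero, pow_zero, mul_one, Fin.val_succ]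
  ring

theorem f0_coeff_big {R : Type} [CommRing R] {m : ℕ} (c : Fin m → R) {n : ℕ} (hn : m + 1 < n) :
    (f0 c).coeff n = 0 := by
  unfold f0
  rw [Polynomial.coeff_add, Polynomial.coeff_X_pow, if_neg (by omega), zero_add,
    Polynomial.finsetSum_coeff]
  refine Finset.sum_eq_zero fun k _ => ?_
  rw [Polynomial.coeff_C_mul, Polynomial.coeff_X_pow, if_neg (by have := k.2; omega), mul_zero]

theorem f0_coeff_top {R : Type} [CommRing R] {m : ℕ} (c : Fin m → R) :
    (f0 c).coeff (m + 1) = 1 := by
  unfold f0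
  rw [Polynomial.coeff_add, Polynomial.coeff_X_pow, if_pos rfl,
    Polynomial.finsetSum_coeff, Finset.sum_eq_zero, add_zero]
  intro k _
  rw [Polynomial.coeff_C_mul, Polynomial.coeff_X_pow, if_neg (by have := k.2; omega), mul_zero]

theorem f0_cC {m : ℕ} (c : Fin m → ℚ) (n : ℕ) :
    (f0 (cC c)).coeff n = (((f0 c).coeff n : ℚ) : ℂ) := by
  unfold f0 cC
  simp only [Polynomial.coeff_add, Polynomial.coeff_X_pow, Polynomial.finsetSum_coeff,
    Polynomial.coeff_C_mul]
  push_cast
  refine congrArg₂ (· + ·) ?_ (Finset.sum_congr rfl fun k _ => ?_) <;> split_ifs <;> simp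

theorem nm_eq (g : ℕ) (c : Fin (2 * g) → ℚ) (z : ℂ) : Nm g (fus g (cC c) z) = NmC g c := by
  ext k l
  unfold Nm NmC
  rw [Matrix.of_apply, Matrix.map_apply]
  unfold NmQ
  rw [Matrix.of_apply]
  rcases k with j | j
  · simp only [num, Polynomial.coeff_X_pow]
    split_ifs <;> simp
  · simp only [num, Polynomial.finsetSum_coeff, Polynomial.coeff_C_mul, Polynomial.coeff_X_pow]
    have hf : ∀ n, 1 ≤ n → (fus g (cC c) z).coeff n = (((f0 c).coeff n : ℚ) : ℂ) := by
      intro n hn
      rw [fus_eq, Polynomial.coeff_add, Polynomial.coeff_C, if_neg (by omega), add_zero, f0_cC]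
    by_cases h1 : (j : ℕ) < (l : ℕ)
    · rw [if_pos h1]
      by_cases h2 : (l : ℕ) + j + 2 < 2 * g + 2
      · rw [Finset.sum_eq_single ((l : ℕ) + j + 2)]
        · rw [if_pos (by omega), hf _ (by omega)]
          push_cast
          ring
        · intro n hn hne
          rw [Finset.mem_Ico] at hn
          rw [if_neg (by omega), mul_zero]
        · intro h3
          exact absurd (Finset.mem_Ico.2 ⟨by omega, h2⟩) h3
      · rw [Finset.sum_eq_zero, f0_coeff_big c (by omega)]
        · simp
        · intro n hn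
          rw [Finset.mem_Ico] at hn
          rw [if_neg (by omega), mul_zero]
    · rw [if_neg h1, Finset.sum_eq_zero]
      · simp
      · intro n hn
        rw [Finset.mem_Ico] at hn
        rw [if_neg (by omega), mul_zero]

theorem inj (g : ℕ) (c : Fin (2 * g) → ℚ) (v : Fin (2 * g) → ℚ)
    (hv : (NmQ g c).mulVec v = 0) : v = 0 := by
  have key : ∀ n : ℕ, ∀ l : Fin (2 * g), (l : ℕ) = n → v l = 0 := by
    intro n
    induction n using Nat.strong_induction_on with
    | _ n ih =>
      intro l hl
      by_cases h1 : (l : ℕ) < g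
      · have h2 := congrFun hv (.inl ⟨l, h1⟩)
        rw [Matrix.mulVec, dotProduct, Finset.sum_eq_single l] at h2
        · simpa [NmQ] using h2
        · intro k _ hk
          have : (k : ℕ) ≠ (l : ℕ) := fun h => hk (Fin.ext h)
          simp [NmQ, this]
        · intro h
          exact absurd (Finset.mem_univ _) h
      · have hl2 := l.2
        have h2 := congrFun hv (.inr ⟨2 * g - 1 - l, by omega⟩)
        rw [Matrix.mulVec, dotProduct, Finset.sum_eq_single l] at h2
        · simp only [NmQ, Matrix.of_apply, Pi.zero_apply] at h2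
          rw [if_pos (by omega)] at h2
          have e1 : (l : ℕ) + (2 * g - 1 - l) + 2 = 2 * g + 1 := by omega
          rw [e1, f0_coeff_top, mul_one] at h2
          rcases mul_eq_zero.1 h2 with h3 | h3
          · exfalso
            have h4 : ((2 * g - 1 - (l : ℕ) : ℕ) : ℚ) < ((l : ℕ) : ℚ) := by
              exact_mod_cast (by omega : 2 * g - 1 - (l : ℕ) < (l : ℕ))
            have h5 : ((l : ℕ) : ℚ) - ((2 * g - 1 - (l : ℕ) : ℕ) : ℚ) = 0 := by
              linarith
            linarith
          · exact h3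
        · intro k _ hk
          have hkl : (k : ℕ) ≠ (l : ℕ) := fun h => hk (Fin.ext h)
          rcases lt_or_gt_of_ne hkl with h3 | h3
          · rw [ih k (by omega) k rfl, mul_zero]
          · simp only [NmQ, Matrix.of_apply]
            rw [f0_coeff_big c (by omega), mul_zero, ite_self, zero_mul]
        · intro h
          exact absurd (Finset.mem_univ _) h
  funext l
  exact key l l rfl

theorem inv (g : ℕ) (c : Fin (2 * g) → ℚ) :
    ∃ B : Matrix (Fin (2 * g)) (Ix g) ℚ, NmQ g c * B = 1 ∧ B * NmQ g c = 1 := by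
  classical
  have hcard : Fintype.card (Ix g) = Fintype.card (Fin (2 * g)) := by
    simp only [Ix, Fintype.card_sum, Fintype.card_fin]
    ring
  let e : Ix g ≃ Fin (2 * g) := Fintype.equivOfCardEq hcard
  let N : Matrix (Fin (2 * g)) (Fin (2 * g)) ℚ := (NmQ g c).submatrix e.symm id
  have hN : Function.Injective N.mulVec := by
    intro v w hvw
    have h1 : N.mulVec (v - w) = 0 := by
      rw [Matrix.mulVec_sub, hvw, sub_self]
    have h2 : (NmQ g c).mulVec (v - w) = 0 := by
      funext k
      have h3 := congrFun h1 (e k)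
      simp only [Matrix.mulVec, dotProduct, N, Matrix.submatrix_apply, e.symm_apply_apply,
        id] at h3
      exact h3
    exact sub_eq_zero.1 (inj g c _ h2)
  have hU : IsUnit N := Matrix.mulVec_injective_iff_isUnit.1 hN
  obtain ⟨U, hU⟩ := hU
  have h1 : N * (U⁻¹).val = 1 := by rw [← hU]; exact U.mul_inv
  have h2 : (U⁻¹).val * N = 1 := by rw [← hU]; exact U.inv_mul
  refine ⟨(U⁻¹).val.submatrix id e, ?_, ?_⟩
  · ext i j
    have h3 := congrFun (congrFun h1 (e i)) (e j)
    rw [Matrix.mul_apply] at h3 ⊢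
    simp only [N, Matrix.submatrix_apply, e.symm_apply_apply, id] at h3 ⊢
    rw [h3, Matrix.one_apply, Matrix.one_apply]
    simp
  · ext i j
    have h3 := congrFun (congrFun h2 i) j
    rw [Matrix.mul_apply] at h3 ⊢
    simp only [N, Matrix.submatrix_apply, id] at h3 ⊢
    rw [← h3]
    exact Fintype.sum_equiv e _ _ fun x => by rw [e.symm_apply_apply]

end NMQ_

open NMQ_ in
theorem nmq_proof : Stmt_NmQ := fun g c => ⟨nm_eq g c, fus_eq g (cC c), inv g c⟩

end

end Pool.Agent.DG2
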