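import Pool.Agent.DG2.AStmts

set_option autoImplicit false

/-!
# DG2, module RED: the matrices `B_k` reduce the pole order
-/

open Finset

namespace Pool.Agent.DG2

open Pool.Agent.GPH (f0 g0 Cop Dop)

namespace RED_

open Polynomial

variable {R : Type} [CommRing R]

lemma Lam_add (F : R[X]) (k : ℕ) (h h' : R[X]) : Lam F k (h + h') = Lam F k h + Lam F k h' := by
  unfold Lam
  rw [derivative_add]
  ring

lemma Lam_smul (F : R[X]) (k : ℕ) (a : R) (h : R[X]) : Lam F k (C a * h) = C a * Lam F k h := by
  unfold Lam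
  rw [derivative_mul, derivative_C]
  ring

lemma Lam_zero (F : R[X]) (k : ℕ) : Lam F k 0 = 0 := by
  unfold Lam
  simp

lemma Lam_sum (F : R[X]) (k : ℕ) {ι : Type} (s : Finset ι) (h : ι → R[X]) :
    Lam F k (∑ i ∈ s, h i) = ∑ i ∈ s, Lam F k (h i) := by
  classical
  induction s using Finset.induction_on with
  | empty => simp [Lam_zero]
  | insert a s ha ih => rw [sum_insert ha, sum_insert ha, Lam_add, ih]

lemma Lam_succ (F : R[X]) (k : ℕ) (h : R[X]) : Lam F (k + 1) (F * h) = F * Lam F k h := by
  unfold Lam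
  rw [derivative_mul]
  have : C (((2 * ((k + 1 : ℕ) : ℤ) - 1 : ℤ)) : R) = C ((2 * (k : ℤ) - 1 : ℤ) : R) + 2 := by
    push_cast
    rw [C_sub, C_sub, C_mul, C_mul, C_add]
    simp only [C_1, map_ofNat]
    ring
  rw [this]
  ring

end RED_

open Polynomial in
theorem Red_proof (hCDK : Stmt_CDK) : Stmt_Red := by
  intro K _ _ m c s hdet k
  have : CharZero K := algebraRat.charZero K
  choose u hu1 hu2 hu3 using fun i => hCDK K m c i
  set F : K[X] := f0 c + C s with hF
  have hF' : derivative F = derivative (f0 c) := by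
    rw [hF, derivative_add, derivative_C, add_zero]
  have halg : algebraMap ℚ K (1 / 2) = 1 / 2 := by
    rw [map_div₀, map_one, map_ofNat]
  set N : Matrix (Fin m) (Fin m) K := s • (1 : Matrix (Fin m) (Fin m) K) + (Cop c).transpose
    with hN
  have hNinv : N⁻¹ * N = 1 := Matrix.nonsing_inv_mul N (isUnit_iff_ne_zero.mpr hdet)
  -- `∑ N i l X^l = X^i F - u_i F'`
  have hv : ∀ i : Fin m, ∑ l : Fin m, C (N i l) * X ^ (l : ℕ) =
      X ^ (i : ℕ) * F - u i * derivative F := by
    intro i
    have h1 : ∑ l : Fin m, C (N i l) * X ^ (l : ℕ) = C s * X ^ (i : ℕ) +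
        ∑ l : Fin m, C (Cop c l i) * X ^ (l : ℕ) := by
      have h2 : ∀ l : Fin m, C (N i l) * X ^ (l : ℕ) =
          (if i = l then C s * X ^ (l : ℕ) else 0) + C (Cop c l i) * X ^ (l : ℕ) := by
        intro l
        rw [hN, Matrix.add_apply, Matrix.smul_apply, Matrix.transpose_apply, Matrix.one_apply]
        split_ifs with h
        · rw [smul_eq_mul, mul_one, C_add]
          ring
        · rw [smul_eq_mul, mul_zero, zero_add, zero_add]
      rw [sum_congr rfl fun l _ => h2 l, sum_add_distrib, Finset.sum_ite_eq]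
      simp
    rw [h1, hF', hF]
    have h3 := hu2 i
    linear_combination (-1 : K[X]) * h3
  -- `∑ E i l X^l = u_i' - X^i / 2`
  set E : Matrix (Fin m) (Fin m) K := (Dop c).transpose with hE
  have hEi : ∀ i : Fin m, ∑ l : Fin m, C (E i l) * X ^ (l : ℕ) =
      derivative (u i) - C (1 / 2) * X ^ (i : ℕ) := by
    intro i
    rw [← halg, ← hu3 i]
    rfl
  induction k with
  | zero =>
    intro i
    refine ⟨0, ?_⟩
    rw [RED_.Lam_zero]
    have h1 : ∑ l : Fin m, C (Bk c s 0 i l) * X ^ (l : ℕ) = X ^ (i : ℕ) := by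
      have h2 : ∀ l : Fin m, C (Bk c s 0 i l) * X ^ (l : ℕ) =
          if i = l then X ^ (l : ℕ) else 0 := by
        intro l
        show C ((1 : Matrix (Fin m) (Fin m) K) i l) * X ^ (l : ℕ) = _
        rw [Matrix.one_apply]
        split_ifs <;> simp
      rw [sum_congr rfl fun l _ => h2 l, Finset.sum_ite_eq]
      simp
    rw [h1]
    simp
  | succ k ih =>
    choose h hh using ih
    set a : K := (-1) ^ k * (Nat.centralBinom k : K) / 4 ^ k with ha
    set a' : K := (-1) ^ (k + 1) * (Nat.centralBinom (k + 1) : K) / 4 ^ (k + 1) with ha'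
    have hk1 : ((k : K) + 1) ≠ 0 := by
      exact_mod_cast Nat.succ_ne_zero k
    have h4 : (4 : K) ≠ 0 := by norm_num
    have haa : ((k : K) + 1) * a' = -(k + 1 / 2) * a := by
      have h5 := Nat.succ_mul_centralBinom_succ k
      have h6 : ((k : K) + 1) * (Nat.centralBinom (k + 1) : K) =
          2 * (2 * k + 1) * (Nat.centralBinom k : K) := by
        exact_mod_cast h5
      rw [ha, ha', pow_succ, pow_succ]
      field_simp
      linear_combination (-2 : K) * h6
    -- the relation before the division by `N`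
    have hrel : ∀ i : Fin m, ∃ g : K[X], C (((k : K) + 1) * a') *
        ∑ l : Fin m, C (N i l) * X ^ (l : ℕ) =
        F ^ (k + 1) * ∑ l : Fin m, C (((E - (k : K) • (1 : Matrix (Fin m) (Fin m) K)) *
          Bk c s k) i l) * X ^ (l : ℕ) + Lam F (k + 1) g := by
      intro i
      set Q : Matrix (Fin m) (Fin m) K := E - (k : K) • (1 : Matrix (Fin m) (Fin m) K) with hQ
      refine ⟨F * ∑ j : Fin m, C (Q i j) * h j - C (a / 2) * u i, ?_⟩
      have hQs : ∑ j : Fin m, C (Q i j) * X ^ (j : ℕ) =
          derivative (u i) - C (1 / 2) * X ^ (i : ℕ) - C (k : K) * X ^ (i : ℕ) := by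
        have h2 : ∀ l : Fin m, C (Q i l) * X ^ (l : ℕ) =
            C (E i l) * X ^ (l : ℕ) - (if i = l then C (k : K) * X ^ (l : ℕ) else 0) := by
          intro l
          rw [hQ, Matrix.sub_apply, Matrix.smul_apply, Matrix.one_apply]
          split_ifs with h
          · rw [smul_eq_mul, mul_one, C_sub]
            ring
          · rw [smul_eq_mul, mul_zero, sub_zero, sub_zero]
        rw [sum_congr rfl fun l _ => h2 l, sum_sub_distrib, hEi, Finset.sum_ite_eq]
        simp
      -- apply the induction hypothesis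
      have hsum : C a * ∑ j : Fin m, C (Q i j) * X ^ (j : ℕ) =
          F ^ k * ∑ l : Fin m, C ((Q * Bk c s k) i l) * X ^ (l : ℕ) +
          ∑ j : Fin m, C (Q i j) * Lam F k (h j) := by
        have h7 : ∑ l : Fin m, C ((Q * Bk c s k) i l) * X ^ (l : ℕ) =
            ∑ j : Fin m, C (Q i j) * ∑ l : Fin m, C (Bk c s k j l) * X ^ (l : ℕ) := by
          have h8 : ∀ l : Fin m, C ((Q * Bk c s k) i l) * X ^ (l : ℕ) =
              ∑ j : Fin m, C (Q i j) * (C (Bk c s k j l) * X ^ (l : ℕ)) := by
            intro l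
            rw [Matrix.mul_apply, map_sum, sum_mul]
            refine sum_congr rfl fun j _ => ?_
            rw [C_mul]
            ring
          rw [sum_congr rfl fun l _ => h8 l, sum_comm]
          refine sum_congr rfl fun j _ => ?_
          rw [mul_sum]
        rw [h7, mul_sum, mul_sum, ← sum_add_distrib]
        refine sum_congr rfl fun j _ => ?_
        have h9 := hh j
        have h10 : C a * (C (Q i j) * X ^ (j : ℕ)) = C (Q i j) * (C a * X ^ (j : ℕ)) := by ring
        rw [h10, h9]
        ring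
      have hL1 : Lam F (k + 1) (F * ∑ j : Fin m, C (Q i j) * h j - C (a / 2) * u i) =
          F * (∑ j : Fin m, C (Q i j) * Lam F k (h j)) - C (a / 2) * Lam F (k + 1) (u i) := by
        have h11 : F * ∑ j : Fin m, C (Q i j) * h j - C (a / 2) * u i =
            F * (∑ j : Fin m, C (Q i j) * h j) + C (-(a / 2)) * u i := by
          rw [C_neg]
          ring
        rw [h11, RED_.Lam_add, RED_.Lam_succ, RED_.Lam_smul, RED_.Lam_sum]
        simp_rw [RED_.Lam_smul]
        rw [C_neg]
        ring
      rw [hL1, hv i]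
      have hLu : Lam F (k + 1) (u i) = 2 * derivative (u i) * F -
          (2 * C (k : K) + 1) * u i * derivative F := by
        unfold Lam
        have : C (((2 * ((k + 1 : ℕ) : ℤ) - 1 : ℤ)) : K) = 2 * C (k : K) + 1 := by
          push_cast
          rw [C_sub, C_mul, C_add]
          simp only [C_1, map_ofNat]
          ring
        rw [this]
      rw [hLu, haa]
      have e1 : C (-((k : K) + 1 / 2) * a) = -(C (k : K) + C (1 / 2)) * C a := by
        rw [C_mul, C_neg, C_add]
      have e2 : C (a / 2) = C a * C (1 / 2) := by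
        rw [← C_mul]
        congr 1
        ring
      have e3 : (2 : K[X]) * C (1 / 2) = 1 := by
        have : (2 : K[X]) = C 2 := by rw [map_ofNat]
        rw [this, ← C_mul]
        norm_num
      rw [e1, e2, pow_succ]
      rw [hQs] at hsum
      linear_combination (F : K[X]) * hsum + (C a * derivative (u i) * F
        - C a * C (k : K) * u i * derivative F) * e3
    choose g hg using hrel
    intro r
    refine ⟨∑ i : Fin m, C (N⁻¹ r i / ((k : K) + 1)) * g i, ?_⟩
    -- sum of the relations
    have h12 : ∑ i : Fin m, C (N⁻¹ r i / ((k : K) + 1)) * (C (((k : K) + 1) * a') *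
        ∑ l : Fin m, C (N i l) * X ^ (l : ℕ)) = C a' * X ^ (r : ℕ) := by
      have h13 : ∀ i : Fin m, C (N⁻¹ r i / ((k : K) + 1)) * (C (((k : K) + 1) * a') *
          ∑ l : Fin m, C (N i l) * X ^ (l : ℕ)) =
          ∑ l : Fin m, C a' * (C (N⁻¹ r i * N i l) * X ^ (l : ℕ)) := by
        intro i
        rw [mul_sum, mul_sum]
        refine sum_congr rfl fun l _ => ?_
        have h14 : C (N⁻¹ r i / ((k : K) + 1)) * C (((k : K) + 1) * a') * C (N i l) =
            C a' * C (N⁻¹ r i * N i l) := by
          rw [← C_mul, ← C_mul, ← C_mul]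
          congr 1
          field_simp
        linear_combination X ^ (l : ℕ) * h14
      rw [sum_congr rfl fun i _ => h13 i, sum_comm]
      have h15 : ∀ l : Fin m, ∑ i : Fin m, C a' * (C (N⁻¹ r i * N i l) * X ^ (l : ℕ)) =
          if r = l then C a' * X ^ (l : ℕ) else 0 := by
        intro l
        rw [← mul_sum, ← sum_mul, ← map_sum, ← Matrix.mul_apply, hNinv, Matrix.one_apply]
        split_ifs <;> simp
      rw [sum_congr rfl fun l _ => h15 l, Finset.sum_ite_eq]
      simp
    rw [← h12, sum_congr rfl fun i _ => by rw [hg i]]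
    have h16 : ∑ l : Fin m, C (Bk c s (k + 1) r l) * X ^ (l : ℕ) =
        ∑ i : Fin m, C (N⁻¹ r i / ((k : K) + 1)) *
          ∑ l : Fin m, C (((E - (k : K) • (1 : Matrix (Fin m) (Fin m) K)) *
          Bk c s k) i l) * X ^ (l : ℕ) := by
      have h17 : ∀ l : Fin m, C (Bk c s (k + 1) r l) * X ^ (l : ℕ) =
          ∑ i : Fin m, C (N⁻¹ r i / ((k : K) + 1)) *
          (C (((E - (k : K) • (1 : Matrix (Fin m) (Fin m) K)) *
          Bk c s k) i l) * X ^ (l : ℕ)) := by
        intro l
        have h18 : Bk c s (k + 1) r l = ∑ i : Fin m, N⁻¹ r i / ((k : K) + 1) *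
            ((E - (k : K) • (1 : Matrix (Fin m) (Fin m) K)) * Bk c s k) i l := by
          show ((1 / ((k : K) + 1)) • (N⁻¹ * (E - (k : K) • (1 : Matrix (Fin m) (Fin m) K)) *
            Bk c s k)) r l = _
          rw [Matrix.smul_apply, Matrix.mul_assoc, Matrix.mul_apply, smul_eq_mul, mul_sum]
          refine sum_congr rfl fun i _ => ?_
          ring
        rw [h18, map_sum, sum_mul]
        refine sum_congr rfl fun i _ => ?_
        rw [C_mul]
        ring
      rw [sum_congr rfl fun l _ => h17 l, sum_comm]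
      refine sum_congr rfl fun i _ => ?_
      rw [mul_sum]
    rw [h16, RED_.Lam_sum, mul_sum, ← sum_add_distrib]
    refine sum_congr rfl fun i _ => ?_
    rw [RED_.Lam_smul]
    ring

end Pool.Agent.DG2
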