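import Pool.Agent.DG2.CStmts
import Pool.Agent.GPH.FIBERZ
import Pool.Agent.GPH.PIECE
import Pool.Agent.GPH.Part3
import Pool.Agent.GPH.RZ
import Pool.Agent.GPH.RZREAL
import Pool.Agent.GPH.LOCROOTS
import Pool.Agent.GPH.LOOPM
import Pool.Agent.GPH.LAG
import Pool.Agent.GPH.CDid
import Pool.Agent.HGP.Main

set_option autoImplicit false

/-!
# DG2, module REFX: existence of reference periods
-/

open scoped BigOperators Topology
open Metric Set

namespace Pool.Agent.DG2.REFX_

open Pool.Agent.GPH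
open Pool.Agent.HGP (Ix Simil Idx fvec opt)

noncomputable section

/-- The differential equation of the reference periods. -/
theorem ode (h3 : Stmt_OdeE) (h4 : Stmt_CDid) (g : ℕ) (u : Fin (2 * g) → ℂ) (κ s0 : ℂ) (R : ℝ)
    (z : ℕ → ℂ → ℂ) (hz : ∀ i, DifferentiableOn ℂ (z i) (ball s0 R))
    (hs : ∀ s ∈ ball s0 R, Ord (2 * g + 1) κ (fun i => z i s) ∧
      fus g u s = polz g (fun i => z i s)) :
    ∃ W' : ℂ → Matrix (Fin (2 * g)) (Ix g) ℂ,
      (∀ s ∈ ball s0 R, ∀ k j,
        HasDerivAt (fun t => FIBERZ.Wm g (fun i => z i t) k j) (W' s k j) s) ∧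
      ∀ s ∈ ball s0 R,
        (s • (1 : Matrix (Fin (2 * g)) (Fin (2 * g)) ℂ) + (Cop u).transpose) * W' s =
          (Dop u).transpose * FIBERZ.Wm g (fun i => z i s) := by
  have hV : IsOpen (ball s0 R) := isOpen_ball
  have hroots : ∀ s ∈ ball s0 R, Ord (2 * g + 1) κ (fun i => z i s) ∧
      ∀ x, (f0 u).eval x + s = fz (2 * g + 1) (fun i => z i s) x := by
    intro s hs'
    refine ⟨(hs s hs').1, fun x => ?_⟩
    have h := congrArg (Polynomial.eval x) (hs s hs').2
    rw [FIBERZ.fus_eq, Polynomial.eval_add, Polynomial.eval_C] at h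
    rw [h]
    unfold polz fz
    rw [Polynomial.eval_prod]
    refine Finset.prod_congr rfl fun i _ => ?_
    rw [Polynomial.eval_sub, Polynomial.eval_X, Polynomial.eval_C]
  have hode := fun (m : ℕ) (hm : m + 1 < 2 * g + 1) =>
    h3 (2 * g + 1) κ (f0 u) (ball s0 R) z hV (fun i _ => hz i) hroots m hm
  have hEd : ∀ (m : Fin (2 * g)) (l : ℕ), ∀ s ∈ ball s0 R,
      DifferentiableAt ℂ (fun s => EE (2 * g + 1) (fun i => z i s) m l) s := by
    intro m l s hs'
    have h := (hode m (by have := m.2; omega)).1 (Polynomial.X ^ l)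
    have h2 : (fun s => EEp (2 * g + 1) (fun i => z i s) m (Polynomial.X ^ l)) =
        fun s => EE (2 * g + 1) (fun i => z i s) m l := by
      funext s
      exact FIBERZ.EEp_X_pow _ _ _ _
    rw [h2] at h
    exact h.differentiableAt (hV.mem_nhds hs')
  -- the equation of the reference integrals
  have hEq : ∀ (m k : Fin (2 * g)), ∀ s ∈ ball s0 R,
      s * deriv (fun s => EE (2 * g + 1) (fun i => z i s) m k) s +
        ∑ l : Fin (2 * g), Cop u l k * deriv (fun s => EE (2 * g + 1) (fun i => z i s) m l) s =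
      ∑ l : Fin (2 * g), Dop u l k * EE (2 * g + 1) (fun i => z i s) m l := by
    intro m k s hs'
    obtain ⟨w, hw1, hw2⟩ := h4 (2 * g) u k
    have h := (hode m (by have := m.2; omega)).2 (Polynomial.X ^ (k : ℕ)) w
      (∑ l : Fin (2 * g), Polynomial.C (Cop u l k) * Polynomial.X ^ (l : ℕ)) hw1 s hs'
    rw [← hw2, FIBERZ.EEp_eq _ _ _ _ (2 * g) (fun l => Dop u l k) rfl] at h
    have e1 : (fun s => EEp (2 * g + 1) (fun i => z i s) m (Polynomial.X ^ (k : ℕ))) =
        fun s => EE (2 * g + 1) (fun i => z i s) m k := by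
      funext s
      exact FIBERZ.EEp_X_pow _ _ _ _
    have e2 : (fun s => EEp (2 * g + 1) (fun i => z i s) m
        (∑ l : Fin (2 * g), Polynomial.C (Cop u l k) * Polynomial.X ^ (l : ℕ))) =
        fun s => ∑ l : Fin (2 * g), Cop u l k * EE (2 * g + 1) (fun i => z i s) m l := by
      funext s
      exact FIBERZ.EEp_eq _ _ _ _ (2 * g) (fun l => Cop u l k) rfl
    rw [e1, e2] at h
    have e3 : deriv (fun s => ∑ l : Fin (2 * g), Cop u l k *
        EE (2 * g + 1) (fun i => z i s) m l) s =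
        ∑ l : Fin (2 * g), Cop u l k *
          deriv (fun s => EE (2 * g + 1) (fun i => z i s) m l) s := by
      have : HasDerivAt (fun s => ∑ l : Fin (2 * g), Cop u l k *
          EE (2 * g + 1) (fun i => z i s) m l)
          (∑ l : Fin (2 * g), Cop u l k *
          deriv (fun s => EE (2 * g + 1) (fun i => z i s) m l) s) s := by
        refine HasDerivAt.fun_sum fun l _ => ?_
        exact ((hEd m l s hs').hasDerivAt).const_mul _
      exact this.deriv
    rw [e3] at h
    rw [← h]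
    ring
  -- the entries of `W`
  have hWent : ∀ (s : ℂ) (l : Fin (2 * g)) (c : Ix g), FIBERZ.Wm g (fun i => z i s) l c =
      ∑ m : Fin (2 * g), (2 * Complex.I ^ (m : ℕ) * Tm g c m) *
        EE (2 * g + 1) (fun i => z i s) m l := by
    intro s l c
    unfold FIBERZ.Wm refP
    rw [Matrix.mul_apply]
    refine Finset.sum_congr rfl fun m _ => ?_
    rw [Matrix.transpose_apply, Matrix.transpose_apply, Matrix.of_apply]
    ring
  set W' : ℂ → Matrix (Fin (2 * g)) (Ix g) ℂ := fun s => Matrix.of fun l c =>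
      ∑ m : Fin (2 * g), (2 * Complex.I ^ (m : ℕ) * Tm g c m) *
        deriv (fun s => EE (2 * g + 1) (fun i => z i s) m l) s with hW'
  have hder : ∀ s ∈ ball s0 R, ∀ k j,
      HasDerivAt (fun t => FIBERZ.Wm g (fun i => z i t) k j) (W' s k j) s := by
    intro s hs' k j
    have e : (fun t => FIBERZ.Wm g (fun i => z i t) k j) = fun t =>
        ∑ m : Fin (2 * g), (2 * Complex.I ^ (m : ℕ) * Tm g j m) *
        EE (2 * g + 1) (fun i => z i t) m k := by
      funext t
      exact hWent t k j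
    rw [e, hW']
    simp only [Matrix.of_apply]
    refine HasDerivAt.fun_sum fun m _ => ?_
    exact ((hEd m k s hs').hasDerivAt).const_mul _
  have heq : ∀ s ∈ ball s0 R,
      (s • (1 : Matrix (Fin (2 * g)) (Fin (2 * g)) ℂ) + (Cop u).transpose) * W' s =
        (Dop u).transpose * FIBERZ.Wm g (fun i => z i s) := by
    intro s hs'
    ext k c
    rw [Matrix.add_mul, Matrix.smul_mul, Matrix.one_mul, Matrix.add_apply, Matrix.smul_apply,
      Matrix.mul_apply, Matrix.mul_apply]
    simp only [Matrix.transpose_apply, smul_eq_mul]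
    have e1 : ∀ l : Fin (2 * g), Cop u l k * W' s l c = ∑ m : Fin (2 * g),
        (2 * Complex.I ^ (m : ℕ) * Tm g c m) * (Cop u l k *
          deriv (fun s => EE (2 * g + 1) (fun i => z i s) m l) s) := by
      intro l
      rw [hW']
      simp only [Matrix.of_apply]
      rw [Finset.mul_sum]
      exact Finset.sum_congr rfl fun m _ => by ring
    have e2 : ∀ l : Fin (2 * g), Dop u l k * FIBERZ.Wm g (fun i => z i s) l c =
        ∑ m : Fin (2 * g), (2 * Complex.I ^ (m : ℕ) * Tm g c m) * (Dop u l k *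
          EE (2 * g + 1) (fun i => z i s) m l) := by
      intro l
      rw [hWent, Finset.mul_sum]
      exact Finset.sum_congr rfl fun m _ => by ring
    have e3 : s * W' s k c = ∑ m : Fin (2 * g),
        (2 * Complex.I ^ (m : ℕ) * Tm g c m) * (s *
          deriv (fun s => EE (2 * g + 1) (fun i => z i s) m k) s) := by
      rw [hW']
      simp only [Matrix.of_apply]
      rw [Finset.mul_sum]
      exact Finset.sum_congr rfl fun m _ => by ring
    rw [Finset.sum_congr rfl fun l _ => e1 l, Finset.sum_congr rfl fun l _ => e2 l, e3,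
      Finset.sum_comm, Finset.sum_comm (s := Finset.univ) (t := Finset.univ)
        (f := fun l m => (2 * Complex.I ^ ((m : Fin (2 * g)) : ℕ) * Tm g c m) * (Dop u l k *
          EE (2 * g + 1) (fun i => z i s) m l)), ← Finset.sum_add_distrib]
    refine Finset.sum_congr rfl fun m _ => ?_
    rw [← Finset.mul_sum, ← Finset.mul_sum, ← mul_add, hEq m k s hs']
  exact ⟨W', hder, heq⟩

/-- Ordered roots are distinct. -/
theorem sep (g : ℕ) (κ : ℂ) (z : ℕ → ℂ) (hord : Ord (2 * g + 1) κ z) :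
    (polz g z).Separable := by
  unfold polz
  rw [Polynomial.separable_prod_X_sub_C_iff']
  intro i hi j hj hij
  by_contra hne
  rcases lt_or_gt_of_ne hne with h | h
  · have h2 : 0 < (κ * (z j - z i)).re := hord.2 i j h (Finset.mem_range.1 hj)
    rw [hij, sub_self, mul_zero] at h2
    exact lt_irrefl _ h2
  · have h2 : 0 < (κ * (z i - z j)).re := hord.2 j i h (Finset.mem_range.1 hi)
    rw [hij, sub_self, mul_zero] at h2
    exact lt_irrefl _ h2

theorem odeE : Stmt_OdeE := Part3.odee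
theorem rz : Stmt_RZ := RZ.thm RZREAL.thm EHOL.thm HGP.Main.riem
theorem locRoots : Stmt_LocRoots := LOCROOTS.thm ROOTS.thm ORDEX.thm
theorem loopM : Stmt_LoopM := LOOPM.thm Part3.loops

/-- The theorem for the complex coefficients. -/
theorem main (g : ℕ) (hg : 0 < g) (u : Fin (2 * g) → ℂ) (s0 : ℂ)
    (hsep : (fus g u s0).Separable) :
    ∃ (R : ℝ) (W W' : ℂ → Matrix (Fin (2 * g)) (Ix g) ℂ), 0 < R ∧
      (∀ z ∈ ball s0 R, (fus g u z).Separable) ∧
      (∀ z ∈ ball s0 R, ∀ i j, HasDerivAt (fun z => W z i j) (W' z i j) z) ∧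
      (∀ z ∈ ball s0 R, (z • (1 : Matrix (Fin (2 * g)) (Fin (2 * g)) ℂ) +
        (Cop u).transpose) * W' z = (Dop u).transpose * W z) ∧
      (∀ z ∈ ball s0 R, Simil (2 * Real.pi * Complex.I) (Nm g (fus g u z) * W z)) ∧
      (Nm g (fus g u s0) * W s0).toBlocks₁₁.det ≠ 0 ∧
      (∀ z ∈ ball s0 R, ∀ γ : CPath (fus g u z), ∃ K : Ix g → ℤ, ∀ k,
        γ.per (num g (fus g u z) k) = ∑ j, (Nm g (fus g u z) * W z) k j * K j) := by
  obtain ⟨δ0, R0, κ, z, hδ0, hR0, -, hzd, hz⟩ := locRoots g u s0 hsep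
  have hu : u ∈ closedBall u δ0 := mem_closedBall_self hδ0.le
  have hs0 : s0 ∈ ball s0 R0 := mem_ball_self hR0
  have hpi : (2 * Real.pi * Complex.I : ℂ) ≠ 0 := by
    simp [Real.pi_ne_zero, Complex.I_ne_zero]
  obtain ⟨W0', hd, ho⟩ := ode odeE cDid_proof g u κ s0 R0 (fun i s => z i u s)
    (fun i => hzd i u hu) (fun s hs => hz u hu s hs)
  have hMz : ∀ s ∈ ball s0 R0, Mz g (fun i => z i u s) =
      Nm g (fus g u s) * FIBERZ.Wm g (fun i => z i u s) := by
    intro s hs
    rw [FIBERZ.Mz_eq, ← (hz u hu s hs).2]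
  have hsim := fun s hs => rz g κ (fun i => z i u s) hg (hz u hu s hs).1
  obtain ⟨K, hK, hKdet⟩ := LAG.thm g (Mz g (fun i => z i u s0)) _ hpi (hsim s0 hs0)
  obtain ⟨hKK, hKi⟩ := PIECE.inv_spec K hK
  set A := K.map (fun x : ℤ => (x : ℂ)) with hA
  set B := (PIECE.Kinv K).map (fun x : ℤ => (x : ℂ)) with hB
  refine ⟨R0, fun s => FIBERZ.Wm g (fun i => z i u s) * A, fun s => W0' s * A, hR0, ?_, ?_, ?_,
    ?_, ?_, ?_⟩
  · intro s hs
    rw [(hz u hu s hs).2]
    exact sep g κ _ (hz u hu s hs).1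
  · intro s hs i j
    have h2 : (fun t => (FIBERZ.Wm g (fun i => z i u t) * A) i j) =
        fun t => ∑ l, FIBERZ.Wm g (fun i => z i u t) i l * A l j := by
      funext t
      rw [Matrix.mul_apply]
    have e1 : (W0' s * A) i j = ∑ l, W0' s i l * A l j := Matrix.mul_apply
    show HasDerivAt (fun t => (FIBERZ.Wm g (fun i => z i u t) * A) i j) ((W0' s * A) i j) s
    rw [h2, e1]
    refine HasDerivAt.fun_sum fun l _ => ?_
    exact (hd s hs i l).mul_const _
  · intro s hs
    simp only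
    rw [← Matrix.mul_assoc, ho s hs, Matrix.mul_assoc]
  · intro s hs
    simp only
    rw [← Matrix.mul_assoc, ← hMz s hs]
    exact PIECE.simil_mul (hsim s hs) hK
  · simp only
    rw [← Matrix.mul_assoc, ← hMz s0 hs0]
    exact hKdet
  · intro s hs
    simp only
    rw [← Matrix.mul_assoc, ← hMz s hs]
    obtain ⟨hord, hfus⟩ := hz u hu s hs
    rw [hfus]
    intro γ
    obtain ⟨L, hL⟩ := loopM g κ (fun i => z i u s) hg hord γ
    refine ⟨(PIECE.Kinv K).mulVec L, ?_⟩
    intro k
    rw [hL k]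
    have h1 : ∀ c, (((PIECE.Kinv K).mulVec L c : ℤ) : ℂ) =
        B.mulVec (fun c => (L c : ℂ)) c := by
      intro c
      rw [Matrix.mulVec, Matrix.mulVec, dotProduct, dotProduct]
      push_cast
      rfl
    have h2 : ∑ c, (Mz g (fun i => z i u s) * A) k c *
        (((PIECE.Kinv K).mulVec L c : ℤ) : ℂ) =
        (Mz g (fun i => z i u s) * A).mulVec (B.mulVec (fun c => (L c : ℂ))) k := by
      rw [Matrix.mulVec, dotProduct]
      exact Finset.sum_congr rfl (fun c _ => by rw [h1 c])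
    rw [h2, Matrix.mulVec_mulVec, Matrix.mul_assoc, hKK, Matrix.mul_one]
    rfl

end

end Pool.Agent.DG2.REFX_

namespace Pool.Agent.DG2

/-- REFX: existence of reference periods. -/
theorem refx_proof (hN : Stmt_NmQ) : Stmt_RefX := by
  intro g c s hg hsep
  obtain ⟨hNm, hfus, -⟩ := hN g c
  have h0 : (GPH.fus g (cC c) (s : ℂ)).Separable := by
    rw [hfus]
    exact hsep
  obtain ⟨R, W, W', hR, h1, h2, h3, h4, h5, h6⟩ := REFX_.main g hg (cC c) (s : ℂ) h0
  refine ⟨R, W, hR, ?_, ⟨W', h2, h3⟩, ?_, ?_, ?_⟩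
  · intro z hz
    have := h1 z hz
    rw [hfus] at this
    exact this
  · intro z hz
    have := h4 z hz
    rw [hNm] at this
    exact this
  · have := h5
    rw [hNm] at this
    exact this
  · intro z hz
    have := h6 z hz
    rw [hNm] at this
    exact this

end Pool.Agent.DG2
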