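import Pool.Agent.DG2.CStmts
import Pool.Agent.GPH.Cdmap

set_option autoImplicit false

/-!
# DG2, module SERJ: the Taylor expansion of the reference periods
-/

open scoped BigOperators Topology
open Metric Set

namespace Pool.Agent.DG2

open Pool.Agent.GPH (f0 Cop Dop P2 pol CPath num perMat tpt fus Nm)
open Pool.Agent.HGP (Ix Simil Idx fvec mvec Aof opt)
open Pool.Agent.DGP (val Conv)

namespace SERJ_

lemma diffOn_iter {f : ℂ → ℂ} {U : Set ℂ} (hU : IsOpen U) (hf : DifferentiableOn ℂ f U)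
    (n : ℕ) : DifferentiableOn ℂ (iteratedDeriv n f) U := by
  induction n with
  | zero => simpa using hf
  | succ n ih =>
    rw [iteratedDeriv_succ]
    exact ih.deriv hU

lemma hasDeriv_iter {f : ℂ → ℂ} {U : Set ℂ} (hU : IsOpen U) (hf : DifferentiableOn ℂ f U)
    (n : ℕ) {z : ℂ} (hz : z ∈ U) :
    HasDerivAt (iteratedDeriv n f) (iteratedDeriv (n + 1) f z) z := by
  rw [iteratedDeriv_succ]
  exact ((diffOn_iter hU hf n).differentiableAt (hU.mem_nhds hz)).hasDerivAt

/-- the recursion of the derivatives -/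
lemma iter_rec {m : ℕ} {ι : Type} (A E : Matrix (Fin m) (Fin m) ℂ)
    (W : ℂ → Matrix (Fin m) ι ℂ) {U : Set ℂ} (hU : IsOpen U)
    (hW : ∀ i j, DifferentiableOn ℂ (fun z => W z i j) U)
    (hode : ∀ z ∈ U, ∀ i j, z * deriv (fun z => W z i j) z +
      ∑ k, A i k * deriv (fun z => W z k j) z = ∑ k, E i k * W z k j) (n : ℕ) :
    ∀ z ∈ U, ∀ i j, z * iteratedDeriv (n + 1) (fun z => W z i j) z +
      ∑ k, A i k * iteratedDeriv (n + 1) (fun z => W z k j) z +
      n * iteratedDeriv n (fun z => W z i j) z =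
      ∑ k, E i k * iteratedDeriv n (fun z => W z k j) z := by
  induction n with
  | zero =>
    intro z hz i j
    simp only [zero_add, iteratedDeriv_one, iteratedDeriv_zero, Nat.cast_zero, zero_mul, add_zero]
    exact hode z hz i j
  | succ n ih =>
    intro z hz i j
    have hd : ∀ (l : ℕ) (k : Fin m), HasDerivAt (iteratedDeriv l (fun z => W z k j))
        (iteratedDeriv (l + 1) (fun z => W z k j) z) z := fun l k =>
      hasDeriv_iter hU (hW k j) l hz
    have h1 : HasDerivAt (fun z => z * iteratedDeriv (n + 1) (fun z => W z i j) z +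
        ∑ k, A i k * iteratedDeriv (n + 1) (fun z => W z k j) z +
        n * iteratedDeriv n (fun z => W z i j) z)
        ((1 * iteratedDeriv (n + 1) (fun z => W z i j) z +
          z * iteratedDeriv (n + 1 + 1) (fun z => W z i j) z) +
          ∑ k, A i k * iteratedDeriv (n + 1 + 1) (fun z => W z k j) z +
          n * iteratedDeriv (n + 1) (fun z => W z i j) z) z := by
      refine HasDerivAt.add (HasDerivAt.add ?_ ?_) ?_
      · exact (hasDerivAt_id z).mul (hd (n + 1) i)
      · exact HasDerivAt.fun_sum (fun k _ => (hd (n + 1) k).const_mul (A i k))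
      · exact (hd n i).const_mul _
    have h2 : HasDerivAt (fun z => ∑ k, E i k * iteratedDeriv n (fun z => W z k j) z)
        (∑ k, E i k * iteratedDeriv (n + 1) (fun z => W z k j) z) z :=
      HasDerivAt.fun_sum (fun k _ => (hd n k).const_mul (E i k))
    have h3 : (fun z => z * iteratedDeriv (n + 1) (fun z => W z i j) z +
        ∑ k, A i k * iteratedDeriv (n + 1) (fun z => W z k j) z +
        n * iteratedDeriv n (fun z => W z i j) z) =ᶠ[𝓝 z]
        (fun z => ∑ k, E i k * iteratedDeriv n (fun z => W z k j) z) := by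
      filter_upwards [hU.mem_nhds hz] with y hy
      exact ih y hy i j
    have h4 := (h1.congr_of_eventuallyEq h3.symm).unique h2
    push_cast
    linear_combination h4

/-- the value of `T` at `s` is the determinant of `s + A` -/
lemma eval_Tp {m : ℕ} (c : Fin m → ℚ) (s : ℚ) :
    (Tp c).eval s = (s • (1 : Matrix (Fin m) (Fin m) ℚ) + Am c).det := by
  have h1 : (Tp c).eval s = Polynomial.evalRingHom s (Sm c).det := rfl
  rw [h1, RingHom.map_det]
  congr 1
  ext i j
  unfold Sm
  simp only [RingHom.mapMatrix_apply, Matrix.map_apply, Matrix.add_apply, Matrix.smul_apply,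
    smul_eq_mul, map_add, Polynomial.coe_evalRingHom, Polynomial.eval_C]
  congr 2
  by_cases h : i = j
  · subst h; simp
  · simp [h]

/-- the rational recursion -/
lemma Yc_rec {m : ℕ} (c : Fin m → ℚ) (s : ℚ)
    (hdet : (s • (1 : Matrix (Fin m) (Fin m) ℚ) + Am c).det ≠ 0) (n : ℕ) :
    ((n : ℚ) + 1) • ((s • (1 : Matrix (Fin m) (Fin m) ℚ) + Am c) * Yc c s (n + 1)) =
      (Em c - (n : ℚ) • (1 : Matrix (Fin m) (Fin m) ℚ)) * Yc c s n := by
  have hn : ((n : ℚ) + 1) ≠ 0 := by positivity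
  rw [Yc, Matrix.mul_smul, smul_smul, mul_one_div_cancel hn, one_smul, ← Matrix.mul_assoc,
    ← Matrix.mul_assoc, Matrix.mul_nonsing_inv _ (isUnit_iff_ne_zero.mpr hdet), Matrix.one_mul]

/-- cast to the complex numbers -/
noncomputable abbrev ιC : ℚ →+* ℂ := algebraMap ℚ ℂ

lemma Am_map (m : ℕ) (c : Fin m → ℚ) : (Am c).map ιC = (Cop (cC c)).transpose := by
  have h := (GPH.cdmap_proof ℚ ℂ ιC m c).1
  unfold Am
  rw [Matrix.transpose_map]
  have h2 : (fun k => ιC (c k)) = cC c := by
    funext k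
    simp [cC]
  rw [h2] at h
  rw [h]

lemma Em_map (m : ℕ) (c : Fin m → ℚ) : (Em c).map ιC = (Dop (cC c)).transpose := by
  have h := (GPH.cdmap_proof ℚ ℂ ιC m c).2.1
  unfold Em
  rw [Matrix.transpose_map]
  have h2 : (fun k => ιC (c k)) = cC c := by
    funext k
    simp [cC]
  rw [h2] at h
  rw [h]

/-- the matrix `s + A` over the complex numbers -/
lemma SA_map (m : ℕ) (c : Fin m → ℚ) (s : ℚ) :
    (s • (1 : Matrix (Fin m) (Fin m) ℚ) + Am c).map ιC =
      (s : ℂ) • (1 : Matrix (Fin m) (Fin m) ℂ) + (Cop (cC c)).transpose := by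
  rw [← Am_map]
  ext i j
  simp only [Matrix.map_apply, Matrix.add_apply, Matrix.smul_apply, smul_eq_mul, map_add,
    map_mul, Matrix.one_apply]
  by_cases h : i = j
  · simp [h]
  · simp [h]

lemma EA_map (m : ℕ) (c : Fin m → ℚ) (n : ℕ) :
    (Em c - (n : ℚ) • (1 : Matrix (Fin m) (Fin m) ℚ)).map ιC =
      (Dop (cC c)).transpose - (n : ℂ) • (1 : Matrix (Fin m) (Fin m) ℂ) := by
  rw [← Em_map]
  ext i j
  simp only [Matrix.map_apply, Matrix.sub_apply, Matrix.smul_apply, smul_eq_mul, map_sub,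
    map_mul, Matrix.one_apply]
  by_cases h : i = j
  · simp [h]
  · simp [h]

lemma YcC_rec {m : ℕ} (c : Fin m → ℚ) (s : ℚ)
    (hdet : (s • (1 : Matrix (Fin m) (Fin m) ℚ) + Am c).det ≠ 0) (n : ℕ) :
    ((n : ℂ) + 1) • (((s : ℂ) • (1 : Matrix (Fin m) (Fin m) ℂ) + (Cop (cC c)).transpose) *
      (Yc c s (n + 1)).map ιC) =
      ((Dop (cC c)).transpose - (n : ℂ) • (1 : Matrix (Fin m) (Fin m) ℂ)) *
        (Yc c s n).map ιC := by
  have h := congrArg (fun M : Matrix (Fin m) (Fin m) ℚ => M.map ιC) (Yc_rec c s hdet n)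
  rw [Matrix.map_mul, EA_map] at h
  rw [← h, ← SA_map, ← Matrix.map_mul]
  ext i j
  simp only [Matrix.map_apply, Matrix.smul_apply, smul_eq_mul, map_mul, map_add, map_natCast,
    map_one]

end SERJ_

open SERJ_ in
theorem serj_proof (hT : Stmt_TpC) : Stmt_SerJ := by
  intro g c s R W hg hR
  obtain ⟨W', hW', hode⟩ := hR.ode
  have hs : (s : ℂ) ∈ ball (s : ℂ) R := mem_ball_self hR.pos
  have hTs : (Tp c).eval s ≠ 0 := ((hT g c).1 s).mpr (hR.sep _ hs)
  refine ⟨hTs, R, hR.pos, le_rfl, ?_⟩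
  have hdet : (s • (1 : Matrix (Fin (2 * g)) (Fin (2 * g)) ℚ) + Am c).det ≠ 0 := by
    rw [← eval_Tp]; exact hTs
  have hdetC : ((s : ℂ) • (1 : Matrix (Fin (2 * g)) (Fin (2 * g)) ℂ) +
      (Cop (cC c)).transpose).det ≠ 0 := by
    rw [← SA_map]
    have h1 : ((s • (1 : Matrix (Fin (2 * g)) (Fin (2 * g)) ℚ) + Am c).map ιC).det =
        ιC ((s • (1 : Matrix (Fin (2 * g)) (Fin (2 * g)) ℚ) + Am c).det) :=
      (RingHom.map_det ιC _).symm
    rw [h1]
    intro h
    exact hdet ((map_eq_zero ιC).mp h)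
  -- derivatives
  have hdiff : ∀ i j, DifferentiableOn ℂ (fun z => W z i j) (ball (s : ℂ) R) :=
    fun i j z hz => (hW' z hz i j).differentiableAt.differentiableWithinAt
  have hode' : ∀ z ∈ ball (s : ℂ) R, ∀ i j, z * deriv (fun z => W z i j) z +
      ∑ k, (Cop (cC c)).transpose i k * deriv (fun z => W z k j) z =
      ∑ k, (Dop (cC c)).transpose i k * W z k j := by
    intro z hz i j
    have h1 := congrFun (congrFun (hode z hz) i) j
    rw [Matrix.add_mul, Matrix.smul_mul, Matrix.one_mul, Matrix.add_apply, Matrix.smul_apply,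
      smul_eq_mul, Matrix.mul_apply, Matrix.mul_apply] at h1
    rw [(hW' z hz i j).deriv]
    have h2 : ∀ k, deriv (fun z => W z k j) z = W' z k j := fun k => (hW' z hz k j).deriv
    simp only [h2]
    exact h1
  have hrec := iter_rec (Cop (cC c)).transpose (Dop (cC c)).transpose W isOpen_ball hdiff hode'
  -- the Taylor coefficients
  let D : ℕ → Matrix (Fin (2 * g)) (Ix g) ℂ := fun n => Matrix.of fun i j =>
    iteratedDeriv n (fun z => W z i j) (s : ℂ)
  have hD0 : D 0 = W s := by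
    ext i j
    simp [D]
  have hDrec : ∀ n, ((s : ℂ) • (1 : Matrix (Fin (2 * g)) (Fin (2 * g)) ℂ) +
      (Cop (cC c)).transpose) * D (n + 1) =
      ((Dop (cC c)).transpose - (n : ℂ) • (1 : Matrix (Fin (2 * g)) (Fin (2 * g)) ℂ)) * D n := by
    intro n
    ext i j
    have h1 := hrec n s hs i j
    rw [Matrix.add_mul, Matrix.smul_mul, Matrix.one_mul, Matrix.add_apply, Matrix.smul_apply,
      smul_eq_mul, Matrix.mul_apply, Matrix.sub_mul, Matrix.smul_mul, Matrix.one_mul,
      Matrix.sub_apply, Matrix.smul_apply, smul_eq_mul, Matrix.mul_apply]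
    simp only [D, Matrix.of_apply]
    linear_combination h1
  have hD : ∀ n, D n = (n.factorial : ℂ) • ((Yc c s n).map ιC * W s) := by
    intro n
    induction n with
    | zero =>
      rw [hD0]
      simp [Yc]
    | succ n ih =>
      have h1 := hDrec n
      have h2 := YcC_rec c s hdet n
      have h3 : ((s : ℂ) • (1 : Matrix (Fin (2 * g)) (Fin (2 * g)) ℂ) +
          (Cop (cC c)).transpose) * D (n + 1) =
          ((s : ℂ) • (1 : Matrix (Fin (2 * g)) (Fin (2 * g)) ℂ) +
          (Cop (cC c)).transpose) * (((n + 1).factorial : ℂ) •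
            ((Yc c s (n + 1)).map ιC * W s)) := by
        rw [h1, ih, Matrix.mul_smul, ← Matrix.mul_assoc, ← h2, Matrix.mul_smul,
          ← Matrix.mul_assoc, Matrix.smul_mul, smul_smul, Nat.factorial_succ]
        congr 1
        push_cast
        ring
      have h4 := congrArg (fun M => ((s : ℂ) • (1 : Matrix (Fin (2 * g)) (Fin (2 * g)) ℂ) +
          (Cop (cC c)).transpose)⁻¹ * M) h3
      rw [← Matrix.mul_assoc, ← Matrix.mul_assoc,
        Matrix.nonsing_inv_mul _ (isUnit_iff_ne_zero.mpr hdetC), Matrix.one_mul,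
        Matrix.one_mul] at h4
      exact h4
  -- the right inverse of `W s`
  obtain ⟨V, hV, hV'⟩ : ∃ V : Matrix (Ix g) (Fin (2 * g)) ℂ, W s * V = 1 ∧ V * W s = 1 := by
    have h1 := hR.simil s hs
    have h2 : (NmC g c * W s).det ≠ 0 := by
      intro h0
      have h3 := congrArg Matrix.det h1
      unfold Simil at h1
      rw [Matrix.det_mul, Matrix.det_mul, h0, mul_zero, Matrix.det_smul] at h3
      have h4 : (Matrix.J (Fin g) ℂ).det ≠ 0 := by
        have := Matrix.isUnit_det_J (Fin g) ℂ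
        exact this.ne_zero
      have h5 : (2 * Real.pi * Complex.I : ℂ) ≠ 0 := by
        simp [Real.pi_ne_zero]
      have h6 := mul_ne_zero (pow_ne_zero (Fintype.card (Ix g)) h5) h4
      exact h6 h3.symm
    refine ⟨(NmC g c * W s)⁻¹ * NmC g c, ?_⟩
    have h3 : ((NmC g c * W s)⁻¹ * NmC g c) * W s = 1 := by
      rw [Matrix.mul_assoc, Matrix.nonsing_inv_mul _ (isUnit_iff_ne_zero.mpr h2)]
    have hcard : Fintype.card (Ix g) = Fintype.card (Fin (2 * g)) := by
      rw [Fintype.card_sum, Fintype.card_fin, Fintype.card_fin, two_mul]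
    exact ⟨(Matrix.mul_eq_one_comm_of_card_eq _ _ _ hcard).mp h3, h3⟩
  -- expansion
  have hsum : ∀ w : ℝ, |w| < R → ∀ i j, HasSum (fun n : ℕ => (w : ℂ) ^ n *
      ((Yc c s n).map ιC * W s) i j) (W ((s : ℂ) + (w : ℂ)) i j) := by
    intro w hw i j
    have hz : (s : ℂ) + (w : ℂ) ∈ ball (s : ℂ) R := by
      rw [mem_ball, dist_eq_norm, add_sub_cancel_left, Complex.norm_real, Real.norm_eq_abs]
      exact hw
    have h1 := Complex.hasSum_taylorSeries_on_ball (hdiff i j) hz
    have h4 : (fun n : ℕ => (w : ℂ) ^ n * ((Yc c s n).map ιC * W s) i j) =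
        fun n : ℕ => (n.factorial : ℂ)⁻¹ • ((s : ℂ) + (w : ℂ) - (s : ℂ)) ^ n •
          iteratedDeriv n (fun z => W z i j) (s : ℂ) := by
      funext n
      have h2 : iteratedDeriv n (fun z => W z i j) (s : ℂ) = D n i j := rfl
      rw [h2, hD n, Matrix.smul_apply, add_sub_cancel_left]
      simp only [smul_eq_mul]
      have h3 : ((n.factorial : ℕ) : ℂ) ≠ 0 := by exact_mod_cast n.factorial_ne_zero
      field_simp
    rw [h4]
    exact h1
  have hsum2 : ∀ w : ℝ, |w| < R → ∀ i k, HasSum (fun n : ℕ => (w : ℂ) ^ n *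
      ((Yc c s n i k : ℚ) : ℂ)) ((W ((s : ℂ) + (w : ℂ)) * V) i k) := by
    intro w hw i k
    have h1 : HasSum (fun n : ℕ => ∑ j, ((w : ℂ) ^ n * ((Yc c s n).map ιC * W s) i j) * V j k)
        (∑ j, W ((s : ℂ) + (w : ℂ)) i j * V j k) :=
      hasSum_sum (fun j _ => (hsum w hw i j).mul_right (V j k))
    have h2 : (fun n : ℕ => ∑ j, ((w : ℂ) ^ n * ((Yc c s n).map ιC * W s) i j) * V j k) =
        fun n : ℕ => (w : ℂ) ^ n * ((Yc c s n i k : ℚ) : ℂ) := by
      funext n
      have h3 : ((Yc c s n).map ιC * W s * V) i k = ((Yc c s n i k : ℚ) : ℂ) := by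
        rw [Matrix.mul_assoc, hV, Matrix.mul_one, Matrix.map_apply]
        simp
      rw [← h3, Matrix.mul_apply, Finset.mul_sum]
      exact Finset.sum_congr rfl (fun j _ => by ring)
    rw [h2] at h1
    rw [Matrix.mul_apply]
    exact h1
  intro w hw
  have hcoeff : ∀ (p : Fin (2 * g) × Fin (2 * g)) (n : ℕ),
      ((PowerSeries.coeff n (Ys c s p) : ℚ) : ℝ) = ((Yc c s n p.1 p.2 : ℚ) : ℝ) := by
    intro p n
    unfold Ys
    rw [PowerSeries.coeff_mk]
  have hconv : ∀ p : Fin (2 * g) × Fin (2 * g), Conv (Ys c s p) w := by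
    intro p
    have h1 := (hsum2 w hw p.1 p.2).summable.norm
    unfold Conv
    refine h1.congr ?_
    intro n
    rw [hcoeff, norm_mul, norm_pow, Complex.norm_real, Real.norm_eq_abs, mul_comm]
    congr 1
    rw [← Complex.ofReal_ratCast, Complex.norm_real, Real.norm_eq_abs]
  refine ⟨hconv, ?_⟩
  have hYv : Yv c s w = W ((s : ℂ) + (w : ℂ)) * V := by
    ext i k
    rw [← (hsum2 w hw i k).tsum_eq]
    unfold Yv
    rw [Matrix.of_apply]
    unfold val
    rw [Complex.ofReal_tsum]
    apply tsum_congr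
    intro n
    rw [hcoeff]
    push_cast
    ring
  rw [hYv, Matrix.mul_assoc, hV', Matrix.mul_one]

end Pool.Agent.DG2
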