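import Pool.Agent.DG2.AStmts

set_option autoImplicit false

/-! DG2, module SQR: square roots of power series. -/

open Finset

namespace Pool.Agent.DG2

namespace SQR_

variable {A : Type} [CommRing A]

/-- coefficients of the square root of a power series with constant coefficient 1 -/
noncomputable def sq (h : A) (c : ℕ → A) : ℕ → A
  | 0 => 1
  | (n + 1) => h * (c (n + 1) - ∑ i : Fin n, sq h c (i.1 + 1) * sq h c (n - i.1))
termination_by n => n
decreasing_by all_goals omega

theorem sq_zero (h : A) (c : ℕ → A) : sq h c 0 = 1 := by rw [sq]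

theorem sq_succ (h : A) (c : ℕ → A) (n : ℕ) : sq h c (n + 1) =
    h * (c (n + 1) - ∑ i ∈ range n, sq h c (i + 1) * sq h c (n - i)) := by
  rw [sq, Finset.sum_range]

theorem root (h : A) (h2 : 2 * h = 1) (f : PowerSeries A)
    (hf : PowerSeries.constantCoeff f = 1) :
    PowerSeries.mk (sq h (fun n => PowerSeries.coeff n f)) ^ 2 = f := by
  ext n
  rw [pow_two, PowerSeries.coeff_mul, Finset.Nat.sum_antidiagonal_eq_sum_range_succ_mk]
  simp only [PowerSeries.coeff_mk]
  cases n with
  | zero =>
    rw [Finset.sum_range_one, Nat.sub_zero, sq_zero, one_mul,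
      PowerSeries.coeff_zero_eq_constantCoeff_apply, hf]
  | succ n =>
    rw [Finset.sum_range_succ, Finset.sum_range_succ']
    simp only [Nat.sub_self, Nat.sub_zero, sq_zero, one_mul, mul_one, Nat.add_sub_add_right]
    rw [sq_succ]
    linear_combination (PowerSeries.coeff (n + 1) f - ∑ i ∈ range n,
      sq h (fun n => PowerSeries.coeff n f) (i + 1) *
        sq h (fun n => PowerSeries.coeff n f) (n - i)) * h2

end SQR_

open SQR_ in
theorem sqr_proof : Stmt_Sqr := by
  intro A _ h2 γ hγ
  obtain ⟨h, hh⟩ := h2.exists_right_inv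
  have hu : IsUnit γ := by
    rw [PowerSeries.isUnit_iff_constantCoeff, hγ]; exact isUnit_one
  obtain ⟨γ', hγ'⟩ := hu.exists_right_inv
  have hc : PowerSeries.constantCoeff γ' = 1 := by
    have := congrArg (PowerSeries.constantCoeff (R := A)) hγ'
    rw [map_mul, hγ, one_mul, map_one] at this
    exact this
  refine ⟨PowerSeries.mk (sq h (fun n => PowerSeries.coeff n γ')), ?_, ?_⟩
  · rw [← PowerSeries.coeff_zero_eq_constantCoeff_apply, PowerSeries.coeff_mk, sq_zero]
  · rw [root h hh γ' hc, mul_comm]; exact hγ'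

end Pool.Agent.DG2
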