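import Pool.Agent.DG2.AStmts

set_option autoImplicit false

/-!
# DG2, TFC: facts on the polynomial `T = det (X + A)`
-/

open Finset

namespace Pool.Agent.DG2

namespace TFC_

open Pool.Agent.DGP (IsZ)

lemma sm_eq {m : ℕ} (c : Fin m → ℚ) : Sm c = Matrix.charmatrix (-(Am c)) := by
  ext i j
  by_cases h : i = j
  · subst h
    simp [Sm, Matrix.charmatrix_apply_eq]
  · simp [Sm, Matrix.charmatrix_apply_ne _ _ _ h, Matrix.one_apply_ne h]

lemma tp_eq {m : ℕ} (c : Fin m → ℚ) : Tp c = (-(Am c)).charpoly := by
  unfold Tp Matrix.charpoly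
  rw [sm_eq]

lemma eval_eq {m : ℕ} (c : Fin m → ℚ) (s : ℚ) : (Tp c).eval s =
    (s • (1 : Matrix (Fin m) (Fin m) ℚ) + Am c).det := by
  unfold Tp
  have h := RingHom.map_det (Polynomial.evalRingHom s) (Sm c)
  rw [Polynomial.coe_evalRingHom] at h
  rw [h]
  congr 1
  ext i j
  by_cases hij : i = j
  · subst hij
    simp [Sm]
  · simp [Sm, Matrix.one_apply_ne hij]

lemma natDeg {m : ℕ} (c : Fin m → ℚ) : (Tp c).natDegree = m := by
  rw [tp_eq, Matrix.charpoly_natDegree_eq_dim, Fintype.card_fin]

end TFC_

open TFC_ in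
theorem tfc_proof : Stmt_TFc := by
  intro m c
  refine ⟨?_, natDeg c, eval_eq c, ?_⟩
  · rw [tp_eq]
    exact Matrix.charpoly_monic _
  · intro s
    refine ⟨?_, ?_⟩
    · unfold kap
      exact Nat.one_le_iff_ne_zero.2 (Finset.prod_ne_zero_iff.2 (fun l _ => Rat.den_nz _))
    · intro l
      by_cases hl : l ∈ range (m + 1)
      · obtain ⟨b, hb⟩ := Finset.dvd_prod_of_mem
          (fun l => (((Tp c).comp (Polynomial.X + Polynomial.C s)).coeff l).den) hl
        refine ⟨(b : ℤ) * (((Tp c).comp (Polynomial.X + Polynomial.C s)).coeff l).num, ?_⟩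
        have h1 : (kap c s : ℚ) = ((((Tp c).comp (Polynomial.X +
            Polynomial.C s)).coeff l).den : ℚ) * (b : ℚ) := by
          unfold kap
          rw [hb]
          push_cast
          ring
        rw [h1]
        have h2 := Rat.mul_den_eq_num (((Tp c).comp (Polynomial.X + Polynomial.C s)).coeff l)
        push_cast
        rw [← h2]
        ring
      · have h0 : ((Tp c).comp (Polynomial.X + Polynomial.C s)).coeff l = 0 := by
          refine Polynomial.coeff_eq_zero_of_natDegree_lt ?_
          have h1 := Polynomial.natDegree_comp_le (p := Tp c)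
            (q := Polynomial.X + Polynomial.C s)
          rw [natDeg, Polynomial.natDegree_X_add_C, mul_one] at h1
          rw [Finset.mem_range, not_lt] at hl
          omega
        rw [h0]
        exact ⟨0, by simp⟩

end Pool.Agent.DG2
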