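import Pool.Agent.DG2.CStmts
import Pool.Agent.GPH.CDet
import Pool.Agent.GPH.Cdmap

set_option autoImplicit false

/-!
# DG2, TPC: the singular fibres
-/

namespace Pool.Agent.DG2.TPC_

open Pool.Agent.GPH (f0 Cop Dop P2 Stmt_CDmap)

theorem map_det {R R' : Type} [CommRing R] [CommRing R'] [Algebra ℚ R] [Algebra ℚ R']
    (hmap : Stmt_CDmap) (φ : R →+* R') {m : ℕ} (c : Fin m → R) (s : R) :
    (φ s • (1 : Matrix (Fin m) (Fin m) R') + Cop (fun k => φ (c k))).det =
      φ ((s • (1 : Matrix (Fin m) (Fin m) R) + Cop c).det) := by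
  rw [RingHom.map_det, (hmap R R' φ m c).1]
  congr 1
  ext i j
  show φ s • (1 : Matrix (Fin m) (Fin m) R') i j + φ (Cop c i j) =
    φ (s • (1 : Matrix (Fin m) (Fin m) R) i j + Cop c i j)
  rw [map_add, smul_eq_mul, smul_eq_mul, map_mul]
  congr 2
  rw [Matrix.one_apply, Matrix.one_apply]
  split_ifs
  · exact (map_one φ).symm
  · exact (map_zero φ).symm

/-- `T (s) = det (s + A)`. -/
theorem eval_Tp {m : ℕ} (c : Fin m → ℚ) (s : ℚ) :
    (Tp c).eval s = (s • (1 : Matrix (Fin m) (Fin m) ℚ) + Cop c).det := by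
  have h1 : (Tp c).eval s = (Polynomial.evalRingHom s) (Sm c).det := rfl
  rw [h1, RingHom.map_det]
  have h2 : (Polynomial.evalRingHom s).mapMatrix (Sm c) =
      (s • (1 : Matrix (Fin m) (Fin m) ℚ) + Cop c).transpose := by
    ext i j
    rw [RingHom.mapMatrix_apply, Matrix.map_apply, Matrix.transpose_apply]
    unfold Sm Am
    rw [Matrix.add_apply, Matrix.smul_apply, Matrix.map_apply, Matrix.transpose_apply,
      Matrix.add_apply, Matrix.smul_apply, map_add, smul_eq_mul, smul_eq_mul, map_mul]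
    rw [Matrix.one_apply, Matrix.one_apply]
    simp only [Polynomial.coe_evalRingHom, Polynomial.eval_X, Polynomial.eval_C]
    by_cases h : i = j
    · subst h
      simp
    · have h' : ¬ j = i := fun e => h e.symm
      simp [h, h']
  rw [h2, Matrix.det_transpose]

end Pool.Agent.DG2.TPC_

namespace Pool.Agent.DG2

open Pool.Agent.GPH (f0 Cop Dop P2 Stmt_CDmap cdmap_proof cdet_proof)

theorem tpc_proof : Stmt_TpC := by
  intro g c
  have hcC : cC c = fun k => (Rat.castHom ℂ) (c k) := rfl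
  refine ⟨fun s => ?_, ?_⟩
  · have h1 := TPC_.eval_Tp c s
    have h2 := TPC_.map_det cdmap_proof (Rat.castHom ℂ) c s
    have h3 := cdet_proof (2 * g) (cC c) (s : ℂ)
    unfold Sep
    rw [← h3, h1]
    have h4 : ((s : ℂ) • (1 : Matrix (Fin (2 * g)) (Fin (2 * g)) ℂ) + Cop (cC c)).det =
        (Rat.castHom ℂ) ((s • (1 : Matrix (Fin (2 * g)) (Fin (2 * g)) ℚ) + Cop c).det) := h2
    rw [h4]
    exact (map_ne_zero_iff (Rat.castHom ℂ) (Rat.castHom ℂ).injective).symm
  · have h1 := (cdmap_proof ℚ ℂ (Rat.castHom ℂ) (2 * g) c).2.2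
    have h2 : P2 (cC c) = (Rat.castHom ℂ) (P2 c) := h1
    rw [h2]
    exact (map_ne_zero_iff (Rat.castHom ℂ) (Rat.castHom ℂ).injective).symm

end Pool.Agent.DG2
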