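import Pool.Agent.DG2.GOOD

set_option autoImplicit false

/-!
# DG2, module TRV: the trivial denominators
-/

open Finset

namespace Pool.Agent.DG2

open Pool.Agent.GPH (f0 g0 Cop Dop)
open Pool.Agent.DGP (GSys IsZ hd val Conv tens)

namespace TRV_

noncomputable section

open GOOD_

lemma isZ_of_mem {x : ℚ} (h : x ∈ ZM 1) : IsZ x := by
  obtain ⟨e, he⟩ := h
  simpa using he

lemma mem_of_isZ {x : ℚ} (h : IsZ x) : x ∈ ZM 1 := ⟨0, by simpa using h⟩

lemma entry {m : ℕ} (c : Fin m → ℚ) (k : ℕ) (i j : Fin m) : Bt c (k + 1) i j =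
    Polynomial.C (1 / ((k : ℚ) + 1)) * ∑ b, (∑ a, (Sm c).adjugate i a *
      Polynomial.C ((Em c - (k : ℚ) • (1 : Matrix (Fin m) (Fin m) ℚ)) a b)) * Bt c k b j := rfl

lemma step {m : ℕ} (c : Fin m → ℚ) (D : ℕ)
    (hadj : ∀ i j, Polynomial.C (D : ℚ) * (Sm c).adjugate i j ∈ SS 1)
    (hE : ∀ i j, IsZ ((D : ℚ) * Em c i j)) (k : ℕ) (i j : Fin m) :
    Polynomial.C ((k.factorial : ℚ) * ((D ^ 2 : ℕ) : ℚ) ^ k) * Bt c k i j ∈ SS 1 := by
  induction k generalizing i j with
  | zero =>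
    have h1 : Bt c 0 i j = (1 : Matrix (Fin m) (Fin m) (Polynomial ℚ)) i j := rfl
    rw [h1]
    simp only [Nat.factorial_zero, Nat.cast_one, pow_zero, mul_one, map_one, one_mul]
    by_cases hij : i = j
    · subst hij
      rw [Matrix.one_apply_eq]
      exact (SS 1).one_mem
    · rw [Matrix.one_apply_ne hij]
      exact (SS 1).zero_mem
  | succ k ih =>
    have hEk : ∀ a b, IsZ ((D : ℚ) * (Em c - (k : ℚ) • (1 : Matrix (Fin m) (Fin m) ℚ)) a b) := by
      intro a b
      have h1 : (D : ℚ) * (Em c - (k : ℚ) • (1 : Matrix (Fin m) (Fin m) ℚ)) a b =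
          (D : ℚ) * Em c a b + -((D : ℚ) * ((k : ℚ) * (1 : Matrix (Fin m) (Fin m) ℚ) a b)) := by
        rw [Matrix.sub_apply, Matrix.smul_apply, smul_eq_mul]
        ring
      rw [h1]
      refine isZ_add (hE a b) (isZ_neg (isZ_mul (isZ_nat D) (isZ_mul (isZ_nat k) ?_)))
      by_cases hab : a = b
      · subst hab
        rw [Matrix.one_apply_eq]
        exact isZ_one
      · rw [Matrix.one_apply_ne hab]
        exact isZ_zero
    have h2 : Polynomial.C (((k + 1).factorial : ℚ) * ((D ^ 2 : ℕ) : ℚ) ^ (k + 1)) *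
        Bt c (k + 1) i j = ∑ b, (∑ a, (Polynomial.C (D : ℚ) * (Sm c).adjugate i a) *
          Polynomial.C ((D : ℚ) * (Em c - (k : ℚ) • (1 : Matrix (Fin m) (Fin m) ℚ)) a b)) *
            (Polynomial.C ((k.factorial : ℚ) * ((D ^ 2 : ℕ) : ℚ) ^ k) * Bt c k b j) := by
      rw [entry]
      have h3 : Polynomial.C (((k + 1).factorial : ℚ) * ((D ^ 2 : ℕ) : ℚ) ^ (k + 1)) *
          Polynomial.C (1 / ((k : ℚ) + 1)) = Polynomial.C ((D : ℚ) * (D : ℚ)) *
            Polynomial.C ((k.factorial : ℚ) * ((D ^ 2 : ℕ) : ℚ) ^ k) := by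
        rw [← map_mul, ← map_mul]
        congr 1
        rw [Nat.factorial_succ]
        push_cast
        have : (k : ℚ) + 1 ≠ 0 := by positivity
        field_simp
        ring
      rw [← mul_assoc, h3, Finset.mul_sum]
      refine Finset.sum_congr rfl fun b _ => ?_
      simp only [Finset.sum_mul, Finset.mul_sum]
      refine Finset.sum_congr rfl fun a _ => ?_
      simp only [map_mul]
      ring
    rw [h2]
    refine Subring.sum_mem _ fun b _ => (SS 1).mul_mem (Subring.sum_mem _ fun a _ => ?_) (ih b j)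
    exact (SS 1).mul_mem (hadj i a) (C_mem_SS (mem_of_isZ (hEk a b)))

end

end TRV_

open GOOD_ TRV_ in
theorem trv_proof : Stmt_Trv := by
  classical
  intro m c
  let s : Finset ℚ := (Finset.univ.image fun p : Fin m × Fin m => Em c p.1 p.2) ∪
    (Finset.univ.biUnion fun p : Fin m × Fin m =>
      ((Sm c).adjugate p.1 p.2).support.image ((Sm c).adjugate p.1 p.2).coeff)
  let D : ℕ := ∏ x ∈ s, x.den
  have hD : ∀ x ∈ s, IsZ ((D : ℚ) * x) := fun x hx => isZ_of_den (Finset.dvd_prod_of_mem _ hx)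
  have hD1 : 0 < D := Finset.prod_pos fun x _ => x.pos
  refine ⟨D ^ 2, Nat.pow_pos hD1, fun k i j l => ?_⟩
  have hadj : ∀ i j, Polynomial.C (D : ℚ) * (Sm c).adjugate i j ∈ SS 1 := by
    intro i j l
    rw [Polynomial.coeff_C_mul]
    by_cases hl : l ∈ ((Sm c).adjugate i j).support
    · apply mem_of_isZ
      apply hD
      simp only [s, Finset.mem_union, Finset.mem_biUnion, Finset.mem_image]
      exact Or.inr ⟨(i, j), Finset.mem_univ _, l, hl, rfl⟩
    · rw [Polynomial.notMem_support_iff.1 hl, mul_zero]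
      exact (ZM 1).zero_mem
  have hE : ∀ i j, IsZ ((D : ℚ) * Em c i j) := by
    intro i j
    apply hD
    simp only [s, Finset.mem_union, Finset.mem_image]
    exact Or.inl ⟨(i, j), Finset.mem_univ _, rfl⟩
  have h1 := step c D hadj hE k i j l
  rw [Polynomial.coeff_C_mul] at h1
  exact isZ_of_mem h1

end Pool.Agent.DG2
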