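import Pool.Agent.DG2.AStmts

set_option autoImplicit false

open Finset

namespace Pool.Agent.DG2

namespace UNQ_

open Polynomial

theorem lam_mul {K : Type} [Field K] (F : K[X]) (k : ℕ) (h : K[X]) :
    Lam F (k + 1) (F * h) = F * Lam F k h := by
  unfold Lam
  rw [derivative_mul]
  have h1 : (C ((2 * ((k + 1 : ℕ) : ℤ) - 1 : ℤ) : K) : K[X]) =
      C ((2 * (k : ℤ) - 1 : ℤ) : K) + 2 := by
    rw [← C_ofNat, ← C_add]
    congr 1
    push_cast
    ring
  rw [h1]
  ring

theorem pow_dvd {K : Type} [Field K] [CharZero K] (F : K[X])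
    (hc : IsCoprime F (derivative F)) (k : ℕ) :
    ∀ h : K[X], F ^ k ∣ Lam F k h → F ^ k ∣ h := by
  induction k with
  | zero => intro h _; simp
  | succ k ih =>
    intro h hd
    have h1 : F ∣ Lam F (k + 1) h := (dvd_pow_self F (Nat.succ_ne_zero k)).trans hd
    unfold Lam at h1
    have h2 : F ∣ C ((2 * ((k + 1 : ℕ) : ℤ) - 1 : ℤ) : K) * h * derivative F :=
      (dvd_sub_right (dvd_mul_left F _)).1 h1
    have h3 : F ∣ C ((2 * ((k + 1 : ℕ) : ℤ) - 1 : ℤ) : K) * h := hc.dvd_of_dvd_mul_right h2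
    have hne : ((2 * ((k + 1 : ℕ) : ℤ) - 1 : ℤ) : K) ≠ 0 := by
      rw [Int.cast_ne_zero]
      push_cast
      omega
    have hu : IsUnit (C ((2 * ((k + 1 : ℕ) : ℤ) - 1 : ℤ) : K) : K[X]) :=
      isUnit_C.2 (isUnit_iff_ne_zero.2 hne)
    obtain ⟨h', rfl⟩ := (hu.dvd_mul_left).1 h3
    rw [lam_mul, pow_succ, mul_comm (F ^ k) F] at hd
    by_cases hF : F = 0
    · rw [hF] at hc ⊢
      simp only [derivative_zero, isCoprime_self, isUnit_zero_iff, zero_ne_one] at hc
    · have h4 := ih h' ((mul_dvd_mul_iff_left hF).1 hd)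
      rw [pow_succ, mul_comm (F ^ k) F]
      exact mul_dvd_mul_left F h4

theorem lam_coeff {K : Type} [Field K] (F : K[X]) (hF : F.Monic) (N : ℕ)
    (hN : F.natDegree = N + 1) (k : ℕ) (h : K[X]) :
    (Lam F k h).coeff (h.natDegree + N) =
      ((2 * (h.natDegree : ℤ) - (2 * (k : ℤ) - 1) * ((N : ℤ) + 1) : ℤ) : K) *
        h.leadingCoeff := by
  have hFc : F.coeff (N + 1) = 1 := by rw [← hN]; exact hF
  have e1 : (derivative h * F).coeff (h.natDegree + N) = h.natDegree * h.leadingCoeff := by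
    rcases Nat.eq_zero_or_pos h.natDegree with h0 | h0
    · rw [h0, eq_C_of_natDegree_eq_zero h0]
      simp
    · obtain ⟨a, ha⟩ : ∃ a, h.natDegree = a + 1 := ⟨h.natDegree - 1, by omega⟩
      have e2 : h.natDegree + N = a + (N + 1) := by omega
      rw [e2, coeff_mul_add_eq_of_natDegree_le (df := a) (dg := N + 1)
        ((natDegree_derivative_le h).trans (by omega)) (by rw [hN]), hFc, coeff_derivative,
        leadingCoeff, ha]
      push_cast
      ring
  have e2 : (h * derivative F).coeff (h.natDegree + N) = ((N : K) + 1) * h.leadingCoeff := by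
    rw [coeff_mul_add_eq_of_natDegree_le (df := h.natDegree) (dg := N) le_rfl
      ((natDegree_derivative_le F).trans (by omega)), coeff_derivative, hFc, leadingCoeff]
    ring
  have e3 : Lam F k h = 2 * (derivative h * F) -
      C ((2 * (k : ℤ) - 1 : ℤ) : K) * (h * derivative F) := by
    unfold Lam; ring
  rw [e3, coeff_sub, coeff_C_mul, e2, ← C_ofNat, coeff_C_mul, e1]
  push_cast
  ring

end UNQ_

open UNQ_ Polynomial in
theorem unq_proof : Stmt_Unq := by
  intro K _ _ F hF hodd hc k β h hβ heq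
  by_contra hβ0
  have hF0 : F ≠ 0 := hF.ne_zero
  have hβ1 : β.natDegree + 1 < F.natDegree := by
    rcases hβ with hβ | hβ
    · exact hβ
    · exact absurd hβ hβ0
  have hh0 : h ≠ 0 := by
    intro h0
    rw [h0] at heq
    simp only [Lam, derivative_zero, mul_zero, zero_mul, sub_zero, add_zero] at heq
    rcases mul_eq_zero.1 heq with h1 | h1
    · exact pow_ne_zero k hF0 h1
    · exact hβ0 h1
  have hdvd : F ^ k ∣ Lam F k h := by
    have h1 : Lam F k h = F ^ k * (-β) := by
      rw [mul_neg]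
      exact eq_neg_of_add_eq_zero_right heq
    rw [h1]
    exact dvd_mul_right _ _
  have h1 := pow_dvd F hc k h hdvd
  have h2 : k * F.natDegree ≤ h.natDegree := by
    have h3 := natDegree_le_of_dvd h1 hh0
    rwa [natDegree_pow] at h3
  obtain ⟨N, hN⟩ : ∃ N, F.natDegree = N + 1 := ⟨F.natDegree - 1, by omega⟩
  have h3 := lam_coeff F hF N hN k h
  have h4 : (Lam F k h).coeff (h.natDegree + N) ≠ 0 := by
    rw [h3]
    refine mul_ne_zero ?_ (leadingCoeff_ne_zero.2 hh0)
    rw [Int.cast_ne_zero]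
    intro h5
    rw [hN] at hodd
    obtain ⟨r, hr⟩ := hodd
    have h6 : ((N : ℤ) + 1) = 2 * r + 1 := by exact_mod_cast hr
    rw [h6] at h5
    have h7 : (2 : ℤ) ∣ 1 := by
      refine ⟨-(h.natDegree : ℤ) + 2 * k * r + k - r, ?_⟩
      linear_combination h5
    omega
  have h5 : h.natDegree + N ≤ (Lam F k h).natDegree := le_natDegree_of_ne_zero h4
  have h6 : (Lam F k h).natDegree ≤ k * (N + 1) + β.natDegree := by
    have h7 : Lam F k h = -(F ^ k * β) := eq_neg_of_add_eq_zero_right heq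
    rw [h7, natDegree_neg]
    refine natDegree_mul_le.trans ?_
    rw [natDegree_pow, hN]
  rw [hN] at h2 hβ1
  omega

end Pool.Agent.DG2
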