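import Pool.Agent.DG2.CStmts

set_option autoImplicit false

/-!
# DG2, ZSM: the matrices `Z` with `M(s + w) = Z M(s)`
-/

open scoped BigOperators Topology
open Metric Set

namespace Pool.Agent.DG2.ZSM_

open Pool.Agent.HGP (Ix Simil)

theorem det_ne_zero {g : ℕ} {lam : ℂ} (hl : lam ≠ 0) {M : Matrix (Ix g) (Ix g) ℂ}
    (h : Simil lam M) : M.det ≠ 0 := by
  intro h0
  have h1 := congrArg Matrix.det h
  rw [Matrix.det_mul, Matrix.det_mul, Matrix.det_transpose, h0, zero_mul, zero_mul,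
    Matrix.det_smul] at h1
  have h2 : (Matrix.J (Fin g) ℂ).det ≠ 0 := by
    have := Matrix.isUnit_det_J (Fin g) ℂ
    exact this.ne_zero
  have h3 : lam ^ Fintype.card (Fin g ⊕ Fin g) ≠ 0 := pow_ne_zero _ hl
  exact (mul_ne_zero h3 h2) h1.symm

theorem simil_one {g : ℕ} {lam : ℂ} (hl : lam ≠ 0) {M N Z : Matrix (Ix g) (Ix g) ℂ}
    (hM : Simil lam M) (hN : Simil lam N) (h : N = Z * M) : Simil 1 Z := by
  have hdet := det_ne_zero hl hM
  have hu : IsUnit M.det := isUnit_iff_ne_zero.2 hdet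
  have e1 : M.transpose * (Z.transpose * Matrix.J (Fin g) ℂ * Z) * M =
      M.transpose * Matrix.J (Fin g) ℂ * M := by
    have e2 : M.transpose * (Z.transpose * Matrix.J (Fin g) ℂ * Z) * M =
        N.transpose * Matrix.J (Fin g) ℂ * N := by
      rw [h, Matrix.transpose_mul]
      simp only [Matrix.mul_assoc]
    have e3 : N.transpose * Matrix.J (Fin g) ℂ * N = lam • Matrix.J (Fin g) ℂ := hN
    have e4 : M.transpose * Matrix.J (Fin g) ℂ * M = lam • Matrix.J (Fin g) ℂ := hM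
    rw [e2, e3, e4]
  have huT : IsUnit M.transpose.det := by rw [Matrix.det_transpose]; exact hu
  have e5 : Z.transpose * Matrix.J (Fin g) ℂ * Z = Matrix.J (Fin g) ℂ := by
    have e6 := congrArg (fun X => M.transpose⁻¹ * X * M⁻¹) e1
    simp only [Matrix.mul_assoc] at e6
    rw [Matrix.mul_nonsing_inv M hu, Matrix.mul_one, Matrix.mul_one,
      ← Matrix.mul_assoc M.transpose⁻¹ M.transpose, Matrix.nonsing_inv_mul M.transpose huT,
      Matrix.one_mul, ← Matrix.mul_assoc M.transpose⁻¹ M.transpose,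
      Matrix.nonsing_inv_mul M.transpose huT, Matrix.one_mul] at e6
    rw [Matrix.mul_assoc]
    exact e6
  show Z.transpose * Matrix.J (Fin g) ℂ * Z = (1 : ℂ) • Matrix.J (Fin g) ℂ
  rw [e5, one_smul]

theorem eq_mul_inv {g : ℕ} {M N Z : Matrix (Ix g) (Ix g) ℂ} (hdet : M.det ≠ 0)
    (h : N = Z * M) : Z = N * M⁻¹ := by
  rw [h, Matrix.mul_assoc, Matrix.mul_nonsing_inv M (isUnit_iff_ne_zero.2 hdet), Matrix.mul_one]

end Pool.Agent.DG2.ZSM_

namespace Pool.Agent.DG2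

open Pool.Agent.HGP (Ix Simil)

theorem zsm_proof (h1 : Stmt_RefX) (h2 : Stmt_SerJ) (_h3 : Stmt_NmQ) : Stmt_ZSm := by
  intro g c s hg hsep
  obtain ⟨R, W, hRef⟩ := h1 g c s hg hsep
  obtain ⟨-, ρ, hρ, hρR, hW⟩ := h2 g c s R W hg hRef
  have hl : (2 * Real.pi * Complex.I : ℂ) ≠ 0 := by
    have := Complex.two_pi_I_ne_zero
    exact_mod_cast this
  have hsb : ((s : ℚ) : ℂ) ∈ ball ((s : ℚ) : ℂ) R := mem_ball_self hRef.pos
  have hMs := hRef.simil _ hsb
  have hdet := ZSM_.det_ne_zero hl hMs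
  obtain ⟨W', hder, -⟩ := hRef.ode
  -- continuity of the determinant
  have hcont : ContinuousAt (fun w : ℝ =>
      ((NmC g c * W ((s : ℂ) + (w : ℂ))) * (NmC g c * W (s : ℂ))⁻¹).toBlocks₁₁.det) 0 := by
    have hWc : ContinuousAt (fun w : ℝ => W ((s : ℂ) + (w : ℂ))) 0 := by
      have hWs : ContinuousAt W (s : ℂ) := by
        refine continuousAt_pi.2 (fun i => continuousAt_pi.2 (fun j => ?_))
        exact (hder _ hsb i j).continuousAt
      have hlin : ContinuousAt (fun w : ℝ => (s : ℂ) + (w : ℂ)) 0 :=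
        (continuous_const.add Complex.continuous_ofReal).continuousAt
      have h0 : (fun w : ℝ => (s : ℂ) + (w : ℂ)) 0 = (s : ℂ) := by simp
      have hWs' : ContinuousAt W ((fun w : ℝ => (s : ℂ) + (w : ℂ)) 0) := by
        rw [h0]; exact hWs
      exact ContinuousAt.comp hWs' hlin
    have hF : Continuous (fun X : Matrix (Fin (2 * g)) (Ix g) ℂ =>
        ((NmC g c * X) * (NmC g c * W (s : ℂ))⁻¹).toBlocks₁₁.det) := by
      refine Continuous.matrix_det ?_
      refine continuous_matrix (fun i j => ?_)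
      have hm : Continuous (fun X : Matrix (Fin (2 * g)) (Ix g) ℂ =>
          (NmC g c * X) * (NmC g c * W (s : ℂ))⁻¹) :=
        (continuous_const.matrix_mul continuous_id).matrix_mul continuous_const
      exact hm.matrix_elem (Sum.inl i) (Sum.inl j)
    exact hF.continuousAt.comp hWc
  have hval : ((NmC g c * W ((s : ℂ) + ((0 : ℝ) : ℂ))) *
      (NmC g c * W (s : ℂ))⁻¹).toBlocks₁₁.det = 1 := by
    rw [Complex.ofReal_zero, add_zero, Matrix.mul_nonsing_inv _ (isUnit_iff_ne_zero.2 hdet)]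
    have : (1 : Matrix (Ix g) (Ix g) ℂ).toBlocks₁₁ = 1 := by
      ext i j
      simp [Matrix.toBlocks₁₁, Matrix.one_apply]
    rw [this, Matrix.det_one]
  have hev : ∀ᶠ w : ℝ in 𝓝 0, ((NmC g c * W ((s : ℂ) + (w : ℂ))) *
      (NmC g c * W (s : ℂ))⁻¹).toBlocks₁₁.det ≠ 0 := by
    refine hcont.eventually_ne ?_
    show ((NmC g c * W ((s : ℂ) + ((0 : ℝ) : ℂ))) *
      (NmC g c * W (s : ℂ))⁻¹).toBlocks₁₁.det ≠ 0
    rw [hval]
    exact one_ne_zero
  obtain ⟨ε, hε, hball⟩ := Metric.eventually_nhds_iff.1 hev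
  refine ⟨min ρ ε, lt_min hρ hε, fun w hw Z hZ => ?_⟩
  have hw1 : |w| < ρ := lt_of_lt_of_le hw (min_le_left _ _)
  have hw2 : |w| < ε := lt_of_lt_of_le hw (min_le_right _ _)
  have hWw := (hW w hw1).2
  have hN : NmC g c * W ((s : ℂ) + (w : ℂ)) = Z * (NmC g c * W (s : ℂ)) := by
    rw [hWw, ← Matrix.mul_assoc, ← Matrix.mul_assoc, hZ]
  have hwb : (s : ℂ) + (w : ℂ) ∈ ball ((s : ℚ) : ℂ) R := by
    rw [mem_ball, dist_eq_norm, add_sub_cancel_left, Complex.norm_real, Real.norm_eq_abs]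
    exact lt_of_lt_of_le hw1 hρR
  have hMw := hRef.simil _ hwb
  refine ⟨ZSM_.simil_one hl hMs hMw hN, ?_⟩
  rw [ZSM_.eq_mul_inv hdet hN]
  refine hball ?_
  rw [dist_eq_norm, sub_zero, Real.norm_eq_abs]
  exact hw2

end Pool.Agent.DG2
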