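import Pool.Agent.DG2.CStmts
import Pool.Agent.DGP.NF
import Pool.Agent.HGP.CELLA
import Pool.Agent.HGP.CELLB
import Pool.Agent.HGP.CELLP
import Pool.Agent.HGP.GENB
import Pool.Agent.HGP.PATH

set_option autoImplicit false

/-!
# DG2, module NFC: from relations with coefficients in a number field to relations with rational
coefficients
-/

open scoped BigOperators Topology
open MvPolynomial

namespace Pool.Agent.DG2

open Pool.Agent.HGP (Ix Simil Idx fvec mvec Aof opt)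

noncomputable section

namespace NFC_

/-- Indices of the entries of the matrices. -/
abbrev VV {r : ℕ} (g : Fin r → ℕ) := Option (Σ i : Fin r, Ix (g i) × Ix (g i))

/-- Indices of the coordinates. -/
abbrev WW {r : ℕ} (g : Fin r → ℕ) := Option (Σ i : Fin r, Idx (g i))

/-- The inclusion of the coordinates number `i`. -/
def emb {r : ℕ} (g : Fin r → ℕ) (i : Fin r) : Option (Idx (g i)) → WW g :=
  fun o => o.map (fun x => ⟨i, x⟩)

lemma comp_emb {r : ℕ} (g : Fin r → ℕ) (i : Fin r) (w : WW g → ℂ) :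
    w ∘ emb g i = opt (w none) (fun x => w (some ⟨i, x⟩)) := by
  funext o
  cases o <;> rfl

/-- A polynomial with integral coefficients as a polynomial with rational coefficients. -/
def toQ {σ : Type} (f : MvPolynomial σ ℤ) : MvPolynomial σ ℚ := map (Int.castRingHom ℚ) f

lemma aeval_toQ {σ : Type} (w : σ → ℂ) (f : MvPolynomial σ ℤ) :
    aeval w (toQ f) = (aeval w f : ℂ) := by
  unfold toQ
  rw [aeval_def, eval₂_map, aeval_def]
  congr 1

lemma aeval_emb {r : ℕ} (g : Fin r → ℕ) (i : Fin r) (w : WW g → ℂ)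
    (f : MvPolynomial (Option (Idx (g i))) ℤ) :
    aeval w (rename (emb g i) (toQ f)) =
      (aeval (opt (w none) (fun x => w (some ⟨i, x⟩))) f : ℂ) := by
  rw [aeval_rename, comp_emb, aeval_toQ]

/-- The common denominator. -/
def Dt {r : ℕ} {g : Fin r → ℕ} (Δ : ∀ i, MvPolynomial (Option (Idx (g i))) ℤ) :
    MvPolynomial (WW g) ℚ := ∏ i, rename (emb g i) (toQ (Δ i))

/-- The polynomial map onto the torsor. -/
def psi {r : ℕ} {g : Fin r → ℕ} (Δ : ∀ i, MvPolynomial (Option (Idx (g i))) ℤ)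
    (q : ∀ i, Ix (g i) × Ix (g i) → MvPolynomial (Option (Idx (g i))) ℤ) :
    VV g → MvPolynomial (WW g) ℚ := fun v => v.elim (X none * Dt Δ ^ 2) (fun p =>
      (∏ k ∈ Finset.univ.erase p.1, rename (emb g k) (toQ (Δ k))) *
        rename (emb g p.1) (toQ (q p.1 p.2)))

lemma key {r : ℕ} {g : Fin r → ℕ} (Δ : ∀ i, MvPolynomial (Option (Idx (g i))) ℤ)
    (q : ∀ i, Ix (g i) × Ix (g i) → MvPolynomial (Option (Idx (g i))) ℤ)
    (h : ∀ i, ∀ (w : Idx (g i) → ℂ) (lam : ℂ),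
      MvPolynomial.aeval (opt lam w) (Δ i) = (Aof w).det ∧
      ((Aof w).det ≠ 0 → ∀ p, MvPolynomial.aeval (opt lam w) (q i p) =
        (Aof w).det * mvec w lam p.1 p.2))
    (w : WW g → ℂ) (hw : ∀ i, (Aof (fun x => w (some ⟨i, x⟩))).det ≠ 0) :
    aeval w (Dt Δ) = ∏ i, (Aof (fun x => w (some ⟨i, x⟩))).det ∧
    (fun v => (aeval w (psi Δ q v) : ℂ)) =
      HGP.tpt (w none * (∏ i, (Aof (fun x => w (some ⟨i, x⟩))).det) ^ 2)
        (fun i => (∏ i, (Aof (fun x => w (some ⟨i, x⟩))).det) •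
          mvec (fun x => w (some ⟨i, x⟩)) (w none)) := by
  have h1 : aeval w (Dt Δ) = ∏ i, (Aof (fun x => w (some ⟨i, x⟩))).det := by
    unfold Dt
    rw [map_prod]
    refine Finset.prod_congr rfl fun i _ => ?_
    rw [aeval_emb, (h i _ _).1]
  refine ⟨h1, ?_⟩
  funext v
  match v with
  | none =>
    show aeval w (X none * Dt Δ ^ 2) = w none * _ ^ 2
    rw [map_mul, aeval_X, map_pow, h1]
  | some ⟨i, p⟩ =>
    show aeval w ((∏ k ∈ Finset.univ.erase i, rename (emb g k) (toQ (Δ k))) *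
      rename (emb g i) (toQ (q i p))) = (∏ i, (Aof (fun x => w (some ⟨i, x⟩))).det) *
        mvec (fun x => w (some ⟨i, x⟩)) (w none) p.1 p.2
    rw [map_mul, map_prod, aeval_emb, (h i _ _).2 (hw i) p,
      ← Finset.mul_prod_erase Finset.univ (fun i => (Aof (fun x => w (some ⟨i, x⟩))).det)
        (Finset.mem_univ i)]
    have h3 : ∏ k ∈ Finset.univ.erase i, aeval w (rename (emb g k) (toQ (Δ k))) =
        ∏ k ∈ Finset.univ.erase i, (Aof (fun x => w (some ⟨k, x⟩))).det := by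
      refine Finset.prod_congr rfl fun k _ => ?_
      rw [aeval_emb, (h k _ _).1]
    rw [h3]
    ring

/-- A polynomial function along a path. -/
lemma eval_path {V R : Type} [CommRing R] [Algebra R ℂ] (P : MvPolynomial V R)
    (f : V → Polynomial ℂ) (s : ℂ) :
    (aeval f P).eval s = (aeval (fun v => (f v).eval s) P : ℂ) := by
  have h := MvPolynomial.comp_aeval_apply (f := f)
    ((Polynomial.aeval s : Polynomial ℂ →ₐ[ℂ] ℂ).restrictScalars R) P
  simpa [Polynomial.coe_aeval_eq_eval] using h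

/-- A polynomial which does not vanish on the torsor does not vanish on the big cell. -/
lemma big_cell {R : Type} [CommRing R] [Algebra R ℂ] {r : ℕ} {g : Fin r → ℕ}
    (P : MvPolynomial (VV g) R)
    (lam : ℂ) (M : ∀ i, Matrix (Ix (g i)) (Ix (g i)) ℂ) (hlam : lam ≠ 0)
    (hM : ∀ i, Simil lam (M i)) (hne : aeval (HGP.tpt lam M) P ≠ (0 : ℂ)) :
    ∃ M' : ∀ i, Matrix (Ix (g i)) (Ix (g i)) ℂ, (∀ i, Simil lam (M' i)) ∧
      (∀ i, (M' i).toBlocks₁₁.det ≠ 0) ∧ aeval (HGP.tpt lam M') P ≠ (0 : ℂ) := by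
  have hPath : HGP.Stmt_Path := HGP.path_proof HGP.genb_proof
  choose p hp0 hps hp1 using fun i => hPath (g i) (M i) lam hlam (hM i)
  let M' : ℂ → ∀ i, Matrix (Ix (g i)) (Ix (g i)) ℂ :=
    fun s i => Matrix.of fun x y => (p i x y).eval s
  let f : VV g → Polynomial ℂ := fun v => v.elim (Polynomial.C lam) (fun u => p u.1 u.2.1 u.2.2)
  have hf : ∀ s : ℂ, (fun v => (f v).eval s) = HGP.tpt lam (M' s) := by
    intro s
    funext v
    match v with
    | none => exact Polynomial.eval_C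
    | some ⟨i, x, y⟩ => rfl
  have hF : ∀ s : ℂ, (aeval f P).eval s = (aeval (HGP.tpt lam (M' s)) P : ℂ) := by
    intro s
    rw [eval_path, hf]
  have hM0 : M' 0 = M := by
    funext i
    ext x y
    exact hp0 i x y
  have hF0 : (aeval f P : Polynomial ℂ) ≠ 0 := by
    intro h0
    apply hne
    rw [← hM0, ← hF 0, h0, Polynomial.eval_zero]
  let G : Fin r → Polynomial ℂ := fun i =>
    (Matrix.of fun x y => p i (Sum.inl x) (Sum.inl y) :
      Matrix (Fin (g i)) (Fin (g i)) (Polynomial ℂ)).det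
  have hG : ∀ i s, (G i).eval s = (M' s i).toBlocks₁₁.det := by
    intro i s
    have h := RingHom.map_det (Polynomial.evalRingHom s)
      (Matrix.of fun x y => p i (Sum.inl x) (Sum.inl y) :
        Matrix (Fin (g i)) (Fin (g i)) (Polynomial ℂ))
    rw [Polynomial.coe_evalRingHom] at h
    show Polynomial.eval s _ = _
    rw [h]
    congr 1
  have hG0 : ∀ i, G i ≠ 0 := by
    intro i h0
    apply hp1 i
    have h := hG i 1
    rw [h0, Polynomial.eval_zero] at h
    exact h.symm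
  have hprod : aeval f P * ∏ i, G i ≠ 0 :=
    mul_ne_zero hF0 (Finset.prod_ne_zero_iff.2 fun i _ => hG0 i)
  obtain ⟨s, hs⟩ : ∃ s : ℂ, (aeval f P * ∏ i, G i).eval s ≠ 0 := by
    by_contra hcon
    push Not at hcon
    exact hprod (Polynomial.funext fun s => by rw [hcon s, Polynomial.eval_zero])
  rw [Polynomial.eval_mul, Polynomial.eval_prod] at hs
  refine ⟨M' s, fun i => hps i s, fun i => ?_, ?_⟩
  · rw [← hG i s]
    exact Finset.prod_ne_zero_iff.1 (right_ne_zero_of_mul hs) i (Finset.mem_univ i)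
  · rw [← hF s]
    exact left_ne_zero_of_mul hs

lemma simil_smul {g : ℕ} (c lam : ℂ) (M : Matrix (Ix g) (Ix g) ℂ) (h : Simil lam M) :
    Simil (lam * c ^ 2) (c • M) := by
  unfold Simil at h ⊢
  rw [Matrix.transpose_smul, Matrix.smul_mul, Matrix.smul_mul, Matrix.mul_smul, h, smul_smul,
    smul_smul]
  congr 1
  ring

lemma toBlocks_smul {g : ℕ} (c : ℂ) (M : Matrix (Ix g) (Ix g) ℂ) :
    (c • M).toBlocks₁₁ = c • M.toBlocks₁₁ := rfl

/-- Every point of the big cell is in the image of `psi`. -/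
lemma surj {r : ℕ} {g : Fin r → ℕ} (Δ : ∀ i, MvPolynomial (Option (Idx (g i))) ℤ)
    (q : ∀ i, Ix (g i) × Ix (g i) → MvPolynomial (Option (Idx (g i))) ℤ)
    (h : ∀ i, ∀ (w : Idx (g i) → ℂ) (lam : ℂ),
      MvPolynomial.aeval (opt lam w) (Δ i) = (Aof w).det ∧
      ((Aof w).det ≠ 0 → ∀ p, MvPolynomial.aeval (opt lam w) (q i p) =
        (Aof w).det * mvec w lam p.1 p.2))
    (lam : ℂ) (M : ∀ i, Matrix (Ix (g i)) (Ix (g i)) ℂ) (hlam : lam ≠ 0)
    (hM : ∀ i, Simil lam (M i)) (hdet : ∀ i, (M i).toBlocks₁₁.det ≠ 0) :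
    ∃ w : WW g → ℂ, (fun v => (aeval w (psi Δ q v) : ℂ)) = HGP.tpt lam M := by
  have hp : (∏ i, (M i).toBlocks₁₁.det) ≠ 0 := Finset.prod_ne_zero_iff.2 fun i _ => hdet i
  obtain ⟨d, hd⟩ := IsAlgClosed.exists_pow_nat_eq (∏ i, (M i).toBlocks₁₁.det)
    (n := 1 + ∑ i, g i) (by omega)
  have hd0 : d ≠ 0 := by
    intro h0
    rw [h0, zero_pow (by omega)] at hd
    exact hp hd.symm
  set lam' : ℂ := lam * d⁻¹ ^ 2 with hlam'
  have hlam0 : lam' ≠ 0 := mul_ne_zero hlam (pow_ne_zero _ (inv_ne_zero hd0))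
  have hS : ∀ i, Simil lam' (d⁻¹ • M i) := fun i => simil_smul _ _ _ (hM i)
  have hdet' : ∀ i, (d⁻¹ • M i).toBlocks₁₁.det ≠ 0 := by
    intro i
    rw [toBlocks_smul, Matrix.det_smul]
    exact mul_ne_zero (pow_ne_zero _ (inv_ne_zero hd0)) (hdet i)
  have hA := fun i => HGP.cella_proof (g i) (d⁻¹ • M i) lam' hlam0 (hS i) (hdet' i)
  set w : WW g → ℂ := opt lam' (fun p : (Σ i : Fin r, Idx (g i)) => fvec (d⁻¹ • M p.1) p.2)
    with hw
  have hwi : ∀ i, (fun x => w (some ⟨i, x⟩)) = fvec (d⁻¹ • M i) := fun i => rfl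
  have hwn : w none = lam' := rfl
  refine ⟨w, ?_⟩
  rw [(key Δ q h w (fun i => by rw [hwi, (hA i).1]; exact hdet' i)).2]
  have hD : ∏ i, (Aof (fun x => w (some ⟨i, x⟩))).det = d := by
    have h1 : ∀ i, (Aof (fun x => w (some ⟨i, x⟩))).det =
        d⁻¹ ^ (g i) * (M i).toBlocks₁₁.det := by
      intro i
      rw [hwi, (hA i).1, toBlocks_smul, Matrix.det_smul, Fintype.card_fin]
    simp only [h1]
    rw [Finset.prod_mul_distrib, Finset.prod_pow_eq_pow_sum, ← hd, pow_add, pow_one, inv_pow]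
    have h2 : d ^ (∑ i, g i) ≠ 0 := pow_ne_zero _ hd0
    field_simp
  rw [hD]
  have e1 : w none * d ^ 2 = lam := by
    rw [hwn, hlam']
    field_simp
  have e2 : (fun i => d • mvec (fun x => w (some ⟨i, x⟩)) (w none)) = M := by
    funext i
    rw [hwi, hwn, (hA i).2, smul_smul, mul_inv_cancel₀ hd0, one_smul]
  rw [e1, e2]

end NFC_

open NFC_ in
theorem nfc_proof : Stmt_NFC := by
  intro r g M L hL P hP hne
  choose Δ q h using fun i => HGP.cellp_proof (g i)
  obtain ⟨lam, M', hlam, hM', hne'⟩ := hne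
  obtain ⟨M1, hM1, hdet1, hne1⟩ := big_cell P lam M' hlam hM' hne'
  obtain ⟨y, hy⟩ := surj Δ q h lam M1 hlam hM1 hdet1
  obtain ⟨N, hNd, hNz, hNb⟩ := DGP.NF.norm_exists (τ' := WW g) P
  have h1 : bind₁ (psi Δ q) N ≠ 0 := by
    intro h0
    apply hne1
    have h2 : ∀ f : MvPolynomial (WW g) ℚ,
        (aeval y (MvPolynomial.map (algebraMap ℚ L) f) : ℂ) = aeval y f := by
      intro f
      rw [aeval_def, eval₂_map, aeval_def]
      congr 1
    have h3 := congrArg (aeval y : MvPolynomial (WW g) L →ₐ[L] ℂ) (hNb (psi Δ q) h0)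
    rw [aeval_bind₁, map_zero] at h3
    simp only [h2] at h3
    rw [hy] at h3
    exact h3
  have h4 : (X none * Dt Δ * bind₁ (psi Δ q) N : MvPolynomial (WW g) ℚ) ≠ 0 := by
    refine mul_ne_zero (mul_ne_zero (X_ne_zero _) ?_) h1
    intro h0
    have h5 : (aeval y (psi Δ q none) : ℂ) = lam := congrFun hy none
    have h6 : psi Δ q none = 0 := by
      show X none * Dt Δ ^ 2 = 0
      rw [h0, zero_pow two_ne_zero, mul_zero]
    rw [h6, map_zero] at h5
    exact hlam h5.symm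
  have h5 : ∃ z : WW g → ℚ, eval z (X none * Dt Δ * bind₁ (psi Δ q) N) ≠ 0 := by
    by_contra h6
    push Not at h6
    apply h4
    apply MvPolynomial.funext
    intro z
    rw [h6 z, map_zero]
  obtain ⟨z, hz⟩ := h5
  have hcast : ∀ f : MvPolynomial (WW g) ℚ,
      (aeval (fun s => ((z s : ℚ) : ℂ)) f : ℂ) = ((eval z f : ℚ) : ℂ) := by
    intro f
    have h6 := aeval_algebraMap_apply (A := ℚ) (B := ℂ) z f
    simp only [eq_ratCast] at h6
    rw [aeval_eq_eval] at h6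
    exact h6
  have hz' : (aeval (fun s => ((z s : ℚ) : ℂ)) (X none * Dt Δ * bind₁ (psi Δ q) N) : ℂ) ≠ 0 := by
    rw [hcast]
    exact_mod_cast hz
  obtain ⟨w, hw⟩ : ∃ w : WW g → ℂ, w = fun s => ((z s : ℚ) : ℂ) := ⟨_, rfl⟩
  rw [← hw, map_mul, map_mul, aeval_X] at hz'
  have hz1 : w none ≠ 0 := left_ne_zero_of_mul (left_ne_zero_of_mul hz')
  have hz2 : (aeval w (Dt Δ) : ℂ) ≠ 0 := right_ne_zero_of_mul (left_ne_zero_of_mul hz')
  have hz3 : (aeval w (bind₁ (psi Δ q) N) : ℂ) ≠ 0 := right_ne_zero_of_mul hz'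
  have hz4 : ∀ i, (Aof (fun x => w (some ⟨i, x⟩))).det ≠ 0 := by
    intro i
    have h6 : aeval w (Dt Δ) = ∏ i, (Aof (fun x => w (some ⟨i, x⟩))).det := by
      unfold Dt
      rw [map_prod]
      refine Finset.prod_congr rfl fun i _ => ?_
      rw [aeval_emb, (h i _ _).1]
    rw [h6] at hz2
    exact Finset.prod_ne_zero_iff.1 hz2 i (Finset.mem_univ i)
  obtain ⟨k1, k2⟩ := key Δ q h w hz4
  rw [k1] at hz2
  refine ⟨N, hNd, hNz _ hP, w none * (∏ i, (Aof (fun x => w (some ⟨i, x⟩))).det) ^ 2,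
    fun i => (∏ i, (Aof (fun x => w (some ⟨i, x⟩))).det) •
          mvec (fun x => w (some ⟨i, x⟩)) (w none), mul_ne_zero hz1 (pow_ne_zero _ hz2),
    fun i => simil_smul _ _ _ (HGP.cellb_proof (g i) _ _ (hz4 i)).1, ?_⟩
  rw [← k2, ← aeval_bind₁]
  exact hz3

end

end Pool.Agent.DG2
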