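import Pool.Agent.DGP.Stmts
import Pool.Agent.GPH.IIDefs

set_option autoImplicit false

/-!
# DG2, part A: the normalised fundamental matrix of the system `(s + A) Y' = E Y`

`y² = f0 c + s`, `A = (Cop c)ᵀ`, `E = (Dop c)ᵀ`: definitions.
-/

open Finset

namespace Pool.Agent.DG2

open Pool.Agent.GPH (f0 g0 Cop Dop)
open Pool.Agent.DGP (GSys IsZ hd val Conv tens)

noncomputable section

/-- The matrix `A`. -/
def Am {m : ℕ} (c : Fin m → ℚ) : Matrix (Fin m) (Fin m) ℚ := (Cop c).transpose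

/-- The matrix `E`. -/
def Em {m : ℕ} (c : Fin m → ℚ) : Matrix (Fin m) (Fin m) ℚ := (Dop c).transpose

/-- The Taylor coefficients at `s` of the solution with `Y(s) = 1`. -/
def Yc {m : ℕ} (c : Fin m → ℚ) (s : ℚ) : ℕ → Matrix (Fin m) (Fin m) ℚ
  | 0 => 1
  | (j + 1) => (1 / ((j : ℚ) + 1)) • ((s • (1 : Matrix (Fin m) (Fin m) ℚ) + Am c)⁻¹ *
      (Em c - (j : ℚ) • (1 : Matrix (Fin m) (Fin m) ℚ)) * Yc c s j)

/-- The entries of `Y(s + X)`. -/
def Ys {m : ℕ} (c : Fin m → ℚ) (s : ℚ) (p : Fin m × Fin m) : PowerSeries ℚ :=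
  PowerSeries.mk (fun n => Yc c s n p.1 p.2)

/-- The matrix `X + A`. -/
def Sm {m : ℕ} (c : Fin m → ℚ) : Matrix (Fin m) (Fin m) (Polynomial ℚ) :=
  (Polynomial.X : Polynomial ℚ) • (1 : Matrix (Fin m) (Fin m) (Polynomial ℚ)) +
    (Am c).map Polynomial.C

/-- `T = det (X + A)`. -/
def Tp {m : ℕ} (c : Fin m → ℚ) : Polynomial ℚ := (Sm c).det

/-- `Y^(k) / k! = T⁻ᵏ • Bt k * Y`. -/
def Bt {m : ℕ} (c : Fin m → ℚ) : ℕ → Matrix (Fin m) (Fin m) (Polynomial ℚ)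
  | 0 => 1
  | (k + 1) => (Polynomial.C (1 / ((k : ℚ) + 1))) • ((Sm c).adjugate *
      ((Em c - (k : ℚ) • (1 : Matrix (Fin m) (Fin m) ℚ)).map Polynomial.C) * Bt c k)

/-- A common denominator of the coefficients of `T (s + X)`. -/
def kap {m : ℕ} (c : Fin m → ℚ) (s : ℚ) : ℕ :=
  ∏ l ∈ range (m + 1), (((Tp c).comp (Polynomial.X + Polynomial.C s)).coeff l).den

/-- The denominator of the rescaled system, a multiple of `T (s + d X)`. -/
def Td {m : ℕ} (c : Fin m → ℚ) (s : ℚ) (d : ℕ) : Polynomial ℚ :=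
  Polynomial.C (kap c s : ℚ) *
    (Tp c).comp (Polynomial.C (d : ℚ) * Polynomial.X + Polynomial.C s)

/-- The full system: `1` and the rescaled matrices `Y_k (s_k + d_k X)`. -/
def fullJ {K : ℕ} {m : Fin K → ℕ} (c : ∀ k, Fin (m k) → ℚ) (s : Fin K → ℚ) (d : Fin K → ℕ)
    (o : Option (Σ k, Fin (m k) × Fin (m k))) : PowerSeries ℚ :=
  o.elim 1 (fun p => PowerSeries.rescale (d p.1 : ℚ) (Ys (c p.1) (s p.1) p.2))

/-- The matrices `B_k(s)` with `Y^(k) / k! = B_k Y`, over an arbitrary field. -/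
def Bk {K : Type} [Field K] [Algebra ℚ K] {m : ℕ} (c : Fin m → K) (s : K) :
    ℕ → Matrix (Fin m) (Fin m) K
  | 0 => 1
  | (k + 1) => (1 / ((k : K) + 1)) • ((s • (1 : Matrix (Fin m) (Fin m) K) +
      (Cop c).transpose)⁻¹ * ((Dop c).transpose - (k : K) • (1 : Matrix (Fin m) (Fin m) K)) *
        Bk c s k)

/-- `2 h' F - (2 k - 1) h F'`. -/
def Lam {R : Type} [CommRing R] (F : Polynomial R) (k : ℕ) (h : Polynomial R) : Polynomial R :=
  2 * Polynomial.derivative h * F -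
    Polynomial.C ((2 * (k : ℤ) - 1 : ℤ) : R) * h * Polynomial.derivative F

end

end Pool.Agent.DG2
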