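import Pool.Agent.DG2.AStmts
import Pool.Agent.DGP.Base

set_option autoImplicit false

/-!
# DG2, module BASJ: the base system
-/

open Finset

namespace Pool.Agent.DG2

open Pool.Agent.GPH (f0 g0 Cop Dop)
open Pool.Agent.DGP (GSys IsZ hd val Conv tens)

namespace BASJ_

open Pool.Agent.DGP.Base

noncomputable section

/-- The variable `s + d X`. -/
def sv (s : ℚ) (d : ℕ) : Polynomial ℚ :=
  Polynomial.C (d : ℚ) * Polynomial.X + Polynomial.C s

theorem comp_sv (p : Polynomial ℚ) (s : ℚ) (d : ℕ) :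
    (p.comp (Polynomial.X + Polynomial.C s)).comp (Polynomial.C (d : ℚ) * Polynomial.X)
      = p.comp (sv s d) := by
  rw [Polynomial.comp_assoc]
  congr 1
  simp [sv]

theorem l1_sv (s : ℚ) (d σ : ℕ) (hd1 : 1 ≤ d) (hσ : 1 + |s| ≤ σ) :
    l1 (sv s d) ≤ (σ : ℚ) * d := by
  have hdq : (1 : ℚ) ≤ d := by exact_mod_cast hd1
  have h1 : l1 (sv s d) ≤ d + |s| := by
    unfold sv
    refine (l1_add _ _).trans ?_
    refine add_le_add ?_ (le_of_eq (l1_C s))
    refine (l1_mul _ _).trans ?_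
    rw [l1_C, l1_X, mul_one, abs_of_nonneg (by positivity)]
  refine h1.trans ?_
  have h2 : (d : ℚ) + |s| ≤ (1 + |s|) * d := by
    have : |s| * 1 ≤ |s| * d := mul_le_mul_of_nonneg_left hdq (abs_nonneg s)
    linarith
  exact h2.trans (mul_le_mul_of_nonneg_right hσ (by positivity))

theorem pz_sv (s : ℚ) (d : ℕ) : PZ (Polynomial.C (s.den : ℚ) * sv s d) := by
  have h : Polynomial.C (s.den : ℚ) * sv s d
      = Polynomial.C ((s.den : ℚ) * d) * Polynomial.X + Polynomial.C (s.num : ℚ) := by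
    rw [num_eq, sv]
    simp only [Polynomial.C_mul]
    ring
  rw [h]
  exact pz_add (pz_mul (pz_C (isZ_mul (isZ_nat _) (isZ_nat _))) pz_X) (pz_C ⟨_, rfl⟩)

/-- Bounds for the composition. -/
theorem l1_cs {m k : ℕ} {CS σ : ℕ} (hCS : 1 ≤ CS) {p : Polynomial ℚ} (hdeg : p.natDegree ≤ m * k)
    (hp : ∀ l, |p.coeff l| ≤ (CS : ℚ) ^ k) (r : Polynomial ℚ) (d : ℕ) (hd1 : 1 ≤ d)
    (hσ1 : 1 ≤ σ) (hr : l1 r ≤ (σ : ℚ) * d) :
    l1 (p.comp r) ≤ ((CS : ℚ) * (2 * σ) ^ m * d ^ m) ^ k := by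
  have hdq : (1 : ℚ) ≤ d := by exact_mod_cast hd1
  have hσq : (1 : ℚ) ≤ σ := by exact_mod_cast hσ1
  refine (l1_comp p r (m * k) hdeg ((CS : ℚ) ^ k) ((σ : ℚ) * d)
    (one_le_mul_of_one_le_of_one_le hσq hdq) hr hp).trans ?_
  have h2 := succ_le_two_pow (m * k)
  calc (((m * k : ℕ) : ℚ) + 1) * (CS : ℚ) ^ k * ((σ : ℚ) * d) ^ (m * k)
      ≤ 2 ^ (m * k) * (CS : ℚ) ^ k * ((σ : ℚ) * d) ^ (m * k) := by
        apply mul_le_mul_of_nonneg_right _ (by positivity)
        exact mul_le_mul_of_nonneg_right h2 (by positivity)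
    _ = ((CS : ℚ) * (2 * σ) ^ m * d ^ m) ^ k := by
        rw [mul_pow (σ : ℚ), mul_pow ((CS : ℚ) * (2 * σ) ^ m), mul_pow (CS : ℚ), ← pow_mul,
          ← pow_mul, mul_pow (2 : ℚ)]
        ring

theorem yc_eval {m : ℕ} {c : Fin m → ℚ} {s : ℚ} (hs : (Tp c).eval s ≠ 0) (hH : Stmt_HdY)
    (k : ℕ) (i j : Fin m) :
    ((Tp c).eval s) ^ k * Yc c s k i j = (Bt c k i j).eval s := by
  have h := congrArg (PowerSeries.constantCoeff (R := ℚ)) (hH m c s hs k i j)
  rw [map_mul, map_pow, map_sum] at h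
  have hc : ∀ p : Polynomial ℚ, PowerSeries.constantCoeff (R := ℚ)
      (((p.comp (Polynomial.X + Polynomial.C s) : Polynomial ℚ)) : PowerSeries ℚ)
      = p.eval s := by
    intro p
    rw [Polynomial.constantCoeff_coe, Polynomial.coeff_zero_eq_eval_zero, Polynomial.eval_comp]
    simp
  have hy : ∀ l : Fin m, PowerSeries.constantCoeff (R := ℚ) (Ys c s (l, j))
      = (1 : Matrix (Fin m) (Fin m) ℚ) l j := by
    intro l
    rw [← PowerSeries.coeff_zero_eq_constantCoeff_apply, Ys, PowerSeries.coeff_mk, Yc]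
  have hh : PowerSeries.constantCoeff (R := ℚ) (hd k (Ys c s (i, j))) = Yc c s k i j := by
    rw [← PowerSeries.coeff_zero_eq_constantCoeff_apply, coeff_hd, Ys, PowerSeries.coeff_mk,
      zero_add, Nat.choose_self]
    simp
  rw [hc, hh] at h
  rw [h]
  rw [Finset.sum_eq_single j]
  · rw [map_mul, hc, hy, Matrix.one_apply_eq, mul_one]
  · intro l _ hl
    rw [map_mul, hy, Matrix.one_apply_ne hl, mul_zero]
  · intro hj
    exact absurd (Finset.mem_univ j) hj

/-- The matrices of the rescaled system. -/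
def Bm {m : ℕ} (c : Fin m → ℚ) (s : ℚ) (d : ℕ) (k : ℕ) (p p' : Fin m × Fin m) : Polynomial ℚ :=
  if p.2 = p'.2 then Polynomial.C (((kap c s : ℚ) * d) ^ k) * (Bt c k p.1 p'.1).comp (sv s d)
  else 0

theorem sys_eq {m : ℕ} {c : Fin m → ℚ} {s : ℚ} (hs : (Tp c).eval s ≠ 0) (hH : Stmt_HdY)
    (d : ℕ) (k : ℕ) (p : Fin m × Fin m) :
    ((Td c s d : Polynomial ℚ) : PowerSeries ℚ) ^ k *
        hd k (PowerSeries.rescale (d : ℚ) (Ys c s p))
      = ∑ p' : Fin m × Fin m, ((Bm c s d k p p' : Polynomial ℚ) : PowerSeries ℚ) *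
          PowerSeries.rescale (d : ℚ) (Ys c s p') := by
  obtain ⟨i, j⟩ := p
  have h := congrArg (PowerSeries.rescale (d : ℚ)) (hH m c s hs k i j)
  rw [map_mul, map_pow, map_sum, rescale_coe, comp_sv] at h
  have e1 : ((Td c s d : Polynomial ℚ) : PowerSeries ℚ)
      = PowerSeries.C (kap c s : ℚ) * (((Tp c).comp (sv s d) : Polynomial ℚ) : PowerSeries ℚ) := by
    rw [Td, Polynomial.coe_mul, Polynomial.coe_C, sv]
  rw [hd_rescale, e1, mul_pow]
  have e2 : (PowerSeries.C (kap c s : ℚ)) ^ k *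
        (((Tp c).comp (sv s d) : Polynomial ℚ) : PowerSeries ℚ) ^ k *
        (PowerSeries.C ((d : ℚ) ^ k) * PowerSeries.rescale (d : ℚ) (hd k (Ys c s (i, j))))
      = PowerSeries.C (((kap c s : ℚ) * d) ^ k) *
        ((((Tp c).comp (sv s d) : Polynomial ℚ) : PowerSeries ℚ) ^ k *
          PowerSeries.rescale (d : ℚ) (hd k (Ys c s (i, j)))) := by
    rw [mul_pow, map_mul, map_pow, map_pow]
    ring
  rw [e2, h, Fintype.sum_prod_type, Finset.mul_sum]
  apply Finset.sum_congr rfl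
  intro l _
  rw [Finset.sum_eq_single j]
  · rw [map_mul, rescale_coe, comp_sv, Bm, if_pos rfl, Polynomial.coe_mul, Polynomial.coe_C]
    ring
  · intro j' _ hj'
    rw [Bm, if_neg (fun h0 => hj' h0.symm), Polynomial.coe_zero, zero_mul]
  · intro hj
    exact absurd (Finset.mem_univ j) hj

theorem lcm_dvd (k : ℕ) : (Finset.Icc 1 (2 * k)).lcm id ∣ (Finset.Icc 1 (2 * (k + 1))).lcm id := by
  apply Finset.lcm_dvd
  intro b hb
  apply Finset.dvd_lcm (f := id)
  rw [Finset.mem_Icc] at hb ⊢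
  omega

theorem lcm_pos' (k : ℕ) : 1 ≤ (Finset.Icc 1 (2 * k)).lcm id := by
  rw [Nat.one_le_iff_ne_zero]
  intro h
  rw [Finset.lcm_eq_zero_iff] at h
  obtain ⟨x, hx, hx0⟩ := h
  rw [Finset.mem_Icc] at hx
  simp only [id] at hx0
  omega

theorem core {m : ℕ} {c : Fin m → ℚ} {s : ℚ} (hs : (Tp c).eval s ≠ 0) (hH : Stmt_HdY)
    (hTd : (Tp c).natDegree = m) (hk1 : 1 ≤ kap c s)
    (hkz : ∀ l, IsZ ((kap c s : ℚ) * ((Tp c).comp (Polynomial.X + Polynomial.C s)).coeff l))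
    (CB : ℕ) (hCB : 1 ≤ CB)
    (hBD : ∀ (k : ℕ) (i j : Fin m) (l : ℕ),
      IsZ ((((Finset.Icc 1 (2 * k)).lcm id : ℕ) : ℚ) * (CB : ℚ) ^ k * (Bt c k i j).coeff l))
    (CS : ℕ) (hCS : 1 ≤ CS) (hBd : ∀ k i j, (Bt c k i j).natDegree ≤ m * k)
    (hBc : ∀ k i j l, |(Bt c k i j).coeff l| ≤ (CS : ℚ) ^ k)
    (CL : ℕ) (hCL : ∀ n : ℕ, (Finset.Icc 1 n).lcm id ≤ CL ^ n) :
    ∃ C : ℕ, ∀ d : ℕ, 1 ≤ d → ∃ (e₀ : ℕ) (c₀ : ℝ),
      GSys (fun p : Fin m × Fin m => PowerSeries.rescale (d : ℚ) (Ys c s p))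
        (Td c s d) m e₀ c₀ (C * d ^ (m + 1)) := by
  obtain ⟨σ, hσ⟩ := exists_nat_ge (1 + |s|)
  have hσ1 : 1 ≤ σ := by
    have h1 : (1 : ℚ) ≤ σ := le_trans (by linarith [abs_nonneg s]) hσ
    exact_mod_cast h1
  obtain ⟨τ, hτ⟩ := exists_nat_ge (l1 (Tp c))
  obtain ⟨ν, hν⟩ := exists_nat_ge (1 / |(Tp c).eval s|)
  obtain ⟨t, ht⟩ : ∃ t : ℚ, t = (Tp c).eval s := ⟨_, rfl⟩
  rw [← ht] at hν
  have hs0 : t ≠ 0 := by rw [ht]; exact hs
  obtain ⟨N, hN⟩ : ∃ N : ℕ, N = t.num.natAbs := ⟨_, rfl⟩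
  have hN1 : 1 ≤ N := by
    rw [hN]
    have : t.num ≠ 0 := Rat.num_ne_zero.2 hs0
    omega
  have hN2 : (N : ℚ) = |(t.num : ℚ)| := by
    rw [hN, Nat.cast_natAbs, Int.cast_abs]
  have hNe : ∃ e : ℤ, (N : ℚ) = e * t := by
    have h2 := num_eq t
    rcases abs_choice (t.num : ℚ) with h | h
    · refine ⟨t.den, ?_⟩
      rw [hN2, h, h2]
      push_cast
      rfl
    · refine ⟨-t.den, ?_⟩
      rw [hN2, h, h2]
      push_cast
      ring
  obtain ⟨e, he⟩ := hNe
  obtain ⟨A1, hA1⟩ : ∃ A : ℕ, A = kap c s * ((m + 1) * τ * σ ^ m) := ⟨_, rfl⟩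
  obtain ⟨A2, hA2⟩ : ∃ A : ℕ, A = kap c s * (CS * (2 * σ) ^ m) := ⟨_, rfl⟩
  obtain ⟨A3, hA3⟩ : ∃ A : ℕ, A = CL ^ 2 * (CB * s.den ^ m) := ⟨_, rfl⟩
  obtain ⟨A4, hA4⟩ : ∃ A : ℕ, A = CS * (2 * σ) ^ m * ν := ⟨_, rfl⟩
  obtain ⟨A5, hA5⟩ : ∃ A : ℕ, A = CL ^ 2 * (CB * s.den ^ m) * N := ⟨_, rfl⟩
  refine ⟨2 + A1 + A2 + A3 + A4 + A5, fun d hd1 => ⟨0, 1, ?_⟩⟩
  have hdq : (1 : ℚ) ≤ d := by exact_mod_cast hd1
  obtain ⟨Hq, hHq⟩ : ∃ H : ℚ, H = ((2 + A1 + A2 + A3 + A4 + A5 : ℕ) : ℚ) * (d : ℚ) ^ (m + 1) :=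
    ⟨_, rfl⟩
  have hH0 : (((2 + A1 + A2 + A3 + A4 + A5 : ℕ) : ℝ) * (d : ℝ) ^ (m + 1)) = ((Hq : ℚ) : ℝ) := by
    rw [hHq]
    push_cast
    ring
  rw [hH0]
  have hle : ∀ (A : ℕ) (a : ℕ), A ≤ 2 + A1 + A2 + A3 + A4 + A5 → a ≤ m + 1 →
      (A : ℚ) * (d : ℚ) ^ a ≤ Hq := by
    intro A a hA ha
    rw [hHq]
    apply mul_le_mul _ _ (by positivity) (by positivity)
    · exact_mod_cast hA
    · exact pow_le_pow_right₀ hdq ha
  have hHq2 : 2 ≤ Hq := by
    have := hle 2 0 (by omega) (by omega)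
    simpa using this
  have hHq0 : 0 ≤ Hq := by linarith
  have lsv : l1 (sv s d) ≤ (σ : ℚ) * d := l1_sv s d σ hd1 hσ
  have hlcmq : ∀ k, (((Finset.Icc 1 (2 * k)).lcm id : ℕ) : ℚ) ≤ ((CL : ℚ) ^ 2) ^ k := by
    intro k
    rw [← pow_mul]
    exact_mod_cast hCL (2 * k)
  have hBl : ∀ k i j, l1 ((Bt c k i j).comp (sv s d)) ≤
      ((CS : ℚ) * (2 * σ) ^ m * d ^ m) ^ k := fun k i j =>
    l1_cs (by omega) (hBd k i j) (hBc k i j) _ d hd1 hσ1 lsv
  have hBe : ∀ k i j, |(Bt c k i j).eval s| ≤ ((CS : ℚ) * (2 * σ) ^ m) ^ k := by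
    intro k i j
    have h1 := l1_cs (σ := σ) (by omega) (hBd k i j) (hBc k i j) (Polynomial.C s) 1 le_rfl hσ1 (by
      rw [l1_C]
      push_cast
      linarith [abs_nonneg s])
    rw [Polynomial.comp_C, l1_C] at h1
    simpa using h1
  have hY : ∀ k i j, |Yc c s k i j| ≤ ((A4 : ℕ) : ℚ) ^ k := by
    intro k i j
    have h1 := yc_eval hs hH k i j
    have ht0 : 0 < |t| ^ k := pow_pos (abs_pos.2 hs0) k
    have h2 : |Yc c s k i j| = |(Bt c k i j).eval s| * (1 / |t|) ^ k := by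
      rw [← h1, abs_mul, abs_pow, ← ht]
      rw [one_div, inv_pow]
      field_simp
    rw [h2]
    calc |(Bt c k i j).eval s| * (1 / |t|) ^ k
        ≤ ((CS : ℚ) * (2 * σ) ^ m) ^ k * (ν : ℚ) ^ k := by
          apply mul_le_mul (hBe k i j) _ (by positivity) (by positivity)
          exact pow_le_pow_left₀ (by positivity) hν k
      _ = ((A4 : ℕ) : ℚ) ^ k := by
          rw [hA4]
          push_cast
          ring
  have hZe : ∀ k i j, IsZ ((((Finset.Icc 1 (2 * k)).lcm id : ℕ) : ℚ) * (CB : ℚ) ^ k *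
      ((s.den : ℚ) ^ m) ^ k * (Bt c k i j).eval s) := by
    intro k i j
    have h := pz_comp (Bt c k i j) (Polynomial.C s) (m * k) (hBd k i j)
      ((Finset.Icc 1 (2 * k)).lcm id * CB ^ k) s.den ?_ ?_
    · have h0 := h 0
      rw [Polynomial.coeff_C_mul, Polynomial.comp_C, Polynomial.coeff_C_zero] at h0
      have e1 : (((Finset.Icc 1 (2 * k)).lcm id : ℕ) : ℚ) * (CB : ℚ) ^ k *
          ((s.den : ℚ) ^ m) ^ k * (Bt c k i j).eval s
          = (s.den : ℚ) ^ (m * k) * (((Finset.Icc 1 (2 * k)).lcm id * CB ^ k : ℕ) : ℚ) *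
            (Bt c k i j).eval s := by
        push_cast
        rw [pow_mul]
        ring
      rw [e1]
      exact h0
    · rw [← Polynomial.C_mul, ← num_eq]
      exact pz_C ⟨_, rfl⟩
    · intro l
      have := hBD k i j l
      push_cast
      exact this
  have hTdd : (Td c s d).natDegree ≤ m := by
    rw [Td]
    refine (Polynomial.natDegree_C_mul_le _ _).trans ?_
    refine Polynomial.natDegree_comp_le.trans ?_
    rw [hTd]
    have h1 : (Polynomial.C (d : ℚ) * Polynomial.X + Polynomial.C s : Polynomial ℚ).natDegree ≤ 1 := by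
      compute_degree
    calc m * (Polynomial.C (d : ℚ) * Polynomial.X + Polynomial.C s : Polynomial ℚ).natDegree
        ≤ m * 1 := Nat.mul_le_mul_left m h1
      _ = m := mul_one m
  refine ⟨le_rfl, ?_, ?_, ?_, ?_, ?_, ?_, ?_, ?_⟩
  · exact_mod_cast hHq2
  · -- integrality of T
    intro i
    have e1 : (Td c s d).coeff i = (d : ℚ) ^ i *
        ((kap c s : ℚ) * ((Tp c).comp (Polynomial.X + Polynomial.C s)).coeff i) := by
      have e2 : Td c s d = Polynomial.C (kap c s : ℚ) * (Tp c).comp (sv s d) := rfl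
      rw [e2, ← comp_sv, Polynomial.coeff_C_mul, Polynomial.comp_C_mul_X_coeff]
      ring
    rw [e1]
    exact isZ_mul (isZ_pow (isZ_nat _) _) (hkz i)
  · -- T(0)
    have e1 : (Td c s d).coeff 0 = (kap c s : ℚ) * t := by
      rw [Td, Polynomial.coeff_C_mul, Polynomial.coeff_zero_eq_eval_zero, Polynomial.eval_comp]
      simp [ht]
    rw [e1]
    have : (kap c s : ℚ) ≠ 0 := by exact_mod_cast (by omega : kap c s ≠ 0)
    exact mul_ne_zero this hs0
  · exact hTdd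
  · -- size of T
    have e1 : ∑ i ∈ range (m + 1), |(Td c s d).coeff i| ≤ Hq := by
      rw [← l1_eq (Td c s d) (range (m + 1))]
      · have e2 : Td c s d = Polynomial.C (kap c s : ℚ) * (Tp c).comp (sv s d) := rfl
        rw [e2]
        refine (l1_mul _ _).trans ?_
        rw [l1_C, abs_of_nonneg (by positivity)]
        have hσq : (1 : ℚ) ≤ σ := by exact_mod_cast hσ1
        have h3 := l1_comp (Tp c) (sv s d) m hTd.le (τ : ℚ) ((σ : ℚ) * d)
          (one_le_mul_of_one_le_of_one_le hσq hdq) lsv (fun l => (coeff_le_l1 _ l).trans hτ)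
        calc (kap c s : ℚ) * l1 ((Tp c).comp (sv s d))
            ≤ (kap c s : ℚ) * (((m : ℚ) + 1) * τ * ((σ : ℚ) * d) ^ m) :=
              mul_le_mul_of_nonneg_left h3 (by positivity)
          _ = (A1 : ℚ) * (d : ℚ) ^ m := by
              rw [hA1, mul_pow]
              push_cast
              ring
          _ ≤ Hq := hle A1 m (by omega) (by omega)
      · intro i hi
        rw [Finset.mem_range]
        have h4 := Polynomial.le_natDegree_of_mem_supp i hi
        exact Nat.lt_succ_of_le (h4.trans hTdd)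
    exact_mod_cast e1
  · -- the system
    refine ⟨Bm c s d, fun k => (Finset.Icc 1 (2 * k)).lcm id * (CB * s.den ^ m) ^ k,
      fun k p => sys_eq hs hH d k p, ?_, ?_, ?_, ?_⟩
    · intro k p p'
      rw [Bm]
      split_ifs with h
      · refine (Polynomial.natDegree_C_mul_le _ _).trans ?_
        refine Polynomial.natDegree_comp_le.trans ?_
        have h1 : (sv s d).natDegree ≤ 1 := by
          unfold sv
          compute_degree
        calc (Bt c k p.1 p'.1).natDegree * (sv s d).natDegree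
            ≤ (m * k) * 1 := Nat.mul_le_mul (hBd _ _ _) h1
          _ = m * k + 0 := by ring
      · simp
    · intro k p p' l
      have e1 : |(Bm c s d k p p').coeff l| ≤ 1 * Hq ^ k := by
        rw [one_mul, Bm]
        split_ifs with h
        · rw [Polynomial.coeff_C_mul, abs_mul, abs_of_nonneg (by positivity)]
          calc ((kap c s : ℚ) * d) ^ k * |((Bt c k p.1 p'.1).comp (sv s d)).coeff l|
              ≤ ((kap c s : ℚ) * d) ^ k * ((CS : ℚ) * (2 * σ) ^ m * d ^ m) ^ k := by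
                apply mul_le_mul_of_nonneg_left _ (by positivity)
                exact (coeff_le_l1 _ _).trans (hBl _ _ _)
            _ = ((A2 : ℚ) * (d : ℚ) ^ (m + 1)) ^ k := by
                rw [← mul_pow, hA2]
                push_cast
                congr 1
                ring
            _ ≤ Hq ^ k := by
                apply pow_le_pow_left₀ (by positivity)
                exact hle A2 (m + 1) (by omega) le_rfl
        · rw [Polynomial.coeff_zero, abs_zero]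
          positivity
      exact_mod_cast e1
    · intro k
      refine ⟨?_, ?_, ?_⟩
      · exact Nat.mul_pos (lcm_pos' k) (Nat.pow_pos (Nat.mul_pos hCB (Nat.pow_pos s.den_pos)))
      · exact Nat.mul_dvd_mul (lcm_dvd k) (pow_dvd_pow _ (Nat.le_succ k))
      · have e1 : (((Finset.Icc 1 (2 * k)).lcm id * (CB * s.den ^ m) ^ k : ℕ) : ℚ) ≤ 1 * Hq ^ k := by
          rw [one_mul]
          push_cast
          calc (((Finset.Icc 1 (2 * k)).lcm id : ℕ) : ℚ) * ((CB : ℚ) * (s.den : ℚ) ^ m) ^ k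
              ≤ ((CL : ℚ) ^ 2) ^ k * ((CB : ℚ) * (s.den : ℚ) ^ m) ^ k :=
                mul_le_mul_of_nonneg_right (hlcmq k) (by positivity)
            _ = ((A3 : ℚ) * (d : ℚ) ^ 0) ^ k := by
                rw [← mul_pow, hA3]
                push_cast
                congr 1
                ring
            _ ≤ Hq ^ k := by
                apply pow_le_pow_left₀ (by positivity)
                exact hle A3 0 (by omega) (by omega)
        exact_mod_cast e1
    · intro k p p' l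
      rw [Bm]
      split_ifs with h
      · have hz := pz_comp (Bt c k p.1 p'.1) (sv s d) (m * k) (hBd _ _ _)
          ((Finset.Icc 1 (2 * k)).lcm id * CB ^ k) s.den (pz_sv s d) (fun l => by
            have := hBD k p.1 p'.1 l
            push_cast
            exact this) l
        rw [Polynomial.coeff_C_mul] at hz ⊢
        have e1 : (((Finset.Icc 1 (2 * k)).lcm id * (CB * s.den ^ m) ^ k : ℕ) : ℚ) *
            (((kap c s : ℚ) * d) ^ k * ((Bt c k p.1 p'.1).comp (sv s d)).coeff l)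
            = ((kap c s : ℚ) * d) ^ k *
              ((s.den : ℚ) ^ (m * k) * (((Finset.Icc 1 (2 * k)).lcm id * CB ^ k : ℕ) : ℚ) *
                ((Bt c k p.1 p'.1).comp (sv s d)).coeff l) := by
          push_cast
          rw [pow_mul, mul_pow (CB : ℚ)]
          ring
        rw [e1]
        exact isZ_mul (isZ_pow (isZ_mul (isZ_nat _) (isZ_nat _)) _) hz
      · rw [Polynomial.coeff_zero, mul_zero]
        exact ⟨0, by simp⟩
  · -- size of the coefficients
    intro p j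
    have e1 : |PowerSeries.coeff j (PowerSeries.rescale (d : ℚ) (Ys c s p))| ≤ 1 * Hq ^ j := by
      rw [one_mul, PowerSeries.coeff_rescale, Ys, PowerSeries.coeff_mk, abs_mul,
        abs_of_nonneg (by positivity)]
      calc (d : ℚ) ^ j * |Yc c s j p.1 p.2| ≤ (d : ℚ) ^ j * (A4 : ℚ) ^ j :=
            mul_le_mul_of_nonneg_left (hY _ _ _) (by positivity)
        _ = ((A4 : ℚ) * (d : ℚ) ^ 1) ^ j := by
            rw [← mul_pow]
            congr 1
            ring
        _ ≤ Hq ^ j := by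
            apply pow_le_pow_left₀ (by positivity)
            exact hle A4 1 (by omega) (by omega)
    exact_mod_cast e1
  · -- denominators
    refine ⟨fun j => (Finset.Icc 1 (2 * j)).lcm id * (CB * s.den ^ m * N) ^ j,
      fun j => ⟨?_, ?_, ?_⟩, ?_⟩
    · exact Nat.mul_pos (lcm_pos' j)
        (Nat.pow_pos (Nat.mul_pos (Nat.mul_pos hCB (Nat.pow_pos s.den_pos)) hN1))
    · exact Nat.mul_dvd_mul (lcm_dvd j) (pow_dvd_pow _ (Nat.le_succ j))
    · have e1 : (((Finset.Icc 1 (2 * j)).lcm id * (CB * s.den ^ m * N) ^ j : ℕ) : ℚ)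
          ≤ 1 * Hq ^ j := by
        rw [one_mul]
        push_cast
        calc (((Finset.Icc 1 (2 * j)).lcm id : ℕ) : ℚ) * ((CB : ℚ) * (s.den : ℚ) ^ m * N) ^ j
            ≤ ((CL : ℚ) ^ 2) ^ j * ((CB : ℚ) * (s.den : ℚ) ^ m * N) ^ j :=
              mul_le_mul_of_nonneg_right (hlcmq j) (by positivity)
          _ = ((A5 : ℚ) * (d : ℚ) ^ 0) ^ j := by
              rw [← mul_pow, hA5]
              push_cast
              congr 1
              ring
          _ ≤ Hq ^ j := by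
              apply pow_le_pow_left₀ (by positivity)
              exact hle A5 0 (by omega) (by omega)
      exact_mod_cast e1
    · intro p j
      rw [PowerSeries.coeff_rescale, Ys, PowerSeries.coeff_mk]
      have e1 : (((Finset.Icc 1 (2 * j)).lcm id * (CB * s.den ^ m * N) ^ j : ℕ) : ℚ) *
          ((d : ℚ) ^ j * Yc c s j p.1 p.2)
          = (d : ℚ) ^ j * (e : ℚ) ^ j * ((((Finset.Icc 1 (2 * j)).lcm id : ℕ) : ℚ) *
            (CB : ℚ) ^ j * ((s.den : ℚ) ^ m) ^ j * (Bt c j p.1 p.2).eval s) := by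
        rw [← yc_eval hs hH j p.1 p.2, ← ht]
        push_cast
        rw [mul_pow, mul_pow (CB : ℚ), he, mul_pow (e : ℚ)]
        ring
      rw [e1]
      exact isZ_mul (isZ_mul (isZ_pow (isZ_nat _) _) (isZ_pow ⟨e, rfl⟩ _)) (hZe _ _ _)

end

end BASJ_

open BASJ_ in
theorem basj_proof (hBD : Stmt_BDen) (hBS : Stmt_BSz) (hH : Stmt_HdY) (hT : Stmt_TFc)
    (hL : Pool.Agent.DGP.Stmt_Lcm) : Stmt_BasJ := by
  intro g c s hs
  obtain ⟨CB, hCB, hBD⟩ := hBD g c
  obtain ⟨CS0, hBS⟩ := hBS (2 * g) c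
  obtain ⟨-, hTd, -, hTk⟩ := hT (2 * g) c
  obtain ⟨hk1, hkz⟩ := hTk s
  obtain ⟨CL, hCL⟩ := hL
  refine core hs hH hTd hk1 hkz CB hCB hBD (CS0 + 1) (by omega) (fun k i j => (hBS k i j).1)
    (fun k i j l => ?_) CL hCL
  refine ((hBS k i j).2 l).trans ?_
  apply pow_le_pow_left₀ (Nat.cast_nonneg _)
  push_cast
  linarith

end Pool.Agent.DG2
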