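import Pool.Agent.HGP.Main
import Pool.Agent.GPH.CCom
import Pool.Agent.GPH.CDet
import Pool.Agent.GPH.CEig
import Pool.Agent.GPH.Comms
import Pool.Agent.GPH.DTri
import Pool.Agent.GPH.Ext
import Pool.Agent.GPH.Frob
import Pool.Agent.GPH.Fund
import Pool.Agent.GPH.GROW
import Pool.Agent.GPH.GeoC
import Pool.Agent.GPH.Geob
import Pool.Agent.GPH.Grp
import Pool.Agent.GPH.GrpB
import Pool.Agent.GPH.Grpa
import Pool.Agent.GPH.Hor
import Pool.Agent.GPH.Locf
import Pool.Agent.GPH.Lode
import Pool.Agent.GPH.Oku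
import Pool.Agent.GPH.Uniq
import Pool.Agent.GPJ.AFF
import Pool.Agent.GPJ.COMMON
import Pool.Agent.GPJ.FIBJ
import Pool.Agent.GPJ.GRPJ
import Pool.Agent.GPJ.GRPP
import Pool.Agent.GPJ.LOCV
import Pool.Agent.GPJ.OKUN
import Pool.Agent.GPJ.SHIFTJ
import Pool.Agent.GPJ.THMJ

set_option autoImplicit false

/-!
# DG2: the functional part, assembled with the smallest imports
-/

namespace Pool.Agent.DG2.FibJ_

open Pool.Agent.GPH Pool.Agent.GPJ

theorem geoC : Stmt_GeoC := geoC_proof
theorem uniq : Stmt_Uniq := uniq_proof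
theorem lode : Stmt_Lode := lode_proof
theorem ext : Stmt_Ext := ext_proof geoC lode uniq
theorem fund : Stmt_Fund := fund_proof geoC lode
theorem locf : Stmt_Locf := locf_proof frob_proof uniq geoC
theorem comms : Stmt_CommS := comms_proof ext grow_proof geoC
theorem grp : Stmt_Grp := grp_proof grpa_proof (grpb_proof HGP.Main.genb)
theorem ccom : Stmt_CCom := ccom_proof ceig_proof dtri_proof cdet_proof
theorem grpP : Stmt_GrpP := grpp_proof grp grpa_proof (grpb_proof HGP.Main.genb)
theorem grpJ : Stmt_GrpJ := grpj_proof grpP grp grpa_proof (grpb_proof HGP.Main.genb)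
theorem shiftJ : Stmt_ShiftJ := shiftj_proof HGP.logsh_proof geoC
theorem thmJ : Stmt_ThmJ := thmj_proof geob_proof geoC uniq fund locf comms locv_proof shiftJ grpJ
theorem fibJ : Stmt_FibJ := fibj_proof (okun_proof oku_proof) aff_proof common_proof thmJ
  hor_proof ceig_proof cdet_proof ccom dtri_proof

end Pool.Agent.DG2.FibJ_
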