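import Pool.Agent.DG2.FINC
import Pool.Agent.DG2.MAINC
import Pool.Agent.DG2.INDX
import Pool.Agent.DG2.EXCC
import Pool.Agent.DG2.ELC
import Pool.Agent.DG2.SERJ
import Pool.Agent.DG2.ZSM
import Pool.Agent.DG2.NMQ
import Pool.Agent.DG2.NFC
import Pool.Agent.DG2.REFX
import Pool.Agent.DG2.CVP
import Pool.Agent.DG2.TPC
import Pool.Agent.DG2.TFC
import Pool.Agent.DG2.FULLJ
import Pool.Agent.DG2.BASJ
import Pool.Agent.DG2.DSMJ
import Pool.Agent.DG2.BDEN
import Pool.Agent.DG2.BSZ
import Pool.Agent.DG2.HDY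
import Pool.Agent.DG2.GOOD
import Pool.Agent.DG2.TRV
import Pool.Agent.DG2.RED
import Pool.Agent.DG2.LOCS
import Pool.Agent.DG2.UNQ
import Pool.Agent.DG2.GSS
import Pool.Agent.DG2.CDK
import Pool.Agent.DG2.HERM
import Pool.Agent.DG2.SQR
import Pool.Agent.DG2.HOMQ
import Pool.Agent.DG2.FibJ
import Pool.Agent.DGP.Assembly

set_option autoImplicit false

/-!
# DG2: assembly
-/

namespace Pool.Agent.DG2

theorem cdk : Stmt_CDK := cdk_proof
theorem locs : Stmt_LocS := LocS_proof herm_proof sqr_proof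
theorem red : Stmt_Red := Red_proof cdk
theorem good : Stmt_Good := good_proof red locs unq_proof gss_proof cdk
theorem bden : Stmt_BDen := bden_proof good trv_proof
theorem basj : Stmt_BasJ := basj_proof bden bsz_proof hdy_proof tfc_proof DGP.Lcm_proof
theorem fullj : Stmt_FullJ := fullj_proof basj dsmj_proof
theorem tpc : Stmt_TpC := tpc_proof
theorem nmq : Stmt_NmQ := nmq_proof
theorem refx : Stmt_RefX := refx_proof nmq
theorem serj : Stmt_SerJ := serj_proof tpc
theorem zsm : Stmt_ZSm := zsm_proof refx serj nmq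
theorem indx : Stmt_IndX := indx_proof DGP.aa DGP.Val_proof DGP.Word_proof tfc_proof fullj refx
  serj zsm nmq tpc homq_proof FibJ_.fibJ HGP.cellb_proof
theorem mainc : Stmt_MainC := mainc_proof indx (excc_proof homq_proof) elc_proof serj zsm nmq

/-- The main theorem. -/
theorem finc : Stmt_FinC := finc_proof mainc nfc_proof refx (cvp_proof tpc)

end Pool.Agent.DG2
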