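import Pool.Agent.DG2.Assembly
import Pool.Agent.DRD.Full
import Pool.Agent.UBD.Main

set_option autoImplicit false

/-!
# DG2: relations of bounded degree, and no proper subtorsor over number fields of bounded degree

The deduction of the second part is due to helper83 (DRD) and helper62 (UBD).
-/

open scoped BigOperators Topology

namespace Pool.Agent.DG2

open Pool.Agent.HGP (Ix Simil)
open Pool.Agent.UBD (Stmt_UB)
open Pool.Agent.GPH (CPath num perMat)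
open Pool.Agent.DRD

noncomputable section

theorem main3 (hF : Stmt_FinC) (hX : Stmt_RefX) (hV : Stmt_CvP) (hUB : Stmt_UB)
    (nF : ℕ) (G : Fin nF → ℕ) (f : ∀ a, Fin (2 * G a + 1) → ℚ)
    (hG : ∀ a, 0 < G a) (h0 : ∀ a, (0 : ℂ) ∉ critVals (crv (G a) (f a) 0))
    (hc : ∀ a, (critVals (crv (G a) (f a) 0)).ncard = 2 * G a)
    (hp : ∀ a b, a ≠ b → ∀ ρ : ℚ, 0 < ρ →
      (fun v => (ρ : ℂ) * v) '' critVals (crv (G a) (f a) 0) ≠ critVals (crv (G b) (f b) 0))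
    (r : ℕ) (φ : Fin r → Fin nF) (D : ℕ) : ∃ δ : ℝ, 0 < δ ∧ ∃ n₀ : ℕ, ∀ n : ℕ, n₀ ≤ n →
    ∃ S : Finset ℚ, S.card ≤ r * (1 + ∑ a, G a * (2 * G a + 1)) ∧
    ∀ ρ : Fin r → ℚ, (∀ i j, i ≠ j → φ i = φ j → ρ i ≠ ρ j) →
    (∀ i, 0 < ρ i ∧ ρ i ∉ S ∧ ((ρ i).num : ℝ) ≤ (n : ℝ) ^ δ ∧
      ((ρ i).den : ℝ) ≤ (n : ℝ) ^ δ) →
    ∀ L : IntermediateField ℚ ℂ, FiniteDimensional ℚ L → Module.finrank ℚ L ≤ D →
    (∀ (m : ℕ) (γ : ∀ i, Fin m → CPath (crv (G (φ i)) (f (φ i)) (ρ i / n)))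
      (P : MvPolynomial (Option (Σ i : Fin r, Ix (G (φ i)) × Fin m)) L),
      P.totalDegree ≤ D →
      MvPolynomial.aeval (GPH.tpt (g := fun i => G (φ i)) (2 * Real.pi * Complex.I)
        (fun i => perMat (G (φ i)) (γ i))) P = (0 : ℂ) →
      ∀ (mu : ℂ) (h : ∀ i, Matrix (Ix (G (φ i))) (Ix (G (φ i))) ℂ), mu ≠ 0 →
        (∀ i, Simil mu (h i)) →
        MvPolynomial.aeval (GPH.tpt (g := fun i => G (φ i)) (mu * (2 * Real.pi * Complex.I))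
          (fun i => h i * perMat (G (φ i)) (γ i))) P = (0 : ℂ)) ∧
    ∀ (γ : ∀ l, Fin (2 * G (φ l)) → CPath (crv (G (φ l)) (f (φ l)) (ρ l / n))),
      IsBasis (g := fun l => G (φ l)) γ → ∀ H : Subgroup (Aut (fun l => G (φ l))),
      IsTorsor (g := fun l => G (φ l)) L γ H →
      ∀ x : Aut (fun l => G (φ l)), (∀ l, Simil (x.1 : ℂ)
        (x.2 l : Matrix (Ix (G (φ l))) (Ix (G (φ l))) ℂ)) → x ∈ H := by
  obtain ⟨D₀, hD₀⟩ := hUB r (fun l => G (φ l)) (fun _ => 1) (fun l => hG (φ l))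
  obtain ⟨δ, hδ, n₀, hn⟩ := hF nF G f hG h0 hc hp r φ (max D D₀)
  choose ε hε hsep using fun a => sep_near hV (G a) (hG a) (f a) (h0 a) (hc a)
  obtain ⟨ε₀, hε₀, hε₀'⟩ : ∃ ε₀ : ℝ, 0 < ε₀ ∧ ∀ a, ε₀ ≤ ε a := by
    by_cases hnF : nF = 0
    · subst hnF
      exact ⟨1, one_pos, fun a => a.elim0⟩
    · have : Nonempty (Fin nF) := ⟨⟨0, Nat.pos_of_ne_zero hnF⟩⟩
      obtain ⟨a, ha⟩ := Finite.exists_min ε
      exact ⟨ε a, hε a, ha⟩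
  obtain ⟨n₁, hn₁⟩ : ∃ n₁ : ℕ, ∀ n : ℕ, n₁ ≤ n → 0 < n ∧
      (n : ℝ) ^ (min δ (1 / 2)) / n < ε₀ := by
    have h1 : Filter.Tendsto (fun x : ℝ => x ^ (-(1 / 2 : ℝ))) Filter.atTop (nhds 0) :=
      tendsto_rpow_neg_atTop (by norm_num)
    have h2 := (h1.comp tendsto_natCast_atTop_atTop).eventually (gt_mem_nhds hε₀)
    obtain ⟨n₁, hn₁⟩ := Filter.eventually_atTop.1 (h2.and (Filter.eventually_ge_atTop 1))
    refine ⟨n₁, fun n hn => ?_⟩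
    obtain ⟨h3, h4⟩ := hn₁ n hn
    have hn0 : (0 : ℝ) < n := by exact_mod_cast h4
    have hn1 : (1 : ℝ) ≤ n := by exact_mod_cast h4
    refine ⟨h4, lt_of_le_of_lt ?_ h3⟩
    rw [div_le_iff₀ hn0]
    change (n : ℝ) ^ (min δ (1 / 2)) ≤ (n : ℝ) ^ (-(1 / 2 : ℝ)) * n
    have h5 : (n : ℝ) ^ (-(1 / 2 : ℝ)) * n = (n : ℝ) ^ (1 / 2 : ℝ) := by
      nth_rewrite 2 [← Real.rpow_one (n : ℝ)]
      rw [← Real.rpow_add hn0]
      norm_num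
    rw [h5]
    exact Real.rpow_le_rpow_of_exponent_le hn1 (min_le_right _ _)
  refine ⟨min δ (1 / 2), lt_min hδ (by norm_num), max n₀ n₁, fun n hn' => ?_⟩
  obtain ⟨S, hS, hρ⟩ := hn n ((le_max_left _ _).trans hn')
  obtain ⟨hn0, hnε⟩ := hn₁ n ((le_max_right _ _).trans hn')
  have hnr : (0 : ℝ) < n := by exact_mod_cast hn0
  have hn1 : (1 : ℝ) ≤ n := by exact_mod_cast hn0
  refine ⟨S, hS, fun ρ h1 h2 L hLf hLD => ?_⟩
  have h2' : ∀ i, 0 < ρ i ∧ ρ i ∉ S ∧ ((ρ i).num : ℝ) ≤ (n : ℝ) ^ δ ∧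
      ((ρ i).den : ℝ) ≤ (n : ℝ) ^ δ := fun i =>
    ⟨(h2 i).1, (h2 i).2.1, (h2 i).2.2.1.trans
      (Real.rpow_le_rpow_of_exponent_le hn1 (min_le_left _ _)), (h2 i).2.2.2.trans
      (Real.rpow_le_rpow_of_exponent_le hn1 (min_le_left _ _))⟩
  have hLalg : ∀ a ∈ L, IsAlgebraic ℚ a := by
    intro a ha
    have h1 : IsAlgebraic ℚ (⟨a, ha⟩ : L) := Algebra.IsAlgebraic.isAlgebraic _
    exact h1.algebraMap (A := ℂ)
  have hrel := fun γ => sq_rel (g := fun l => G (φ l)) (fun l => hG (φ l)) D D₀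
    (fun m' γ L hLf hLD P hPD hP mu h hmu hh =>
      hρ ρ h1 h2' m' γ L hLf (hLD.trans (le_max_left _ _)) P (hPD.trans (le_max_right _ _)) hP mu
        h hmu hh) L hLf hLD γ
  have hleg : ∀ l, ∃ M : Matrix (Ix (G (φ l))) (Ix (G (φ l))) ℂ,
      Simil (2 * Real.pi * Complex.I) M ∧
      ∀ γ : CPath (crv (G (φ l)) (f (φ l)) (ρ l / n)), ∃ K : Ix (G (φ l)) → ℤ, ∀ k,
        γ.per (num (G (φ l)) (crv (G (φ l)) (f (φ l)) (ρ l / n)) k) = ∑ j, M k j * K j := by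
    intro l
    refine legendre hX (G (φ l)) (hG (φ l)) (f (φ l)) (ρ l / n) ?_
    refine hsep (φ l) (ρ l / n) ?_
    refine lt_of_lt_of_le ?_ (hε₀' (φ l))
    have h5 : (0 : ℝ) < (ρ l : ℝ) := by exact_mod_cast (h2 l).1
    push_cast
    rw [abs_of_pos (div_pos h5 hnr)]
    refine lt_of_le_of_lt ?_ hnε
    refine div_le_div_of_nonneg_right ?_ hnr.le
    refine le_trans ?_ (h2 l).2.2.1
    have h6 : (ρ l) ≤ ((ρ l).num : ℚ) := by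
      have h7 : (0 : ℚ) ≤ ((ρ l).num : ℚ) := by
        exact_mod_cast (Rat.num_pos.2 (h2 l).1).le
      have h8 : (1 : ℚ) ≤ ((ρ l).den : ℚ) := by exact_mod_cast (ρ l).pos
      calc ρ l = ((ρ l).num : ℚ) / ((ρ l).den : ℚ) := (Rat.num_div_den (ρ l)).symm
        _ ≤ ((ρ l).num : ℚ) := div_le_self h7 h8
    exact_mod_cast h6
  exact ⟨fun m γ P hPD hP mu h hmu hh => hρ ρ h1 h2' m γ L hLf (hLD.trans (le_max_left _ _)) P
      (hPD.trans (le_max_left _ _)) hP mu h hmu hh,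
    fun γ hγ H hH x hx => key3 (fun l => G (φ l)) _ D₀ hD₀ hleg L hLalg hrel γ hγ H hH x hx⟩

end

end Pool.Agent.DG2
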