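import Pool.Agent.DG2.CStmts
import Pool.Agent.DGP.IndR

set_option autoImplicit false

/-!
# DG2, module INDX, numbers
-/

open scoped BigOperators Topology
open Metric Set

namespace Pool.Agent.DG2

open Pool.Agent.GPH (f0 Cop Dop P2 pol CPath num perMat tpt fus Nm)
open Pool.Agent.HGP (Ix Simil Idx fvec mvec Aof opt)
open Pool.Agent.DGP (GSys IsZ hd val Conv tens)

namespace INDX_

/-! ### Numbers -/

theorem numbers (K n : ℕ) (δ : ℝ) (ρ : Fin K → ℚ) (hρ : ∀ k, 0 < ρ k ∧ Ht n δ (ρ k))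
    (hn : 1 ≤ n) : ∃ (ed : ℕ) (d : Fin K → ℕ), 1 ≤ ed ∧ (∀ k, (d k : ℚ) = ρ k * ed) ∧
      (∀ k, 1 ≤ d k) ∧ ∀ k, (d k : ℝ) ≤ (n : ℝ) ^ ((K : ℝ) * δ) := by
  have hnpos : (0 : ℝ) < n := by exact_mod_cast hn
  have hedpos : 0 < ∏ l, (ρ l).den := Finset.prod_pos (fun l _ => (ρ l).den_pos)
  have hnum : ∀ k, (((ρ k).num.toNat : ℕ) : ℚ) = (ρ k).num := by
    intro k
    have h3 : 0 < (ρ k).num := Rat.num_pos.mpr (hρ k).1
    have h4 : (((ρ k).num.toNat : ℕ) : ℤ) = (ρ k).num := Int.toNat_of_nonneg h3.le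
    exact_mod_cast h4
  have hcr : ∀ k, (((ρ k).num.toNat * ∏ l ∈ Finset.univ.erase k, (ρ l).den : ℕ) : ℚ)
      = ρ k * ((∏ l, (ρ l).den : ℕ) : ℚ) := by
    intro k
    have h3 : ((∏ l, (ρ l).den : ℕ) : ℚ) = ((ρ k).den : ℚ) *
        ∏ l ∈ Finset.univ.erase k, ((ρ l).den : ℚ) := by
      push_cast
      rw [Finset.mul_prod_erase Finset.univ (fun l => ((ρ l).den : ℚ)) (Finset.mem_univ k)]
    rw [h3]
    push_cast
    rw [hnum, ← mul_assoc, Rat.mul_den_eq_num]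
  refine ⟨∏ l, (ρ l).den, fun k => (ρ k).num.toNat * ∏ l ∈ Finset.univ.erase k, (ρ l).den,
    hedpos, hcr, ?_, ?_⟩
  · intro k
    have h3 : (0 : ℚ) < (((ρ k).num.toNat * ∏ l ∈ Finset.univ.erase k, (ρ l).den : ℕ) : ℚ) := by
      rw [hcr]
      have : (0 : ℚ) < ((∏ l, (ρ l).den : ℕ) : ℚ) := by exact_mod_cast hedpos
      exact mul_pos (hρ k).1 this
    exact_mod_cast h3
  · intro k
    have h4' : (((ρ k).num.toNat : ℕ) : ℝ) = ((ρ k).num : ℝ) := by exact_mod_cast hnum k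
    have h4 : ∏ l ∈ Finset.univ.erase k, ((ρ l).den : ℝ) ≤
        ∏ _l ∈ Finset.univ.erase k, (n : ℝ) ^ δ :=
      Finset.prod_le_prod (fun l _ => by positivity) (fun l _ => (hρ l).2.2)
    rw [Finset.prod_const, Finset.card_erase_of_mem (Finset.mem_univ k), Finset.card_univ,
      Fintype.card_fin] at h4
    have hK : 1 ≤ K := by
      have := k.2
      omega
    push_cast
    rw [h4']
    calc ((ρ k).num : ℝ) * ∏ l ∈ Finset.univ.erase k, ((ρ l).den : ℝ)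
        ≤ (n : ℝ) ^ δ * ((n : ℝ) ^ δ) ^ (K - 1) :=
          mul_le_mul (hρ k).2.1 h4 (Finset.prod_nonneg (fun l _ => by positivity)) (by positivity)
      _ = ((n : ℝ) ^ δ) ^ K := by
          rw [← pow_succ']
          congr 1
          omega
      _ = (n : ℝ) ^ ((K : ℝ) * δ) := by
          rw [← Real.rpow_natCast, ← Real.rpow_mul hnpos.le, mul_comm]

theorem small (n : ℕ) (ρ₁ δ : ℝ) (hρ₁ : 0 < ρ₁) (hδ : δ ≤ 1 / 2) (hn : ⌈1 / ρ₁ ^ 2⌉₊ + 2 ≤ n)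
    (ρ : ℚ) (hρ : 0 < ρ) (hH : Ht n δ ρ) : (0 : ℝ) < (ρ : ℝ) / n ∧ (ρ : ℝ) / n < ρ₁ := by
  have hn1 : (1 : ℝ) ≤ n := by
    have : 1 ≤ n := by omega
    exact_mod_cast this
  have hnpos : (0 : ℝ) < n := by linarith
  have hnρ : 1 / ρ₁ ^ 2 < n := by
    have h3 : (⌈1 / ρ₁ ^ 2⌉₊ : ℝ) + 2 ≤ n := by exact_mod_cast hn
    have h4 := Nat.le_ceil (1 / ρ₁ ^ 2)
    linarith
  have h6 : ((ρ : ℚ) : ℝ) ≤ ((ρ).num : ℝ) := by
    have h7 : ((ρ : ℚ) : ℝ) = ((ρ).num : ℝ) / ((ρ).den : ℝ) := by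
      exact_mod_cast congrArg (fun x : ℚ => (x : ℝ)) (Rat.num_div_den ρ).symm
    rw [h7]
    apply div_le_self
    · have : 0 < (ρ).num := Rat.num_pos.mpr hρ
      exact_mod_cast this.le
    · exact_mod_cast (ρ).den_pos
  have h8 : (n : ℝ) ^ δ ≤ (n : ℝ) ^ (1 / 2 : ℝ) := Real.rpow_le_rpow_of_exponent_le hn1 hδ
  have h9 : (n : ℝ) ^ (1 / 2 : ℝ) = √n := by rw [Real.sqrt_eq_rpow]
  have h10 : ((ρ : ℚ) : ℝ) ≤ √n := by linarith [hH.1]
  have hρ0 : (0 : ℝ) < (ρ : ℝ) := by exact_mod_cast hρ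
  refine ⟨div_pos hρ0 hnpos, ?_⟩
  rw [div_lt_iff₀ hnpos]
  have h11 : 1 < ρ₁ * √n := by
    have h12 : 1 < ρ₁ ^ 2 * n := by
      rw [div_lt_iff₀ (by positivity)] at hnρ
      linarith
    have h13 : (ρ₁ * √n) ^ 2 = ρ₁ ^ 2 * n := by
      rw [mul_pow, Real.sq_sqrt hnpos.le]
    by_contra h14
    push Not at h14
    have h15 : (ρ₁ * √n) ^ 2 ≤ 1 := by
      apply pow_le_one₀ (by positivity) h14
    linarith
  have h16 : √n * √n = n := Real.mul_self_sqrt hnpos.le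
  have h17 : 0 < √n := Real.sqrt_pos.mpr hnpos
  nlinarith

/-- The inequality between the height of the system and `n`. -/
theorem heights (K C e κ n n' b : ℕ) (δ : ℝ) (hn1 : 1 ≤ n) (hnC : (C + 1) ^ (2 * κ) ≤ n)
    (hbn : (b : ℝ) ≤ (n : ℝ) ^ ((K : ℝ) * δ)) (hδκ : (K : ℝ) * δ * e * κ ≤ 1 / 2)
    (hn' : n ≤ n') : ((C : ℝ) * (b : ℝ) ^ e) ^ κ ≤ (n' : ℝ) := by
  have hn1' : (1 : ℝ) ≤ n := by exact_mod_cast hn1
  have hnpos : (0 : ℝ) < n := by linarith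
  have h3 : ((C : ℝ) * (b : ℝ) ^ e) ^ κ ≤ ((C : ℝ) + 1) ^ κ * (((b : ℝ) ^ e) ^ κ) := by
    rw [← mul_pow]
    apply pow_le_pow_left₀ (by positivity)
    have : (0 : ℝ) ≤ (b : ℝ) ^ e := by positivity
    nlinarith
  have h4 : ((b : ℝ) ^ e) ^ κ ≤ (n : ℝ) ^ (1 / 2 : ℝ) := by
    calc ((b : ℝ) ^ e) ^ κ ≤ (((n : ℝ) ^ ((K : ℝ) * δ)) ^ e) ^ κ := by
          apply pow_le_pow_left₀ (by positivity)
          apply pow_le_pow_left₀ (by positivity) hbn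
      _ = (n : ℝ) ^ ((K : ℝ) * δ * e * κ) := by
          rw [← Real.rpow_natCast, ← Real.rpow_natCast, ← Real.rpow_mul (by positivity),
            ← Real.rpow_mul (by positivity)]
          congr 1
          ring
      _ ≤ (n : ℝ) ^ (1 / 2 : ℝ) := Real.rpow_le_rpow_of_exponent_le hn1' hδκ
  have h5 : ((C : ℝ) + 1) ^ κ ≤ (n : ℝ) ^ (1 / 2 : ℝ) := by
    have h6 : (((C : ℝ) + 1) ^ κ) ^ 2 ≤ n := by
      rw [← pow_mul, mul_comm κ 2]
      exact_mod_cast hnC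
    rw [← Real.sqrt_eq_rpow]
    exact Real.le_sqrt_of_sq_le h6
  have h6 : (n : ℝ) ^ (1 / 2 : ℝ) * (n : ℝ) ^ (1 / 2 : ℝ) = n := by
    rw [← Real.rpow_add hnpos]
    norm_num
  calc ((C : ℝ) * (b : ℝ) ^ e) ^ κ ≤ ((C : ℝ) + 1) ^ κ * (((b : ℝ) ^ e) ^ κ) := h3
    _ ≤ (n : ℝ) ^ (1 / 2 : ℝ) * (n : ℝ) ^ (1 / 2 : ℝ) :=
        mul_le_mul h5 h4 (by positivity) (by positivity)
    _ = n := h6
    _ ≤ n' := by exact_mod_cast hn'

theorem exists_le {K : ℕ} (a b : Fin K → ℝ) (ha : ∀ k, 0 < a k) (hb : ∀ k, 0 < b k) :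
    ∃ ρ : ℝ, 0 < ρ ∧ ∀ k, ρ ≤ a k ∧ ρ ≤ b k := by
  have hS : (0 : ℝ) ≤ ∑ k, (1 / a k + 1 / b k) :=
    Finset.sum_nonneg (fun k _ => by have := ha k; have := hb k; positivity)
  refine ⟨1 / (1 + ∑ k, (1 / a k + 1 / b k)), by positivity, fun k => ?_⟩
  have h1 : 1 / a k + 1 / b k ≤ ∑ k, (1 / a k + 1 / b k) :=
    Finset.single_le_sum (f := fun k => 1 / a k + 1 / b k)
      (fun k _ => by have := ha k; have := hb k; positivity) (Finset.mem_univ k)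
  have h2 : 0 < 1 / a k := by have := ha k; positivity
  have h3 : 0 < 1 / b k := by have := hb k; positivity
  constructor
  · rw [div_le_iff₀ (by positivity)]
    have h4 : a k * (1 / a k) = 1 := mul_one_div_cancel (ha k).ne'
    have h5 : a k * (1 + ∑ k, (1 / a k + 1 / b k)) ≥ a k * (1 / a k) :=
      mul_le_mul_of_nonneg_left (by linarith) (ha k).le
    linarith
  · rw [div_le_iff₀ (by positivity)]
    have h4 : b k * (1 / b k) = 1 := mul_one_div_cancel (hb k).ne'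
    have h5 : b k * (1 + ∑ k, (1 / a k + 1 / b k)) ≥ b k * (1 / b k) :=
      mul_le_mul_of_nonneg_left (by linarith) (hb k).le
    linarith

end INDX_

end Pool.Agent.DG2
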